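import Pool.Agent.Lib.MP_743d1e_nt.RT.Spec

/-!
# Basic lemmas: the evaluations are ring homomorphisms
-/

set_option autoImplicit false

namespace MP743d1e.RT

open scoped BigOperators
open Polynomial IntermediateField MP743d1e.CY MP743d1e.Integ
open Pool.Agent.Lib.MPcb8a44

namespace BAS

section P

variable {R : Type} [Field R]

/-- The monomials. -/
def gP (x y : Rˣ) : Multiplicative (ℤ × ℤ) →* R where
  toFun k := ((x ^ k.toAdd.1 * y ^ k.toAdd.2 : Rˣ) : R)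
  map_one' := by simp
  map_mul' k l := by
    rw [← Units.val_mul]
    congr 1
    rw [toAdd_mul, Prod.fst_add, Prod.snd_add, zpow_add, zpow_add]
    exact mul_mul_mul_comm _ _ _ _

/-- The evaluation as a homomorphism. -/
noncomputable def hP (x y : Rˣ) : AddMonoidAlgebra ℤ (ℤ × ℤ) →ₐ[ℤ] R :=
  AddMonoidAlgebra.lift ℤ R (ℤ × ℤ) (gP x y)

theorem evP_eq (x y : Rˣ) (A : AddMonoidAlgebra ℤ (ℤ × ℤ)) : evP (x : R) (y : R) A = hP x y A := by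
  unfold evP hP
  rw [AddMonoidAlgebra.lift_apply]
  refine Finsupp.sum_congr fun k _ => ?_
  rw [zsmul_eq_mul]
  congr 1
  show _ = ((x ^ k.1 * y ^ k.2 : Rˣ) : R)
  rw [Units.val_mul, Units.val_zpow_eq_zpow_val, Units.val_zpow_eq_zpow_val]

theorem hP_single (x y : Rˣ) (k : ℤ × ℤ) (z : ℤ) :
    hP x y (AddMonoidAlgebra.single k z) = (z : R) * ((x ^ k.1 * y ^ k.2 : Rˣ) : R) := by
  unfold hP
  rw [AddMonoidAlgebra.lift_single, zsmul_eq_mul]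
  rfl

theorem evP_eq' {x y : R} (hx : x ≠ 0) (hy : y ≠ 0) (A : AddMonoidAlgebra ℤ (ℤ × ℤ)) :
    evP x y A = hP (Units.mk0 x hx) (Units.mk0 y hy) A := evP_eq (Units.mk0 x hx) (Units.mk0 y hy) A

theorem evP_mul {x y : R} (hx : x ≠ 0) (hy : y ≠ 0) (A B : AddMonoidAlgebra ℤ (ℤ × ℤ)) :
    evP x y (A * B) = evP x y A * evP x y B := by
  rw [evP_eq' hx hy, evP_eq' hx hy, evP_eq' hx hy, map_mul]

theorem evP_add {x y : R} (hx : x ≠ 0) (hy : y ≠ 0) (A B : AddMonoidAlgebra ℤ (ℤ × ℤ)) :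
    evP x y (A + B) = evP x y A + evP x y B := by
  rw [evP_eq' hx hy, evP_eq' hx hy, evP_eq' hx hy, map_add]

theorem evP_single (x y : R) (k : ℤ × ℤ) (z : ℤ) :
    evP x y (AddMonoidAlgebra.single k z) = (z : R) * (x ^ k.1 * y ^ k.2) := by
  unfold evP
  rw [AddMonoidAlgebra.coeff_single, Finsupp.sum_single_index]
  rw [Int.cast_zero, zero_mul]

theorem map_evP {S : Type} [Field S] (φ : R →+* S) (x y : R) (A : AddMonoidAlgebra ℤ (ℤ × ℤ)) :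
    φ (evP x y A) = evP (φ x) (φ y) A := by
  unfold evP
  rw [Finsupp.sum, Finsupp.sum, map_sum]
  refine Finset.sum_congr rfl fun k _ => ?_
  rw [map_mul, map_mul, map_intCast, map_zpow₀, map_zpow₀]

/-- `P(1 / x, 1 / y)`. -/
noncomputable def inv (A : AddMonoidAlgebra ℤ (ℤ × ℤ)) : AddMonoidAlgebra ℤ (ℤ × ℤ) :=
  AddMonoidAlgebra.mapDomainRingHom ℤ (-(AddMonoidHom.id (ℤ × ℤ))) A

theorem evP_inv {x y : R} (hx : x ≠ 0) (hy : y ≠ 0) (A : AddMonoidAlgebra ℤ (ℤ × ℤ)) :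
    evP x y (inv A) = evP x⁻¹ y⁻¹ A := by
  have key : ((hP (Units.mk0 x hx) (Units.mk0 y hy) : AddMonoidAlgebra ℤ (ℤ × ℤ) →ₐ[ℤ] R) :
      AddMonoidAlgebra ℤ (ℤ × ℤ) →+* R).comp
      (AddMonoidAlgebra.mapDomainRingHom ℤ (-(AddMonoidHom.id (ℤ × ℤ)))) =
      ((hP (Units.mk0 x hx)⁻¹ (Units.mk0 y hy)⁻¹ : AddMonoidAlgebra ℤ (ℤ × ℤ) →ₐ[ℤ] R) :
      AddMonoidAlgebra ℤ (ℤ × ℤ) →+* R) := by
    refine AddMonoidAlgebra.ringHom_ext ?_ ?_
    · intro z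
      simp [hP_single]
    · intro k
      simp [hP_single]
  have h1 := congrArg (fun f => f A) key
  rw [evP_eq' hx hy]
  have h2 := evP_eq (Units.mk0 x hx)⁻¹ (Units.mk0 y hy)⁻¹ A
  rw [Units.val_inv_eq_inv_val, Units.val_inv_eq_inv_val] at h2
  exact h1.trans h2.symm

end P

section One

/-- The evaluation in one variable as a homomorphism. -/
noncomputable def h1 (s : ℂˣ) : AddMonoidAlgebra ℂ ℤ →ₐ[ℂ] ℂ :=
  AddMonoidAlgebra.lift ℂ ℂ ℤ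
    { toFun := fun i => ((s ^ i.toAdd : ℂˣ) : ℂ)
      map_one' := by simp
      map_mul' := fun k l => by rw [← Units.val_mul, toAdd_mul, zpow_add] }

theorem ev1_eq (s : ℂˣ) (A : AddMonoidAlgebra ℂ ℤ) : ev1 A s = h1 s A := by
  unfold ev1 h1
  rw [AddMonoidAlgebra.lift_apply]
  refine Finsupp.sum_congr fun k _ => ?_
  rw [smul_eq_mul]
  congr 1
  show _ = ((s ^ k : ℂˣ) : ℂ)
  rw [Units.val_zpow_eq_zpow_val]

theorem ev1_eq' {s : ℂ} (hs : s ≠ 0) (A : AddMonoidAlgebra ℂ ℤ) :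
    ev1 A s = h1 (Units.mk0 s hs) A := ev1_eq (Units.mk0 s hs) A

theorem ev1_mul {s : ℂ} (hs : s ≠ 0) (A B : AddMonoidAlgebra ℂ ℤ) :
    ev1 (A * B) s = ev1 A s * ev1 B s := by
  rw [ev1_eq' hs, ev1_eq' hs, ev1_eq' hs, map_mul]

theorem ev1_add {s : ℂ} (hs : s ≠ 0) (A B : AddMonoidAlgebra ℂ ℤ) :
    ev1 (A + B) s = ev1 A s + ev1 B s := by
  rw [ev1_eq' hs, ev1_eq' hs, ev1_eq' hs, map_add]

theorem ev1_single (s : ℂ) (i : ℤ) (c : ℂ) :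
    ev1 (AddMonoidAlgebra.single i c) s = c * s ^ i := by
  unfold ev1
  rw [AddMonoidAlgebra.coeff_single, Finsupp.sum_single_index]
  rw [zero_mul]

theorem ev1_sum {ι : Type} (t : Finset ι) (A : ι → AddMonoidAlgebra ℂ ℤ) {s : ℂ} (hs : s ≠ 0) :
    ev1 (∑ i ∈ t, A i) s = ∑ i ∈ t, ev1 (A i) s := by
  simp only [ev1_eq' hs, map_sum]

theorem sh_single {G : Type} [AddCommGroup G] (k : G) (c : ℂ) :
    sh G (AddMonoidAlgebra.single k c) = AddMonoidAlgebra.single (-k) ((starRingEnd ℂ) c) := by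
  simp [sh]

theorem sh_coeff {G : Type} [AddCommGroup G] (A : AddMonoidAlgebra ℂ G) (k : G) :
    (sh G A).coeff k = (starRingEnd ℂ) (A.coeff (-k)) := by
  induction A using AddMonoidAlgebra.induction_linear with
  | zero => simp
  | add A B hA hB =>
    rw [map_add, AddMonoidAlgebra.coeff_add, Finsupp.add_apply, hA, hB,
      AddMonoidAlgebra.coeff_add, Finsupp.add_apply, map_add]
  | single l c =>
    classical
    rw [sh_single, AddMonoidAlgebra.coeff_single, AddMonoidAlgebra.coeff_single,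
      Finsupp.single_apply, Finsupp.single_apply]
    by_cases h : -l = k
    · rw [if_pos h, if_pos (by rw [← h, neg_neg])]
    · rw [if_neg h, if_neg (fun h' => h (by rw [h', neg_neg])), map_zero]

theorem sh_sh {G : Type} [AddCommGroup G] (A : AddMonoidAlgebra ℂ G) : sh G (sh G A) = A := by
  ext k
  rw [sh_coeff, sh_coeff, neg_neg, Complex.conj_conj]

end One

section Sp

theorem ip_add (b k l : ℤ × ℤ) : ip b (k + l) = ip b k + ip b l := by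
  unfold ip; simp; ring

theorem ip_sub (b k l : ℤ × ℤ) : ip b (k - l) = ip b k - ip b l := by
  unfold ip; simp; ring

theorem ip_neg (b k : ℤ × ℤ) : ip b (-k) = -ip b k := by
  unfold ip; simp; ring

theorem ip_smul (b k : ℤ × ℤ) (n : ℤ) : ip b (n • k) = n * ip b k := by
  unfold ip; simp; ring

theorem sp_eq (ζ : ℂ) (c b : ℤ × ℤ) (P : AddMonoidAlgebra ℤ (ℤ × ℤ)) :
    sp ζ c b P = ∑ k ∈ P.coeff.support,
      AddMonoidAlgebra.single (ip b k) ((P.coeff k : ℂ) * ζ ^ ip c k) := rfl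

theorem sp_coeff (ζ : ℂ) (c b : ℤ × ℤ) (P : AddMonoidAlgebra ℤ (ℤ × ℤ)) (e : ℤ) :
    (sp ζ c b P).coeff e =
      ∑ k ∈ P.coeff.support with ip b k = e, (P.coeff k : ℂ) * ζ ^ ip c k := by
  classical
  rw [sp_eq, AddMonoidAlgebra.coeff_sum, Finsupp.finsetSum_apply, Finset.sum_filter]
  refine Finset.sum_congr rfl fun k _ => ?_
  rw [AddMonoidAlgebra.coeff_single, Finsupp.single_apply]

theorem sp_supp (ζ : ℂ) (c b : ℤ × ℤ) (P : AddMonoidAlgebra ℤ (ℤ × ℤ)) :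
    ∀ i ∈ (sp ζ c b P).coeff.support, ∃ k ∈ P.coeff.support, i = ip b k := by
  intro i hi
  rw [Finsupp.mem_support_iff, sp_coeff] at hi
  obtain ⟨k, hk, -⟩ := Finset.exists_ne_zero_of_sum_ne_zero hi
  rw [Finset.mem_filter] at hk
  exact ⟨k, hk.1, hk.2.symm⟩

theorem mono {ζ s : ℂ} (hζ : ζ ≠ 0) (hs : s ≠ 0) (c b k : ℤ × ℤ) :
    (ζ ^ c.1 * s ^ b.1) ^ k.1 * (ζ ^ c.2 * s ^ b.2) ^ k.2 = ζ ^ ip c k * s ^ ip b k := by
  rw [mul_zpow, mul_zpow, ← zpow_mul, ← zpow_mul, ← zpow_mul, ← zpow_mul]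
  unfold ip
  rw [zpow_add₀ hζ, zpow_add₀ hs]
  ring

theorem ev1_sp {ζ s : ℂ} (hζ : ζ ≠ 0) (hs : s ≠ 0) (c b : ℤ × ℤ)
    (P : AddMonoidAlgebra ℤ (ℤ × ℤ)) :
    ev1 (sp ζ c b P) s = evP (ζ ^ c.1 * s ^ b.1) (ζ ^ c.2 * s ^ b.2) P := by
  rw [sp_eq, ev1_sum _ _ hs]
  refine Finset.sum_congr rfl fun k _ => ?_
  show _ = (P.coeff k : ℂ) * ((ζ ^ c.1 * s ^ b.1) ^ k.1 * (ζ ^ c.2 * s ^ b.2) ^ k.2)
  rw [ev1_single, mono hζ hs, mul_assoc]

theorem ev1_sh_sp {ζ s : ℂ} (hζ : ‖ζ‖ = 1) (hs : s ≠ 0) (c b : ℤ × ℤ)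
    (P : AddMonoidAlgebra ℤ (ℤ × ℤ)) :
    ev1 (sh ℤ (sp ζ c b P)) s =
      evP (ζ ^ c.1 * s ^ b.1)⁻¹ (ζ ^ c.2 * s ^ b.2)⁻¹ P := by
  have hζ0 : ζ ≠ 0 := by
    intro h
    rw [h, norm_zero] at hζ
    exact zero_ne_one hζ
  have hconj : (starRingEnd ℂ) ζ = ζ⁻¹ := by
    rw [Complex.inv_def, Complex.normSq_eq_norm_sq, hζ]
    simp
  rw [sp_eq, map_sum, ev1_sum _ _ hs]
  refine Finset.sum_congr rfl fun k _ => ?_
  show _ = (P.coeff k : ℂ) * ((ζ ^ c.1 * s ^ b.1)⁻¹ ^ k.1 * (ζ ^ c.2 * s ^ b.2)⁻¹ ^ k.2)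
  rw [inv_zpow, inv_zpow, ← mul_inv, mono hζ0 hs, sh_single, ev1_single, map_mul, map_intCast,
    map_zpow₀, hconj, inv_zpow, zpow_neg, mul_inv, mul_assoc]

end Sp

end BAS

end MP743d1e.RT
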