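import Pool.Agent.Lib.MP_743d1e_nt.RT.Spec
import Pool.Agent.Lib.MP_743d1e_nt.CY.SpecK

/-!
# Theorem B without purity: modules

`x = c₁ x' ^ α y' ^ β`, `y = c₂ x' ^ γ y' ^ δ` with `x'`, `y'` pure; text in the team store:
`MP_743d1e_nt_thmBplus_h47.md`. Module `XXX` = `RT/XXX.lean`, theorem `MP743d1e.RT.specXXX : SpecXXX`,
auxiliary lemmas in the namespace `MP743d1e.RT.XXXM`.
-/

set_option autoImplicit false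

namespace MP743d1e.RT

open scoped BigOperators
open Polynomial IntermediateField MP743d1e.CY MP743d1e.Integ
open Pool.Agent.Lib.MPcb8a44

/-! ## Reduction to a pure pair -/

/-- `x` and `y` are expressed by `x'` and `y'`. -/
structure Rel (K : Type) [Field K] [Algebra ℚ K] (x y x' y' : Kˣ) (c₁ c₂ : ℚ) (α β γ δ : ℤ) :
    Prop where
  c₁0 : c₁ ≠ 0
  c₂0 : c₂ ≠ 0
  det : α * δ - β * γ ≠ 0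
  hx : (x : K) = algebraMap ℚ K c₁ * ((x' ^ α * y' ^ β : Kˣ) : K)
  hy : (y : K) = algebraMap ℚ K c₂ * ((x' ^ γ * y' ^ δ : Kˣ) : K)

/-- SAT (from FNV). The saturation.

Proof. There are points `w₁`, `w₂` with `(w_i(x), w_i(y))` linearly independent (as in `AS2M.const_tor`); the
determinant `α δ - β γ` divides the determinant of these; take a representation with the largest
absolute value (`x' = x`, `y' = y` is one). If `x' ^ a y' ^ b = c u ^ m`, `p a + q b = 1`, then with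
`t = x' ^ (-q) y' ^ p`: `x' = c ^ p u ^ (m p) t ^ (-b)`, `y' = c ^ q u ^ (m q) t ^ a`, determinant `m`. -/
def SpecSAT : Prop := ∀ (K : Type) [Field K] [Algebra ℚ K] (x y : Kˣ), Ind K x y →
  ∃ (x' y' : Kˣ) (c₁ c₂ : ℚ) (α β γ δ : ℤ), Pre K x' y' ∧ Rel K x y x' y' c₁ c₂ α β γ δ

/-- DEP (from MIL and `K_2 ℚ` torsion). If `x`, `y` are dependent `K` is rational and all elements with torsion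
tame symbols are torsion.

Proof. `x ^ a y ^ b = c` with coprime `a`, `b`, `p a + q b = 1`, `t = x ^ (-q) y ^ p`: `x = c ^ p t ^ (-b)`,
`y = c ^ q t ^ a`, so `K = ℚ(t)`. -/
def SpecDEP : Prop := ∀ (K : Type) [Field K] [Algebra ℚ K] (x y : Kˣ) (a b : ℤ) (c : ℚ),
  IntermediateField.adjoin ℚ {(x : K), (y : K)} = ⊤ → (∃ t : K, Transcendental ℚ t) →
  IsCoprime a b → ((x ^ a * y ^ b : Kˣ) : K) = algebraMap ℚ K c →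
  ∀ β : K2 K, TorTameF ℚ β → ∃ N : ℕ, 0 < N ∧ N • β = 0

/-! ## One variable -/

/-- LJG (from PRG, AMG). The trick of Ljunggren for a set `J` of roots.

Proof. As LJU: a polynomial over `Cyc n` is `g h`, all roots of `g` in `J` and no root of `h` in `J` (induction on
the irreducible factors: the roots of an irreducible polynomial have the same minimal polynomial);
`G = g h^♯`. -/
def SpecLJG : Prop := ∀ (n : ℕ) (f : AddMonoidAlgebra ℂ ℤ) (J : Set ℂ), 0 < n →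
  (∀ i, f.coeff i ∈ AB.Cyc n ∧ IsIntegral ℤ (f.coeff i)) → f ≠ 0 →
  (∀ s ∈ J, ∀ t : ℂ, IsIntegral (AB.Cyc n) s → minpoly (AB.Cyc n) s = minpoly (AB.Cyc n) t → t ∈ J) →
  ∃ G : AddMonoidAlgebra ℂ ℤ, G * sh ℤ G = f * sh ℤ f ∧
    (∀ i, G.coeff i ∈ AB.Cyc n ∧ (G.coeff i ≠ 0 → 1 ≤ AB.M (G.coeff i))) ∧
    ∀ s : ℂ, s ≠ 0 → (ev1 G s = 0 ↔ (ev1 f s = 0 ∧ s ∈ J) ∨
      (ev1 f ((starRingEnd ℂ) s)⁻¹ = 0 ∧ ((starRingEnd ℂ) s)⁻¹ ∉ J))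

/-! ## Two variables -/

/-- The value of a complex Laurent polynomial. -/
noncomputable def evC (x y : ℂ) (A : AddMonoidAlgebra ℂ (ℤ × ℤ)) : ℂ :=
  A.coeff.sum fun k c => c * (x ^ k.1 * y ^ k.2)

/-- `z ^ k ↦ τ ^ k z ^ (B k)`. -/
noncomputable def tw (τ₁ τ₂ : ℂ) (B : ℤ × ℤ →+ ℤ × ℤ) (P : AddMonoidAlgebra ℤ (ℤ × ℤ)) :
    AddMonoidAlgebra ℂ (ℤ × ℤ) :=
  P.coeff.sum fun k z => AddMonoidAlgebra.single (B k) ((z : ℂ) * (τ₁ ^ k.1 * τ₂ ^ k.2))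

/-- The transposed matrix: `x ^ e.1 y ^ e.2` is a constant times `x' ^ (mt e).1 y' ^ (mt e).2`. -/
def mt (α β γ δ : ℤ) : ℤ × ℤ →+ ℤ × ℤ where
  toFun e := (α * e.1 + γ * e.2, β * e.1 + δ * e.2)
  map_zero' := by simp
  map_add' e f := by
    ext
    · simp; ring
    · simp; ring

/-- KUP (from KUM). The equation of a pure pair remains prime under all isogenies.

Proof. `C (B k) = d k`, `d > 0`; `z ^ e ↦ z ^ (C e)` is injective and maps `tw τ B P` to a translate of `P(z ^ d)`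
(`z ^ e ↦ ρ ^ e z ^ e`, `ρ ^ d = τ`). Descent: if `ι a = ι R * q`, take the part of `q` with exponents in the
image of `C`. -/
def SpecKUP : Prop := ∀ (K : Type) [Field K] [Algebra ℚ K] (x y : Kˣ), Pre K x y →
  ∀ P : AddMonoidAlgebra ℤ (ℤ × ℤ), P ≠ 0 → evP (x : K) (y : K) P = 0 →
    (∀ A : AddMonoidAlgebra ℤ (ℤ × ℤ), evP (x : K) (y : K) A = 0 →
      ∃ m : ℤ, m ≠ 0 ∧ P ∣ (m : AddMonoidAlgebra ℤ (ℤ × ℤ)) * A) →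
    ∀ (B : ℤ × ℤ →+ ℤ × ℤ) (τ₁ τ₂ : ℂ), Function.Injective B → τ₁ ≠ 0 → τ₂ ≠ 0 →
      Prime (tw τ₁ τ₂ B P)

/-- SUB. The substitution `x = c₁ x' ^ α y' ^ β`, `y = c₂ x' ^ γ y' ^ δ`, denominators cleared. -/
def SpecSUB : Prop := ∀ (c₁ c₂ : ℚ) (α β γ δ : ℤ), c₁ ≠ 0 → c₂ ≠ 0 → α * δ - β * γ ≠ 0 →
  ∀ A : AddMonoidAlgebra ℤ (ℤ × ℤ),
  ∃ (m : ℤ) (A' : AddMonoidAlgebra ℤ (ℤ × ℤ)), m ≠ 0 ∧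
    (∀ (R : Type) [Field R] [CharZero R] (ξ η : R), ξ ≠ 0 → η ≠ 0 →
      evP ξ η A' = (m : R) * evP ((c₁ : R) * (ξ ^ α * η ^ β)) ((c₂ : R) * (ξ ^ γ * η ^ δ)) A) ∧
    ∀ (B : ℤ × ℤ →+ ℤ × ℤ) (N : ℕ) (τ₁ τ₂ : ℂ), τ₁ ≠ 0 → τ₂ ≠ 0 →
      (∀ e, B (mt α β γ δ e) = (N : ℤ) • e) → (c₁ : ℂ) * (τ₁ ^ α * τ₂ ^ β) = 1 →
      (c₂ : ℂ) * (τ₁ ^ γ * τ₂ ^ δ) = 1 →
      tw τ₁ τ₂ B A' = AddMonoidAlgebra.single 0 (m : ℂ) * PN N A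

/-- DVD (from SUB). The pulled back equation of `(x', y')` divides `P(z ^ N)`.

Proof. `A'` of SUB for `A = P` vanishes at `(x', y')`, so `P' ∣ m' A'`; apply the ring homomorphism `tw`. -/
def SpecDVD : Prop := ∀ (K : Type) [Field K] [Algebra ℚ K] (x y x' y' : Kˣ) (c₁ c₂ : ℚ)
  (α β γ δ : ℤ), Rel K x y x' y' c₁ c₂ α β γ δ →
  ∀ P P' : AddMonoidAlgebra ℤ (ℤ × ℤ), evP (x : K) (y : K) P = 0 →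
    (∀ A : AddMonoidAlgebra ℤ (ℤ × ℤ), evP (x' : K) (y' : K) A = 0 →
      ∃ m : ℤ, m ≠ 0 ∧ P' ∣ (m : AddMonoidAlgebra ℤ (ℤ × ℤ)) * A) →
    ∀ (B : ℤ × ℤ →+ ℤ × ℤ) (N : ℕ) (τ₁ τ₂ : ℂ), τ₁ ≠ 0 → τ₂ ≠ 0 →
      (∀ e, B (mt α β γ δ e) = (N : ℤ) • e) → (c₁ : ℂ) * (τ₁ ^ α * τ₂ ^ β) = 1 →
      (c₂ : ℂ) * (τ₁ ^ γ * τ₂ ^ δ) = 1 → tw τ₁ τ₂ B P' ∣ PN N P

/-- TW3 (as TWO). `R` is a prime divisor of `P(z ^ N)` that vanishes at both points of the coset.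

Proof. `𝒢 𝒢^♯ = Q Q^♯` as in TWO; `R ∣ 𝒢` or `R ∣ 𝒢^♯`, the second is impossible as `G^♯ (σ₁ ^ N) ≠ 0`. -/
def SpecTW3 : Prop := ∀ (P : AddMonoidAlgebra ℤ (ℤ × ℤ)) (R : AddMonoidAlgebra ℂ (ℤ × ℤ)) (n : ℕ)
  (ζ ω : ℂ) (c b : ℤ × ℤ) (G : AddMonoidAlgebra ℂ ℤ) (N : ℕ) (m₀ : ℤ) (q : ℤ → ℤ × ℤ)
  (σ₁ σ₂ : ℂ), 0 < n → ζ ^ n = 1 → 0 < N → ω ^ N = ζ →
  Prime R → R ∣ PN N P →
  G * sh ℤ G = sp ζ c b P * sh ℤ (sp ζ c b P) →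
  (∀ i ∈ G.coeff.support, (N : ℤ) * (i - m₀) = ip b (q i)) →
  (∀ i ∈ G.coeff.support, ∀ j ∈ G.coeff.support, ∀ k ∈ G.coeff.support,
    ∀ l ∈ G.coeff.support, i - j = k - l → q i - q j = q k - q l) →
  (∀ i ∈ G.coeff.support, ∀ j ∈ G.coeff.support, ∀ k ∈ P.coeff.support,
    ∀ k' ∈ P.coeff.support, i - j = ip b (k - k') → q i - q j = (N : ℤ) • (k - k')) →
  (∀ k ∈ P.coeff.support, ∀ k' ∈ P.coeff.support, ∀ l ∈ P.coeff.support,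
    ∀ l' ∈ P.coeff.support, ip b (k - k') = ip b (l - l') → k - k' = l - l') →
  σ₁ ≠ 0 → σ₂ ≠ 0 →
  evC (ω ^ c.1 * σ₁ ^ b.1) (ω ^ c.2 * σ₁ ^ b.2) R = 0 →
  evC (ω ^ c.1 * σ₂ ^ b.1) (ω ^ c.2 * σ₂ ^ b.2) R = 0 →
  ev1 (sh ℤ G) (σ₁ ^ N) ≠ 0 → ev1 G (σ₂ ^ N) = 0

/-- MAT. The choice of the roots. `z_i = (ω ^ c σ_i ^ b)`, `z_i ^ (B e) τ ^ e = (ξ_i, η_i) ^ e`.

Proof. `ω`, `σ₁` arbitrary roots, `τ₁ = ξ₁ z₁ ^ (- B (1, 0))`, `τ₂ = η₁ z₁ ^ (- B (0, 1))`. `(ξ₂ / ξ₁, η₂ / η₁) =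
(λ ^ (-a''₂), λ ^ a''₁)` (`CNJM.par`). `b'' = (-a''₂, a''₁)`: `M b'' = l b`, `l k = α δ - β γ`, so `λ ^ l = s₂ / s₁` (`b`
is primitive), `⟨b, B e⟩ = (N / l) ⟨b'', e⟩`, `ρ ^ (N / l) = λ`, `σ₂ = ρ σ₁`. -/
def SpecMAT : Prop := ∀ (c₁ c₂ : ℚ) (α β γ δ : ℤ) (a a'' c : ℤ × ℤ) (k : ℤ) (N : ℕ)
  (B : ℤ × ℤ →+ ℤ × ℤ) (ζ s₁ s₂ ξ₁ η₁ ξ₂ η₂ : ℂ), c₁ ≠ 0 → c₂ ≠ 0 → α * δ - β * γ ≠ 0 → 0 < N →
  (∀ e, B (mt α β γ δ e) = (N : ℤ) • e) →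
  IsCoprime a.1 a.2 → IsCoprime a''.1 a''.2 → ip c a = 1 → mt α β γ δ a = k • a'' →
  ζ ≠ 0 → s₁ ≠ 0 → s₂ ≠ 0 → ξ₁ ≠ 0 → η₁ ≠ 0 → ξ₂ ≠ 0 → η₂ ≠ 0 →
  (c₁ : ℂ) * (ξ₁ ^ α * η₁ ^ β) = ζ ^ c.1 * s₁ ^ (-a.2) →
  (c₂ : ℂ) * (ξ₁ ^ γ * η₁ ^ δ) = ζ ^ c.2 * s₁ ^ a.1 →
  (c₁ : ℂ) * (ξ₂ ^ α * η₂ ^ β) = ζ ^ c.1 * s₂ ^ (-a.2) →
  (c₂ : ℂ) * (ξ₂ ^ γ * η₂ ^ δ) = ζ ^ c.2 * s₂ ^ a.1 →
  ξ₁ ^ a''.1 * η₁ ^ a''.2 = ξ₂ ^ a''.1 * η₂ ^ a''.2 →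
  ∃ (ω σ₁ σ₂ τ₁ τ₂ : ℂ), ω ^ N = ζ ∧ σ₁ ^ N = s₁ ∧ σ₂ ^ N = s₂ ∧ τ₁ ≠ 0 ∧ τ₂ ≠ 0 ∧
    (c₁ : ℂ) * (τ₁ ^ α * τ₂ ^ β) = 1 ∧ (c₂ : ℂ) * (τ₁ ^ γ * τ₂ ^ δ) = 1 ∧
    (∀ P : AddMonoidAlgebra ℤ (ℤ × ℤ),
      evC (ω ^ c.1 * σ₁ ^ (-a.2)) (ω ^ c.2 * σ₁ ^ a.1) (tw τ₁ τ₂ B P) = evP ξ₁ η₁ P) ∧
    ∀ P : AddMonoidAlgebra ℤ (ℤ × ℤ),
      evC (ω ^ c.1 * σ₂ ^ (-a.2)) (ω ^ c.2 * σ₂ ^ a.1) (tw τ₁ τ₂ B P) = evP ξ₂ η₂ P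

/-- CN2. Conjugation: the second point can be chosen with the same value of `x' ^ a''₁ y' ^ a''₂`.

Proof. As CNJ (1). -/
def SpecCN2 : Prop := ∀ (p : ℚ[X]) (a : ℤ × ℤ) (ξ η ξ' η' : ℂ), Irreducible p →
  ξ ≠ 0 → η ≠ 0 → ξ' ≠ 0 → η' ≠ 0 → IsAlgebraic ℚ ξ → IsAlgebraic ℚ η → IsAlgebraic ℚ ξ' →
  IsAlgebraic ℚ η' → aeval (ξ ^ a.1 * η ^ a.2) p = 0 → aeval (ξ' ^ a.1 * η' ^ a.2) p = 0 →
  ∃ ξ₂ η₂ : ℂ, ξ₂ ≠ 0 ∧ η₂ ≠ 0 ∧ IsAlgebraic ℚ ξ₂ ∧ IsAlgebraic ℚ η₂ ∧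
    ξ ^ a.1 * η ^ a.2 = ξ₂ ^ a.1 * η₂ ^ a.2 ∧
    ∀ A : AddMonoidAlgebra ℤ (ℤ × ℤ), evP ξ' η' A = 0 ↔ evP ξ₂ η₂ A = 0

/-! ## The points and the assembly -/

/-- The point is invariant. -/
def Inv {K : Type} [Field K] [Algebra ℚ K] (σ : K ≃ₐ[ℚ] K) (v : DVal K) : Prop :=
  ∀ u w : Kˣ, (w : K) = σ u → v.ord w = v.ord u

/-- PUG (from all the modules above). -/
def SpecPUG : Prop := ∀ (K : Type) [Field K] [Algebra ℚ K] (x y x' y' : Kˣ) (c₁ c₂ : ℚ)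
  (α β γ δ : ℤ), Ind K x y → Pre K x' y' → Rel K x y x' y' c₁ c₂ α β γ δ →
  ∃ (S : Set (DVal K)) (T : Set (ℤ × ℤ)), S.Finite ∧ T.Finite ∧
    ∀ (a a'' : ℤ × ℤ) (k n : ℕ) (p : ℚ[X]) (v w : DVal K), IsCoprime a.1 a.2 → a ∉ T →
      IsCoprime a''.1 a''.2 → mt α β γ δ a = (k : ℤ) • a'' → 0 < n → Irreducible p →
      p ∣ (cyclotomic n ℚ).comp (C (c₁ ^ a.1 * c₂ ^ a.2) * X ^ k) →
      GeoF ℚ v → GeoF ℚ w → v ∉ S → w ∉ S →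
      Pos v (aeval ((x' ^ a''.1 * y' ^ a''.2 : Kˣ) : K) p) →
      Pos w (aeval ((x' ^ a''.1 * y' ^ a''.2 : Kˣ) : K) p) →
      v = w ∨ ∃ σ : K ≃ₐ[ℚ] K, σ x = (x : K)⁻¹ ∧ σ y = (y : K)⁻¹ ∧ Inv σ v ∧ Inv σ w

/-- The conclusion of Theorem B: `β` or, if there is an automorphism `σ` that inverts `x` and `y`, `β + σ β`. -/
def FinRankG (K : Type) [Field K] [Algebra ℚ K] (x y : Kˣ) : Prop :=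
  ∃ (r : ℕ) (β : Fin r → K2 K),
    (∀ i, TorTameF ℚ (β i) ∧ ∃ f g : Kˣ, β i = sym f x + sym g y) ∧
    ∀ f g : Kˣ, TorTameF ℚ (sym f x + sym g y) →
      ((¬ ∃ σ : K ≃ₐ[ℚ] K, σ x = (x : K)⁻¹ ∧ σ y = (y : K)⁻¹) →
        ∃ N : ℕ, 0 < N ∧ N • (sym f x + sym g y) ∈ AddSubgroup.closure (Set.range β)) ∧
      ∀ σ : K ≃ₐ[ℚ] K, σ x = (x : K)⁻¹ → σ y = (y : K)⁻¹ →
        ∃ N : ℕ, 0 < N ∧ N • ((sym f x + sym g y) +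
          ConstM.mapK (σ : K →+* K) (sym f x + sym g y)) ∈ AddSubgroup.closure (Set.range β)

/-- ASG (from PUG, PUK, FNV, TSK, SAT, DEP, AS3 (pieces)). -/
def SpecASG : Prop := ∀ (K : Type) [Field K] [Algebra ℚ K] (x y : Kˣ),
  (∃ t : K, Transcendental ℚ t ∧ FiniteDimensional ℚ⟮t⟯ K) →
  (∀ z : K, IsAlgebraic ℚ z → ∃ c : ℚ, z = algebraMap ℚ K c) →
  IntermediateField.adjoin ℚ {(x : K), (y : K)} = ⊤ → FinRankG K x y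

end MP743d1e.RT
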