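import Pool.Agent.Lib.MP_743d1e_nt.RT.BAS

/-!
# TWO: back to two variables
-/

set_option autoImplicit false

namespace MP743d1e.RT

open scoped BigOperators
open Polynomial IntermediateField MP743d1e.CY MP743d1e.Integ
open Pool.Agent.Lib.MPcb8a44

namespace TWOM

open BAS

/-- The units of the Laurent polynomials are monomials. -/
theorem unit_single {A B : AddMonoidAlgebra ℂ (ℤ × ℤ)} (h : A * B = 1) :
    ∃ (μ : ℤ × ℤ) (γ : ℂ), A = AddMonoidAlgebra.single μ γ := by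
  classical
  have hA0 : A ≠ 0 := by
    intro h0
    rw [h0, zero_mul] at h
    exact zero_ne_one h
  have hB0 : B ≠ 0 := by
    intro h0
    rw [h0, mul_zero] at h
    exact zero_ne_one h
  have hA : 0 < A.coeff.support.card := by
    rw [Finset.card_pos, Finsupp.support_nonempty_iff]
    intro h0
    exact hA0 (AddMonoidAlgebra.coeff_eq_zero.mp h0)
  have hB : 0 < B.coeff.support.card := by
    rw [Finset.card_pos, Finsupp.support_nonempty_iff]
    intro h0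
    exact hB0 (AddMonoidAlgebra.coeff_eq_zero.mp h0)
  have hcard : A.coeff.support.card ≤ 1 := by
    by_contra hc
    rw [not_le] at hc
    have h1 : 1 < A.coeff.support.card * B.coeff.support.card := by
      calc 1 < A.coeff.support.card * 1 := by rw [mul_one]; exact hc
        _ ≤ A.coeff.support.card * B.coeff.support.card := Nat.mul_le_mul_left _ hB
    obtain ⟨p, hp, p', hp', hne, hu, hu'⟩ := TwoUniqueSums.uniqueAdd_of_one_lt_card h1
    have key : ∀ r ∈ A.coeff.support ×ˢ B.coeff.support,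
        UniqueAdd A.coeff.support B.coeff.support r.1 r.2 → r.1 + r.2 = 0 := by
      intro r hr hur
      rw [Finset.mem_product, Finsupp.mem_support_iff, Finsupp.mem_support_iff] at hr
      have e1 := AddMonoidAlgebra.coeff_mul_add_of_uniqueAdd hur
      rw [h, AddMonoidAlgebra.one_def, AddMonoidAlgebra.coeff_single, Finsupp.single_apply] at e1
      by_contra h0
      rw [if_neg (fun h' => h0 h'.symm)] at e1
      exact mul_ne_zero hr.1 hr.2 e1.symm
    have hp'' := Finset.mem_product.mp hp'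
    have := hu hp''.1 hp''.2 ((key p' hp' hu').trans (key p hp hu).symm)
    exact hne (Prod.ext this.1.symm this.2.symm)
  obtain ⟨μ, γ, -, h2⟩ := Finsupp.card_support_eq_one'.mp (le_antisymm hcard hA)
  refine ⟨μ, γ, ?_⟩
  ext k
  rw [h2]
  rfl

/-- The monomials. -/
noncomputable def gF (ω : ℂ) (hω : ω ≠ 0) (c b : ℤ × ℤ) :
    Multiplicative (ℤ × ℤ) →* AddMonoidAlgebra ℂ ℤ where
  toFun e := AddMonoidAlgebra.single (ip b e.toAdd) (ω ^ ip c e.toAdd)
  map_one' := by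
    rw [AddMonoidAlgebra.one_def, toAdd_one]
    unfold ip
    rw [Prod.fst_zero, Prod.snd_zero, mul_zero, mul_zero, mul_zero, mul_zero, add_zero, zpow_zero]
  map_mul' e e' := by
    rw [AddMonoidAlgebra.single_mul_single, toAdd_mul, ip_add, ip_add, zpow_add₀ hω]

/-- `z ^ e ↦ ω ^ ⟨c, e⟩ T ^ ⟨b, e⟩`. -/
noncomputable def F (ω : ℂ) (hω : ω ≠ 0) (c b : ℤ × ℤ) :
    AddMonoidAlgebra ℂ (ℤ × ℤ) →ₐ[ℂ] AddMonoidAlgebra ℂ ℤ :=
  AddMonoidAlgebra.lift ℂ (AddMonoidAlgebra ℂ ℤ) (ℤ × ℤ) (gF ω hω c b)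

theorem F_single (ω : ℂ) (hω : ω ≠ 0) (c b e : ℤ × ℤ) (a : ℂ) :
    F ω hω c b (AddMonoidAlgebra.single e a) =
      AddMonoidAlgebra.single (ip b e) (a * ω ^ ip c e) := by
  unfold F
  rw [AddMonoidAlgebra.lift_single]
  show a • AddMonoidAlgebra.single (ip b e) (ω ^ ip c e) = _
  rw [AddMonoidAlgebra.smul_single, smul_eq_mul]

theorem F_coeff (ω : ℂ) (hω : ω ≠ 0) (c b : ℤ × ℤ) (x : AddMonoidAlgebra ℂ (ℤ × ℤ)) (d : ℤ) :
    (F ω hω c b x).coeff d =
      ∑ e ∈ x.coeff.support with ip b e = d, x.coeff e * ω ^ ip c e := by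
  classical
  have h1 : F ω hω c b x = ∑ e ∈ x.coeff.support,
      AddMonoidAlgebra.single (ip b e) (x.coeff e * ω ^ ip c e) := by
    unfold F
    rw [AddMonoidAlgebra.lift_apply]
    refine Finset.sum_congr rfl fun e _ => ?_
    show x.coeff e • AddMonoidAlgebra.single (ip b e) (ω ^ ip c e) = _
    rw [AddMonoidAlgebra.smul_single, smul_eq_mul]
  rw [h1, AddMonoidAlgebra.coeff_sum, Finsupp.finsetSum_apply, Finset.sum_filter]
  refine Finset.sum_congr rfl fun k _ => ?_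
  rw [AddMonoidAlgebra.coeff_single, Finsupp.single_apply]

theorem F_inj (ω : ℂ) (hω : ω ≠ 0) (c b : ℤ × ℤ) (x : AddMonoidAlgebra ℂ (ℤ × ℤ))
    (hx : ∀ e ∈ x.coeff.support, ∀ e' ∈ x.coeff.support, ip b e = ip b e' → e = e')
    (h : F ω hω c b x = 0) : x = 0 := by
  classical
  by_contra hne
  have h0 : x.coeff.support.Nonempty := by
    rw [Finsupp.support_nonempty_iff]
    intro h0
    exact hne (AddMonoidAlgebra.coeff_eq_zero.mp h0)
  obtain ⟨e, he⟩ := h0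
  have h1 := F_coeff ω hω c b x (ip b e)
  rw [h, Finset.sum_eq_single e] at h1
  · have h2 : x.coeff e * ω ^ ip c e = 0 := h1.symm
    exact mul_ne_zero (Finsupp.mem_support_iff.mp he) (zpow_ne_zero _ hω) h2
  · intro e' he' hne'
    rw [Finset.mem_filter] at he'
    exact absurd (hx e' he'.1 e he he'.2) hne'
  · intro he'
    exact absurd (Finset.mem_filter.mpr ⟨he, rfl⟩ :
      e ∈ Finset.filter (fun e' => ip b e' = ip b e) x.coeff.support) he'

/-- `T ↦ T ^ N`. -/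
noncomputable def up (N : ℕ) : AddMonoidAlgebra ℂ ℤ →+* AddMonoidAlgebra ℂ ℤ :=
  AddMonoidAlgebra.mapDomainRingHom ℂ (DistribSMul.toAddMonoidHom ℤ (N : ℤ))

theorem up_single (N : ℕ) (i : ℤ) (a : ℂ) :
    up N (AddMonoidAlgebra.single i a) = AddMonoidAlgebra.single ((N : ℤ) * i) a :=
  AddMonoidAlgebra.mapDomain_single

theorem PN_single (N : ℕ) (k : ℤ × ℤ) (a : ℤ) :
    PN N (AddMonoidAlgebra.single k a) = AddMonoidAlgebra.single ((N : ℤ) • k) (a : ℂ) := by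
  simp [PN]

theorem PN_add (N : ℕ) (P Q : AddMonoidAlgebra ℤ (ℤ × ℤ)) : PN N (P + Q) = PN N P + PN N Q := by
  unfold PN
  rw [map_add, map_add]

theorem PN_zero (N : ℕ) : PN N 0 = 0 := by
  simp [PN]

theorem sp_add (ζ : ℂ) (c b : ℤ × ℤ) (P Q : AddMonoidAlgebra ℤ (ℤ × ℤ)) :
    sp ζ c b (P + Q) = sp ζ c b P + sp ζ c b Q := by
  unfold sp
  rw [AddMonoidAlgebra.coeff_add]
  refine Finsupp.sum_add_index' ?_ ?_
  · intro k
    simp
  · intro k z w
    rw [Int.cast_add, add_mul, AddMonoidAlgebra.single_add]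

theorem sp_zero (ζ : ℂ) (c b : ℤ × ℤ) : sp ζ c b 0 = 0 := by
  unfold sp
  simp

theorem sp_single (ζ : ℂ) (c b k : ℤ × ℤ) (z : ℤ) :
    sp ζ c b (AddMonoidAlgebra.single k z) =
      AddMonoidAlgebra.single (ip b k) ((z : ℂ) * ζ ^ ip c k) := by
  unfold sp
  rw [AddMonoidAlgebra.coeff_single, Finsupp.sum_single_index]
  simp

theorem F_PN {ω ζ : ℂ} (hω : ω ≠ 0) (N : ℕ) (h : ω ^ N = ζ) (c b : ℤ × ℤ)
    (P : AddMonoidAlgebra ℤ (ℤ × ℤ)) : F ω hω c b (PN N P) = up N (sp ζ c b P) := by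
  induction P using AddMonoidAlgebra.induction_linear with
  | zero => rw [PN_zero, sp_zero, map_zero, map_zero]
  | add P Q hP hQ => rw [PN_add, sp_add, map_add, map_add, hP, hQ]
  | single k z =>
    rw [PN_single, F_single, sp_single, up_single, ip_smul, ip_smul, zpow_mul, zpow_natCast, h]

theorem conj_inv {ω : ℂ} (hω : ‖ω‖ = 1) : (starRingEnd ℂ) ω = ω⁻¹ := by
  rw [Complex.inv_def, Complex.normSq_eq_norm_sq, hω]
  simp

theorem F_sh {ω : ℂ} (hω : ω ≠ 0) (hn : ‖ω‖ = 1) (c b : ℤ × ℤ)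
    (x : AddMonoidAlgebra ℂ (ℤ × ℤ)) :
    F ω hω c b (sh (ℤ × ℤ) x) = sh ℤ (F ω hω c b x) := by
  induction x using AddMonoidAlgebra.induction_linear with
  | zero => rw [map_zero, map_zero, map_zero]
  | add P Q hP hQ => rw [map_add, map_add, map_add, map_add, hP, hQ]
  | single k z =>
    rw [sh_single, F_single, F_single, sh_single, ip_neg, ip_neg, map_mul, map_zpow₀,
      conj_inv hn, inv_zpow, zpow_neg]

theorem up_sh (N : ℕ) (x : AddMonoidAlgebra ℂ ℤ) : up N (sh ℤ x) = sh ℤ (up N x) := by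
  induction x using AddMonoidAlgebra.induction_linear with
  | zero => rw [map_zero, map_zero, map_zero]
  | add P Q hP hQ => rw [map_add, map_add, map_add, map_add, hP, hQ]
  | single k z =>
    rw [sh_single, up_single, up_single, sh_single, mul_neg]

theorem up_inj {N : ℕ} (hN : 0 < N) : Function.Injective (up N) := by
  have h1 : Function.Injective (fun i : ℤ => (N : ℤ) * i) := by
    intro i j hij
    have : (N : ℤ) ≠ 0 := by exact_mod_cast hN.ne'
    exact mul_left_cancel₀ this hij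
  intro x y hxy
  exact AddMonoidAlgebra.mapDomain_injective h1 hxy

theorem up_coeff {N : ℕ} (hN : 0 < N) (x : AddMonoidAlgebra ℂ ℤ) (i : ℤ) :
    (up N x).coeff ((N : ℤ) * i) = x.coeff i := by
  have hN' : (N : ℤ) ≠ 0 := by exact_mod_cast hN.ne'
  induction x using AddMonoidAlgebra.induction_linear with
  | zero => rw [map_zero]; rfl
  | add P Q hP hQ =>
    rw [map_add, AddMonoidAlgebra.coeff_add, AddMonoidAlgebra.coeff_add, Finsupp.add_apply,
      Finsupp.add_apply, hP, hQ]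
  | single k z =>
    classical
    rw [up_single, AddMonoidAlgebra.coeff_single, AddMonoidAlgebra.coeff_single,
      Finsupp.single_apply, Finsupp.single_apply]
    by_cases h : k = i
    · rw [h, if_pos rfl, if_pos rfl]
    · rw [if_neg h, if_neg (fun h' => h (mul_left_cancel₀ hN' h'))]

theorem up_coeff' {N : ℕ} (x : AddMonoidAlgebra ℂ ℤ) (j : ℤ) (h : (up N x).coeff j ≠ 0) :
    ∃ i, j = (N : ℤ) * i := by
  by_contra hne
  push Not at hne
  apply h
  clear h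
  induction x using AddMonoidAlgebra.induction_linear with
  | zero => rw [map_zero]; rfl
  | add P Q hP hQ =>
    rw [map_add, AddMonoidAlgebra.coeff_add, Finsupp.add_apply, hP, hQ, add_zero]
  | single k z =>
    classical
    rw [up_single, AddMonoidAlgebra.coeff_single, Finsupp.single_apply]
    exact if_neg (fun h' => hne k h'.symm)

/-- Descent from `T ^ N` to `T`. -/
theorem desc {N : ℕ} (hN : 0 < N) {G f : AddMonoidAlgebra ℂ ℤ} (hG : G ≠ 0) {j : ℤ} {γ : ℂ}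
    (h : up N G = AddMonoidAlgebra.single j γ * up N f) :
    ∃ m : ℤ, G = AddMonoidAlgebra.single m γ * f := by
  have h0 : G.coeff.support.Nonempty := by
    rw [Finsupp.support_nonempty_iff]
    intro h0
    exact hG (AddMonoidAlgebra.coeff_eq_zero.mp h0)
  obtain ⟨i, hi⟩ := h0
  rw [Finsupp.mem_support_iff] at hi
  have h1 := up_coeff hN G i
  have h2 : (AddMonoidAlgebra.single j γ * up N f).coeff ((N : ℤ) * i) =
      γ * (up N f).coeff (-j + (N : ℤ) * i) := by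
    exact AddMonoidAlgebra.coeff_single_mul_apply (up N f) γ j ((N : ℤ) * i)
  rw [h, h2] at h1
  have h3 : (up N f).coeff (-j + (N : ℤ) * i) ≠ 0 := by
    intro h'
    rw [h', mul_zero] at h1
    exact hi h1.symm
  obtain ⟨l, hl⟩ := up_coeff' f _ h3
  refine ⟨i - l, ?_⟩
  have hj : j = (N : ℤ) * (i - l) := by
    rw [mul_sub]
    linarith
  apply up_inj hN
  rw [map_mul, up_single, ← hj, h]

/-- `G = ∑ G_i T ^ i`. -/
theorem sum_eq (G : AddMonoidAlgebra ℂ ℤ) :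
    G = ∑ i ∈ G.coeff.support, AddMonoidAlgebra.single i (G.coeff i) := by
  classical
  ext k
  rw [AddMonoidAlgebra.coeff_sum, Finsupp.finsetSum_apply]
  simp only [AddMonoidAlgebra.coeff_single, Finsupp.single_apply]
  rw [Finset.sum_ite_eq' G.coeff.support k (fun i => G.coeff i)]
  by_cases h : k ∈ G.coeff.support
  · rw [if_pos h]
  · rw [if_neg h]
    exact Finsupp.notMem_support_iff.mp h

/-- The lift to two variables. -/
noncomputable def GG (ω : ℂ) (c : ℤ × ℤ) (G : AddMonoidAlgebra ℂ ℤ) (q : ℤ → ℤ × ℤ) :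
    AddMonoidAlgebra ℂ (ℤ × ℤ) :=
  ∑ i ∈ G.coeff.support, AddMonoidAlgebra.single (q i) (G.coeff i * (ω ^ ip c (q i))⁻¹)

theorem F_GG {ω : ℂ} (hω : ω ≠ 0) (c b : ℤ × ℤ) (G : AddMonoidAlgebra ℂ ℤ) (q : ℤ → ℤ × ℤ)
    (N : ℕ) (m₀ : ℤ) (h : ∀ i ∈ G.coeff.support, (N : ℤ) * (i - m₀) = ip b (q i)) :
    F ω hω c b (GG ω c G q) =
      AddMonoidAlgebra.single (-((N : ℤ) * m₀)) 1 * up N G := by
  conv_rhs => rw [sum_eq G]
  unfold GG
  rw [map_sum, map_sum, Finset.mul_sum]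
  refine Finset.sum_congr rfl fun i hi => ?_
  rw [F_single, up_single, AddMonoidAlgebra.single_mul_single, ← h i hi, one_mul, mul_assoc,
    inv_mul_cancel₀ (zpow_ne_zero _ hω), mul_one]
  congr 1
  ring

theorem GG_supp (ω : ℂ) (c : ℤ × ℤ) (G : AddMonoidAlgebra ℂ ℤ) (q : ℤ → ℤ × ℤ) :
    ∀ e ∈ (GG ω c G q).coeff.support, ∃ i ∈ G.coeff.support, e = q i := by
  classical
  intro e he
  rw [Finsupp.mem_support_iff] at he
  unfold GG at he
  rw [AddMonoidAlgebra.coeff_sum, Finsupp.finsetSum_apply] at he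
  obtain ⟨i, hi, hne⟩ := Finset.exists_ne_zero_of_sum_ne_zero he
  rw [AddMonoidAlgebra.coeff_single, Finsupp.single_apply] at hne
  refine ⟨i, hi, ?_⟩
  by_contra h
  rw [if_neg (fun h' => h h'.symm)] at hne
  exact hne rfl

theorem PN_supp (N : ℕ) (P : AddMonoidAlgebra ℤ (ℤ × ℤ)) :
    ∀ e ∈ (PN N P).coeff.support, ∃ k ∈ P.coeff.support, e = (N : ℤ) • k := by
  classical
  intro e he
  have h1 : (PN N P).coeff.support ⊆
      ((AddMonoidAlgebra.mapRingHom (ℤ × ℤ) (Int.castRingHom ℂ) P).coeff.support).image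
        (fun k => (N : ℤ) • k) := by
    exact Finsupp.mapDomain_support
  obtain ⟨k, hk, hke⟩ := Finset.mem_image.mp (h1 he)
  refine ⟨k, ?_, hke.symm⟩
  rw [Finsupp.mem_support_iff] at hk ⊢
  intro h0
  apply hk
  rw [AddMonoidAlgebra.coeff_mapRingHom, h0, map_zero]

theorem sh_supp {A : AddMonoidAlgebra ℂ (ℤ × ℤ)} {e : ℤ × ℤ}
    (he : e ∈ (sh (ℤ × ℤ) A).coeff.support) : -e ∈ A.coeff.support := by
  rw [Finsupp.mem_support_iff, sh_coeff] at he
  rw [Finsupp.mem_support_iff]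
  intro h0
  rw [h0, map_zero] at he
  exact he rfl

theorem mul_sh_supp {A : AddMonoidAlgebra ℂ (ℤ × ℤ)} {e : ℤ × ℤ}
    (he : e ∈ (A * sh (ℤ × ℤ) A).coeff.support) :
    ∃ k ∈ A.coeff.support, ∃ l ∈ A.coeff.support, e = k - l := by
  classical
  have h1 := AddMonoidAlgebra.support_coeff_mul_subset A (sh (ℤ × ℤ) A) he
  obtain ⟨k, hk, l, hl, hkl⟩ := Finset.mem_add.mp h1
  exact ⟨k, hk, -l, sh_supp hl, by rw [← hkl, sub_neg_eq_add]⟩

theorem sh_ne {G : Type} [AddCommGroup G] {A : AddMonoidAlgebra ℂ G} (hA : A ≠ 0) :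
    sh G A ≠ 0 := by
  intro h
  apply hA
  rw [← sh_sh A, h, map_zero]

/-- The comparison of the coefficients. -/
theorem comp (P : AddMonoidAlgebra ℤ (ℤ × ℤ)) (ζ : ℂ) (c b : ℤ × ℤ)
    (G : AddMonoidAlgebra ℂ ℤ) (N : ℕ) (m₀ : ℤ) (q : ℤ → ℤ × ℤ) (hN : 0 < N)
    {ω : ℂ} (hω : ω ≠ 0) (hn : ‖ω‖ = 1) (hωζ : ω ^ N = ζ)
    (hGf : G * sh ℤ G = sp ζ c b P * sh ℤ (sp ζ c b P))
    (hq : ∀ i ∈ G.coeff.support, (N : ℤ) * (i - m₀) = ip b (q i))
    (h1 : ∀ i ∈ G.coeff.support, ∀ j ∈ G.coeff.support, ∀ k ∈ G.coeff.support,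
      ∀ l ∈ G.coeff.support, i - j = k - l → q i - q j = q k - q l)
    (h2 : ∀ i ∈ G.coeff.support, ∀ j ∈ G.coeff.support, ∀ k ∈ P.coeff.support,
      ∀ k' ∈ P.coeff.support, i - j = ip b (k - k') → q i - q j = (N : ℤ) • (k - k'))
    (h3 : ∀ k ∈ P.coeff.support, ∀ k' ∈ P.coeff.support, ∀ l ∈ P.coeff.support,
      ∀ l' ∈ P.coeff.support, ip b (k - k') = ip b (l - l') → k - k' = l - l') :
    GG ω c G q * sh (ℤ × ℤ) (GG ω c G q) = PN N P * sh (ℤ × ℤ) (PN N P) := by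
  classical
  have hN' : (N : ℤ) ≠ 0 := by exact_mod_cast hN.ne'
  rw [← sub_eq_zero]
  -- the supports
  have hE : ∀ e ∈ (GG ω c G q * sh (ℤ × ℤ) (GG ω c G q) -
      PN N P * sh (ℤ × ℤ) (PN N P)).coeff.support,
      (∃ i ∈ G.coeff.support, ∃ j ∈ G.coeff.support, e = q i - q j) ∨
      (∃ k ∈ P.coeff.support, ∃ l ∈ P.coeff.support, e = (N : ℤ) • (k - l)) := by
    intro e he
    have h4 : e ∈ (GG ω c G q * sh (ℤ × ℤ) (GG ω c G q)).coeff.support ∨
        e ∈ (PN N P * sh (ℤ × ℤ) (PN N P)).coeff.support := by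
      rw [Finsupp.mem_support_iff, AddMonoidAlgebra.coeff_sub, Finsupp.sub_apply] at he
      by_contra hne
      rw [not_or, Finsupp.notMem_support_iff, Finsupp.notMem_support_iff] at hne
      exact he (by rw [hne.1, hne.2, sub_zero])
    rcases h4 with h4 | h4
    · left
      obtain ⟨k, hk, l, hl, hkl⟩ := mul_sh_supp h4
      obtain ⟨i, hi, hki⟩ := GG_supp ω c G q k hk
      obtain ⟨j, hj, hlj⟩ := GG_supp ω c G q l hl
      exact ⟨i, hi, j, hj, by rw [hkl, hki, hlj]⟩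
    · right
      obtain ⟨k, hk, l, hl, hkl⟩ := mul_sh_supp h4
      obtain ⟨i, hi, hki⟩ := PN_supp N P k hk
      obtain ⟨j, hj, hlj⟩ := PN_supp N P l hl
      exact ⟨i, hi, j, hj, by rw [hkl, hki, hlj, smul_sub]⟩
  have hGq : ∀ i ∈ G.coeff.support, ∀ j ∈ G.coeff.support,
      ip b (q i - q j) = (N : ℤ) * (i - j) := by
    intro i hi j hj
    rw [ip_sub, ← hq i hi, ← hq j hj]
    ring
  refine F_inj ω hω c b _ ?_ ?_
  · intro e he e' he' hee
    rcases hE e he with ⟨i, hi, j, hj, hij⟩ | ⟨k, hk, l, hl, hkl⟩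
    · rcases hE e' he' with ⟨i', hi', j', hj', hij'⟩ | ⟨k', hk', l', hl', hkl'⟩
      · rw [hij, hij', hGq i hi j hj, hGq i' hi' j' hj'] at hee
        rw [hij, hij']
        exact h1 i hi j hj i' hi' j' hj' (mul_left_cancel₀ hN' hee)
      · rw [hij, hkl', hGq i hi j hj, ip_smul] at hee
        rw [hij, hkl']
        exact h2 i hi j hj k' hk' l' hl' (mul_left_cancel₀ hN' hee)
    · rcases hE e' he' with ⟨i', hi', j', hj', hij'⟩ | ⟨k', hk', l', hl', hkl'⟩
      · rw [hkl, hij', hGq i' hi' j' hj', ip_smul] at hee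
        rw [hkl, hij']
        exact (h2 i' hi' j' hj' k hk l hl (mul_left_cancel₀ hN' hee).symm).symm
      · rw [hkl, hkl', ip_smul, ip_smul] at hee
        rw [hkl, hkl', h3 k hk l hl k' hk' l' hl' (mul_left_cancel₀ hN' hee)]
  · rw [map_sub, map_mul, map_mul, F_sh hω hn, F_sh hω hn, F_GG hω c b G q N m₀ hq,
      F_PN hω N hωζ, map_mul, sh_single, ← up_sh, ← up_sh]
    have e1 : AddMonoidAlgebra.single (-((N : ℤ) * m₀)) (1 : ℂ) * up N G *
        (AddMonoidAlgebra.single (-(-((N : ℤ) * m₀))) ((starRingEnd ℂ) 1) * up N (sh ℤ G)) =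
        (AddMonoidAlgebra.single (-((N : ℤ) * m₀)) (1 : ℂ) *
          AddMonoidAlgebra.single (-(-((N : ℤ) * m₀))) ((starRingEnd ℂ) 1)) *
          (up N G * up N (sh ℤ G)) := by
      ring
    rw [e1, AddMonoidAlgebra.single_mul_single, ← map_mul, ← map_mul, hGf, add_neg_cancel, map_one,
      mul_one, ← AddMonoidAlgebra.one_def, one_mul, sub_self]

/-- The last step. -/
theorem last {ω : ℂ} (hω : ω ≠ 0) (N : ℕ) (hN : 0 < N) (c b : ℤ × ℤ)
    {G : AddMonoidAlgebra ℂ ℤ} (hG : G ≠ 0) (m₀ : ℤ)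
    (f : AddMonoidAlgebra ℂ ℤ) (X Y A : AddMonoidAlgebra ℂ (ℤ × ℤ)) (hXY : X = Y * A)
    (hX : F ω hω c b X = AddMonoidAlgebra.single (-((N : ℤ) * m₀)) 1 * up N G)
    (hY : F ω hω c b Y = up N f) {B : AddMonoidAlgebra ℂ (ℤ × ℤ)} (hAB : A * B = 1) :
    ∃ (γ : ℂ) (m : ℤ), G = AddMonoidAlgebra.single m γ * f := by
  obtain ⟨μ, γ, hA⟩ := unit_single hAB
  rw [hXY, map_mul, hY, hA, F_single] at hX
  have h1 : up N G = AddMonoidAlgebra.single ((N : ℤ) * m₀ + ip b μ) (γ * ω ^ ip c μ) *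
      up N f := by
    have h2 : AddMonoidAlgebra.single ((N : ℤ) * m₀) (1 : ℂ) *
        (AddMonoidAlgebra.single (-((N : ℤ) * m₀)) 1 * up N G) = up N G := by
      rw [← mul_assoc, AddMonoidAlgebra.single_mul_single, add_neg_cancel, mul_one,
        ← AddMonoidAlgebra.one_def, one_mul]
    rw [← h2, ← hX, mul_comm (up N f), ← mul_assoc, AddMonoidAlgebra.single_mul_single, one_mul]
  obtain ⟨m, hm⟩ := desc hN hG h1
  exact ⟨_, m, hm⟩

end TWOM

open BAS TWOM in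
theorem specTWO : SpecTWO := by
  intro P n ζ c b G N m₀ q hn hζ hN hG hprime hGf hq h1 h2 h3
  -- the root
  obtain ⟨ω, hω⟩ := IsAlgClosed.exists_pow_nat_eq ζ hN
  have hζn : ‖ζ‖ = 1 := by
    have h4 : ‖ζ‖ ^ n = 1 := by rw [← norm_pow, hζ, norm_one]
    exact (pow_eq_one_iff_of_nonneg (norm_nonneg _) hn.ne').mp h4
  have hωn : ‖ω‖ = 1 := by
    have h4 : ‖ω‖ ^ N = 1 := by rw [← norm_pow, hω, hζn]
    exact (pow_eq_one_iff_of_nonneg (norm_nonneg _) hN.ne').mp h4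
  have hω0 : ω ≠ 0 := by
    intro h
    rw [h, norm_zero] at hωn
    exact zero_ne_one hωn
  have hcomp := comp P ζ c b G N m₀ q hN hω0 hωn hω hGf hq h1 h2 h3
  have hQ0 : PN N P ≠ 0 := hprime.ne_zero
  have hQQ : PN N P * sh (ℤ × ℤ) (PN N P) ≠ 0 := mul_ne_zero hQ0 (sh_ne hQ0)
  have hdiv : PN N P ∣ GG ω c G q * sh (ℤ × ℤ) (GG ω c G q) := by
    rw [hcomp]
    exact dvd_mul_right _ _
  have hFG := F_GG hω0 c b G q N m₀ hq
  have hFP := F_PN hω0 N hω c b P
  rcases hprime.dvd_or_dvd hdiv with ⟨A, hA⟩ | ⟨A, hA⟩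
  · -- the first case
    have hAA : A * sh (ℤ × ℤ) A = 1 := by
      rw [hA, map_mul] at hcomp
      have h4 : (PN N P * sh (ℤ × ℤ) (PN N P)) * (A * sh (ℤ × ℤ) A) =
          (PN N P * sh (ℤ × ℤ) (PN N P)) * 1 := by
        rw [mul_one]
        calc (PN N P * sh (ℤ × ℤ) (PN N P)) * (A * sh (ℤ × ℤ) A) =
            PN N P * A * (sh (ℤ × ℤ) (PN N P) * sh (ℤ × ℤ) A) := by ring
          _ = _ := hcomp
      exact mul_left_cancel₀ hQQ h4
    obtain ⟨γ, m, hm⟩ := last hω0 N hN c b hG m₀ (sp ζ c b P) _ _ A hA hFG hFP hAA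
    exact ⟨γ, m, Or.inl hm⟩
  · -- the second case
    have hA' : GG ω c G q = sh (ℤ × ℤ) (PN N P) * sh (ℤ × ℤ) A := by
      rw [← map_mul, ← hA, sh_sh]
    have hAA : sh (ℤ × ℤ) A * A = 1 := by
      rw [hA, hA'] at hcomp
      have h4 : (PN N P * sh (ℤ × ℤ) (PN N P)) * (sh (ℤ × ℤ) A * A) =
          (PN N P * sh (ℤ × ℤ) (PN N P)) * 1 := by
        rw [mul_one]
        calc (PN N P * sh (ℤ × ℤ) (PN N P)) * (sh (ℤ × ℤ) A * A) =
            sh (ℤ × ℤ) (PN N P) * sh (ℤ × ℤ) A * (PN N P * A) := by ring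
          _ = _ := hcomp
      exact mul_left_cancel₀ hQQ h4
    have hFP' : F ω hω0 c b (sh (ℤ × ℤ) (PN N P)) = up N (sh ℤ (sp ζ c b P)) := by
      rw [F_sh hω0 hωn, hFP, up_sh]
    obtain ⟨γ, m, hm⟩ := last hω0 N hN c b hG m₀ (sh ℤ (sp ζ c b P)) _ _ _ hA' hFG hFP' hAA
    exact ⟨γ, m, Or.inr hm⟩

end MP743d1e.RT
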