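import Pool.Agent.Lib.MP_743d1e_nt.RT.Spec
import Pool.Agent.Lib.MP_cb8a44_nt.AB.Main
import Pool.Agent.Lib.MP_743d1e_nt.RT.BAS
import Pool.Agent.Lib.MP_743d1e_nt.CY.PUK
import Pool.Agent.Lib.MP_743d1e_nt.RT.TWO
import Pool.Agent.Lib.MP_743d1e_nt.RT.Spec2

section
/-!
# Module AMG: the mean square is at least one if the absolute square is integral
-/
set_option autoImplicit false

namespace MP743d1e.RT

open scoped BigOperators ComplexConjugate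
open Pool.Agent.Lib.MPcb8a44

namespace AMGM

/-! ## The mean square when `y ȳ` is integral -/

theorem S_ge (K : IntermediateField ℚ ℂ) [FiniteDimensional ℚ K] [IsGalois ℚ K]
    [Fintype (K ≃ₐ[ℚ] K)] (X W : K) (hint : IsIntegral ℤ (W : ℂ)) (hX0 : W ≠ 0)
    (hXW : ∀ σ : K ≃ₐ[ℚ] K, ‖((σ W : K) : ℂ)‖ = ‖((σ X : K) : ℂ)‖ ^ 2) :
    (Fintype.card (K ≃ₐ[ℚ] K) : ℝ) ≤ ∑ σ : K ≃ₐ[ℚ] K, ‖((σ X : K) : ℂ)‖ ^ 2 := by
  have hintX : IsIntegral ℤ W :=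
    (isIntegral_algebraMap_iff (FaithfulSMul.algebraMap_injective K ℂ)).1
      (show IsIntegral ℤ ((algebraMap K ℂ) W) from hint)
  have hnorm : IsIntegral ℤ (Algebra.norm ℚ W) := Algebra.isIntegral_norm ℚ hintX
  obtain ⟨k, hk⟩ := IsIntegrallyClosed.isIntegral_iff.1 hnorm
  have hk0 : k ≠ 0 := by
    rintro rfl
    have : Algebra.norm ℚ W = 0 := by rw [← hk]; simp
    exact hX0 (Algebra.norm_eq_zero_iff.1 this)
  have hprod : (algebraMap ℚ K) (Algebra.norm ℚ W) = ∏ σ : K ≃ₐ[ℚ] K, σ W := by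
    rw [Algebra.norm_eq_prod_automorphisms ℚ W]
    exact Finset.prod_congr (Finset.ext fun σ => by simp only [Finset.mem_univ]) fun _ _ => rfl
  have hprodC : ((k : ℤ) : ℂ) = ∏ σ : K ≃ₐ[ℚ] K, ((σ W : K) : ℂ) := by
    have h1 : (K.val ((algebraMap ℚ K) (Algebra.norm ℚ W)) : ℂ) = K.val (∏ σ : K ≃ₐ[ℚ] K, σ W) := by
      rw [hprod]
    rw [map_prod, ← hk] at h1
    rw [← show K.val ((algebraMap ℚ K) ((algebraMap ℤ ℚ) k)) = ((k : ℤ) : ℂ) by simp, h1]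
    rfl
  have hprodR : 1 ≤ ∏ σ : K ≃ₐ[ℚ] K, ‖((σ X : K) : ℂ)‖ ^ 2 := by
    rw [← Finset.prod_congr rfl fun σ _ => hXW σ, ← norm_prod, ← hprodC, Complex.norm_intCast]
    exact_mod_cast Int.one_le_abs hk0
  have hne : ∀ σ : K ≃ₐ[ℚ] K, ((σ X : K) : ℂ) ≠ 0 := by
    intro σ hc
    have h1 := hXW σ
    rw [hc, norm_zero, zero_pow two_ne_zero, norm_eq_zero] at h1
    have h2 : σ W = 0 := by exact_mod_cast h1
    exact hX0 ((map_eq_zero_iff σ σ.injective).1 h2)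
  have hlog : 0 ≤ ∑ σ : K ≃ₐ[ℚ] K, Real.log (‖((σ X : K) : ℂ)‖ ^ 2) := by
    rw [← Real.log_prod]
    · exact Real.log_nonneg hprodR
    · intro σ _
      have := norm_pos_iff.2 (hne σ)
      positivity
  calc ((Fintype.card (K ≃ₐ[ℚ] K) : ℕ) : ℝ)
      = ∑ σ : K ≃ₐ[ℚ] K, (1 : ℝ) := by simp
    _ ≤ ∑ σ : K ≃ₐ[ℚ] K, (1 + Real.log (‖((σ X : K) : ℂ)‖ ^ 2)) := by
        rw [Finset.sum_add_distrib]; linarith
    _ ≤ ∑ σ : K ≃ₐ[ℚ] K, ‖((σ X : K) : ℂ)‖ ^ 2 :=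
        Finset.sum_le_sum fun σ _ => AB.MbM.sq_norm_ge_one_add_log (hne σ)

/-- `1 ≤ M y` if `y ȳ` is a nonzero algebraic integer. -/
theorem one_le_M {N : ℕ} (hN : 0 < N) {y : ℂ} (hy : y ∈ AB.Cyc N)
    (hint : IsIntegral ℤ (y * conj y)) (h0 : y ≠ 0) : 1 ≤ AB.M y := by
  classical
  obtain ⟨-, hmf2⟩ := AB.specMF N hN
  obtain ⟨hgal, -, -, -, hconj, -, -⟩ := AB.specGAL N hN
  have : FiniteDimensional ℚ (AB.Cyc N) := AB.specCB.2.2.2.1 N hN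
  have : IsGalois ℚ (AB.Cyc N) := hgal
  have hcy : conj y ∈ AB.Cyc N := AB.specCB.2.2.2.2 N hN y hy
  have hcard : 0 < Fintype.card (AB.Cyc N ≃ₐ[ℚ] AB.Cyc N) := Fintype.card_pos
  have hcR : (0 : ℝ) < (Fintype.card (AB.Cyc N ≃ₐ[ℚ] AB.Cyc N) : ℝ) := by exact_mod_cast hcard
  have h1 : AB.M y = (∑ σ : AB.Cyc N ≃ₐ[ℚ] AB.Cyc N, ‖((σ ⟨y, hy⟩ : AB.Cyc N) : ℂ)‖ ^ 2) /
      (Fintype.card (AB.Cyc N ≃ₐ[ℚ] AB.Cyc N) : ℝ) := by
    have := hmf2 ⟨y, hy⟩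
    rw [finsum_eq_sum_of_fintype, Nat.card_eq_fintype_card] at this
    exact this
  rw [h1, le_div_iff₀ hcR, one_mul]
  refine S_ge (AB.Cyc N) ⟨y, hy⟩ (⟨y, hy⟩ * ⟨conj y, hcy⟩) hint ?_ ?_
  · intro h
    have h2 : y * conj y = 0 := congrArg Subtype.val h
    rcases mul_eq_zero.1 h2 with h3 | h3
    · exact h0 h3
    · exact h0 (by simpa using h3)
  · intro σ
    rw [map_mul]
    have h2 : ((σ ⟨conj y, hcy⟩ : AB.Cyc N) : ℂ) = conj ((σ ⟨y, hy⟩ : AB.Cyc N) : ℂ) :=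
      hconj σ ⟨y, hy⟩ ⟨conj y, hcy⟩ rfl
    have h3 : ((σ ⟨y, hy⟩ * σ ⟨conj y, hcy⟩ : AB.Cyc N) : ℂ) =
        ((σ ⟨y, hy⟩ : AB.Cyc N) : ℂ) * conj ((σ ⟨y, hy⟩ : AB.Cyc N) : ℂ) := by
      rw [← h2]
      rfl
    rw [h3, norm_mul, RCLike.norm_conj, sq]

end AMGM

theorem specAMG : SpecAMG := fun _ hN _ hz h0 hint => AMGM.one_le_M hN hz hint h0

end MP743d1e.RT
end

section
/-!
# Module CNJ of Theorem B: parameters on the coset
-/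
set_option autoImplicit false

namespace MP743d1e.RT

open scoped BigOperators
open Polynomial IntermediateField MP743d1e.CY MP743d1e.Integ
open Pool.Agent.Lib.MPcb8a44

namespace CNJM

theorem evP_map {R S : Type} [Field R] [Field S] (φ : R →+* S) (x y : R)
    (A : AddMonoidAlgebra ℤ (ℤ × ℤ)) : φ (evP x y A) = evP (φ x) (φ y) A := by
  unfold evP Finsupp.sum
  rw [map_sum]
  refine Finset.sum_congr rfl fun k _ => ?_
  rw [map_mul, map_mul, map_intCast, map_zpow₀, map_zpow₀]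

theorem evP_coe {F : Type} [Field F] [Algebra F ℂ] (E : IntermediateField F ℂ) (x y : E)
    (A : AddMonoidAlgebra ℤ (ℤ × ℤ)) : ((evP x y A : E) : ℂ) = evP (x : ℂ) (y : ℂ) A :=
  evP_map (algebraMap E ℂ) x y A

/-- The kernels of the evaluations at `(x, y)` and at its image under an embedding agree. -/
theorem transfer {F : Type} [Field F] [Algebra F ℂ] (E : IntermediateField F ℂ) (φ : E →+* ℂ)
    (x y : E) (A : AddMonoidAlgebra ℤ (ℤ × ℤ)) :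
    evP (x : ℂ) (y : ℂ) A = 0 ↔ evP (φ x) (φ y) A = 0 := by
  rw [← evP_map φ, ← evP_coe E]
  constructor
  · intro h
    have h0 : (evP x y A : E) = 0 := by
      exact_mod_cast h
    rw [h0, map_zero]
  · intro h
    have h0 : (evP x y A : E) = 0 := by
      rwa [map_eq_zero] at h
    rw [h0]
    rfl

theorem splits {F : Type} [Field F] [Algebra F ℂ] (s : ℂ) :
    ((minpoly F s).map (algebraMap F ℂ)).Splits := IsAlgClosed.splits _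

/-- Inverting the parametrisation. -/
theorem par (a c : ℤ × ℤ) (h : ip c a = 1) {R : Type} [Field R] (x y : R) (hx : x ≠ 0)
    (hy : y ≠ 0) :
    (x ^ a.1 * y ^ a.2) ^ c.1 * (x ^ (-c.2) * y ^ c.1) ^ (-a.2) = x ∧
      (x ^ a.1 * y ^ a.2) ^ c.2 * (x ^ (-c.2) * y ^ c.1) ^ a.1 = y := by
  have h' : c.1 * a.1 + c.2 * a.2 = 1 := h
  constructor
  · have e : (x ^ a.1 * y ^ a.2) ^ c.1 * (x ^ (-c.2) * y ^ c.1) ^ (-a.2) =
        x ^ (a.1 * c.1 + -c.2 * -a.2) * y ^ (a.2 * c.1 + c.1 * -a.2) := by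
      rw [mul_zpow, mul_zpow, ← zpow_mul, ← zpow_mul, ← zpow_mul, ← zpow_mul,
        zpow_add₀ hx, zpow_add₀ hy]
      ring
    rw [e]
    have h1 : a.1 * c.1 + -c.2 * -a.2 = 1 := by linarith
    have h2 : a.2 * c.1 + c.1 * -a.2 = 0 := by ring
    rw [h1, h2, zpow_one, zpow_zero, mul_one]
  · have e : (x ^ a.1 * y ^ a.2) ^ c.2 * (x ^ (-c.2) * y ^ c.1) ^ a.1 =
        x ^ (a.1 * c.2 + -c.2 * a.1) * y ^ (a.2 * c.2 + c.1 * a.1) := by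
      rw [mul_zpow, mul_zpow, ← zpow_mul, ← zpow_mul, ← zpow_mul, ← zpow_mul,
        zpow_add₀ hx, zpow_add₀ hy]
      ring
    rw [e]
    have h1 : a.1 * c.2 + -c.2 * a.1 = 0 := by ring
    have h2 : a.2 * c.2 + c.1 * a.1 = 1 := by linarith
    rw [h1, h2, zpow_one, zpow_zero, one_mul]

end CNJM

open CNJM in
theorem specCNJ : SpecCNJ := by
  intro n a c hn hac ξ η ξ' η' hξ hη hξ' hη' iξ iη iξ' iη' hz hz'
  obtain ⟨p1, p2⟩ := par a c hac ξ η hξ hη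
  -- the embedding of `ℚ(ξ', η')`
  have hK : ∀ s ∈ ({ξ', η'} : Set ℂ), IsIntegral ℚ s ∧
      ((minpoly ℚ s).map (algebraMap ℚ ℂ)).Splits := by
    intro s hs
    rcases hs with rfl | hs
    · exact ⟨iξ'.isIntegral, splits _⟩
    · rw [Set.mem_singleton_iff] at hs
      subst hs
      exact ⟨iη'.isIntegral, splits _⟩
  set E : IntermediateField ℚ ℂ := adjoin ℚ ({ξ', η'} : Set ℂ) with hE
  have mξ : ξ' ∈ E := subset_adjoin _ _ (by simp)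
  have mη : η' ∈ E := subset_adjoin _ _ (by simp)
  let X : E := ⟨ξ', mξ⟩
  let Y : E := ⟨η', mη⟩
  have hX : X ≠ 0 := fun h => hξ' (congrArg Subtype.val h)
  have hY : Y ≠ 0 := fun h => hη' (congrArg Subtype.val h)
  have mz : ξ' ^ a.1 * η' ^ a.2 ∈ E := mul_mem (zpow_mem mξ _) (zpow_mem mη _)
  have hcy : minpoly ℚ (ξ' ^ a.1 * η' ^ a.2) = minpoly ℚ (ξ ^ a.1 * η ^ a.2) := by
    rw [← cyclotomic_eq_minpoly_rat hz' hn, ← cyclotomic_eq_minpoly_rat hz hn]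
  obtain ⟨φ, hφ⟩ := exists_algHom_adjoin_of_splits_of_aeval (K := ℂ) hK mz
    (y := ξ ^ a.1 * η ^ a.2) (by rw [hcy]; exact minpoly.aeval _ _)
  have hz2 : φ (X ^ a.1 * Y ^ a.2) = ξ ^ a.1 * η ^ a.2 := by
    rw [← hφ]
    congr 1
  obtain ⟨q1, q2⟩ := par a c hac X Y hX hY
  have q1' := congrArg φ q1
  have q2' := congrArg φ q2
  rw [map_mul, map_zpow₀, map_zpow₀, hz2] at q1' q2'
  have hs2 : φ (X ^ (-c.2) * Y ^ c.1) ≠ 0 := by
    rw [Ne, map_eq_zero]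
    exact mul_ne_zero (zpow_ne_zero _ hX) (zpow_ne_zero _ hY)
  have hs1 : ξ ^ (-c.2) * η ^ c.1 ≠ 0 := mul_ne_zero (zpow_ne_zero _ hξ) (zpow_ne_zero _ hη)
  have k1 : ∀ A : AddMonoidAlgebra ℤ (ℤ × ℤ), evP ξ η A = 0 ↔
      evP ((ξ ^ a.1 * η ^ a.2) ^ c.1 * (ξ ^ (-c.2) * η ^ c.1) ^ (-a.2))
        ((ξ ^ a.1 * η ^ a.2) ^ c.2 * (ξ ^ (-c.2) * η ^ c.1) ^ a.1) A = 0 := by
    intro A
    rw [p1, p2]
  have k2 : ∀ A : AddMonoidAlgebra ℤ (ℤ × ℤ), evP ξ' η' A = 0 ↔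
      evP ((ξ ^ a.1 * η ^ a.2) ^ c.1 * (φ (X ^ (-c.2) * Y ^ c.1)) ^ (-a.2))
        ((ξ ^ a.1 * η ^ a.2) ^ c.2 * (φ (X ^ (-c.2) * Y ^ c.1)) ^ a.1) A = 0 := by
    intro A
    rw [q1', q2']
    exact transfer E φ.toRingHom X Y A
  refine ⟨ξ ^ a.1 * η ^ a.2, ξ ^ (-c.2) * η ^ c.1, φ (X ^ (-c.2) * Y ^ c.1), hz, hs1, hs2,
    k1, k2, fun hm A => ?_⟩
  rw [k1, k2]
  -- the embedding of `Cyc n (s₁)`
  have is1 : IsIntegral (AB.Cyc n) (ξ ^ (-c.2) * η ^ c.1) := by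
    have h1 : IsAlgebraic ℚ (ξ ^ (-c.2) * η ^ c.1) := by
      have m1 : ξ ∈ algebraicClosure ℚ ℂ := (mem_algebraicClosure_iff).2 iξ
      have m2 : η ∈ algebraicClosure ℚ ℂ := (mem_algebraicClosure_iff).2 iη
      exact (mem_algebraicClosure_iff).1 (mul_mem (zpow_mem m1 _) (zpow_mem m2 _))
    exact h1.isIntegral.tower_top
  have hK2 : ∀ s ∈ ({ξ ^ (-c.2) * η ^ c.1} : Set ℂ), IsIntegral (AB.Cyc n) s ∧
      ((minpoly (AB.Cyc n) s).map (algebraMap (AB.Cyc n) ℂ)).Splits := by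
    intro s hs
    rw [Set.mem_singleton_iff] at hs
    subst hs
    exact ⟨is1, splits _⟩
  obtain ⟨ψ, hψ⟩ := exists_algHom_adjoin_of_splits_of_aeval (K := ℂ) hK2
    (mem_adjoin_simple_self (AB.Cyc n) (ξ ^ (-c.2) * η ^ c.1))
    (y := φ (X ^ (-c.2) * Y ^ c.1)) (by rw [hm]; exact minpoly.aeval _ _)
  have hze : ξ ^ a.1 * η ^ a.2 ∈ AB.Cyc n := by
    have : NeZero n := ⟨hn.ne'⟩
    obtain ⟨k, _, hk⟩ := (AB.CBM.prim n hn).eq_pow_of_pow_eq_one hz.pow_eq_one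
    rw [← hk]
    exact pow_mem (AB.CBM.ze_mem n) _
  let Z : (AB.Cyc n)⟮ξ ^ (-c.2) * η ^ c.1⟯ :=
    algebraMap (AB.Cyc n) _ (⟨ξ ^ a.1 * η ^ a.2, hze⟩ : AB.Cyc n)
  let T : (AB.Cyc n)⟮ξ ^ (-c.2) * η ^ c.1⟯ :=
    ⟨ξ ^ (-c.2) * η ^ c.1, mem_adjoin_simple_self (AB.Cyc n) _⟩
  have hψZ : ψ Z = ξ ^ a.1 * η ^ a.2 := ψ.commutes _
  have hψT : ψ T = φ (X ^ (-c.2) * Y ^ c.1) := hψ
  have key := transfer (adjoin (AB.Cyc n) {ξ ^ (-c.2) * η ^ c.1}) ψ.toRingHom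
    (Z ^ c.1 * T ^ (-a.2)) (Z ^ c.2 * T ^ a.1) A
  have e1 : ψ.toRingHom (Z ^ c.1 * T ^ (-a.2)) =
      (ξ ^ a.1 * η ^ a.2) ^ c.1 * (φ (X ^ (-c.2) * Y ^ c.1)) ^ (-a.2) := by
    change ψ (Z ^ c.1 * T ^ (-a.2)) = _
    rw [map_mul, map_zpow₀, map_zpow₀, hψZ, hψT]
  have e2 : ψ.toRingHom (Z ^ c.2 * T ^ a.1) =
      (ξ ^ a.1 * η ^ a.2) ^ c.2 * (φ (X ^ (-c.2) * Y ^ c.1)) ^ a.1 := by
    change ψ (Z ^ c.2 * T ^ a.1) = _
    rw [map_mul, map_zpow₀, map_zpow₀, hψZ, hψT]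
  rw [e1, e2] at key
  exact key

end MP743d1e.RT
end

section
/-!
# Module CNT: the number of terms
-/
set_option autoImplicit false

namespace MP743d1e.RT

open scoped BigOperators ComplexConjugate
open Pool.Agent.Lib.MPcb8a44

namespace CNTM

/-! ## Upper bounds for the mean square -/

theorem M_le {N : ℕ} (hN : 0 < N) {B : ℝ} (z : AB.Cyc N)
    (h : ∀ σ : AB.Cyc N ≃ₐ[ℚ] AB.Cyc N, ‖((σ z : AB.Cyc N) : ℂ)‖ ≤ B) : AB.M (z : ℂ) ≤ B ^ 2 := by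
  classical
  obtain ⟨-, hmf2⟩ := AB.specMF N hN
  have : FiniteDimensional ℚ (AB.Cyc N) := AB.specCB.2.2.2.1 N hN
  have hcard : 0 < Fintype.card (AB.Cyc N ≃ₐ[ℚ] AB.Cyc N) := Fintype.card_pos
  have hcR : (0 : ℝ) < (Fintype.card (AB.Cyc N ≃ₐ[ℚ] AB.Cyc N) : ℝ) := by exact_mod_cast hcard
  rw [hmf2 z, finsum_eq_sum_of_fintype, Nat.card_eq_fintype_card, div_le_iff₀ hcR]
  calc ∑ σ : AB.Cyc N ≃ₐ[ℚ] AB.Cyc N, ‖((σ z : AB.Cyc N) : ℂ)‖ ^ 2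
      ≤ ∑ _σ : AB.Cyc N ≃ₐ[ℚ] AB.Cyc N, B ^ 2 :=
        Finset.sum_le_sum fun σ _ => pow_le_pow_left₀ (norm_nonneg _) (h σ) 2
    _ = B ^ 2 * (Fintype.card (AB.Cyc N ≃ₐ[ℚ] AB.Cyc N) : ℝ) := by
        rw [Finset.sum_const, nsmul_eq_mul, Finset.card_univ, mul_comm]

/-- integral combinations of roots of unity -/
theorem M_sum_le {N : ℕ} (hN : 0 < N) {ι : Type} (S : Finset ι) (a : ι → ℤ) (ξ : ι → ℂ)
    (hξ : ∀ i ∈ S, ξ i ^ N = 1) :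
    AB.M (∑ i ∈ S, (a i : ℂ) * ξ i) ≤ (∑ i ∈ S, |(a i : ℝ)|) ^ 2 := by
  classical
  have hmem : ∀ i : ι, (if i ∈ S then ξ i else 1) ∈ AB.Cyc N := by
    intro i
    split_ifs with h
    · have hne : NeZero N := ⟨hN.ne'⟩
      obtain ⟨j, -, hj⟩ := (AB.CBM.prim N hN).eq_pow_of_pow_eq_one (hξ i h)
      rw [← hj]
      exact pow_mem (AB.CBM.ze_mem N) j
    · exact one_mem _
  set η : ι → AB.Cyc N := fun i => ⟨if i ∈ S then ξ i else 1, hmem i⟩ with hη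
  have hpow : ∀ i, η i ^ N = 1 := by
    intro i
    apply Subtype.coe_injective
    show (if i ∈ S then ξ i else 1) ^ N = 1
    split_ifs with h
    · exact hξ i h
    · exact one_pow N
  have hval : ∀ z : AB.Cyc N, ((z : AB.Cyc N) : ℂ) = algebraMap (AB.Cyc N) ℂ z := fun _ => rfl
  have h1 : ∑ i ∈ S, (a i : ℂ) * ξ i = ((∑ i ∈ S, (a i : AB.Cyc N) * η i : AB.Cyc N) : ℂ) := by
    rw [hval, map_sum]
    refine Finset.sum_congr rfl fun i hi => ?_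
    rw [map_mul, map_intCast]
    show (a i : ℂ) * ξ i = (a i : ℂ) * (if i ∈ S then ξ i else 1)
    rw [if_pos hi]
  rw [h1]
  refine M_le hN _ fun σ => ?_
  have h3 : ((σ (∑ i ∈ S, (a i : AB.Cyc N) * η i) : AB.Cyc N) : ℂ) =
      ∑ i ∈ S, (a i : ℂ) * ((σ (η i) : AB.Cyc N) : ℂ) := by
    rw [map_sum, hval, map_sum]
    refine Finset.sum_congr rfl fun i _ => ?_
    rw [map_mul, map_intCast, map_mul, map_intCast]
    rfl
  rw [h3]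
  refine (norm_sum_le _ _).trans (Finset.sum_le_sum fun i _ => ?_)
  have h4 : ‖((σ (η i) : AB.Cyc N) : ℂ)‖ = 1 := by
    refine Complex.norm_eq_one_of_pow_eq_one (n := N) ?_ hN.ne'
    have : (σ (η i)) ^ N = 1 := by rw [← map_pow, hpow, map_one]
    have h5 := congrArg (fun t : AB.Cyc N => (t : ℂ)) this
    simpa using h5
  rw [norm_mul, h4, mul_one, Complex.norm_intCast]

/-- the trace is additive -/
theorem ntr_sum {N : ℕ} (hN : 0 < N) {ι : Type} (S : Finset ι) (f : ι → ℂ)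
    (hf : ∀ i ∈ S, f i ∈ AB.Cyc N) : AB.ntr (∑ i ∈ S, f i) = ∑ i ∈ S, AB.ntr (f i) := by
  classical
  have hadd := (AB.MbM.specMB AB.specCB AB.specGAL AB.specMF N hN).1
  induction S using Finset.induction_on with
  | empty =>
    rw [Finset.sum_empty, Finset.sum_empty]
    have := hadd 0 (zero_mem _) 0 (zero_mem _)
    rw [add_zero] at this
    linarith
  | insert a S ha ih =>
    rw [Finset.sum_insert ha, Finset.sum_insert ha,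
      hadd _ (hf a (Finset.mem_insert_self _ _)) _
        (sum_mem fun i hi => hf i (Finset.mem_insert_of_mem hi)),
      ih fun i hi => hf i (Finset.mem_insert_of_mem hi)]

/-! ## Laurent polynomials -/

theorem coeff_sh (G : Type) [AddCommGroup G] (A : AddMonoidAlgebra ℂ G) (g : G) :
    (sh G A).coeff g = conj (A.coeff (-g)) := by
  have hinj : Function.Injective (fun x : G => -x) := neg_injective
  unfold sh
  rw [RingHom.comp_apply]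
  have h1 : ∀ B : AddMonoidAlgebra ℂ G,
      (AddMonoidAlgebra.mapRingHom G (starRingEnd ℂ) B).coeff g = conj (B.coeff g) := by
    intro B
    simp
  rw [h1]
  congr 1
  have h2 : (AddMonoidAlgebra.mapDomainRingHom ℂ (-(AddMonoidHom.id G)) A).coeff =
      Finsupp.mapDomain (fun x : G => -x) A.coeff := by
    rfl
  rw [h2]
  conv_lhs => rw [← neg_neg g]
  exact Finsupp.mapDomain_apply hinj _ _

theorem coeff_zero_mul_sh (A : AddMonoidAlgebra ℂ ℤ) :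
    (A * sh ℤ A).coeff 0 = ∑ i ∈ A.coeff.support, A.coeff i * conj (A.coeff i) := by
  classical
  rw [AddMonoidAlgebra.coeff_mul, Finsupp.sum]
  refine Finset.sum_congr rfl fun i hi => ?_
  have h1 : (sh ℤ A).coeff (-i) = conj (A.coeff i) := by rw [coeff_sh, neg_neg]
  rw [Finsupp.sum, Finset.sum_eq_single (-i)]
  · rw [if_pos (by ring), h1]
  · intro j _ hj
    rw [if_neg]
    intro h
    exact hj (by linarith)
  · intro hj
    rw [Finsupp.notMem_support_iff] at hj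
    rw [hj, mul_zero, ite_self]

theorem coeff_sp (ζ : ℂ) (c b : ℤ × ℤ) (P : AddMonoidAlgebra ℤ (ℤ × ℤ)) (i : ℤ) :
    (sp ζ c b P).coeff i = ∑ k ∈ P.coeff.support.filter (fun k => ip b k = i),
      ((P.coeff k : ℤ) : ℂ) * ζ ^ ip c k := by
  classical
  unfold sp
  rw [AddMonoidAlgebra.coeff_finsuppSum, Finsupp.sum, Finsupp.finsetSum_apply, Finset.sum_filter]
  refine Finset.sum_congr rfl fun k _ => ?_
  rw [AddMonoidAlgebra.coeff_single, Finsupp.single_apply]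

theorem sum_M {n : ℕ} (hn : 0 < n) (A : AddMonoidAlgebra ℂ ℤ) (hA : ∀ i, A.coeff i ∈ AB.Cyc n) :
    ∑ i ∈ A.coeff.support, AB.M (A.coeff i) = AB.ntr ((A * sh ℤ A).coeff 0) := by
  rw [coeff_zero_mul_sh, ntr_sum hn]
  · rfl
  · intro i _
    exact mul_mem (hA i) (AB.specCB.2.2.2.2 n hn _ (hA i))

theorem mem_of_pow {z : ℂ} {n : ℕ} (hn : 0 < n) (h : z ^ n = 1) : z ∈ AB.Cyc n := by
  have hne : NeZero n := ⟨hn.ne'⟩
  obtain ⟨i, -, hi⟩ := (AB.CBM.prim n hn).eq_pow_of_pow_eq_one h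
  rw [← hi]
  exact pow_mem (AB.CBM.ze_mem n) i

end CNTM

open CNTM in
theorem specCNT : SpecCNT := by
  classical
  intro P n ζ c b G hn hζ hG hGi
  have hMB := AB.MbM.specMB AB.specCB AB.specGAL AB.specMF n hn
  have hζm := mem_of_pow hn hζ
  have hfm : ∀ i, (sp ζ c b P).coeff i ∈ AB.Cyc n := by
    intro i
    rw [coeff_sp]
    exact sum_mem fun k _ => mul_mem (intCast_mem _ _) (zpow_mem hζm _)
  have h1 : ∑ i ∈ G.coeff.support, AB.M (G.coeff i) =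
      ∑ i ∈ (sp ζ c b P).coeff.support, AB.M ((sp ζ c b P).coeff i) := by
    rw [sum_M hn G fun i => (hGi i).1, sum_M hn _ hfm, hG]
  have h2 : (G.coeff.support.card : ℝ) ≤ ∑ i ∈ G.coeff.support, AB.M (G.coeff i) := by
    calc (G.coeff.support.card : ℝ) = ∑ _i ∈ G.coeff.support, (1 : ℝ) := by simp
      _ ≤ ∑ i ∈ G.coeff.support, AB.M (G.coeff i) := by
        refine Finset.sum_le_sum fun i hi => ?_
        exact (hGi i).2 (Finsupp.mem_support_iff.1 hi)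
  set I : Finset ℤ := P.coeff.support.image (ip b) with hI
  have hsub : (sp ζ c b P).coeff.support ⊆ I := by
    intro i hi
    rw [Finsupp.mem_support_iff, coeff_sp] at hi
    obtain ⟨k, hk, -⟩ := Finset.exists_ne_zero_of_sum_ne_zero hi
    rw [Finset.mem_filter] at hk
    exact Finset.mem_image.2 ⟨k, hk.1, hk.2⟩
  have h3 : ∑ i ∈ (sp ζ c b P).coeff.support, AB.M ((sp ζ c b P).coeff i) ≤
      ∑ i ∈ I, AB.M ((sp ζ c b P).coeff i) :=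
    Finset.sum_le_sum_of_subset_of_nonneg hsub fun i _ _ => hMB.2.1 _ (hfm i)
  have h4 : ∀ i, AB.M ((sp ζ c b P).coeff i) ≤
      (∑ k ∈ P.coeff.support.filter (fun k => ip b k = i), |(P.coeff k : ℝ)|) ^ 2 := by
    intro i
    rw [coeff_sp]
    refine M_sum_le hn _ (fun k => P.coeff k) (fun k => ζ ^ ip c k) fun k _ => ?_
    rw [← zpow_natCast, ← zpow_mul, mul_comm, zpow_mul, zpow_natCast, hζ, one_zpow]
  have h5 : ∑ i ∈ I, (∑ k ∈ P.coeff.support.filter (fun k => ip b k = i),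
      |(P.coeff k : ℝ)|) ^ 2 ≤ (∑ i ∈ I, ∑ k ∈ P.coeff.support.filter (fun k => ip b k = i),
      |(P.coeff k : ℝ)|) ^ 2 :=
    Finset.sum_sq_le_sq_sum_of_nonneg fun i _ => Finset.sum_nonneg fun k _ => abs_nonneg _
  have h6 : ∑ i ∈ I, ∑ k ∈ P.coeff.support.filter (fun k => ip b k = i),
      |(P.coeff k : ℝ)| = ∑ k ∈ P.coeff.support, |(P.coeff k : ℝ)| :=
    Finset.sum_fiberwise_of_maps_to (fun k hk => Finset.mem_image_of_mem _ hk) _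
  rw [h6] at h5
  calc (G.coeff.support.card : ℝ) ≤ ∑ i ∈ G.coeff.support, AB.M (G.coeff i) := h2
    _ = ∑ i ∈ (sp ζ c b P).coeff.support, AB.M ((sp ζ c b P).coeff i) := h1
    _ ≤ ∑ i ∈ I, AB.M ((sp ζ c b P).coeff i) := h3
    _ ≤ ∑ i ∈ I, (∑ k ∈ P.coeff.support.filter (fun k => ip b k = i), |(P.coeff k : ℝ)|) ^ 2 :=
        Finset.sum_le_sum fun i _ => h4 i
    _ ≤ _ := h5

end MP743d1e.RT
end

section
/-!
# Module PU2: the points with `x ^ a y ^ b` a root of unity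
-/
set_option autoImplicit false

namespace MP743d1e.RT

open scoped BigOperators
open Polynomial IntermediateField MP743d1e.CY MP743d1e.Integ
open Pool.Agent.Lib.MPcb8a44

namespace PU2M

open BAS

/-- The data for a bad direction. -/
def Bad (P : AddMonoidAlgebra ℤ (ℤ × ℤ)) (b : ℤ × ℤ) : Prop :=
  ∃ (n : ℕ) (ζ : ℂ) (c : ℤ × ℤ) (G : AddMonoidAlgebra ℂ ℤ), 0 < n ∧ ζ ^ n = 1 ∧
    G * sh ℤ G = sp ζ c b P * sh ℤ (sp ζ c b P) ∧
    (∀ i, G.coeff i ∈ AB.Cyc n ∧ (G.coeff i ≠ 0 → 1 ≤ AB.M (G.coeff i))) ∧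
    ∀ (γ : ℂ) (m : ℤ), G ≠ AddMonoidAlgebra.single m γ * sp ζ c b P ∧
      G ≠ AddMonoidAlgebra.single m γ * sh ℤ (sp ζ c b P)

theorem bad_finite (hCNT : SpecCNT) (hEXL : SpecEXL) (hTWO : SpecTWO)
    (P : AddMonoidAlgebra ℤ (ℤ × ℤ)) (hP : ∀ N : ℕ, 0 < N → Prime (PN N P)) :
    {b : ℤ × ℤ | IsCoprime b.1 b.2 ∧ Bad P b}.Finite := by
  classical
  by_contra hinf
  set S : Set (ℤ × ℤ) := {b : ℤ × ℤ | IsCoprime b.1 b.2 ∧ Bad P b} with hS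
  have hSi : S.Infinite := hinf
  have hex : ∀ b : ℤ × ℤ, ∃ (n : ℕ) (ζ : ℂ) (c : ℤ × ℤ) (G : AddMonoidAlgebra ℂ ℤ), b ∈ S →
    0 < n ∧ ζ ^ n = 1 ∧
    G * sh ℤ G = sp ζ c b P * sh ℤ (sp ζ c b P) ∧
    (∀ i, G.coeff i ∈ AB.Cyc n ∧ (G.coeff i ≠ 0 → 1 ≤ AB.M (G.coeff i))) ∧
    ∀ (γ : ℂ) (m : ℤ), G ≠ AddMonoidAlgebra.single m γ * sp ζ c b P ∧
      G ≠ AddMonoidAlgebra.single m γ * sh ℤ (sp ζ c b P) := by
    intro b
    by_cases hb : b ∈ S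
    · obtain ⟨n, ζ, c, G, h⟩ := hb.2
      exact ⟨n, ζ, c, G, fun _ => h⟩
    · exact ⟨0, 0, 0, 0, fun h => absurd h hb⟩
  choose n ζ c G hG using hex
  have hG0 : ∀ b ∈ S, G b ≠ 0 := by
    intro b hb h0
    refine ((hG b hb).2.2.2.2 0 0).1 ?_
    rw [h0, AddMonoidAlgebra.single_zero, zero_mul]
  obtain ⟨b, hb, N, m₀, q, hN, h1, h2, h3, h4⟩ := hEXL P.coeff.support
    ⌈(∑ k ∈ P.coeff.support, |(P.coeff k : ℝ)|) ^ 2⌉₊ S hSi (fun b hb => hb.1) G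
    (fun b => sp (ζ b) (c b) b P) (fun b hb => ⟨hG0 b hb, (hG b hb).2.2.1, by
      have h := hCNT P (n b) (ζ b) (c b) b (G b) (hG b hb).1 (hG b hb).2.1 (hG b hb).2.2.1
        (hG b hb).2.2.2.1
      have h' := h.trans (Nat.le_ceil _)
      exact_mod_cast h', sp_supp (ζ b) (c b) b P⟩)
  obtain ⟨γ, m, h5⟩ := hTWO P (n b) (ζ b) (c b) b (G b) N m₀ q (hG b hb).1 (hG b hb).2.1 hN
    (hG0 b hb) (hP N hN) (hG b hb).2.2.1 h1 h2 h3 h4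
  rcases h5 with h5 | h5
  · exact ((hG b hb).2.2.2.2 γ m).1 h5
  · exact ((hG b hb).2.2.2.2 γ m).2 h5

/-- The cyclotomic polynomial in a monomial. -/
noncomputable def cyc (n : ℕ) (a : ℤ × ℤ) : AddMonoidAlgebra ℤ (ℤ × ℤ) :=
  aeval (AddMonoidAlgebra.single a (1 : ℤ)) (cyclotomic n ℤ)

theorem evP_cyc {R : Type} [Field R] {x y : R} (hx : x ≠ 0) (hy : y ≠ 0) (n : ℕ) (a : ℤ × ℤ) :
    evP x y (cyc n a) = (cyclotomic n R).eval (x ^ a.1 * y ^ a.2) := by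
  rw [evP_eq' hx hy, cyc, ← aeval_algHom_apply, hP_single, Int.cast_one, one_mul, aeval_def,
    ← eval_map, map_cyclotomic]
  congr 1
  simp

theorem zeta_mem {n : ℕ} (hn : 0 < n) {ζ : ℂ} (hζ : ζ ^ n = 1) : ζ ∈ AB.Cyc n := by
  have : NeZero n := ⟨hn.ne'⟩
  obtain ⟨j, -, hj⟩ := (AB.CBM.prim n hn).eq_pow_of_pow_eq_one hζ
  rw [← hj]
  exact pow_mem (AB.CBM.ze_mem n) j

theorem zeta_int {n : ℕ} (hn : 0 < n) {ζ : ℂ} (hζ : ζ ^ n = 1) (e : ℤ) : IsIntegral ℤ (ζ ^ e) := by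
  refine IsIntegral.of_pow hn ?_
  rw [← zpow_natCast, ← zpow_mul, mul_comm, zpow_mul, zpow_natCast, hζ, one_zpow]
  exact isIntegral_one

theorem sp_int {n : ℕ} (hn : 0 < n) {ζ : ℂ} (hζ : ζ ^ n = 1) (c b : ℤ × ℤ)
    (P : AddMonoidAlgebra ℤ (ℤ × ℤ)) (i : ℤ) :
    (sp ζ c b P).coeff i ∈ AB.Cyc n ∧ IsIntegral ℤ ((sp ζ c b P).coeff i) := by
  rw [sp_coeff]
  constructor
  · refine sum_mem fun k _ => mul_mem (intCast_mem _ _) (zpow_mem (zeta_mem hn hζ) _)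
  · refine IsIntegral.sum _ fun k _ => IsIntegral.mul ?_ (zeta_int hn hζ _)
    exact isIntegral_algebraMap (R := ℤ) (A := ℂ) (x := P.coeff k)

theorem bad_of (hLJU : SpecLJU) (hPTS : SpecPTS) (hCNJ : SpecCNJ) {K : Type} [Field K]
    [Algebra ℚ K] {x y : Kˣ} (hp : Pre K x y) {P : AddMonoidAlgebra ℤ (ℤ × ℤ)}
    (hP0 : evP (x : K) (y : K) P = 0) {r : Kˣ} (hr : evP (x : K)⁻¹ (y : K)⁻¹ P = r)
    {a : ℤ × ℤ} (ha : IsCoprime a.1 a.2) {n : ℕ} (hn : 0 < n) {v w : DVal K} (hgv : GeoF ℚ v)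
    (hgw : GeoF ℚ w) (hvx : v.ord x = 0) (hvy : v.ord y = 0) (hvr : v.ord r = 0)
    (hwx : w.ord x = 0) (hwy : w.ord y = 0) (hwr : w.ord r = 0)
    (hv : Pos v (aeval ((x ^ a.1 * y ^ a.2 : Kˣ) : K) (cyclotomic n ℚ)))
    (hw : Pos w (aeval ((x ^ a.1 * y ^ a.2 : Kˣ) : K) (cyclotomic n ℚ)))
    (hne : ¬ ∀ A : AddMonoidAlgebra ℤ (ℤ × ℤ),
      Pos v (evP (x : K) (y : K) A) ↔ Pos w (evP (x : K) (y : K) A)) :
    Bad P (-a.2, a.1) := by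
  have hcyc : aeval ((x ^ a.1 * y ^ a.2 : Kˣ) : K) (cyclotomic n ℚ) =
      evP (x : K) (y : K) (cyc n a) := by
    rw [evP_cyc x.ne_zero y.ne_zero, aeval_def, ← eval_map, map_cyclotomic]
    congr 1
    push_cast
    rfl
  rw [hcyc] at hv hw
  obtain ⟨u₁, u₂, hu⟩ := ha
  set c : ℤ × ℤ := (u₁, u₂) with hc
  have hca : ip c a = 1 := hu
  obtain ⟨ξ, η, hξ, hη, hξa, hηa, h1⟩ := hPTS K x y hp.toInd v hgv hvx hvy
  obtain ⟨ξ', η', hξ', hη', hξa', hηa', h1'⟩ := hPTS K x y hp.toInd w hgw hwx hwy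
  have hprim : IsPrimitiveRoot (ξ ^ a.1 * η ^ a.2) n := by
    have := (h1 _).2 hv
    rw [evP_cyc hξ hη] at this
    have : NeZero (n : ℂ) := ⟨by exact_mod_cast hn.ne'⟩
    exact isRoot_cyclotomic_iff.1 ‹_›
  have hprim' : IsPrimitiveRoot (ξ' ^ a.1 * η' ^ a.2) n := by
    have := (h1' _).2 hw
    rw [evP_cyc hξ' hη'] at this
    have : NeZero (n : ℂ) := ⟨by exact_mod_cast hn.ne'⟩
    exact isRoot_cyclotomic_iff.1 ‹_›
  obtain ⟨ζ, s₁, s₂, hζ, hs₁, hs₂, h2, h2', h3⟩ := hCNJ n a c hn hca ξ η ξ' η' hξ hη hξ' hη'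
    hξa hηa hξa' hηa' hprim hprim'
  have hζ1 : ζ ^ n = 1 := hζ.pow_eq_one
  have hζ0 : ζ ≠ 0 := hζ.ne_zero hn.ne'
  have hζn : ‖ζ‖ = 1 := Complex.norm_eq_one_of_pow_eq_one hζ1 hn.ne'
  set b : ℤ × ℤ := (-a.2, a.1) with hb
  have e1 : ev1 (sp ζ c b P) s₁ = 0 := by
    rw [ev1_sp hζ0 hs₁]
    refine (h2 P).1 ((h1 P).2 ?_)
    rw [hP0]
    exact Or.inl rfl
  have e2 : ev1 (sp ζ c b P) s₂ = 0 := by
    rw [ev1_sp hζ0 hs₂]
    refine (h2' P).1 ((h1' P).2 ?_)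
    rw [hP0]
    exact Or.inl rfl
  have hnz : ∀ s : ℂ, s ≠ 0 → ζ ^ c.1 * s ^ b.1 ≠ 0 ∧ ζ ^ c.2 * s ^ b.2 ≠ 0 := fun s hs =>
    ⟨mul_ne_zero (zpow_ne_zero _ hζ0) (zpow_ne_zero _ hs),
      mul_ne_zero (zpow_ne_zero _ hζ0) (zpow_ne_zero _ hs)⟩
  have e3 : ev1 (sh ℤ (sp ζ c b P)) s₁ ≠ 0 := by
    rw [ev1_sh_sp hζn hs₁, ← evP_inv (hnz s₁ hs₁).1 (hnz s₁ hs₁).2]
    intro h0
    have h4 := (h1 _).1 ((h2 (inv P)).2 h0)
    rw [evP_inv x.ne_zero y.ne_zero, hr, pos_unit] at h4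
    omega
  have e4 : ev1 (sh ℤ (sp ζ c b P)) s₂ ≠ 0 := by
    rw [ev1_sh_sp hζn hs₂, ← evP_inv (hnz s₂ hs₂).1 (hnz s₂ hs₂).2]
    intro h0
    have h4 := (h1' _).1 ((h2' (inv P)).2 h0)
    rw [evP_inv x.ne_zero y.ne_zero, hr, pos_unit] at h4
    omega
  have e5 : minpoly (AB.Cyc n) s₁ ≠ minpoly (AB.Cyc n) s₂ := by
    intro h0
    exact hne fun A => ((h1 A).symm.trans (h3 h0 A)).trans (h1' A)
  obtain ⟨G, hG1, hG2, hG3⟩ := hLJU n (sp ζ c b P) s₁ s₂ hn (sp_int hn hζ1 c b P) hs₁ hs₂ e1 e2 e5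
    e3 e4
  exact ⟨n, ζ, c, G, hn, hζ1, hG1, hG2, hG3⟩

end PU2M

open PU2M BAS

theorem specPU2 (hLJU : SpecLJU) (hCNT : SpecCNT) (hEXL : SpecEXL) (hTWO : SpecTWO)
    (hEQN : SpecEQN) (hKUM : SpecKUM) (hPTS : SpecPTS) (hUNQ : SpecUNQ) (hCNJ : SpecCNJ)
    (hFNV : SpecFNV) : SpecPU2 := by
  intro K _ _ x y hp
  obtain ⟨P, hP, hP0, hPi', hPd⟩ := hEQN K x y hp.toPre.toInd
  have hPi := hPi' hp.asym
  have hprime := hKUM K x y hp.toPre P hP hP0 hPd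
  have hfin := bad_finite hCNT hEXL hTWO P hprime
  obtain ⟨c, hc⟩ := hUNQ K x y hp.toPre.toInd
  set r : Kˣ := Units.mk0 _ hPi with hr
  have hsf : ∀ f : Kˣ, {v : DVal K | GeoF ℚ v ∧ v.ord f ≠ 0}.Finite :=
    ASMM.supp_finite hFNV (x : K) hp.fin
  have hinj : Function.Injective fun a : ℤ × ℤ => ((-a.2, a.1) : ℤ × ℤ) := by
    rintro ⟨a, b⟩ ⟨a', b'⟩ h
    simp only [Prod.mk.injEq, neg_inj] at h
    rw [h.1, h.2]
  refine ⟨({v | GeoF ℚ v ∧ v.ord x ≠ 0} ∪ {v | GeoF ℚ v ∧ v.ord y ≠ 0}) ∪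
    ({v | GeoF ℚ v ∧ v.ord c ≠ 0} ∪ {v | GeoF ℚ v ∧ v.ord r ≠ 0}),
    (fun a : ℤ × ℤ => ((-a.2, a.1) : ℤ × ℤ)) ⁻¹' {b : ℤ × ℤ | IsCoprime b.1 b.2 ∧ Bad P b},
    ((hsf x).union (hsf y)).union ((hsf c).union (hsf r)), hfin.preimage hinj.injOn, ?_, ?_⟩
  · rintro v ((h | h) | (h | h)) <;> exact h.1
  · intro a ha haT n hn v w hgv hgw hvS hwS hv hw
    by_contra hvw
    have hv' : v.ord x = 0 ∧ v.ord y = 0 ∧ v.ord c = 0 ∧ v.ord r = 0 := by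
      refine ⟨?_, ?_, ?_, ?_⟩ <;> by_contra h0 <;> apply hvS
      · exact Or.inl (Or.inl ⟨hgv, h0⟩)
      · exact Or.inl (Or.inr ⟨hgv, h0⟩)
      · exact Or.inr (Or.inl ⟨hgv, h0⟩)
      · exact Or.inr (Or.inr ⟨hgv, h0⟩)
    have hw' : w.ord x = 0 ∧ w.ord y = 0 ∧ w.ord c = 0 ∧ w.ord r = 0 := by
      refine ⟨?_, ?_, ?_, ?_⟩ <;> by_contra h0 <;> apply hwS
      · exact Or.inl (Or.inl ⟨hgw, h0⟩)
      · exact Or.inl (Or.inr ⟨hgw, h0⟩)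
      · exact Or.inr (Or.inl ⟨hgw, h0⟩)
      · exact Or.inr (Or.inr ⟨hgw, h0⟩)
    apply haT
    refine ⟨?_, ?_⟩
    · show IsCoprime (-a.2) a.1
      exact ha.symm.neg_left
    · refine bad_of hLJU hPTS hCNJ hp.toPre hP0 (r := r) rfl ha hn hgv hgw hv'.1 hv'.2.1 hv'.2.2.2
        hw'.1 hw'.2.1 hw'.2.2.2 hv hw ?_
      intro h
      exact hvw (hc v w hgv hgw hv'.1 hv'.2.1 hv'.2.2.1 hw'.1 hw'.2.1 hw'.2.2.1 h)

end MP743d1e.RT
end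

section
/-!
# Module PU3: the reciprocal case, invariance of the points with `x ^ a y ^ b` a root of unity
-/
set_option autoImplicit false

namespace MP743d1e.RT

open scoped BigOperators
open Polynomial IntermediateField MP743d1e.CY MP743d1e.Integ
open Pool.Agent.Lib.MPcb8a44

namespace PU3M

open BAS TWOM

/-! ## The equation is reciprocal -/

theorem PN_one_sh (P : AddMonoidAlgebra ℤ (ℤ × ℤ)) :
    PN 1 (inv P) = sh (ℤ × ℤ) (PN 1 P) := by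
  induction P using AddMonoidAlgebra.induction_linear with
  | zero => simp [PN, inv]
  | add P Q hP hQ =>
    have h1 : inv (P + Q) = inv P + inv Q := by unfold inv; rw [map_add]
    rw [h1, PN_add, PN_add, map_add, hP, hQ]
  | single k z =>
    have h1 : inv (AddMonoidAlgebra.single k z) = AddMonoidAlgebra.single (-k) z := by
      simp [inv]
    rw [h1, PN_single, PN_single, sh_single, map_intCast, smul_neg]

theorem PN_mul (N : ℕ) (P Q : AddMonoidAlgebra ℤ (ℤ × ℤ)) :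
    PN N (P * Q) = PN N P * PN N Q := by
  unfold PN
  rw [map_mul, map_mul]

theorem recip (P : AddMonoidAlgebra ℤ (ℤ × ℤ)) (hP : PN 1 P ≠ 0) {m : ℤ} (hm : m ≠ 0)
    (hd : P ∣ (m : AddMonoidAlgebra ℤ (ℤ × ℤ)) * inv P) :
    ∃ (μ : ℤ × ℤ) (γ : ℂ), sh (ℤ × ℤ) (PN 1 P) = AddMonoidAlgebra.single μ γ * PN 1 P := by
  obtain ⟨A, hA⟩ := hd
  have hmC : (m : ℂ) ≠ 0 := by exact_mod_cast hm
  have hcast : PN 1 (m : AddMonoidAlgebra ℤ (ℤ × ℤ)) = AddMonoidAlgebra.single 0 (m : ℂ) := by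
    have h1 : (m : AddMonoidAlgebra ℤ (ℤ × ℤ)) = AddMonoidAlgebra.single 0 m := by
      rw [AddMonoidAlgebra.intCast_def]
      rfl
    rw [h1, PN_single, smul_zero]
  have h1 := congrArg (PN 1) hA
  rw [PN_mul, PN_mul, PN_one_sh, hcast] at h1
  -- `single 0 m * sh Q = Q * A`
  set Q := PN 1 P with hQ
  set B := PN 1 A with hB
  have h2 := congrArg (sh (ℤ × ℤ)) h1
  rw [map_mul, map_mul, sh_sh, sh_single, neg_zero, map_intCast] at h2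
  -- `single 0 m * Q = sh Q * sh B`
  have h3 : Q * (AddMonoidAlgebra.single 0 (m : ℂ) * AddMonoidAlgebra.single 0 (m : ℂ)) =
      Q * (B * sh (ℤ × ℤ) B) := by
    calc Q * (AddMonoidAlgebra.single 0 (m : ℂ) * AddMonoidAlgebra.single 0 (m : ℂ))
        = AddMonoidAlgebra.single 0 (m : ℂ) * (AddMonoidAlgebra.single 0 (m : ℂ) * Q) := by ring
      _ = (AddMonoidAlgebra.single 0 (m : ℂ) * sh (ℤ × ℤ) Q) * sh (ℤ × ℤ) B := by
          rw [h2]; ring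
      _ = Q * (B * sh (ℤ × ℤ) B) := by rw [h1]; ring
  have h4 := mul_left_cancel₀ hP h3
  set ι : AddMonoidAlgebra ℂ (ℤ × ℤ) := AddMonoidAlgebra.single 0 ((m : ℂ)⁻¹) with hι
  have hιm : ι * AddMonoidAlgebra.single 0 (m : ℂ) = 1 := by
    rw [hι, AddMonoidAlgebra.single_mul_single, inv_mul_cancel₀ hmC, add_zero,
      AddMonoidAlgebra.one_def]
  have h5 : (ι * B) * (ι * sh (ℤ × ℤ) B) = 1 := by
    calc (ι * B) * (ι * sh (ℤ × ℤ) B) = ι * ι * (B * sh (ℤ × ℤ) B) := by ring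
      _ = ι * ι * (AddMonoidAlgebra.single 0 (m : ℂ) * AddMonoidAlgebra.single 0 (m : ℂ)) := by
          rw [h4]
      _ = (ι * AddMonoidAlgebra.single 0 (m : ℂ)) * (ι * AddMonoidAlgebra.single 0 (m : ℂ)) := by
          ring
      _ = 1 := by rw [hιm, one_mul]
  obtain ⟨μ, γ, hμ⟩ := unit_single h5
  refine ⟨μ, γ, ?_⟩
  calc sh (ℤ × ℤ) Q = (ι * AddMonoidAlgebra.single 0 (m : ℂ)) * sh (ℤ × ℤ) Q := by
        rw [hιm, one_mul]
    _ = ι * (AddMonoidAlgebra.single 0 (m : ℂ) * sh (ℤ × ℤ) Q) := by ring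
    _ = ι * B * Q := by rw [h1]; ring
    _ = AddMonoidAlgebra.single μ γ * Q := by rw [hμ]

theorem up_one (A : AddMonoidAlgebra ℂ ℤ) : up 1 A = A := by
  induction A using AddMonoidAlgebra.induction_linear with
  | zero => rw [map_zero]
  | add P Q hP hQ => rw [map_add, hP, hQ]
  | single k z => rw [up_single, Nat.cast_one, one_mul]

theorem F_PN_one {ζ : ℂ} (hζ : ζ ≠ 0) (c b : ℤ × ℤ) (P : AddMonoidAlgebra ℤ (ℤ × ℤ)) :
    F ζ hζ c b (PN 1 P) = sp ζ c b P := by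
  rw [F_PN hζ 1 (pow_one ζ), up_one]

theorem sh_sp {ζ : ℂ} (hζ : ζ ≠ 0) (hn : ‖ζ‖ = 1) (c b : ℤ × ℤ)
    (P : AddMonoidAlgebra ℤ (ℤ × ℤ)) {μ : ℤ × ℤ} {γ : ℂ}
    (h : sh (ℤ × ℤ) (PN 1 P) = AddMonoidAlgebra.single μ γ * PN 1 P) :
    sh ℤ (sp ζ c b P) = AddMonoidAlgebra.single (ip b μ) (γ * ζ ^ ip c μ) * sp ζ c b P := by
  rw [← F_PN_one hζ, ← F_sh hζ hn, h, map_mul, F_single]

/-! ## The restriction to the coset is not zero -/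

theorem ip_zero_finite {d : ℤ × ℤ} (hd : d ≠ 0) :
    {b : ℤ × ℤ | IsCoprime b.1 b.2 ∧ ip b d = 0}.Finite := by
  have hbox : (Set.Icc (-(|d.1| + |d.2|)) (|d.1| + |d.2|) ×ˢ
      Set.Icc (-(|d.1| + |d.2|)) (|d.1| + |d.2|) : Set (ℤ × ℤ)).Finite :=
    (Set.finite_Icc _ _).prod (Set.finite_Icc _ _)
  refine hbox.subset ?_
  rintro ⟨b₁, b₂⟩ ⟨hco, h⟩
  have h' : b₁ * d.1 + b₂ * d.2 = 0 := h
  have hco' : IsCoprime b₁ b₂ := hco
  have h1 : b₁ ∣ d.2 := by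
    apply hco'.dvd_of_dvd_mul_left
    exact ⟨-d.1, by linarith⟩
  have h2 : b₂ ∣ d.1 := by
    apply hco'.symm.dvd_of_dvd_mul_left
    exact ⟨-d.2, by linarith⟩
  have hd' : 1 ≤ |d.1| + |d.2| := by
    by_contra h0
    apply hd
    have e1 := abs_nonneg d.1
    have e2 := abs_nonneg d.2
    have e3 : |d.1| = 0 := by omega
    have e4 : |d.2| = 0 := by omega
    exact Prod.ext (abs_eq_zero.1 e3) (abs_eq_zero.1 e4)
  have hb1 : |b₁| ≤ |d.1| + |d.2| := by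
    by_cases h0 : d.2 = 0
    · -- `b₁ d₁ = 0`, so `b₁ = 0`
      have h3 : d.1 ≠ 0 := fun h3 => hd (Prod.ext h3 h0)
      rw [h0, mul_zero, add_zero] at h'
      have h4 : b₁ = 0 := (mul_eq_zero.1 h').resolve_right h3
      rw [h4, abs_zero]
      positivity
    · have := Int.le_of_dvd (abs_pos.2 h0) ((abs_dvd_abs _ _).2 h1)
      have := abs_nonneg d.1
      omega
  have hb2 : |b₂| ≤ |d.1| + |d.2| := by
    by_cases h0 : d.1 = 0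
    · have h3 : d.2 ≠ 0 := fun h3 => hd (Prod.ext h0 h3)
      rw [h0, mul_zero, zero_add] at h'
      have h4 : b₂ = 0 := (mul_eq_zero.1 h').resolve_right h3
      rw [h4, abs_zero]
      positivity
    · have := Int.le_of_dvd (abs_pos.2 h0) ((abs_dvd_abs _ _).2 h2)
      have := abs_nonneg d.2
      omega
  exact ⟨abs_le.1 hb1, abs_le.1 hb2⟩

theorem sp_ne_zero {P : AddMonoidAlgebra ℤ (ℤ × ℤ)} (hP : P ≠ 0) {ζ : ℂ} (hζ : ζ ≠ 0)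
    (c b : ℤ × ℤ) (hb : ∀ k ∈ P.coeff.support, ∀ l ∈ P.coeff.support, ip b k = ip b l → k = l) :
    sp ζ c b P ≠ 0 := by
  classical
  have h0 : P.coeff.support.Nonempty := by
    rw [Finsupp.support_nonempty_iff]
    intro h0
    apply hP
    ext k
    rw [h0]
    rfl
  obtain ⟨k, hk⟩ := h0
  intro h
  have h1 := sp_coeff ζ c b P (ip b k)
  rw [h] at h1
  have h2 : ∑ l ∈ P.coeff.support with ip b l = ip b k, (P.coeff l : ℂ) * ζ ^ ip c l =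
      (P.coeff k : ℂ) * ζ ^ ip c k := by
    refine Finset.sum_eq_single_of_mem k (Finset.mem_filter.2 ⟨hk, rfl⟩) ?_
    intro l hl hlk
    rw [Finset.mem_filter] at hl
    exact absurd (hb l hl.1 k hk hl.2) hlk
  rw [h2] at h1
  have h3 : (P.coeff k : ℂ) ≠ 0 := by
    exact_mod_cast Finsupp.mem_support_iff.1 hk
  exact mul_ne_zero h3 (zpow_ne_zero _ hζ) h1.symm

theorem small_finite (P : AddMonoidAlgebra ℤ (ℤ × ℤ)) :
    {b : ℤ × ℤ | IsCoprime b.1 b.2 ∧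
      ¬ ∀ k ∈ P.coeff.support, ∀ l ∈ P.coeff.support, ip b k = ip b l → k = l}.Finite := by
  classical
  have h1 : (⋃ k ∈ P.coeff.support, ⋃ l ∈ P.coeff.support,
      {b : ℤ × ℤ | k ≠ l ∧ IsCoprime b.1 b.2 ∧ ip b (k - l) = 0}).Finite := by
    refine Set.Finite.biUnion (Finset.finite_toSet _) fun k _ => ?_
    refine Set.Finite.biUnion (Finset.finite_toSet _) fun l _ => ?_
    by_cases hkl : k = l
    · convert Set.finite_empty (α := ℤ × ℤ)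
      ext b
      simp [hkl]
    · refine (ip_zero_finite (sub_ne_zero.2 hkl)).subset ?_
      rintro b ⟨-, h1, h2⟩
      exact ⟨h1, h2⟩
  refine h1.subset ?_
  rintro b ⟨hco, hb⟩
  push Not at hb
  obtain ⟨k, hk, l, hl, h2, h3⟩ := hb
  simp only [Set.mem_iUnion]
  exact ⟨k, hk, l, hl, h3, hco, by rw [ip_sub, h2, sub_self]⟩

/-! ## The points -/

section Pt

variable {K : Type} [Field K] [Algebra ℚ K]

/-- The image of a unit. -/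
noncomputable def um (σ : K ≃ₐ[ℚ] K) : Kˣ →* Kˣ := Units.map (σ : K →* K)

theorem um_val (σ : K ≃ₐ[ℚ] K) (u : Kˣ) : ((um σ u : Kˣ) : K) = σ u := rfl

/-- The image of a point. -/
noncomputable def dm (σ : K ≃ₐ[ℚ] K) (v : DVal K) : DVal K where
  ord u := v.ord (um σ u)
  ord_mul f g := by rw [map_mul, v.ord_mul]
  surj z := by
    obtain ⟨u, hu⟩ := v.surj z
    refine ⟨um σ.symm u, ?_⟩
    have : um σ (um σ.symm u) = u := by
      apply Units.ext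
      rw [um_val, um_val, AlgEquiv.apply_symm_apply]
    show v.ord (um σ (um σ.symm u)) = z
    rw [this, hu]
  ord_add f g h hfg := by
    refine v.ord_add (um σ f) (um σ g) (um σ h) ?_
    rw [um_val, um_val, um_val, ← map_add, hfg]

theorem dm_ord (σ : K ≃ₐ[ℚ] K) (v : DVal K) (u : Kˣ) : (dm σ v).ord u = v.ord (um σ u) := rfl

theorem dm_geo {σ : K ≃ₐ[ℚ] K} {v : DVal K} (hv : GeoF ℚ v) : GeoF ℚ (dm σ v) := by
  rintro c ⟨r, hr⟩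
  rw [dm_ord]
  refine hv _ ⟨r, ?_⟩
  rw [um_val, hr, AlgEquiv.commutes]

theorem dm_pos (σ : K ≃ₐ[ℚ] K) (v : DVal K) (z : K) : Pos (dm σ v) z ↔ Pos v (σ z) := by
  constructor
  · rintro (h | ⟨u, rfl, h⟩)
    · left
      rw [h, map_zero]
    · exact Or.inr ⟨um σ u, rfl, h⟩
  · rintro (h | ⟨u, hu, h⟩)
    · left
      exact (map_eq_zero σ).1 h
    · have hz : z ≠ 0 := by
        rintro rfl
        rw [map_zero] at hu
        exact u.ne_zero hu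
      refine Or.inr ⟨Units.mk0 z hz, rfl, ?_⟩
      rw [dm_ord]
      have : um σ (Units.mk0 z hz) = u := Units.ext hu.symm
      rwa [this]

theorem map_evP' (σ : K ≃ₐ[ℚ] K) {x y : Kˣ} (hx : σ x = (x : K)⁻¹) (hy : σ y = (y : K)⁻¹)
    (A : AddMonoidAlgebra ℤ (ℤ × ℤ)) :
    σ (evP (x : K) (y : K) A) = evP (x : K) (y : K) (inv A) := by
  rw [evP_inv x.ne_zero y.ne_zero, ← hx, ← hy]
  exact map_evP (σ : K →+* K) _ _ A

theorem um_x {σ : K ≃ₐ[ℚ] K} {x : Kˣ} (hx : σ x = (x : K)⁻¹) : um σ x = x⁻¹ := by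
  apply Units.ext
  rw [um_val, hx, Units.val_inv_eq_inv_val]

end Pt

/-- A root of a Laurent polynomial is algebraic. -/
theorem alg_of_ev1 (L : IntermediateField ℚ ℂ) (A : AddMonoidAlgebra ℂ ℤ) (hA : A ≠ 0)
    (hc : ∀ i, A.coeff i ∈ L) {s : ℂ} (hs : s ≠ 0) (h : ev1 A s = 0) : IsAlgebraic L s := by
  classical
  have h0 : A.coeff.support.Nonempty := by
    rw [Finsupp.support_nonempty_iff]
    intro h0
    apply hA
    ext k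
    rw [h0]
    rfl
  obtain ⟨i₀, hi₀⟩ := h0
  obtain ⟨N, hN⟩ : ∃ N : ℤ, ∀ i ∈ A.coeff.support, 0 ≤ i + N := by
    refine ⟨∑ i ∈ A.coeff.support, |i|, fun i hi => ?_⟩
    have h1 : |i| ≤ ∑ i ∈ A.coeff.support, |i| :=
      Finset.single_le_sum (f := fun i : ℤ => |i|) (fun j _ => abs_nonneg j) hi
    have h2 := neg_abs_le i
    linarith
  set p : L[X] := ∑ i ∈ A.coeff.support, monomial (i + N).toNat (⟨A.coeff i, hc i⟩ : L) with hp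
  refine ⟨p, ?_, ?_⟩
  · intro hp0
    have h1 : p.coeff (i₀ + N).toNat = (⟨A.coeff i₀, hc i₀⟩ : L) := by
      rw [hp, finsetSum_coeff, Finset.sum_eq_single_of_mem i₀ hi₀]
      · rw [coeff_monomial, if_pos rfl]
      · intro j hj hji
        rw [coeff_monomial, if_neg]
        intro h2
        apply hji
        have h3 := hN j hj
        have h4 := hN i₀ hi₀
        have h5 : j + N = i₀ + N := by
          rw [← Int.toNat_of_nonneg h3, ← Int.toNat_of_nonneg h4, h2]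
        linarith
    rw [hp0, coeff_zero] at h1
    have h2 : A.coeff i₀ = 0 := (congrArg Subtype.val h1).symm
    exact Finsupp.mem_support_iff.1 hi₀ h2
  · have h1 : aeval s p = s ^ N * ev1 A s := by
      rw [hp, map_sum, ev1, Finsupp.sum, Finset.mul_sum]
      refine Finset.sum_congr rfl fun i hi => ?_
      rw [aeval_monomial]
      show A.coeff i * s ^ (i + N).toNat = _
      rw [← zpow_natCast, Int.toNat_of_nonneg (hN i hi), zpow_add₀ hs]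
      ring
    rw [h1, h, mul_zero]

/-- Points on the coset with the same minimal polynomial. -/
theorem coset_iff {n : ℕ} {ζ s s' : ℂ} (hn : 0 < n) (hζ : ζ ^ n = 1)
    (hint : IsIntegral (AB.Cyc n) s)
    (h : minpoly (AB.Cyc n) s = minpoly (AB.Cyc n) s') (c b : ℤ × ℤ)
    (A : AddMonoidAlgebra ℤ (ℤ × ℤ)) :
    evP (ζ ^ c.1 * s ^ b.1) (ζ ^ c.2 * s ^ b.2) A = 0 ↔
      evP (ζ ^ c.1 * s' ^ b.1) (ζ ^ c.2 * s' ^ b.2) A = 0 := by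
  have hK2 : ∀ t ∈ ({s} : Set ℂ), IsIntegral (AB.Cyc n) t ∧
      ((minpoly (AB.Cyc n) t).map (algebraMap (AB.Cyc n) ℂ)).Splits := by
    intro t ht
    rw [Set.mem_singleton_iff] at ht
    subst ht
    exact ⟨hint, CNJM.splits _⟩
  obtain ⟨ψ, hψ⟩ := exists_algHom_adjoin_of_splits_of_aeval (K := ℂ) hK2
    (mem_adjoin_simple_self (AB.Cyc n) s) (y := s') (by rw [h]; exact minpoly.aeval _ _)
  have hze : ζ ∈ AB.Cyc n := PU2M.zeta_mem hn hζ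
  let Z : (AB.Cyc n)⟮s⟯ := algebraMap (AB.Cyc n) _ (⟨ζ, hze⟩ : AB.Cyc n)
  let T : (AB.Cyc n)⟮s⟯ := ⟨s, mem_adjoin_simple_self (AB.Cyc n) _⟩
  have hψZ : ψ Z = ζ := ψ.commutes _
  have hψT : ψ T = s' := hψ
  have key := CNJM.transfer (adjoin (AB.Cyc n) {s}) ψ.toRingHom
    (Z ^ c.1 * T ^ b.1) (Z ^ c.2 * T ^ b.2) A
  have e1 : ψ.toRingHom (Z ^ c.1 * T ^ b.1) = ζ ^ c.1 * s' ^ b.1 := by
    change ψ (Z ^ c.1 * T ^ b.1) = _
    rw [map_mul, map_zpow₀, map_zpow₀, hψZ, hψT]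
  have e2 : ψ.toRingHom (Z ^ c.2 * T ^ b.2) = ζ ^ c.2 * s' ^ b.2 := by
    change ψ (Z ^ c.2 * T ^ b.2) = _
    rw [map_mul, map_zpow₀, map_zpow₀, hψZ, hψT]
  rw [e1, e2] at key
  exact key

/-- The value at `1 / conj s`. -/
theorem evP_conj {ζ s : ℂ} (hζ : ‖ζ‖ = 1) (hs : s ≠ 0) (c b : ℤ × ℤ)
    (A : AddMonoidAlgebra ℤ (ℤ × ℤ)) :
    evP (ζ ^ c.1 * (((starRingEnd ℂ) s)⁻¹) ^ b.1) (ζ ^ c.2 * (((starRingEnd ℂ) s)⁻¹) ^ b.2) A =
      (starRingEnd ℂ) (evP (ζ ^ c.1 * s ^ b.1) (ζ ^ c.2 * s ^ b.2) (inv A)) := by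
  have hζ0 : ζ ≠ 0 := by
    intro h
    rw [h, norm_zero] at hζ
    exact zero_ne_one hζ
  have h1 : ζ ^ c.1 * s ^ b.1 ≠ 0 := mul_ne_zero (zpow_ne_zero _ hζ0) (zpow_ne_zero _ hs)
  have h2 : ζ ^ c.2 * s ^ b.2 ≠ 0 := mul_ne_zero (zpow_ne_zero _ hζ0) (zpow_ne_zero _ hs)
  rw [evP_inv h1 h2, map_evP]
  have key : ∀ i j : ℤ, (starRingEnd ℂ) (ζ ^ i * s ^ j)⁻¹ =
      ζ ^ i * (((starRingEnd ℂ) s)⁻¹) ^ j := by
    intro i j
    rw [map_inv₀, map_mul, map_zpow₀, map_zpow₀, conj_inv hζ, mul_inv, inv_zpow, inv_inv,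
      inv_zpow]
  rw [key, key]

theorem fixed (hLJR : SpecLJR) (hPTS : SpecPTS) (hCNJ : SpecCNJ) {K : Type} [Field K]
    [Algebra ℚ K] {x y : Kˣ} {σ : K ≃ₐ[ℚ] K} (hp : Pre K x y) (hx : σ x = (x : K)⁻¹)
    (hy : σ y = (y : K)⁻¹) {P : AddMonoidAlgebra ℤ (ℤ × ℤ)}
    (hP0 : evP (x : K) (y : K) P = 0) (hP : P ≠ 0) {μ : ℤ × ℤ} {γ : ℂ}
    (hre : sh (ℤ × ℤ) (PN 1 P) = AddMonoidAlgebra.single μ γ * PN 1 P)
    {a : ℤ × ℤ} (ha : IsCoprime a.1 a.2) {n : ℕ} (hn : 0 < n) {v : DVal K} (hgv : GeoF ℚ v)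
    (hvx : v.ord x = 0) (hvy : v.ord y = 0)
    (hv : Pos v (aeval ((x ^ a.1 * y ^ a.2 : Kˣ) : K) (cyclotomic n ℚ)))
    (hsm : ∀ k ∈ P.coeff.support, ∀ l ∈ P.coeff.support,
      ip (-a.2, a.1) k = ip (-a.2, a.1) l → k = l)
    (hne : ¬ ∀ A : AddMonoidAlgebra ℤ (ℤ × ℤ),
      Pos v (evP (x : K) (y : K) A) ↔ Pos (dm σ v) (evP (x : K) (y : K) A)) :
    PU2M.Bad P (-a.2, a.1) := by
  have hcyc : aeval ((x ^ a.1 * y ^ a.2 : Kˣ) : K) (cyclotomic n ℚ) =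
      evP (x : K) (y : K) (PU2M.cyc n a) := by
    rw [PU2M.evP_cyc x.ne_zero y.ne_zero, aeval_def, ← eval_map, map_cyclotomic]
    congr 1
    push_cast
    rfl
  rw [hcyc] at hv
  obtain ⟨u₁, u₂, hu⟩ := ha
  set c : ℤ × ℤ := (u₁, u₂) with hc
  have hca : ip c a = 1 := hu
  obtain ⟨ξ, η, hξ, hη, hξa, hηa, h1⟩ := hPTS K x y hp.toInd v hgv hvx hvy
  have hprim : IsPrimitiveRoot (ξ ^ a.1 * η ^ a.2) n := by
    have := (h1 _).2 hv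
    rw [PU2M.evP_cyc hξ hη] at this
    have : NeZero (n : ℂ) := ⟨by exact_mod_cast hn.ne'⟩
    exact isRoot_cyclotomic_iff.1 ‹_›
  obtain ⟨ζ, s, -, hζ, hs, -, h2, -, -⟩ := hCNJ n a c hn hca ξ η ξ η hξ hη hξ hη
    hξa hηa hξa hηa hprim hprim
  have hζ1 : ζ ^ n = 1 := hζ.pow_eq_one
  have hζ0 : ζ ≠ 0 := hζ.ne_zero hn.ne'
  have hζn : ‖ζ‖ = 1 := Complex.norm_eq_one_of_pow_eq_one hζ1 hn.ne'
  set b : ℤ × ℤ := (-a.2, a.1) with hb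
  set s' : ℂ := ((starRingEnd ℂ) s)⁻¹ with hs'
  have hs'0 : s' ≠ 0 := inv_ne_zero ((_root_.map_ne_zero _).2 hs)
  have hf : sp ζ c b P ≠ 0 := sp_ne_zero hP hζ0 c b hsm
  have e1 : ev1 (sp ζ c b P) s = 0 := by
    rw [ev1_sp hζ0 hs]
    refine (h2 P).1 ((h1 P).2 ?_)
    rw [hP0]
    exact Or.inl rfl
  -- `s` is algebraic
  have hint : IsIntegral (AB.Cyc n) s :=
    (alg_of_ev1 (AB.Cyc n) _ hf (fun i => (PU2M.sp_int hn hζ1 c b P i).1) hs e1).isIntegral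
  have e5 : minpoly (AB.Cyc n) s ≠ minpoly (AB.Cyc n) s' := by
    intro h0
    apply hne
    intro A
    rw [← h1 A, h2 A, dm_pos, map_evP' σ hx hy, ← h1 (inv A), h2 (inv A)]
    rw [coset_iff hn hζ1 hint h0 c b A, evP_conj hζn hs c b A]
    exact map_eq_zero _
  obtain ⟨G, hG1, hG2, hG3⟩ := hLJR n (sp ζ c b P) s (γ * ζ ^ ip c μ) (ip b μ) hn
    (PU2M.sp_int hn hζ1 c b P) hf hs e1 (sh_sp hζ0 hζn c b P hre) e5
  exact ⟨n, ζ, c, G, hn, hζ1, hG1, hG2, hG3⟩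

end PU3M

open PU2M PU3M BAS

theorem specPU3 (hLJR : SpecLJR) (hCNT : SpecCNT) (hEXL : SpecEXL) (hTWO : SpecTWO)
    (hEQN : SpecEQN) (hKUM : SpecKUM) (hPTS : SpecPTS) (hUNQ : SpecUNQ) (hCNJ : SpecCNJ)
    (hFNV : SpecFNV) : SpecPU3 := by
  intro K _ _ x y σ hp hx hy
  obtain ⟨P, hP, hP0, -, hPd⟩ := hEQN K x y hp.toInd
  have hprime := hKUM K x y hp P hP hP0 hPd
  have hfin := bad_finite hCNT hEXL hTWO P hprime
  obtain ⟨c, hc⟩ := hUNQ K x y hp.toInd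
  obtain ⟨m, hm, hd⟩ := hPd (inv P) (by
    rw [← map_evP' σ hx hy, hP0, map_zero])
  obtain ⟨μ, γ, hre⟩ := recip P (hprime 1 one_pos).ne_zero hm hd
  have hsf : ∀ f : Kˣ, {v : DVal K | GeoF ℚ v ∧ v.ord f ≠ 0}.Finite :=
    ASMM.supp_finite hFNV (x : K) hp.fin
  have hinj : Function.Injective fun a : ℤ × ℤ => ((-a.2, a.1) : ℤ × ℤ) := by
    rintro ⟨a, b⟩ ⟨a', b'⟩ h
    simp only [Prod.mk.injEq, neg_inj] at h
    rw [h.1, h.2]
  refine ⟨({v | GeoF ℚ v ∧ v.ord x ≠ 0} ∪ {v | GeoF ℚ v ∧ v.ord y ≠ 0}) ∪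
    ({v | GeoF ℚ v ∧ v.ord c ≠ 0} ∪ {v | GeoF ℚ v ∧ v.ord (um σ c) ≠ 0}),
    (fun a : ℤ × ℤ => ((-a.2, a.1) : ℤ × ℤ)) ⁻¹' ({b : ℤ × ℤ | IsCoprime b.1 b.2 ∧ Bad P b} ∪
      {b : ℤ × ℤ | IsCoprime b.1 b.2 ∧
      ¬ ∀ k ∈ P.coeff.support, ∀ l ∈ P.coeff.support, ip b k = ip b l → k = l}),
    ((hsf x).union (hsf y)).union ((hsf c).union (hsf (um σ c))),
    (hfin.union (small_finite P)).preimage hinj.injOn, ?_, ?_⟩
  · rintro v ((h | h) | (h | h)) <;> exact h.1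
  · intro a ha haT n hn v hgv hvS hv u w hw
    have hv' : v.ord x = 0 ∧ v.ord y = 0 ∧ v.ord c = 0 ∧ v.ord (um σ c) = 0 := by
      refine ⟨?_, ?_, ?_, ?_⟩ <;> by_contra h0 <;> apply hvS
      · exact Or.inl (Or.inl ⟨hgv, h0⟩)
      · exact Or.inl (Or.inr ⟨hgv, h0⟩)
      · exact Or.inr (Or.inl ⟨hgv, h0⟩)
      · exact Or.inr (Or.inr ⟨hgv, h0⟩)
    have hdm : dm σ v = v := by
      by_contra hne
      have hco : IsCoprime (-a.2) a.1 := ha.symm.neg_left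
      have hsm : ∀ k ∈ P.coeff.support, ∀ l ∈ P.coeff.support,
          ip (-a.2, a.1) k = ip (-a.2, a.1) l → k = l := by
        by_contra h0
        exact haT (Or.inr ⟨hco, h0⟩)
      apply haT
      left
      refine ⟨hco, ?_⟩
      refine fixed hLJR hPTS hCNJ hp hx hy hP0 hP hre ha hn hgv hv'.1 hv'.2.1 hv hsm ?_
      intro h
      apply hne
      refine (hc v (dm σ v) hgv (dm_geo hgv) hv'.1 hv'.2.1 hv'.2.2.1 ?_ ?_ hv'.2.2.2 h).symm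
      · rw [dm_ord, um_x hx, v.ord_inv, hv'.1, neg_zero]
      · rw [dm_ord, um_x hy, v.ord_inv, hv'.2.1, neg_zero]
    have hw' : w = um σ u := Units.ext hw
    rw [hw', ← dm_ord, hdm]

end MP743d1e.RT
end

section
/-!
# CN2: conjugation
-/
set_option autoImplicit false

namespace MP743d1e.RT

open scoped BigOperators
open Polynomial IntermediateField MP743d1e.CY MP743d1e.Integ
open Pool.Agent.Lib.MPcb8a44

open CNJM in
theorem specCN2 : SpecCN2 := by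
  intro p a ξ η ξ' η' hp hξ hη hξ' hη' iξ iη iξ' iη' h h'
  have hK : ∀ s ∈ ({ξ', η'} : Set ℂ), IsIntegral ℚ s ∧
      ((minpoly ℚ s).map (algebraMap ℚ ℂ)).Splits := by
    intro s hs
    rcases hs with rfl | hs
    · exact ⟨iξ'.isIntegral, splits _⟩
    · rw [Set.mem_singleton_iff] at hs
      subst hs
      exact ⟨iη'.isIntegral, splits _⟩
  set E : IntermediateField ℚ ℂ := adjoin ℚ ({ξ', η'} : Set ℂ) with hE
  have mξ : ξ' ∈ E := subset_adjoin _ _ (by simp)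
  have mη : η' ∈ E := subset_adjoin _ _ (by simp)
  let X : E := ⟨ξ', mξ⟩
  let Y : E := ⟨η', mη⟩
  have hX : X ≠ 0 := fun h => hξ' (congrArg Subtype.val h)
  have hY : Y ≠ 0 := fun h => hη' (congrArg Subtype.val h)
  have mz : ξ' ^ a.1 * η' ^ a.2 ∈ E := mul_mem (zpow_mem mξ _) (zpow_mem mη _)
  have hmin : minpoly ℚ (ξ' ^ a.1 * η' ^ a.2) = minpoly ℚ (ξ ^ a.1 * η ^ a.2) := by
    rw [← minpoly.eq_of_irreducible hp h', ← minpoly.eq_of_irreducible hp h]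
  obtain ⟨φ, hφ⟩ := exists_algHom_adjoin_of_splits_of_aeval (K := ℂ) hK mz
    (y := ξ ^ a.1 * η ^ a.2) (by rw [hmin]; exact minpoly.aeval _ _)
  refine ⟨φ X, φ Y, ?_, ?_, ?_, ?_, ?_, fun A => transfer E φ.toRingHom X Y A⟩
  · rwa [Ne, map_eq_zero]
  · rwa [Ne, map_eq_zero]
  · have h1 := (isAlgebraic_algHom_iff (a := X) E.val E.val.injective).1 iξ'
    exact h1.algHom φ
  · have h1 := (isAlgebraic_algHom_iff (a := Y) E.val E.val.injective).1 iη'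
    exact h1.algHom φ
  · rw [← hφ, ← map_zpow₀, ← map_zpow₀, ← map_mul]
    congr 1

end MP743d1e.RT
end

section
/-!
# Module MAT of Theorem B+: the choice of the roots (helper26)
-/
set_option autoImplicit false

namespace MP743d1e.RT

open scoped BigOperators
open Polynomial IntermediateField MP743d1e.CY MP743d1e.Integ
open Pool.Agent.Lib.MPcb8a44

namespace MATM

/-! ## the evaluation -/

/-- The evaluation as an additive map. -/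
noncomputable def eC (x y : ℂ) : AddMonoidAlgebra ℂ (ℤ × ℤ) →+ ℂ where
  toFun A := evC x y A
  map_zero' := by
    unfold evC
    rw [AddMonoidAlgebra.coeff_zero, Finsupp.sum_zero_index]
  map_add' A B := by
    unfold evC
    rw [AddMonoidAlgebra.coeff_add]
    exact Finsupp.sum_add_index' (fun _ => zero_mul _) (fun _ _ _ => add_mul _ _ _)

theorem evC_single (x y : ℂ) (k : ℤ × ℤ) (c : ℂ) :
    evC x y (AddMonoidAlgebra.single k c) = c * (x ^ k.1 * y ^ k.2) := by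
  unfold evC
  rw [AddMonoidAlgebra.coeff_single, Finsupp.sum_single_index]
  rw [zero_mul]

theorem evC_tw (x y τ₁ τ₂ : ℂ) (B : ℤ × ℤ →+ ℤ × ℤ) (P : AddMonoidAlgebra ℤ (ℤ × ℤ)) :
    evC x y (tw τ₁ τ₂ B P) = ∑ k ∈ P.coeff.support,
      (P.coeff k : ℂ) * (τ₁ ^ k.1 * τ₂ ^ k.2) * (x ^ (B k).1 * y ^ (B k).2) := by
  have h : evC x y (tw τ₁ τ₂ B P) = eC x y (∑ k ∈ P.coeff.support,
      AddMonoidAlgebra.single (B k) ((P.coeff k : ℂ) * (τ₁ ^ k.1 * τ₂ ^ k.2))) := rfl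
  rw [h, map_sum]
  exact Finset.sum_congr rfl fun k _ => evC_single _ _ _ _

/-- A homomorphism is determined by its values at the basis. -/
theorem B_eq (B : ℤ × ℤ →+ ℤ × ℤ) (k : ℤ × ℤ) :
    B k = (k.1 * (B (1, 0)).1 + k.2 * (B (0, 1)).1, k.1 * (B (1, 0)).2 + k.2 * (B (0, 1)).2) := by
  have h : k = k.1 • ((1, 0) : ℤ × ℤ) + k.2 • ((0, 1) : ℤ × ℤ) := by
    ext <;> simp
  conv_lhs => rw [h]
  rw [map_add, map_zsmul, map_zsmul]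
  ext <;> simp

theorem mono_B {x y : ℂ} (hx : x ≠ 0) (hy : y ≠ 0) (B : ℤ × ℤ →+ ℤ × ℤ) (k : ℤ × ℤ) :
    x ^ (B k).1 * y ^ (B k).2 = (x ^ (B (1, 0)).1 * y ^ (B (1, 0)).2) ^ k.1 *
      (x ^ (B (0, 1)).1 * y ^ (B (0, 1)).2) ^ k.2 := by
  rw [B_eq B k]
  simp only
  rw [zpow_add₀ hx, zpow_add₀ hy, mul_zpow, mul_zpow, ← zpow_mul, ← zpow_mul, ← zpow_mul,
    ← zpow_mul, mul_comm k.1 (B (1, 0)).1, mul_comm k.2 (B (0, 1)).1, mul_comm k.1 (B (1, 0)).2,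
    mul_comm k.2 (B (0, 1)).2]
  ring

theorem evC_eq {x y τ₁ τ₂ ξ η : ℂ} (hx : x ≠ 0) (hy : y ≠ 0) (B : ℤ × ℤ →+ ℤ × ℤ)
    (h1 : τ₁ * (x ^ (B (1, 0)).1 * y ^ (B (1, 0)).2) = ξ)
    (h2 : τ₂ * (x ^ (B (0, 1)).1 * y ^ (B (0, 1)).2) = η) (P : AddMonoidAlgebra ℤ (ℤ × ℤ)) :
    evC x y (tw τ₁ τ₂ B P) = evP ξ η P := by
  rw [evC_tw]
  unfold evP Finsupp.sum
  refine Finset.sum_congr rfl fun k _ => ?_
  show _ = (P.coeff k : ℂ) * (ξ ^ k.1 * η ^ k.2)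
  rw [mono_B hx hy, ← h1, ← h2, mul_zpow τ₁, mul_zpow τ₂]
  ring

/-! ## integral exponents -/

theorem exists_zroot {n : ℤ} (hn : n ≠ 0) {z : ℂ} (hz : z ≠ 0) : ∃ ρ : ℂ, ρ ≠ 0 ∧ ρ ^ n = z := by
  obtain ⟨ρ, hρ⟩ := IsAlgClosed.exists_pow_nat_eq z (Int.natAbs_pos.2 hn)
  have hρ0 : ρ ≠ 0 := by
    rintro rfl
    rw [zero_pow (Int.natAbs_pos.2 hn).ne'] at hρ
    exact hz hρ.symm
  rcases Int.natAbs_eq n with h | h
  · exact ⟨ρ, hρ0, by rw [h, zpow_natCast]; exact hρ⟩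
  · refine ⟨ρ⁻¹, inv_ne_zero hρ0, ?_⟩
    rw [h, zpow_neg, inv_zpow, inv_inv, zpow_natCast]
    exact hρ

/-- `z ^ n` from two powers with coprime exponents. -/
theorem pow_coprime {u v : ℂ} (hu : u ≠ 0) (hv : v ≠ 0) {a b p q : ℤ} (h : p * a + q * b = 1)
    (h1 : u ^ a = v ^ a) (h2 : u ^ b = v ^ b) : u = v := by
  calc u = u ^ (p * a + q * b) := by rw [h, zpow_one]
    _ = (u ^ a) ^ p * (u ^ b) ^ q := by
        rw [zpow_add₀ hu, mul_comm p a, mul_comm q b, zpow_mul, zpow_mul]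
    _ = (v ^ a) ^ p * (v ^ b) ^ q := by rw [h1, h2]
    _ = v ^ (p * a + q * b) := by
        rw [zpow_add₀ hv, mul_comm p a, mul_comm q b, zpow_mul, zpow_mul]
    _ = v := by rw [h, zpow_one]

end MATM

open MATM in
theorem specMAT : SpecMAT := by
  intro c₁ c₂ α β γ δ a a'' c k N B ζ s₁ s₂ ξ₁ η₁ ξ₂ η₂ hc₁ hc₂ hD hN hB ha ha'' hca hk hζ hs₁ hs₂
    hξ₁ hη₁ hξ₂ hη₂ e11 e12 e21 e22 hu
  have hc₁' : (c₁ : ℂ) ≠ 0 := by exact_mod_cast hc₁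
  have hc₂' : (c₂ : ℂ) ≠ 0 := by exact_mod_cast hc₂
  obtain ⟨c''1, c''2, hc''⟩ := ha''
  have hca' : c.1 * a.1 + c.2 * a.2 = 1 := hca
  -- the integral relations
  have k1 : α * a.1 + γ * a.2 = k * a''.1 := by
    have := congrArg Prod.fst hk
    simpa [mt] using this
  have k2 : β * a.1 + δ * a.2 = k * a''.2 := by
    have := congrArg Prod.snd hk
    simpa [mt] using this
  have hB1 : B (α, β) = (N : ℤ) • ((1, 0) : ℤ × ℤ) := by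
    have := hB (1, 0)
    simpa [mt] using this
  have hB2 : B (γ, δ) = (N : ℤ) • ((0, 1) : ℤ × ℤ) := by
    have := hB (0, 1)
    simpa [mt] using this
  set B₁ : ℤ × ℤ := B (1, 0) with hB₁
  set B₂ : ℤ × ℤ := B (0, 1) with hB₂
  have f1 : α * B₁.1 + β * B₂.1 = N := by
    have := congrArg Prod.fst hB1
    rw [B_eq] at this
    simpa using this
  have f2 : α * B₁.2 + β * B₂.2 = 0 := by
    have := congrArg Prod.snd hB1
    rw [B_eq] at this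
    simpa using this
  have f3 : γ * B₁.1 + δ * B₂.1 = 0 := by
    have := congrArg Prod.fst hB2
    rw [B_eq] at this
    simpa using this
  have f4 : γ * B₁.2 + δ * B₂.2 = N := by
    have := congrArg Prod.snd hB2
    rw [B_eq] at this
    simpa using this
  obtain ⟨l, hl⟩ : ∃ l : ℤ, l = c.1 * (-a''.2 * γ + a''.1 * δ) - c.2 * (-a''.2 * α + a''.1 * β) :=
    ⟨_, rfl⟩
  have hkl : k * l = α * δ - β * γ := by
    rw [hl]
    linear_combination (α * δ - β * γ) * hca' + (-c.1 * δ + c.2 * β) * k1 + (c.1 * γ - c.2 * α) * k2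
  have hk0 : k ≠ 0 := by
    rintro rfl
    rw [zero_mul] at hkl
    exact hD hkl.symm
  have hl0 : l ≠ 0 := by
    rintro rfl
    rw [mul_zero] at hkl
    exact hD hkl.symm
  have g1 : -a''.2 * α + a''.1 * β = -(l * a.2) := by
    apply mul_left_cancel₀ hk0
    linear_combination (-β) * k1 + α * k2 + a.2 * hkl
  have g2 : -a''.2 * γ + a''.1 * δ = l * a.1 := by
    apply mul_left_cancel₀ hk0
    linear_combination (-δ) * k1 + γ * k2 - a.1 * hkl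
  -- the exponents of `ρ`
  have h1 : l * (-a.2 * B₁.1 + a.1 * B₁.2) = N * (-a''.2) := by
    apply mul_left_cancel₀ hk0
    linear_combination (-a.2 * B₁.1 + a.1 * B₁.2) * hkl + (-a.2) * (δ * f1 - β * f3) +
      a.1 * (δ * f2 - β * f4) - (N : ℤ) * k2
  have h2 : l * (-a.2 * B₂.1 + a.1 * B₂.2) = N * a''.1 := by
    apply mul_left_cancel₀ hk0
    linear_combination (-a.2 * B₂.1 + a.1 * B₂.2) * hkl + (-a.2) * (α * f3 - γ * f1) +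
      a.1 * (α * f4 - γ * f2) + (N : ℤ) * k1
  obtain ⟨N', hN'⟩ : ∃ N' : ℤ, N' = c''1 * (-a.2 * B₂.1 + a.1 * B₂.2) -
    c''2 * (-a.2 * B₁.1 + a.1 * B₁.2) := ⟨_, rfl⟩
  have hlN : l * N' = N := by
    rw [hN']
    linear_combination c''1 * h2 - c''2 * h1 + (N : ℤ) * hc''
  have hN'0 : N' ≠ 0 := by
    rintro rfl
    rw [mul_zero] at hlN
    have : (N : ℤ) ≠ 0 := by exact_mod_cast hN.ne'
    exact this hlN.symm
  have i1 : -a.2 * B₁.1 + a.1 * B₁.2 = N' * (-a''.2) := by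
    apply mul_left_cancel₀ hl0
    linear_combination h1 - (-a''.2) * hlN
  have i2 : -a.2 * B₂.1 + a.1 * B₂.2 = N' * a''.1 := by
    apply mul_left_cancel₀ hl0
    linear_combination h2 - a''.1 * hlN
  -- the quotient of the two points
  have hX0 : ξ₂ / ξ₁ ≠ 0 := div_ne_zero hξ₂ hξ₁
  have hY0 : η₂ / η₁ ≠ 0 := div_ne_zero hη₂ hη₁
  have hS0 : s₂ / s₁ ≠ 0 := div_ne_zero hs₂ hs₁
  have hXY : (ξ₂ / ξ₁) ^ a''.1 * (η₂ / η₁) ^ a''.2 = 1 := by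
    rw [div_zpow, div_zpow, div_mul_div_comm, ← hu]
    exact div_self (mul_ne_zero (zpow_ne_zero _ hξ₁) (zpow_ne_zero _ hη₁))
  obtain ⟨lam, hlam⟩ : ∃ lam : ℂ, lam = (ξ₂ / ξ₁) ^ (-c''2) * (η₂ / η₁) ^ c''1 := ⟨_, rfl⟩
  have hlam0 : lam ≠ 0 := by
    rw [hlam]
    exact mul_ne_zero (zpow_ne_zero _ hX0) (zpow_ne_zero _ hY0)
  obtain ⟨p1, p2⟩ := CNJM.par a'' (c''1, c''2) hc'' (ξ₂ / ξ₁) (η₂ / η₁) hX0 hY0
  rw [hXY, one_zpow, one_mul] at p1 p2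
  have p1' : lam ^ (-a''.2) = ξ₂ / ξ₁ := by rw [hlam]; exact p1
  have p2' : lam ^ a''.1 = η₂ / η₁ := by rw [hlam]; exact p2
  -- `lam ^ l = s₂ / s₁`
  have q1 : (ξ₂ / ξ₁) ^ α * (η₂ / η₁) ^ β = (s₂ / s₁) ^ (-a.2) := by
    rw [div_zpow, div_zpow, div_mul_div_comm, div_zpow,
      div_eq_div_iff (mul_ne_zero (zpow_ne_zero _ hξ₁) (zpow_ne_zero _ hη₁)) (zpow_ne_zero _ hs₁)]
    apply mul_left_cancel₀ (mul_ne_zero hc₁' (zpow_ne_zero c.1 hζ))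
    linear_combination (ζ ^ c.1 * s₁ ^ (-a.2)) * e21 - (ζ ^ c.1 * s₂ ^ (-a.2)) * e11
  have q2 : (ξ₂ / ξ₁) ^ γ * (η₂ / η₁) ^ δ = (s₂ / s₁) ^ a.1 := by
    rw [div_zpow, div_zpow, div_mul_div_comm, div_zpow,
      div_eq_div_iff (mul_ne_zero (zpow_ne_zero _ hξ₁) (zpow_ne_zero _ hη₁)) (zpow_ne_zero _ hs₁)]
    apply mul_left_cancel₀ (mul_ne_zero hc₂' (zpow_ne_zero c.2 hζ))
    linear_combination (ζ ^ c.2 * s₁ ^ a.1) * e22 - (ζ ^ c.2 * s₂ ^ a.1) * e12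
  have r1 : (lam ^ l) ^ (-a.2) = (s₂ / s₁) ^ (-a.2) := by
    rw [← q1, ← p1', ← p2', ← zpow_mul, ← zpow_mul, ← zpow_mul, ← zpow_add₀ hlam0, g1, mul_neg]
  have r2 : (lam ^ l) ^ a.1 = (s₂ / s₁) ^ a.1 := by
    rw [← q2, ← p1', ← p2', ← zpow_mul, ← zpow_mul, ← zpow_mul, ← zpow_add₀ hlam0, g2]
  have hll : lam ^ l = s₂ / s₁ := by
    refine pow_coprime (zpow_ne_zero _ hlam0) hS0 (p := c.1) (q := -c.2) ?_ r2 r1
    linear_combination hca'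
  -- the roots
  obtain ⟨ρ, hρ0, hρ⟩ := exists_zroot hN'0 hlam0
  obtain ⟨ω, hω⟩ := IsAlgClosed.exists_pow_nat_eq ζ hN
  obtain ⟨σ₁, hσ₁⟩ := IsAlgClosed.exists_pow_nat_eq s₁ hN
  have hω0 : ω ≠ 0 := by
    rintro rfl
    rw [zero_pow hN.ne'] at hω
    exact hζ hω.symm
  have hσ₁0 : σ₁ ≠ 0 := by
    rintro rfl
    rw [zero_pow hN.ne'] at hσ₁
    exact hs₁ hσ₁.symm
  have hρN : ρ ^ N = s₂ / s₁ := by
    rw [← zpow_natCast, ← hlN, mul_comm l N', zpow_mul, hρ, hll]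
  set x₁ : ℂ := ω ^ c.1 * σ₁ ^ (-a.2) with hx₁
  set y₁ : ℂ := ω ^ c.2 * σ₁ ^ a.1 with hy₁
  have hx₁0 : x₁ ≠ 0 := mul_ne_zero (zpow_ne_zero _ hω0) (zpow_ne_zero _ hσ₁0)
  have hy₁0 : y₁ ≠ 0 := mul_ne_zero (zpow_ne_zero _ hω0) (zpow_ne_zero _ hσ₁0)
  have hm1 : x₁ ^ B₁.1 * y₁ ^ B₁.2 ≠ 0 := mul_ne_zero (zpow_ne_zero _ hx₁0) (zpow_ne_zero _ hy₁0)
  have hm2 : x₁ ^ B₂.1 * y₁ ^ B₂.2 ≠ 0 := mul_ne_zero (zpow_ne_zero _ hx₁0) (zpow_ne_zero _ hy₁0)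
  have hxN : x₁ ^ (N : ℤ) = ζ ^ c.1 * s₁ ^ (-a.2) := by
    rw [hx₁, mul_zpow, ← zpow_mul, ← zpow_mul, mul_comm c.1, mul_comm (-a.2), zpow_mul, zpow_mul,
      zpow_natCast, zpow_natCast, hω, hσ₁]
  have hyN : y₁ ^ (N : ℤ) = ζ ^ c.2 * s₁ ^ a.1 := by
    rw [hy₁, mul_zpow, ← zpow_mul, ← zpow_mul, mul_comm c.2, mul_comm a.1, zpow_mul, zpow_mul,
      zpow_natCast, zpow_natCast, hω, hσ₁]
  have t1 : (x₁ ^ B₁.1 * y₁ ^ B₁.2) ^ α * (x₁ ^ B₂.1 * y₁ ^ B₂.2) ^ β = x₁ ^ (N : ℤ) := by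
    have h := mono_B hx₁0 hy₁0 B (α, β)
    rw [hB1] at h
    rw [← h]
    simp
  have t2 : (x₁ ^ B₁.1 * y₁ ^ B₁.2) ^ γ * (x₁ ^ B₂.1 * y₁ ^ B₂.2) ^ δ = y₁ ^ (N : ℤ) := by
    have h := mono_B hx₁0 hy₁0 B (γ, δ)
    rw [hB2] at h
    rw [← h]
    simp
  refine ⟨ω, σ₁, ρ * σ₁, ξ₁ / (x₁ ^ B₁.1 * y₁ ^ B₁.2), η₁ / (x₁ ^ B₂.1 * y₁ ^ B₂.2), hω, hσ₁, ?_,
    div_ne_zero hξ₁ hm1, div_ne_zero hη₁ hm2, ?_, ?_, ?_, ?_⟩
  · rw [mul_pow, hσ₁, hρN, div_mul_cancel₀ _ hs₁]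
  · rw [div_zpow, div_zpow, div_mul_div_comm, t1, hxN, ← e11, ← mul_div_assoc]
    exact div_self (mul_ne_zero hc₁' (mul_ne_zero (zpow_ne_zero _ hξ₁) (zpow_ne_zero _ hη₁)))
  · rw [div_zpow, div_zpow, div_mul_div_comm, t2, hyN, ← e12, ← mul_div_assoc]
    exact div_self (mul_ne_zero hc₂' (mul_ne_zero (zpow_ne_zero _ hξ₁) (zpow_ne_zero _ hη₁)))
  · exact evC_eq hx₁0 hy₁0 B (div_mul_cancel₀ _ hm1) (div_mul_cancel₀ _ hm2)
  · have hx2 : ω ^ c.1 * (ρ * σ₁) ^ (-a.2) = x₁ * ρ ^ (-a.2) := by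
      rw [mul_zpow, hx₁]; ring
    have hy2 : ω ^ c.2 * (ρ * σ₁) ^ a.1 = y₁ * ρ ^ a.1 := by
      rw [mul_zpow, hy₁]; ring
    have hmono : ∀ e : ℤ × ℤ, (x₁ * ρ ^ (-a.2)) ^ e.1 * (y₁ * ρ ^ a.1) ^ e.2 =
        (x₁ ^ e.1 * y₁ ^ e.2) * ρ ^ (-a.2 * e.1 + a.1 * e.2) := by
      intro e
      rw [mul_zpow x₁, mul_zpow y₁, ← zpow_mul ρ, ← zpow_mul ρ, zpow_add₀ hρ0]
      ring
    rw [hx2, hy2]
    refine evC_eq (mul_ne_zero hx₁0 (zpow_ne_zero _ hρ0)) (mul_ne_zero hy₁0 (zpow_ne_zero _ hρ0)) B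
      ?_ ?_
    · rw [hmono, ← mul_assoc, div_mul_cancel₀ _ hm1, i1, zpow_mul, hρ, p1']
      field_simp
    · rw [hmono, ← mul_assoc, div_mul_cancel₀ _ hm2, i2, zpow_mul, hρ, p2']
      field_simp

end MP743d1e.RT
end
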