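import Pool.Agent.Lib.MP_743d1e_nt.RT.Spec
import Pool.Agent.Lib.MP_743d1e_nt.CY.PUK
import Pool.Agent.Lib.MP_743d1e_nt.RT.MAT
import Pool.Agent.Lib.MP_743d1e_nt.RT.Spec2

section
/-!
# Module AS2: the assembly for `({K^*, x} + {K^*, y}) ∩ K_2`
-/
set_option autoImplicit false

namespace MP743d1e.RT

open scoped BigOperators
open Polynomial IntermediateField MP743d1e.CY MP743d1e.Integ MP743d1e.ConstM
open Pool.Agent.Lib.MPcb8a44

namespace AS2M

open ASMM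

section Tame

variable {K : Type} [Field K]

/-- The second entry as a homomorphism. -/
def symR (f : Kˣ) : Additive Kˣ →+ K2 K where
  toFun g := sym f g.toMul
  map_zero' := by
    have h := sym_mul_right f (1 : Kˣ) 1
    rw [mul_one] at h
    have h1 := add_right_cancel ((zero_add _).trans h)
    exact h1.symm
  map_add' g h := sym_mul_right f _ _

theorem sym_zpow_right (f g : Kˣ) (n : ℤ) : sym f (g ^ n) = n • sym f g :=
  map_zsmul (symR f) n (Additive.ofMul g)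

theorem tor_tame2_iff (v : DVal K) (f x g y : Kˣ) :
    tame v (sym f x + sym g y) ∈ tor _ ↔
      ∃ N : ℕ, 0 < N ∧ (v.tameUnit f x * v.tameUnit g y) ^ N ∈ v.U1 := by
  rw [mem_tor]
  refine exists_congr fun N => and_congr_right fun _ => ?_
  rw [map_add, tame_sym, tame_sym, ← QuotientGroup.eq_one_iff, QuotientGroup.mk_pow,
    QuotientGroup.mk_mul]
  rfl

theorem pos_of_tame2 {v : DVal K} {f x g y : Kˣ} (hx : v.ord x = 0) (hy : v.ord y = 0)
    {m a₁ a₂ : ℤ} (hm : m ≠ 0) (hf : v.ord f = a₁ * m) (hg : v.ord g = a₂ * m)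
    (ht : tame v (sym f x + sym g y) ∈ tor _) :
    ∃ k : ℕ, 0 < k ∧ Pos v (((x ^ a₁ * y ^ a₂ : Kˣ) : K) ^ k - 1) := by
  rw [tor_tame2_iff] at ht
  obtain ⟨N, hN, h1⟩ := ht
  have h2 : v.tameUnit f x * v.tameUnit g y = (x ^ a₁ * y ^ a₂) ^ (-m) := by
    unfold DVal.tameUnit
    rw [hx, hy, mul_zero, mul_zero, zpow_zero, zpow_zero, zpow_zero, one_mul, one_mul, one_mul,
      mul_zpow, ← zpow_mul, ← zpow_mul, hf, hg, mul_neg, mul_neg]
  rw [h2, ← zpow_natCast, ← zpow_mul] at h1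
  refine ⟨_, ?_, pos_of_zpow_mem h1⟩
  rw [Int.natAbs_pos]
  have : (N : ℤ) ≠ 0 := by exact_mod_cast hN.ne'
  exact mul_ne_zero (neg_ne_zero.2 hm) this

end Tame

/-- Generators. -/
theorem fg_ker {G ι : Type} [AddCommGroup G] [Finite ι] (φ : G →+ (ι → ℤ)) :
    ∃ (r : ℕ) (g : Fin r → G), ∀ z : G, ∃ n : Fin r → ℤ, φ (z - ∑ i, n i • g i) = 0 := by
  classical
  set R : Submodule ℤ (ι → ℤ) := LinearMap.range φ.toIntLinearMap with hR
  have hfg : R.FG := IsNoetherian.noetherian R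
  obtain ⟨r, s, hs⟩ := Submodule.fg_iff_exists_fin_generating_family.1 hfg
  have hmem : ∀ i, s i ∈ R := fun i => hs ▸ Submodule.subset_span ⟨i, rfl⟩
  have hex : ∀ i, ∃ g : G, φ g = s i := by
    intro i
    obtain ⟨g, hg⟩ := hmem i
    exact ⟨g, hg⟩
  choose g hg using hex
  refine ⟨r, g, fun z => ?_⟩
  have hz : φ z ∈ Submodule.span ℤ (Set.range s) := by
    rw [hs]
    exact ⟨z, rfl⟩
  obtain ⟨n, hn⟩ := (Submodule.mem_span_range_iff_exists_fun ℤ).1 hz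
  refine ⟨n, ?_⟩
  rw [map_sub, map_sum, ← hn, sub_eq_zero]
  refine Finset.sum_congr rfl fun i _ => ?_
  rw [map_zsmul, hg]

theorem exists_primitive {p q : ℤ} (h : p ≠ 0 ∨ q ≠ 0) :
    ∃ m a₁ a₂ : ℤ, m ≠ 0 ∧ IsCoprime a₁ a₂ ∧ p = a₁ * m ∧ q = a₂ * m := by
  have h0 : 0 < Int.gcd p q := by
    rw [Int.gcd_pos_iff]
    exact h
  obtain ⟨a₁, a₂, h1, h2, h3⟩ := Int.exists_gcd_one h0
  refine ⟨Int.gcd p q, a₁, a₂, by exact_mod_cast h0.ne', Int.isCoprime_iff_gcd_eq_one.2 h1, h2, h3⟩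

section Pair

variable {K : Type} [Field K] [Algebra ℚ K] {x y : Kˣ}

theorem transc (hp : Pre K x y) {a : ℤ × ℤ} (ha : IsCoprime a.1 a.2) :
    Transcendental ℚ ((x ^ a.1 * y ^ a.2 : Kˣ) : K) := by
  intro h
  obtain ⟨c, hc⟩ := hp.const _ h
  refine hp.pure a.1 a.2 2 c 1 ha le_rfl ?_
  rw [hc, one_pow, mul_one]

theorem step3 (hPU2 : SpecPU2) (hPUQ : SpecPUQ) (hFNV : SpecFNV) (hp : Pair K x y) :
    ∃ S : Set (DVal K), S.Finite ∧ (∀ v : DVal K, GeoF ℚ v → v ∉ S → v.ord x = 0 ∧ v.ord y = 0) ∧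
      ∀ a : ℤ × ℤ, IsCoprime a.1 a.2 → ∀ n : ℕ, 0 < n → ∀ v w : DVal K, GeoF ℚ v → GeoF ℚ w →
        v ∉ S → w ∉ S → Pos v (aeval ((x ^ a.1 * y ^ a.2 : Kˣ) : K) (cyclotomic n ℚ)) →
        Pos w (aeval ((x ^ a.1 * y ^ a.2 : Kˣ) : K) (cyclotomic n ℚ)) → v = w := by
  classical
  obtain ⟨S, T, hS, hT, -, H⟩ := hPU2 K x y hp
  have hsf : ∀ f : Kˣ, {v : DVal K | GeoF ℚ v ∧ v.ord f ≠ 0}.Finite :=
    ASMM.supp_finite hFNV (x : K) hp.fin
  have hN : ∀ a : ℤ × ℤ, ∃ N : ℕ, IsCoprime a.1 a.2 → ∀ n : ℕ, N < n → ∀ p : ℚ[X],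
      Irreducible p → p ∣ cyclotomic n ℚ → ∀ v w : DVal K, GeoF ℚ v → GeoF ℚ w →
      (∀ u : Kˣ, (u : K) = aeval ((x ^ a.1 * y ^ a.2 : Kˣ) : K) p → 0 < v.ord u ∧ 0 < w.ord u) →
      v = w := by
    intro a
    by_cases ha : IsCoprime a.1 a.2
    · have ht := transc hp.toPre ha
      obtain ⟨N, hN⟩ := hPUQ ℚ K (Rat.castHom ℂ) ((x ^ a.1 * y ^ a.2 : Kˣ) : K)
        (fun q => by
          rw [eq_ratCast]
          exact SubfieldClass.ratCast_mem Qab q) ht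
        (PlaceQ.finite_adjoin (x : K) hp.fin _ ht) hp.const
        (fun m c u hm => hp.pure a.1 a.2 m c u ha hm)
      exact ⟨N, fun _ => hN⟩
    · exact ⟨0, fun h => absurd h ha⟩
  choose N hN using hN
  refine ⟨(S ∪ ({v | GeoF ℚ v ∧ v.ord x ≠ 0} ∪ {v | GeoF ℚ v ∧ v.ord y ≠ 0})) ∪
    ⋃ a ∈ T, ⋃ n ∈ Finset.Icc 1 (N a), {v | GeoF ℚ v ∧ IsCoprime a.1 a.2 ∧
      Pos v (aeval ((x ^ a.1 * y ^ a.2 : Kˣ) : K) (cyclotomic n ℚ))}, ?_, ?_, ?_⟩
  · refine (hS.union ((hsf x).union (hsf y))).union ?_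
    refine Set.Finite.biUnion hT fun a _ => ?_
    refine Set.Finite.biUnion (Finset.finite_toSet _) fun n hn => ?_
    have hn1 : 0 < n := by
      have := Finset.mem_coe.1 hn
      rw [Finset.mem_Icc] at this
      omega
    by_cases ha : IsCoprime a.1 a.2
    · have ht : Transcendental ℚ
          (aeval ((x ^ a.1 * y ^ a.2 : Kˣ) : K) (cyclotomic n ℚ)) := by
        apply transc_aeval (transc hp.toPre ha)
        rw [natDegree_cyclotomic]
        exact (Nat.totient_pos.2 hn1).ne'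
      have h0 : aeval ((x ^ a.1 * y ^ a.2 : Kˣ) : K) (cyclotomic n ℚ) ≠ 0 := by
        intro h0
        rw [h0] at ht
        exact ht isAlgebraic_zero
      refine (hFNV ℚ K (x : K) hp.fin (Units.mk0 _ h0) ht).1.subset ?_
      rintro v ⟨hg, -, hpos⟩
      refine ⟨hg, ?_⟩
      have := (pos_unit (v := v) (u := Units.mk0 _ h0)).1 hpos
      omega
    · convert Set.finite_empty (α := DVal K)
      ext v
      simp only [Set.mem_ofPred_eq, Set.mem_empty_iff_false, iff_false, not_and]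
      exact fun _ h => absurd h ha
  · intro v hg hv
    constructor
    · by_contra h0
      exact hv (Or.inl (Or.inr (Or.inl ⟨hg, h0⟩)))
    · by_contra h0
      exact hv (Or.inl (Or.inr (Or.inr ⟨hg, h0⟩)))
  · intro a ha n hn v w hgv hgw hvS hwS hv hw
    by_cases haT : a ∈ T
    · by_cases hnN : N a < n
      · refine hN a ha n hnN (cyclotomic n ℚ) (cyclotomic.irreducible_rat hn) dvd_rfl v w hgv hgw ?_
        intro u hu
        rw [← hu, pos_unit] at hv hw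
        omega
      · exfalso
        apply hvS
        right
        simp only [Set.mem_iUnion]
        exact ⟨a, haT, n, by rw [Finset.mem_Icc]; omega, hgv, ha, hv⟩
    · exact H a ha haT n hn v w hgv hgw (fun h => hvS (Or.inl (Or.inl h)))
        (fun h => hwS (Or.inl (Or.inl h))) hv hw

/-- Step 4: multiples of the symbol have `S`-units as entries. -/
theorem step4 (hFNV : SpecFNV) (hTRS : SpecTRS) (hp : Pre K x y) {S : Set (DVal K)}
    (hSx : ∀ v : DVal K, GeoF ℚ v → v ∉ S → v.ord x = 0 ∧ v.ord y = 0)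
    (H : ∀ a : ℤ × ℤ, IsCoprime a.1 a.2 → ∀ n : ℕ, 0 < n → ∀ v w : DVal K, GeoF ℚ v → GeoF ℚ w →
        v ∉ S → w ∉ S → Pos v (aeval ((x ^ a.1 * y ^ a.2 : Kˣ) : K) (cyclotomic n ℚ)) →
        Pos w (aeval ((x ^ a.1 * y ^ a.2 : Kˣ) : K) (cyclotomic n ℚ)) → v = w)
    (f g : Kˣ) (htt : TorTameF ℚ (sym f x + sym g y)) :
    ∃ (E : ℤ) (f' g' : Kˣ), E ≠ 0 ∧
      (∀ w : DVal K, GeoF ℚ w → w ∉ S → w.ord f' = 0 ∧ w.ord g' = 0) ∧
      (sym f' x + sym g' y) - E • (sym f x + sym g y) ∈ tor (K2 K) := by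
  classical
  have hsf : ∀ f : Kˣ, {v : DVal K | GeoF ℚ v ∧ v.ord f ≠ 0}.Finite :=
    ASMM.supp_finite hFNV (x : K) hp.fin
  have hTfin : {v : DVal K | (GeoF ℚ v ∧ v ∉ S) ∧ (v.ord f ≠ 0 ∨ v.ord g ≠ 0)}.Finite := by
    refine ((hsf f).union (hsf g)).subset ?_
    rintro v ⟨⟨h1, -⟩, h2 | h2⟩
    · exact Or.inl ⟨h1, h2⟩
    · exact Or.inr ⟨h1, h2⟩
  set T : Finset (DVal K) := hTfin.toFinset with hT
  have hTm : ∀ v : DVal K, v ∈ T ↔ (GeoF ℚ v ∧ v ∉ S) ∧ (v.ord f ≠ 0 ∨ v.ord g ≠ 0) := by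
    intro v
    rw [hT, Set.Finite.mem_toFinset]
    rfl
  -- the factor at each point of `T`
  have hex : ∀ v : DVal K, ∃ (P : Kˣ) (m a₁ a₂ : ℤ), v ∈ T → 0 < v.ord P ∧
      v.ord f = a₁ * m ∧ v.ord g = a₂ * m ∧
      a₁ • sym P x + a₂ • sym P y ∈ tor (K2 K) ∧
      (∀ w : DVal K, GeoF ℚ w → w ∉ S → w ≠ v → w.ord P = 0) := by
    intro v
    by_cases hv : v ∈ T
    swap
    · exact ⟨1, 0, 0, 0, fun h' => absurd h' hv⟩
    obtain ⟨⟨hg, hvS⟩, hvf⟩ := (hTm v).1 hv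
    obtain ⟨hvx, hvy⟩ := hSx v hg hvS
    obtain ⟨m, a₁, a₂, hm, ha, h1, h2⟩ := exists_primitive hvf
    obtain ⟨k, hk, hpos⟩ := pos_of_tame2 hvx hvy hm h1 h2 (htt v hg)
    have hord : ∀ w : DVal K, w.ord x = 0 → w.ord y = 0 → w.ord (x ^ a₁ * y ^ a₂) = 0 := by
      intro w h3 h4
      rw [w.ord_mul, w.ord_zpow, w.ord_zpow, h3, h4, mul_zero, mul_zero, add_zero]
    have hnn : NN v ((x ^ a₁ * y ^ a₂ : Kˣ) : K) := by rw [nn_unit, hord v hvx hvy]
    obtain ⟨n, p, hn, hpm, hpi, hpd, hp1, hp2⟩ := exists_factor hg hnn hk hpos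
    have hpc : p = cyclotomic n ℚ :=
      eq_of_monic_of_associated hpm (cyclotomic.monic n ℚ)
        (hpi.associated_of_dvd (cyclotomic.irreducible_rat hn) hpd)
    have ht := transc hp (a := (a₁, a₂)) ha
    have hp0 : aeval ((x ^ a₁ * y ^ a₂ : Kˣ) : K) p ≠ 0 := by
      intro h0
      exact hpm.ne_zero ((transcendental_iff.1 ht) p h0)
    have hpv : 0 < v.ord (Units.mk0 _ hp0) := by
      have := (pos_unit (v := v) (u := Units.mk0 _ hp0)).1 hp1
      omega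
    refine ⟨Units.mk0 _ hp0, m, a₁, a₂, fun _ => ⟨hpv, h1, h2, ?_, ?_⟩⟩
    · have h3 := hTRS ℚ K (Or.inl fun q => ⟨q, by simp⟩) n p hn hpm hpi hpd (Units.mk0 _ hp0)
        (x ^ a₁ * y ^ a₂) rfl
      have h4 : sym (Units.mk0 _ hp0) (x ^ a₁ * y ^ a₂) =
          a₁ • sym (Units.mk0 _ hp0) x + a₂ • sym (Units.mk0 _ hp0) y := by
        rw [sym_mul_right, sym_zpow_right, sym_zpow_right]
      rw [← h4]
      exact h3
    · intro w hgw hwS hwv
      obtain ⟨hwx, hwy⟩ := hSx w hgw hwS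
      have h3 : 0 ≤ w.ord (Units.mk0 _ hp0) := by
        refine nn_unit.1 (nn_aeval hgw (nn_unit.2 ?_) p)
        rw [hord w hwx hwy]
      by_contra h4
      apply hwv
      refine H (a₁, a₂) ha n hn w v hgw hg hwS hvS ?_ ?_
      · rw [← hpc]
        exact (pos_unit (v := w) (u := Units.mk0 _ hp0)).2 (by omega)
      · rw [← hpc]
        exact hp1
  choose P m a₁ a₂ hP using hex
  set E : ℤ := ∏ v ∈ T, v.ord (P v) with hE
  have hEpos : 0 < E := Finset.prod_pos fun v hv => (hP v hv).1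
  have hdiv : ∀ v ∈ T, v.ord (P v) ∣ E := fun v hv => Finset.dvd_prod_of_mem _ hv
  have key : ∀ (u : Kˣ) (a : DVal K → ℤ), (∀ v ∈ T, v.ord u = a v * m v) →
      (∀ v : DVal K, GeoF ℚ v → v ∉ S → v ∉ T → v.ord u = 0) →
      ∀ w : DVal K, GeoF ℚ w → w ∉ S →
        w.ord (u ^ E * ∏ v ∈ T, P v ^ (-(E / v.ord (P v) * (a v * m v)))) = 0 := by
    intro u a hu1 hu2 w hgw hwS
    have hord : w.ord (u ^ E * ∏ v ∈ T, P v ^ (-(E / v.ord (P v) * (a v * m v)))) =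
        E * w.ord u - ∑ v ∈ T, (E / v.ord (P v) * (a v * m v)) * w.ord (P v) := by
      rw [w.ord_mul, w.ord_zpow, ord_prod, sub_eq_add_neg, ← Finset.sum_neg_distrib]
      congr 1
      refine Finset.sum_congr rfl fun v _ => ?_
      rw [w.ord_zpow]
      ring
    rw [hord]
    have h0 : ∀ v ∈ T, v ≠ w → (E / v.ord (P v) * (a v * m v)) * w.ord (P v) = 0 := by
      intro v hv hvw
      rw [(hP v hv).2.2.2.2 w hgw hwS hvw.symm, mul_zero]
    by_cases hw : w ∈ T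
    · rw [Finset.sum_eq_single w (fun v hv hvw => h0 v hv hvw) (fun h1 => absurd hw h1)]
      have h4 : E / w.ord (P w) * w.ord (P w) = E := Int.ediv_mul_cancel (hdiv w hw)
      calc E * w.ord u - E / w.ord (P w) * (a w * m w) * w.ord (P w)
          = E * w.ord u - (E / w.ord (P w) * w.ord (P w)) * (a w * m w) := by ring
        _ = 0 := by rw [h4, hu1 w hw]; ring
    · rw [Finset.sum_eq_zero (fun v hv => h0 v hv (fun e => hw (e ▸ hv))), hu2 w hgw hwS hw]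
      ring
  have hnotT : ∀ v : DVal K, GeoF ℚ v → v ∉ S → v ∉ T → v.ord f = 0 ∧ v.ord g = 0 := by
    intro v h1 h2 h3
    rw [hTm] at h3
    by_contra h4
    apply h3
    refine ⟨⟨h1, h2⟩, ?_⟩
    by_contra h5
    apply h4
    push Not at h5
    exact h5
  refine ⟨E, f ^ E * ∏ v ∈ T, P v ^ (-(E / v.ord (P v) * (a₁ v * m v))),
    g ^ E * ∏ v ∈ T, P v ^ (-(E / v.ord (P v) * (a₂ v * m v))), hEpos.ne', ?_, ?_⟩
  · intro w hgw hwS
    exact ⟨key f a₁ (fun v hv => (hP v hv).2.1) (fun v h1 h2 h3 => (hnotT v h1 h2 h3).1) w hgw hwS,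
      key g a₂ (fun v hv => (hP v hv).2.2.1) (fun v h1 h2 h3 => (hnotT v h1 h2 h3).2) w hgw hwS⟩
  · have h1 : sym (f ^ E * ∏ v ∈ T, P v ^ (-(E / v.ord (P v) * (a₁ v * m v)))) x +
        sym (g ^ E * ∏ v ∈ T, P v ^ (-(E / v.ord (P v) * (a₂ v * m v)))) y -
        E • (sym f x + sym g y) =
        ∑ v ∈ T, (-(E / v.ord (P v) * m v)) • (a₁ v • sym (P v) x + a₂ v • sym (P v) y) := by
      rw [sym_mul_left, sym_mul_left, sym_zpow_left, sym_zpow_left, sym_prod_left, sym_prod_left,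
        zsmul_add (sym f x) (sym g y) E]
      have h2 : ∑ v ∈ T, (-(E / v.ord (P v) * m v)) • (a₁ v • sym (P v) x + a₂ v • sym (P v) y) =
          ∑ v ∈ T, sym (P v ^ (-(E / v.ord (P v) * (a₁ v * m v)))) x +
          ∑ v ∈ T, sym (P v ^ (-(E / v.ord (P v) * (a₂ v * m v)))) y := by
        rw [← Finset.sum_add_distrib]
        refine Finset.sum_congr rfl fun v _ => ?_
        rw [sym_zpow_left, sym_zpow_left, zsmul_add, ← mul_zsmul, ← mul_zsmul]
        congr 2 <;> ring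
      rw [h2]
      abel
    rw [h1]
    exact sum_mem fun v hv => zsmul_mem (hP v hv).2.2.2.1 _

/-- A function without zeros and poles is a constant. -/
theorem const_of_ord (hFNV : SpecFNV) (hp : Pre K x y) (c : Kˣ)
    (h : ∀ w : DVal K, GeoF ℚ w → w.ord c = 0) : ∃ q : ℚ, (c : K) = algebraMap ℚ K q := by
  refine hp.const _ ?_
  by_contra h1
  obtain ⟨w, hgw, hw⟩ := (hFNV ℚ K (x : K) hp.fin c h1).2
  rw [h w hgw] at hw
  exact lt_irrefl _ hw

theorem const_eq_one {w : DVal K} (hgw : GeoF ℚ w) {c : Kˣ}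
    (hc : ∃ q : ℚ, (c : K) = algebraMap ℚ K q) (h : c ∈ w.U1) : c = 1 := by
  obtain ⟨q, hq⟩ := hc
  rcases h with h | ⟨u, hu, h⟩
  · exact h
  · exfalso
    have h1 : q - 1 ≠ 0 := by
      intro h0
      apply u.ne_zero
      rw [← hu, hq, ← map_one (algebraMap ℚ K), ← map_sub, h0, map_zero]
    refine not_pos_const hgw h1 ?_
    rw [map_sub, map_one, ← hq]
    exact Or.inr ⟨u, hu.symm, h⟩

/-- The constants contribute torsion only. -/
theorem const_tor (hFNV : SpecFNV) (hp : Pre K x y) (c c' : Kˣ)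
    (hc : ∀ w : DVal K, GeoF ℚ w → w.ord c = 0 ∧ w.ord c' = 0)
    (htt : TorTameF ℚ (sym c x + sym c' y)) : sym c x + sym c' y ∈ tor (K2 K) := by
  obtain ⟨q, hq⟩ := const_of_ord hFNV hp c fun w hw => (hc w hw).1
  obtain ⟨q', hq'⟩ := const_of_ord hFNV hp c' fun w hw => (hc w hw).2
  have key : ∀ w : DVal K, GeoF ℚ w → ∃ k : ℤ, k ≠ 0 ∧
      c ^ (w.ord x * k) * c' ^ (w.ord y * k) = 1 := by
    intro w hgw
    have h1 := htt w hgw
    have h2 : tame w (sym c x + sym c' y) ∈ tor _ := h1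
    rw [tor_tame2_iff] at h2
    obtain ⟨N, hN, h3⟩ := h2
    refine ⟨N, by exact_mod_cast hN.ne', ?_⟩
    have h4 : w.tameUnit c x * w.tameUnit c' y = c ^ w.ord x * c' ^ w.ord y := by
      unfold DVal.tameUnit
      rw [(hc w hgw).1, (hc w hgw).2, zero_mul, zero_mul, zpow_zero, neg_zero, zpow_zero,
        zpow_zero, one_mul, one_mul, mul_one, mul_one]
    rw [h4, mul_pow] at h3
    have h5 : c ^ (w.ord x * N) * c' ^ (w.ord y * N) = (c ^ w.ord x) ^ N * (c' ^ w.ord y) ^ N := by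
      rw [zpow_mul, zpow_mul, zpow_natCast, zpow_natCast]
    rw [h5]
    refine const_eq_one hgw ?_ h3
    refine ⟨(q ^ w.ord x) ^ N * (q' ^ w.ord y) ^ N, ?_⟩
    rw [Units.val_mul, Units.val_pow_eq_pow_val, Units.val_pow_eq_pow_val,
      Units.val_zpow_eq_zpow_val, Units.val_zpow_eq_zpow_val, hq, hq', map_mul, map_pow, map_pow,
      map_zpow₀, map_zpow₀]
  -- two independent vectors
  have hx : Transcendental ℚ (x : K) := by
    have := transc hp (a := (1, 0)) isCoprime_one_left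
    simpa using this
  obtain ⟨w₁, hg₁, hw₁⟩ := (hFNV ℚ K (x : K) hp.fin x hx).2
  obtain ⟨m, b₁, b₂, hm, hb, h1, h2⟩ := exists_primitive (p := w₁.ord x) (q := w₁.ord y)
    (Or.inl hw₁.ne')
  have hco : IsCoprime (-b₂) b₁ := hb.symm.neg_left
  obtain ⟨w₂, hg₂, hw₂⟩ := (hFNV ℚ K (x : K) hp.fin (x ^ (-b₂) * y ^ b₁)
    (transc hp (a := (-b₂, b₁)) hco)).2
  rw [w₂.ord_mul, w₂.ord_zpow, w₂.ord_zpow] at hw₂
  have hD : w₁.ord x * w₂.ord y - w₁.ord y * w₂.ord x ≠ 0 := by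
    rw [h1, h2]
    intro h0
    have h3 : m * (-b₂ * w₂.ord x + b₁ * w₂.ord y) = 0 := by linarith
    rcases mul_eq_zero.1 h3 with h4 | h4
    · exact hm h4
    · omega
  obtain ⟨k₁, hk₁, e₁⟩ := key w₁ hg₁
  obtain ⟨k₂, hk₂, e₂⟩ := key w₂ hg₂
  set D : ℤ := w₁.ord x * w₂.ord y - w₁.ord y * w₂.ord x with hDd
  have hDk : k₁ * k₂ * D ≠ 0 := mul_ne_zero (mul_ne_zero hk₁ hk₂) hD
  have e3 : c ^ (k₁ * k₂ * D) = 1 := by
    have h3 : c ^ (k₁ * k₂ * D) =
        (c ^ (w₁.ord x * k₁) * c' ^ (w₁.ord y * k₁)) ^ (w₂.ord y * k₂) *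
        ((c ^ (w₂.ord x * k₂) * c' ^ (w₂.ord y * k₂)) ^ (w₁.ord y * k₁))⁻¹ := by
      rw [mul_zpow, mul_zpow, mul_inv, ← zpow_mul, ← zpow_mul, ← zpow_mul, ← zpow_mul,
        ← zpow_neg, ← zpow_neg, mul_mul_mul_comm, ← zpow_add, ← zpow_add]
      have h4 : w₁.ord y * k₁ * (w₂.ord y * k₂) + -(w₂.ord y * k₂ * (w₁.ord y * k₁)) = 0 := by ring
      rw [h4, zpow_zero, mul_one]
      congr 1
      rw [hDd]
      ring
    rw [h3, e₁, e₂, one_zpow, one_zpow, inv_one, mul_one]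
  have e4 : c' ^ (k₁ * k₂ * D) = 1 := by
    have h3 : c' ^ (k₁ * k₂ * D) =
        ((c ^ (w₁.ord x * k₁) * c' ^ (w₁.ord y * k₁)) ^ (w₂.ord x * k₂))⁻¹ *
        (c ^ (w₂.ord x * k₂) * c' ^ (w₂.ord y * k₂)) ^ (w₁.ord x * k₁) := by
      rw [mul_zpow, mul_zpow, mul_inv, ← zpow_mul, ← zpow_mul, ← zpow_mul, ← zpow_mul,
        ← zpow_neg, ← zpow_neg, mul_mul_mul_comm, ← zpow_add, ← zpow_add]
      have h4 : -(w₁.ord x * k₁ * (w₂.ord x * k₂)) + w₂.ord x * k₂ * (w₁.ord x * k₁) = 0 := by ring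
      rw [h4, zpow_zero, one_mul]
      congr 1
      rw [hDd]
      ring
    rw [h3, e₁, e₂, one_zpow, one_zpow, inv_one, one_mul]
  refine add_mem (tor_of_zsmul hDk ?_) (tor_of_zsmul hDk ?_)
  · rw [← sym_zpow_left, e3, sym_one_left]
    exact zero_mem _
  · rw [← sym_zpow_left, e4, sym_one_left]
    exact zero_mem _

/-- The symbol as a homomorphism. -/
def symS (x y : Kˣ) : Additive Kˣ × Additive Kˣ →+ K2 K where
  toFun z := sym z.1.toMul x + sym z.2.toMul y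
  map_zero' := by
    show sym (1 : Kˣ) x + sym (1 : Kˣ) y = 0
    rw [sym_one_left, sym_one_left, add_zero]
  map_add' z z' := by
    show sym (z.1.toMul * z'.1.toMul) x + sym (z.2.toMul * z'.2.toMul) y = _
    rw [sym_mul_left, sym_mul_left]
    abel

/-- The order of the two entries as a homomorphism. -/
def ordS (w : DVal K) : Additive Kˣ × Additive Kˣ →+ ℤ × ℤ where
  toFun z := (w.ord z.1.toMul, w.ord z.2.toMul)
  map_zero' := by
    show (w.ord 1, w.ord 1) = 0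
    rw [w.ord_one]
    rfl
  map_add' z z' := by
    show (w.ord (z.1.toMul * z'.1.toMul), w.ord (z.2.toMul * z'.2.toMul)) = _
    rw [w.ord_mul, w.ord_mul]
    rfl

/-- The pairs of `S`-units with torsion tame symbols. -/
def US (x y : Kˣ) (S : Set (DVal K)) : AddSubgroup (Additive Kˣ × Additive Kˣ) where
  carrier := {z | (∀ w : DVal K, GeoF ℚ w → w ∉ S → ordS w z = 0) ∧
    ∀ w : DVal K, GeoF ℚ w → tame w (symS x y z) ∈ tor _}
  zero_mem' := ⟨fun w _ _ => map_zero _, fun w _ => by rw [map_zero, map_zero]; exact zero_mem _⟩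
  add_mem' := by
    rintro z z' ⟨h1, h2⟩ ⟨h1', h2'⟩
    refine ⟨fun w hg hw => by rw [map_add, h1 w hg hw, h1' w hg hw, add_zero], fun w hg => ?_⟩
    rw [map_add, map_add]
    exact add_mem (h2 w hg) (h2' w hg)
  neg_mem' := by
    rintro z ⟨h1, h2⟩
    refine ⟨fun w hg hw => by rw [map_neg, h1 w hg hw, neg_zero], fun w hg => ?_⟩
    rw [map_neg, map_neg]
    exact neg_mem (h2 w hg)

end Pair

end AS2M

open AS2M ASMM

theorem specAS2 (hPU2 : SpecPU2) (hPUQ : SpecPUQ) (hFNV : SpecFNV) (hTRS : SpecTRS) :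
    SpecAS2 := by
  classical
  intro K _ _ x y hp
  obtain ⟨S, hS, hSx, H⟩ := step3 hPU2 hPUQ hFNV hp
  have : Finite S := hS
  let φ : US x y S →+ (S ⊕ S → ℤ) :=
    { toFun := fun z i => Sum.elim (fun w : S => (ordS (w : DVal K) z.1).1)
        (fun w : S => (ordS (w : DVal K) z.1).2) i
      map_zero' := by
        funext i
        rcases i with w | w
        · show (ordS (w : DVal K) 0).1 = 0
          rw [map_zero]
          rfl
        · show (ordS (w : DVal K) 0).2 = 0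
          rw [map_zero]
          rfl
      map_add' := by
        intro z z'
        funext i
        rcases i with w | w
        · show (ordS (w : DVal K) (z.1 + z'.1)).1 = _
          rw [map_add]
          rfl
        · show (ordS (w : DVal K) (z.1 + z'.1)).2 = _
          rw [map_add]
          rfl }
  obtain ⟨r, g, hg⟩ := fg_ker φ
  refine ⟨r, fun i => symS x y (g i).1, ?_, ?_⟩
  · intro i
    exact ⟨fun w hw => (g i).2.2 w hw, (g i).1.1.toMul, (g i).1.2.toMul, rfl⟩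
  intro f h htt
  obtain ⟨E, f', g', hE, hfg, hd⟩ := step4 hFNV hTRS hp.toPre hSx H f h htt
  have hz : ((Additive.ofMul f', Additive.ofMul g') : Additive Kˣ × Additive Kˣ) ∈ US x y S := by
    refine ⟨fun w hgw hw => ?_, fun w hgw => ?_⟩
    · show (w.ord f', w.ord g') = 0
      rw [(hfg w hgw hw).1, (hfg w hgw hw).2]
      rfl
    · show tame w (sym f' x + sym g' y) ∈ tor _
      have h1 : sym f' x + sym g' y =
          ((sym f' x + sym g' y) - E • (sym f x + sym h y)) + E • (sym f x + sym h y) := by abel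
      rw [h1, map_add]
      refine add_mem (tor_map _ hd) ?_
      rw [map_zsmul]
      exact zsmul_mem (htt w hgw) _
  obtain ⟨n, hn⟩ := hg ⟨_, hz⟩
  set z : US x y S := ⟨_, hz⟩ - ∑ i, n i • g i with hzdef
  have hzt : symS x y z.1 ∈ tor (K2 K) := by
    refine const_tor hFNV hp.toPre z.1.1.toMul z.1.2.toMul ?_ (fun w hw => z.2.2 w hw)
    intro w hgw
    by_cases hw : w ∈ S
    · exact ⟨congrFun hn (Sum.inl ⟨w, hw⟩), congrFun hn (Sum.inr ⟨w, hw⟩)⟩
    · have := z.2.1 w hgw hw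
      exact ⟨congrArg Prod.fst this, congrArg Prod.snd this⟩
  have hsum : symS x y z.1 = (sym f' x + sym g' y) - ∑ i, n i • symS x y (g i).1 := by
    rw [hzdef, AddSubgroup.coe_sub, map_sub, AddSubgroup.val_finsetSum, map_sum]
    congr 1
    refine Finset.sum_congr rfl fun i _ => ?_
    rw [AddSubgroup.coe_zsmul, map_zsmul]
  have htot : E • (sym f x + sym h y) - ∑ i, n i • symS x y (g i).1 ∈ tor (K2 K) := by
    have h1 : E • (sym f x + sym h y) - ∑ i, n i • symS x y (g i).1 =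
        symS x y z.1 - ((sym f' x + sym g' y) - E • (sym f x + sym h y)) := by
      rw [hsum]
      abel
    rw [h1]
    exact sub_mem hzt hd
  obtain ⟨M, hM, h1⟩ := htot
  have hcl : ∑ i, n i • symS x y (g i).1 ∈
      AddSubgroup.closure (Set.range fun i => symS x y (g i).1) :=
    sum_mem fun i _ => zsmul_mem (AddSubgroup.subset_closure (Set.mem_range_self i)) _
  have h2 : (M : ℤ) • E • (sym f x + sym h y) ∈
      AddSubgroup.closure (Set.range fun i => symS x y (g i).1) := by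
    have h3 : (M : ℤ) • E • (sym f x + sym h y) = M • ∑ i, n i • symS x y (g i).1 := by
      rw [nsmul_sub, sub_eq_zero] at h1
      rw [natCast_zsmul, h1]
    rw [h3]
    exact nsmul_mem hcl _
  have hME : (M : ℤ) * E ≠ 0 := mul_ne_zero (by exact_mod_cast hM.ne') hE
  refine ⟨((M : ℤ) * E).natAbs, Int.natAbs_pos.2 hME, ?_⟩
  have h4 : ((M : ℤ) * E) • (sym f x + sym h y) ∈
      AddSubgroup.closure (Set.range fun i => symS x y (g i).1) := by
    rw [mul_zsmul]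
    exact h2
  rcases Int.natAbs_eq ((M : ℤ) * E) with h5 | h5
  · rw [h5, natCast_zsmul] at h4
    exact h4
  · rw [h5, neg_zsmul, natCast_zsmul, neg_mem_iff] at h4
    exact h4

end MP743d1e.RT
end

section
/-!
# Module AS3: the reciprocal case, the elements `β + σ β`
-/
set_option autoImplicit false

namespace MP743d1e.RT

open scoped BigOperators
open Polynomial IntermediateField MP743d1e.CY MP743d1e.Integ MP743d1e.ConstM
open Pool.Agent.Lib.MPcb8a44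

namespace AS3M

open ASMM AS2M PU3M PU2M BAS

section Rec

variable {K : Type} [Field K] [Algebra ℚ K] {x y : Kˣ} {σ : K ≃ₐ[ℚ] K}

theorem um_pow (hx : σ x = (x : K)⁻¹) (hy : σ y = (y : K)⁻¹) (a : ℤ × ℤ) :
    um σ (x ^ a.1 * y ^ a.2) = (x ^ a.1 * y ^ a.2)⁻¹ := by
  rw [map_mul, map_zpow, map_zpow, um_x hx, um_x hy, mul_inv, inv_zpow, inv_zpow]

/-- The fibre over the roots of unity of order `n` is stable. -/
theorem pos_dm (hPTS : SpecPTS) (hp : Pre K x y) (hx : σ x = (x : K)⁻¹) (hy : σ y = (y : K)⁻¹)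
    {v : DVal K} (hg : GeoF ℚ v) (hvx : v.ord x = 0) (hvy : v.ord y = 0) (a : ℤ × ℤ) {n : ℕ}
    (hn : 0 < n) (hv : Pos v (aeval ((x ^ a.1 * y ^ a.2 : Kˣ) : K) (cyclotomic n ℚ))) :
    Pos (dm σ v) (aeval ((x ^ a.1 * y ^ a.2 : Kˣ) : K) (cyclotomic n ℚ)) := by
  have hcyc : ∀ b : ℤ × ℤ, aeval ((x ^ b.1 * y ^ b.2 : Kˣ) : K) (cyclotomic n ℚ) =
      evP (x : K) (y : K) (PU2M.cyc n b) := by
    intro b
    rw [PU2M.evP_cyc x.ne_zero y.ne_zero, aeval_def, ← eval_map, map_cyclotomic]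
    congr 1
    push_cast
    rfl
  obtain ⟨ξ, η, hξ, hη, -, -, h1⟩ := hPTS K x y hp.toInd v hg hvx hvy
  have hnz : NeZero (n : ℂ) := ⟨by exact_mod_cast hn.ne'⟩
  have hprim : IsPrimitiveRoot (ξ ^ a.1 * η ^ a.2) n := by
    rw [hcyc] at hv
    have h2 := (h1 _).2 hv
    rw [PU2M.evP_cyc hξ hη] at h2
    exact isRoot_cyclotomic_iff.1 h2
  have hprim' : IsPrimitiveRoot (ξ ^ (-a).1 * η ^ (-a).2) n := by
    have h2 : ξ ^ (-a).1 * η ^ (-a).2 = (ξ ^ a.1 * η ^ a.2)⁻¹ := by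
      rw [Prod.fst_neg, Prod.snd_neg, zpow_neg, zpow_neg, mul_inv]
    rw [h2]
    exact hprim.inv
  have h3 : Pos v (aeval ((x ^ (-a).1 * y ^ (-a).2 : Kˣ) : K) (cyclotomic n ℚ)) := by
    rw [hcyc]
    refine (h1 _).1 ?_
    rw [PU2M.evP_cyc hξ hη]
    exact isRoot_cyclotomic_iff.2 hprim'
  rw [dm_pos]
  have h4 : σ (aeval ((x ^ a.1 * y ^ a.2 : Kˣ) : K) (cyclotomic n ℚ)) =
      aeval ((x ^ (-a).1 * y ^ (-a).2 : Kˣ) : K) (cyclotomic n ℚ) := by
    have h5 : σ ((x ^ a.1 * y ^ a.2 : Kˣ) : K) = ((x ^ (-a).1 * y ^ (-a).2 : Kˣ) : K) := by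
      have h6 := congrArg Units.val (um_pow hx hy a)
      rw [um_val] at h6
      rw [h6, Prod.fst_neg, Prod.snd_neg, zpow_neg, zpow_neg, ← mul_inv]
    have h7 := aeval_algHom_apply (σ : K →ₐ[ℚ] K) ((x ^ a.1 * y ^ a.2 : Kˣ) : K) (cyclotomic n ℚ)
    have h8 : (σ : K →ₐ[ℚ] K) ((x ^ a.1 * y ^ a.2 : Kˣ) : K) =
        ((x ^ (-a).1 * y ^ (-a).2 : Kˣ) : K) := h5
    rw [h8] at h7
    exact h7.symm
  rw [h4]
  exact h3

theorem step3 (hPU3 : SpecPU3) (hPUQ : SpecPUQ) (hFNV : SpecFNV) (hPTS : SpecPTS)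
    (hp : Pre K x y) (hx : σ x = (x : K)⁻¹) (hy : σ y = (y : K)⁻¹) :
    ∃ S : Set (DVal K), S.Finite ∧ (∀ v : DVal K, GeoF ℚ v → v ∉ S → v.ord x = 0 ∧ v.ord y = 0) ∧
      ∀ a : ℤ × ℤ, IsCoprime a.1 a.2 → ∀ n : ℕ, 0 < n → ∀ v : DVal K, GeoF ℚ v →
        v ∉ S → Pos v (aeval ((x ^ a.1 * y ^ a.2 : Kˣ) : K) (cyclotomic n ℚ)) →
        ∀ u : Kˣ, v.ord (um σ u) = v.ord u := by
  classical
  obtain ⟨S, T, hS, hT, -, H⟩ := hPU3 K x y σ hp hx hy
  have hsf : ∀ f : Kˣ, {v : DVal K | GeoF ℚ v ∧ v.ord f ≠ 0}.Finite :=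
    ASMM.supp_finite hFNV (x : K) hp.fin
  have hN : ∀ a : ℤ × ℤ, ∃ N : ℕ, IsCoprime a.1 a.2 → ∀ n : ℕ, N < n → ∀ p : ℚ[X],
      Irreducible p → p ∣ cyclotomic n ℚ → ∀ v w : DVal K, GeoF ℚ v → GeoF ℚ w →
      (∀ u : Kˣ, (u : K) = aeval ((x ^ a.1 * y ^ a.2 : Kˣ) : K) p → 0 < v.ord u ∧ 0 < w.ord u) →
      v = w := by
    intro a
    by_cases ha : IsCoprime a.1 a.2
    · have ht := transc hp ha
      obtain ⟨N, hN⟩ := hPUQ ℚ K (Rat.castHom ℂ) ((x ^ a.1 * y ^ a.2 : Kˣ) : K)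
        (fun q => by
          rw [eq_ratCast]
          exact SubfieldClass.ratCast_mem Qab q) ht
        (PlaceQ.finite_adjoin (x : K) hp.fin _ ht) hp.const
        (fun m c u hm => hp.pure a.1 a.2 m c u ha hm)
      exact ⟨N, fun _ => hN⟩
    · exact ⟨0, fun h => absurd h ha⟩
  choose N hN using hN
  refine ⟨(S ∪ ({v | GeoF ℚ v ∧ v.ord x ≠ 0} ∪ {v | GeoF ℚ v ∧ v.ord y ≠ 0})) ∪
    ⋃ a ∈ T, ⋃ n ∈ Finset.Icc 1 (N a), {v | GeoF ℚ v ∧ IsCoprime a.1 a.2 ∧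
      Pos v (aeval ((x ^ a.1 * y ^ a.2 : Kˣ) : K) (cyclotomic n ℚ))}, ?_, ?_, ?_⟩
  · refine (hS.union ((hsf x).union (hsf y))).union ?_
    refine Set.Finite.biUnion hT fun a _ => ?_
    refine Set.Finite.biUnion (Finset.finite_toSet _) fun n hn => ?_
    have hn1 : 0 < n := by
      have := Finset.mem_coe.1 hn
      rw [Finset.mem_Icc] at this
      omega
    by_cases ha : IsCoprime a.1 a.2
    · have ht : Transcendental ℚ
          (aeval ((x ^ a.1 * y ^ a.2 : Kˣ) : K) (cyclotomic n ℚ)) := by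
        apply transc_aeval (transc hp ha)
        rw [natDegree_cyclotomic]
        exact (Nat.totient_pos.2 hn1).ne'
      have h0 : aeval ((x ^ a.1 * y ^ a.2 : Kˣ) : K) (cyclotomic n ℚ) ≠ 0 := by
        intro h0
        rw [h0] at ht
        exact ht isAlgebraic_zero
      refine (hFNV ℚ K (x : K) hp.fin (Units.mk0 _ h0) ht).1.subset ?_
      rintro v ⟨hg, -, hpos⟩
      refine ⟨hg, ?_⟩
      have := (pos_unit (v := v) (u := Units.mk0 _ h0)).1 hpos
      omega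
    · convert Set.finite_empty (α := DVal K)
      ext v
      simp only [Set.mem_ofPred_eq, Set.mem_empty_iff_false, iff_false, not_and]
      exact fun _ h => absurd h ha
  · intro v hg hv
    constructor
    · by_contra h0
      exact hv (Or.inl (Or.inr (Or.inl ⟨hg, h0⟩)))
    · by_contra h0
      exact hv (Or.inl (Or.inr (Or.inr ⟨hg, h0⟩)))
  · intro a ha n hn v hgv hvS hv
    have hvx : v.ord x = 0 := by
      by_contra h0
      exact hvS (Or.inl (Or.inr (Or.inl ⟨hgv, h0⟩)))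
    have hvy : v.ord y = 0 := by
      by_contra h0
      exact hvS (Or.inl (Or.inr (Or.inr ⟨hgv, h0⟩)))
    by_cases haT : a ∈ T
    · by_cases hnN : N a < n
      · have hdm : v = dm σ v := by
          refine hN a ha n hnN (cyclotomic n ℚ) (cyclotomic.irreducible_rat hn) dvd_rfl v
            (dm σ v) hgv (dm_geo hgv) ?_
          intro u hu
          have hw := pos_dm hPTS hp hx hy hgv hvx hvy a hn hv
          rw [← hu, pos_unit] at hv hw
          omega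
        intro u
        rw [← dm_ord, ← hdm]
      · exfalso
        apply hvS
        right
        simp only [Set.mem_iUnion]
        exact ⟨a, haT, n, by rw [Finset.mem_Icc]; omega, hgv, ha, hv⟩
    · intro u
      exact H a ha haT n hn v hgv (fun h => hvS (Or.inl (Or.inl h))) hv u (um σ u) (um_val σ u)

/-- The tame symbols of the conjugate element. -/
theorem tor_dm (v : DVal K) (f x g y : Kˣ)
    (h : tame (dm σ v) (sym f x + sym g y) ∈ tor _) :
    tame v (sym (um σ f) (um σ x) + sym (um σ g) (um σ y)) ∈ tor _ := by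
  rw [tor_tame2_iff] at h ⊢
  obtain ⟨N, hN, h1⟩ := h
  refine ⟨N, hN, ?_⟩
  have h2 : ∀ f x : Kˣ, v.tameUnit (um σ f) (um σ x) = um σ ((dm σ v).tameUnit f x) := by
    intro f x
    unfold DVal.tameUnit
    rw [map_mul, map_mul, map_zpow, map_zpow, map_zpow, dm_ord, dm_ord]
    congr 3
    apply Units.ext
    rw [um_val, Units.val_neg, Units.val_one, map_neg, map_one]
  rw [h2, h2, ← map_mul, ← map_pow]
  generalize ((dm σ v).tameUnit f x * (dm σ v).tameUnit g y) ^ N = t at h1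
  rcases h1 with h1 | ⟨u, hu, h1⟩
  · left
    rw [h1, map_one]
  · right
    refine ⟨um σ u, ?_, h1⟩
    rw [um_val, um_val, ← hu, map_sub, map_one]

theorem mapK_eq (_hx : σ x = (x : K)⁻¹) (_hy : σ y = (y : K)⁻¹) (f g : Kˣ) :
    mapK (σ : K →+* K) (sym f x + sym g y) = sym (um σ f) (um σ x) + sym (um σ g) (um σ y) := by
  rw [map_add, mapK_sym, mapK_sym]
  rfl

theorem sum_eq (hx : σ x = (x : K)⁻¹) (hy : σ y = (y : K)⁻¹) (f g : Kˣ) :
    (sym f x + sym g y) + mapK (σ : K →+* K) (sym f x + sym g y) =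
      sym (f * (um σ f)⁻¹) x + sym (g * (um σ g)⁻¹) y := by
  have h1 : ∀ f x : Kˣ, sym f x⁻¹ = sym f⁻¹ x := by
    intro f x
    have e1 := sym_zpow_right f x (-1)
    have e2 := sym_zpow_left f x (-1)
    rw [zpow_neg_one] at e1 e2
    rw [e1, e2]
  rw [mapK_eq hx hy, um_x hx, um_x hy, h1, h1, sym_mul_left, sym_mul_left]
  abel

/-- Outside a finite set the entries of the sum are units. -/
theorem units (_hp : Pre K x y) {S : Set (DVal K)}
    (hSx : ∀ v : DVal K, GeoF ℚ v → v ∉ S → v.ord x = 0 ∧ v.ord y = 0)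
    (H : ∀ a : ℤ × ℤ, IsCoprime a.1 a.2 → ∀ n : ℕ, 0 < n → ∀ v : DVal K, GeoF ℚ v →
        v ∉ S → Pos v (aeval ((x ^ a.1 * y ^ a.2 : Kˣ) : K) (cyclotomic n ℚ)) →
        ∀ u : Kˣ, v.ord (um σ u) = v.ord u) (f g : Kˣ)
    (htt : TorTameF ℚ (sym (f * (um σ f)⁻¹) x + sym (g * (um σ g)⁻¹) y)) :
    ∀ v : DVal K, GeoF ℚ v → v ∉ S →
      v.ord (f * (um σ f)⁻¹) = 0 ∧ v.ord (g * (um σ g)⁻¹) = 0 := by
  intro v hg hvS
  by_contra hcon
  have hvf : v.ord (f * (um σ f)⁻¹) ≠ 0 ∨ v.ord (g * (um σ g)⁻¹) ≠ 0 := by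
    by_contra h
    push Not at h
    exact hcon h
  obtain ⟨hvx, hvy⟩ := hSx v hg hvS
  obtain ⟨m, a₁, a₂, hm, ha, h1, h2⟩ := exists_primitive hvf
  obtain ⟨k, hk, hpos⟩ := pos_of_tame2 hvx hvy hm h1 h2 (htt v hg)
  have hord : v.ord (x ^ a₁ * y ^ a₂) = 0 := by
    rw [v.ord_mul, v.ord_zpow, v.ord_zpow, hvx, hvy, mul_zero, mul_zero, add_zero]
  have hnn : NN v ((x ^ a₁ * y ^ a₂ : Kˣ) : K) := by rw [nn_unit, hord]
  obtain ⟨n, p, hn, -, -, -, -, hp2⟩ := exists_factor hg hnn hk hpos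
  have hinv := H (a₁, a₂) ha n hn v hg hvS hp2
  apply hcon
  rw [v.ord_mul, v.ord_mul, v.ord_inv, v.ord_inv, hinv f, hinv g]
  constructor <;> ring

end Rec

end AS3M

open AS2M ASMM PU3M AS3M

theorem specAS3 (hPU3 : SpecPU3) (hPUQ : SpecPUQ) (hFNV : SpecFNV) (hPTS : SpecPTS) :
    SpecAS3 := by
  classical
  intro K _ _ x y σ hp hx hy
  obtain ⟨S, hS, hSx, H⟩ := AS3M.step3 hPU3 hPUQ hFNV hPTS hp hx hy
  have : Finite S := hS
  let φ : US x y S →+ (S ⊕ S → ℤ) :=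
    { toFun := fun z i => Sum.elim (fun w : S => (ordS (w : DVal K) z.1).1)
        (fun w : S => (ordS (w : DVal K) z.1).2) i
      map_zero' := by
        funext i
        rcases i with w | w
        · show (ordS (w : DVal K) 0).1 = 0
          rw [map_zero]
          rfl
        · show (ordS (w : DVal K) 0).2 = 0
          rw [map_zero]
          rfl
      map_add' := by
        intro z z'
        funext i
        rcases i with w | w
        · show (ordS (w : DVal K) (z.1 + z'.1)).1 = _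
          rw [map_add]
          rfl
        · show (ordS (w : DVal K) (z.1 + z'.1)).2 = _
          rw [map_add]
          rfl }
  obtain ⟨r, g, hg⟩ := fg_ker φ
  refine ⟨r, fun i => symS x y (g i).1, ?_, ?_⟩
  · intro i
    exact ⟨fun w hw => (g i).2.2 w hw, (g i).1.1.toMul, (g i).1.2.toMul, rfl⟩
  intro f h htt
  rw [sum_eq hx hy]
  set f' : Kˣ := f * (um σ f)⁻¹ with hf'
  set g' : Kˣ := h * (um σ h)⁻¹ with hg'
  have htt' : TorTameF ℚ (sym f' x + sym g' y) := by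
    intro w hgw
    have h1 : tame w (sym f' x + sym g' y) ∈ tor _ := by
      rw [hf', hg', ← sum_eq hx hy, map_add]
      refine add_mem (htt w hgw) ?_
      rw [mapK_eq hx hy]
      exact tor_dm w f x h y (htt (dm σ w) (dm_geo hgw))
    exact h1
  have hfg := AS3M.units hp hSx H f h htt'
  have hz : ((Additive.ofMul f', Additive.ofMul g') : Additive Kˣ × Additive Kˣ) ∈ US x y S := by
    refine ⟨fun w hgw hw => ?_, fun w hgw => htt' w hgw⟩
    show (w.ord f', w.ord g') = 0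
    rw [(hfg w hgw hw).1, (hfg w hgw hw).2]
    rfl
  obtain ⟨n, hn⟩ := hg ⟨_, hz⟩
  set z : US x y S := ⟨_, hz⟩ - ∑ i, n i • g i with hzdef
  have hzt : symS x y z.1 ∈ tor (K2 K) := by
    refine const_tor hFNV hp z.1.1.toMul z.1.2.toMul ?_ (fun w hw => z.2.2 w hw)
    intro w hgw
    by_cases hw : w ∈ S
    · exact ⟨congrFun hn (Sum.inl ⟨w, hw⟩), congrFun hn (Sum.inr ⟨w, hw⟩)⟩
    · have := z.2.1 w hgw hw
      exact ⟨congrArg Prod.fst this, congrArg Prod.snd this⟩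
  have hsum : symS x y z.1 = (sym f' x + sym g' y) - ∑ i, n i • symS x y (g i).1 := by
    rw [hzdef, AddSubgroup.coe_sub, map_sub, AddSubgroup.val_finsetSum, map_sum]
    congr 1
    refine Finset.sum_congr rfl fun i _ => ?_
    rw [AddSubgroup.coe_zsmul, map_zsmul]
  rw [hsum] at hzt
  obtain ⟨M, hM, h1⟩ := hzt
  refine ⟨M, hM, ?_⟩
  have hcl : ∑ i, n i • symS x y (g i).1 ∈
      AddSubgroup.closure (Set.range fun i => symS x y (g i).1) :=
    sum_mem fun i _ => zsmul_mem (AddSubgroup.subset_closure (Set.mem_range_self i)) _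
  rw [nsmul_sub, sub_eq_zero] at h1
  rw [h1]
  exact nsmul_mem hcl _

end MP743d1e.RT
end

section
/-!
# Module ASG: the assembly for Theorem B without purity
-/
set_option autoImplicit false

namespace MP743d1e.RT

open scoped BigOperators
open Polynomial IntermediateField MP743d1e.CY MP743d1e.Integ MP743d1e.ConstM
open Pool.Agent.Lib.MPcb8a44

namespace ASGM

open ASMM AS2M PU3M AS3M

section Core

variable {K : Type} [Field K] [Algebra ℚ K] {x y : Kˣ}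

theorem transc (hp : Ind K x y) {a : ℤ × ℤ} (ha : IsCoprime a.1 a.2) :
    Transcendental ℚ ((x ^ a.1 * y ^ a.2 : Kˣ) : K) := by
  intro h
  obtain ⟨c, hc⟩ := hp.const _ h
  exact hp.ind a.1 a.2 c ha hc

/-- The factor at a point `v`. -/
def Fac (x y : Kˣ) (S : Set (DVal K)) (f g : Kˣ) (v : DVal K) (P : Kˣ) (m a₁ a₂ : ℤ) : Prop :=
  0 < v.ord P ∧ v.ord f = a₁ * m ∧ v.ord g = a₂ * m ∧
    a₁ • sym P x + a₂ • sym P y ∈ tor (K2 K) ∧
    ∀ w : DVal K, GeoF ℚ w → w ∉ S → w ≠ v → w.ord P = 0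

/-- Multiples of the symbol have `S`-units as entries. -/
theorem step4 (hFNV : SpecFNV) (hfin : FiniteDimensional ℚ⟮(x : K)⟯ K) {S : Set (DVal K)} (f g : Kˣ)
    (hfac : ∀ v : DVal K, GeoF ℚ v → v ∉ S → (v.ord f ≠ 0 ∨ v.ord g ≠ 0) →
      ∃ (P : Kˣ) (m a₁ a₂ : ℤ), Fac x y S f g v P m a₁ a₂) :
    ∃ (E : ℤ) (f' g' : Kˣ), E ≠ 0 ∧
      (∀ w : DVal K, GeoF ℚ w → w ∉ S → w.ord f' = 0 ∧ w.ord g' = 0) ∧
      (sym f' x + sym g' y) - E • (sym f x + sym g y) ∈ tor (K2 K) := by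
  classical
  have hsf : ∀ f : Kˣ, {v : DVal K | GeoF ℚ v ∧ v.ord f ≠ 0}.Finite :=
    ASMM.supp_finite hFNV (x : K) hfin
  have hTfin : {v : DVal K | (GeoF ℚ v ∧ v ∉ S) ∧ (v.ord f ≠ 0 ∨ v.ord g ≠ 0)}.Finite := by
    refine ((hsf f).union (hsf g)).subset ?_
    rintro v ⟨⟨h1, -⟩, h2 | h2⟩
    · exact Or.inl ⟨h1, h2⟩
    · exact Or.inr ⟨h1, h2⟩
  set T : Finset (DVal K) := hTfin.toFinset with hT
  have hTm : ∀ v : DVal K, v ∈ T ↔ (GeoF ℚ v ∧ v ∉ S) ∧ (v.ord f ≠ 0 ∨ v.ord g ≠ 0) := by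
    intro v
    rw [hT, Set.Finite.mem_toFinset]
    rfl
  -- the factor at each point of `T`
  have hex : ∀ v : DVal K, ∃ (P : Kˣ) (m a₁ a₂ : ℤ), v ∈ T → Fac x y S f g v P m a₁ a₂ := by
    intro v
    by_cases hv : v ∈ T
    swap
    · exact ⟨1, 0, 0, 0, fun h' => absurd h' hv⟩
    obtain ⟨⟨hg, hvS⟩, hvf⟩ := (hTm v).1 hv
    obtain ⟨P, m, a₁, a₂, h⟩ := hfac v hg hvS hvf
    exact ⟨P, m, a₁, a₂, fun _ => h⟩
  choose P m a₁ a₂ hP using hex
  set E : ℤ := ∏ v ∈ T, v.ord (P v) with hE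
  have hEpos : 0 < E := Finset.prod_pos fun v hv => (hP v hv).1
  have hdiv : ∀ v ∈ T, v.ord (P v) ∣ E := fun v hv => Finset.dvd_prod_of_mem _ hv
  have key : ∀ (u : Kˣ) (a : DVal K → ℤ), (∀ v ∈ T, v.ord u = a v * m v) →
      (∀ v : DVal K, GeoF ℚ v → v ∉ S → v ∉ T → v.ord u = 0) →
      ∀ w : DVal K, GeoF ℚ w → w ∉ S →
        w.ord (u ^ E * ∏ v ∈ T, P v ^ (-(E / v.ord (P v) * (a v * m v)))) = 0 := by
    intro u a hu1 hu2 w hgw hwS
    have hord : w.ord (u ^ E * ∏ v ∈ T, P v ^ (-(E / v.ord (P v) * (a v * m v)))) =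
        E * w.ord u - ∑ v ∈ T, (E / v.ord (P v) * (a v * m v)) * w.ord (P v) := by
      rw [w.ord_mul, w.ord_zpow, ord_prod, sub_eq_add_neg, ← Finset.sum_neg_distrib]
      congr 1
      refine Finset.sum_congr rfl fun v _ => ?_
      rw [w.ord_zpow]
      ring
    rw [hord]
    have h0 : ∀ v ∈ T, v ≠ w → (E / v.ord (P v) * (a v * m v)) * w.ord (P v) = 0 := by
      intro v hv hvw
      rw [(hP v hv).2.2.2.2 w hgw hwS hvw.symm, mul_zero]
    by_cases hw : w ∈ T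
    · rw [Finset.sum_eq_single w (fun v hv hvw => h0 v hv hvw) (fun h1 => absurd hw h1)]
      have h4 : E / w.ord (P w) * w.ord (P w) = E := Int.ediv_mul_cancel (hdiv w hw)
      calc E * w.ord u - E / w.ord (P w) * (a w * m w) * w.ord (P w)
          = E * w.ord u - (E / w.ord (P w) * w.ord (P w)) * (a w * m w) := by ring
        _ = 0 := by rw [h4, hu1 w hw]; ring
    · rw [Finset.sum_eq_zero (fun v hv => h0 v hv (fun e => hw (e ▸ hv))), hu2 w hgw hwS hw]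
      ring
  have hnotT : ∀ v : DVal K, GeoF ℚ v → v ∉ S → v ∉ T → v.ord f = 0 ∧ v.ord g = 0 := by
    intro v h1 h2 h3
    rw [hTm] at h3
    by_contra h4
    apply h3
    refine ⟨⟨h1, h2⟩, ?_⟩
    by_contra h5
    apply h4
    push Not at h5
    exact h5
  refine ⟨E, f ^ E * ∏ v ∈ T, P v ^ (-(E / v.ord (P v) * (a₁ v * m v))),
    g ^ E * ∏ v ∈ T, P v ^ (-(E / v.ord (P v) * (a₂ v * m v))), hEpos.ne', ?_, ?_⟩
  · intro w hgw hwS
    exact ⟨key f a₁ (fun v hv => (hP v hv).2.1) (fun v h1 h2 h3 => (hnotT v h1 h2 h3).1) w hgw hwS,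
      key g a₂ (fun v hv => (hP v hv).2.2.1) (fun v h1 h2 h3 => (hnotT v h1 h2 h3).2) w hgw hwS⟩
  · have h1 : sym (f ^ E * ∏ v ∈ T, P v ^ (-(E / v.ord (P v) * (a₁ v * m v)))) x +
        sym (g ^ E * ∏ v ∈ T, P v ^ (-(E / v.ord (P v) * (a₂ v * m v)))) y -
        E • (sym f x + sym g y) =
        ∑ v ∈ T, (-(E / v.ord (P v) * m v)) • (a₁ v • sym (P v) x + a₂ v • sym (P v) y) := by
      rw [sym_mul_left, sym_mul_left, sym_zpow_left, sym_zpow_left, sym_prod_left, sym_prod_left,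
        zsmul_add (sym f x) (sym g y) E]
      have h2 : ∑ v ∈ T, (-(E / v.ord (P v) * m v)) • (a₁ v • sym (P v) x + a₂ v • sym (P v) y) =
          ∑ v ∈ T, sym (P v ^ (-(E / v.ord (P v) * (a₁ v * m v)))) x +
          ∑ v ∈ T, sym (P v ^ (-(E / v.ord (P v) * (a₂ v * m v)))) y := by
        rw [← Finset.sum_add_distrib]
        refine Finset.sum_congr rfl fun v _ => ?_
        rw [sym_zpow_left, sym_zpow_left, zsmul_add, ← mul_zsmul, ← mul_zsmul]
        congr 2 <;> ring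
      rw [h2]
      abel
    rw [h1]
    exact sum_mem fun v hv => zsmul_mem (hP v hv).2.2.2.1 _

/-- A function without zeros and poles is a constant. -/
theorem const_of_ord (hFNV : SpecFNV) (hp : Ind K x y) (c : Kˣ)
    (h : ∀ w : DVal K, GeoF ℚ w → w.ord c = 0) : ∃ q : ℚ, (c : K) = algebraMap ℚ K q := by
  refine hp.const _ ?_
  by_contra h1
  obtain ⟨w, hgw, hw⟩ := (hFNV ℚ K (x : K) hp.fin c h1).2
  rw [h w hgw] at hw
  exact lt_irrefl _ hw

/-- The constants contribute torsion only. -/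
theorem const_tor (hFNV : SpecFNV) (hp : Ind K x y) (c c' : Kˣ)
    (hc : ∀ w : DVal K, GeoF ℚ w → w.ord c = 0 ∧ w.ord c' = 0)
    (htt : TorTameF ℚ (sym c x + sym c' y)) : sym c x + sym c' y ∈ tor (K2 K) := by
  obtain ⟨q, hq⟩ := const_of_ord hFNV hp c fun w hw => (hc w hw).1
  obtain ⟨q', hq'⟩ := const_of_ord hFNV hp c' fun w hw => (hc w hw).2
  have key : ∀ w : DVal K, GeoF ℚ w → ∃ k : ℤ, k ≠ 0 ∧
      c ^ (w.ord x * k) * c' ^ (w.ord y * k) = 1 := by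
    intro w hgw
    have h1 := htt w hgw
    have h2 : tame w (sym c x + sym c' y) ∈ tor _ := h1
    rw [tor_tame2_iff] at h2
    obtain ⟨N, hN, h3⟩ := h2
    refine ⟨N, by exact_mod_cast hN.ne', ?_⟩
    have h4 : w.tameUnit c x * w.tameUnit c' y = c ^ w.ord x * c' ^ w.ord y := by
      unfold DVal.tameUnit
      rw [(hc w hgw).1, (hc w hgw).2, zero_mul, zero_mul, zpow_zero, neg_zero, zpow_zero,
        zpow_zero, one_mul, one_mul, mul_one, mul_one]
    rw [h4, mul_pow] at h3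
    have h5 : c ^ (w.ord x * N) * c' ^ (w.ord y * N) = (c ^ w.ord x) ^ N * (c' ^ w.ord y) ^ N := by
      rw [zpow_mul, zpow_mul, zpow_natCast, zpow_natCast]
    rw [h5]
    refine const_eq_one hgw ?_ h3
    refine ⟨(q ^ w.ord x) ^ N * (q' ^ w.ord y) ^ N, ?_⟩
    rw [Units.val_mul, Units.val_pow_eq_pow_val, Units.val_pow_eq_pow_val,
      Units.val_zpow_eq_zpow_val, Units.val_zpow_eq_zpow_val, hq, hq', map_mul, map_pow, map_pow,
      map_zpow₀, map_zpow₀]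
  -- two independent vectors
  have hx : Transcendental ℚ (x : K) := by
    have := transc hp (a := (1, 0)) isCoprime_one_left
    simpa using this
  obtain ⟨w₁, hg₁, hw₁⟩ := (hFNV ℚ K (x : K) hp.fin x hx).2
  obtain ⟨m, b₁, b₂, hm, hb, h1, h2⟩ := exists_primitive (p := w₁.ord x) (q := w₁.ord y)
    (Or.inl hw₁.ne')
  have hco : IsCoprime (-b₂) b₁ := hb.symm.neg_left
  obtain ⟨w₂, hg₂, hw₂⟩ := (hFNV ℚ K (x : K) hp.fin (x ^ (-b₂) * y ^ b₁)
    (transc hp (a := (-b₂, b₁)) hco)).2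
  rw [w₂.ord_mul, w₂.ord_zpow, w₂.ord_zpow] at hw₂
  have hD : w₁.ord x * w₂.ord y - w₁.ord y * w₂.ord x ≠ 0 := by
    rw [h1, h2]
    intro h0
    have h3 : m * (-b₂ * w₂.ord x + b₁ * w₂.ord y) = 0 := by linarith
    rcases mul_eq_zero.1 h3 with h4 | h4
    · exact hm h4
    · omega
  obtain ⟨k₁, hk₁, e₁⟩ := key w₁ hg₁
  obtain ⟨k₂, hk₂, e₂⟩ := key w₂ hg₂
  set D : ℤ := w₁.ord x * w₂.ord y - w₁.ord y * w₂.ord x with hDd
  have hDk : k₁ * k₂ * D ≠ 0 := mul_ne_zero (mul_ne_zero hk₁ hk₂) hD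
  have e3 : c ^ (k₁ * k₂ * D) = 1 := by
    have h3 : c ^ (k₁ * k₂ * D) =
        (c ^ (w₁.ord x * k₁) * c' ^ (w₁.ord y * k₁)) ^ (w₂.ord y * k₂) *
        ((c ^ (w₂.ord x * k₂) * c' ^ (w₂.ord y * k₂)) ^ (w₁.ord y * k₁))⁻¹ := by
      rw [mul_zpow, mul_zpow, mul_inv, ← zpow_mul, ← zpow_mul, ← zpow_mul, ← zpow_mul,
        ← zpow_neg, ← zpow_neg, mul_mul_mul_comm, ← zpow_add, ← zpow_add]
      have h4 : w₁.ord y * k₁ * (w₂.ord y * k₂) + -(w₂.ord y * k₂ * (w₁.ord y * k₁)) = 0 := by ring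
      rw [h4, zpow_zero, mul_one]
      congr 1
      rw [hDd]
      ring
    rw [h3, e₁, e₂, one_zpow, one_zpow, inv_one, mul_one]
  have e4 : c' ^ (k₁ * k₂ * D) = 1 := by
    have h3 : c' ^ (k₁ * k₂ * D) =
        ((c ^ (w₁.ord x * k₁) * c' ^ (w₁.ord y * k₁)) ^ (w₂.ord x * k₂))⁻¹ *
        (c ^ (w₂.ord x * k₂) * c' ^ (w₂.ord y * k₂)) ^ (w₁.ord x * k₁) := by
      rw [mul_zpow, mul_zpow, mul_inv, ← zpow_mul, ← zpow_mul, ← zpow_mul, ← zpow_mul,
        ← zpow_neg, ← zpow_neg, mul_mul_mul_comm, ← zpow_add, ← zpow_add]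
      have h4 : -(w₁.ord x * k₁ * (w₂.ord x * k₂)) + w₂.ord x * k₂ * (w₁.ord x * k₁) = 0 := by ring
      rw [h4, zpow_zero, one_mul]
      congr 1
      rw [hDd]
      ring
    rw [h3, e₁, e₂, one_zpow, one_zpow, inv_one, one_mul]
  refine add_mem (tor_of_zsmul hDk ?_) (tor_of_zsmul hDk ?_)
  · rw [← sym_zpow_left, e3, sym_one_left]
    exact zero_mem _
  · rw [← sym_zpow_left, e4, sym_one_left]
    exact zero_mem _

/-- The generators for a class of pairs for which there are factors. -/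
theorem core (hFNV : SpecFNV) (hp : Ind K x y) {S : Set (DVal K)} (hS : S.Finite)
    (Good : Kˣ → Kˣ → Prop)
    (hfac : ∀ f g : Kˣ, Good f g → TorTameF ℚ (sym f x + sym g y) → ∀ v : DVal K, GeoF ℚ v →
      v ∉ S → (v.ord f ≠ 0 ∨ v.ord g ≠ 0) →
      ∃ (P : Kˣ) (m a₁ a₂ : ℤ), Fac x y S f g v P m a₁ a₂) :
    ∃ (r : ℕ) (β : Fin r → K2 K),
      (∀ i, TorTameF ℚ (β i) ∧ ∃ f g : Kˣ, β i = sym f x + sym g y) ∧
      ∀ f g : Kˣ, Good f g → TorTameF ℚ (sym f x + sym g y) →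
        ∃ N : ℕ, 0 < N ∧ N • (sym f x + sym g y) ∈ AddSubgroup.closure (Set.range β) := by
  classical
  have : Finite S := hS
  let φ : US x y S →+ (S ⊕ S → ℤ) :=
    { toFun := fun z i => Sum.elim (fun w : S => (ordS (w : DVal K) z.1).1)
        (fun w : S => (ordS (w : DVal K) z.1).2) i
      map_zero' := by
        funext i
        rcases i with w | w
        · show (ordS (w : DVal K) 0).1 = 0
          rw [map_zero]
          rfl
        · show (ordS (w : DVal K) 0).2 = 0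
          rw [map_zero]
          rfl
      map_add' := by
        intro z z'
        funext i
        rcases i with w | w
        · show (ordS (w : DVal K) (z.1 + z'.1)).1 = _
          rw [map_add]
          rfl
        · show (ordS (w : DVal K) (z.1 + z'.1)).2 = _
          rw [map_add]
          rfl }
  obtain ⟨r, g, hg⟩ := fg_ker φ
  refine ⟨r, fun i => symS x y (g i).1, ?_, ?_⟩
  · intro i
    exact ⟨fun w hw => (g i).2.2 w hw, (g i).1.1.toMul, (g i).1.2.toMul, rfl⟩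
  intro f h hgood htt
  obtain ⟨E, f', g', hE, hfg, hd⟩ := step4 hFNV hp.fin f h (hfac f h hgood htt)
  have hz : ((Additive.ofMul f', Additive.ofMul g') : Additive Kˣ × Additive Kˣ) ∈ US x y S := by
    refine ⟨fun w hgw hw => ?_, fun w hgw => ?_⟩
    · show (w.ord f', w.ord g') = 0
      rw [(hfg w hgw hw).1, (hfg w hgw hw).2]
      rfl
    · show tame w (sym f' x + sym g' y) ∈ tor _
      have h1 : sym f' x + sym g' y =
          ((sym f' x + sym g' y) - E • (sym f x + sym h y)) + E • (sym f x + sym h y) := by abel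
      rw [h1, map_add]
      refine add_mem (tor_map _ hd) ?_
      rw [map_zsmul]
      exact zsmul_mem (htt w hgw) _
  obtain ⟨n, hn⟩ := hg ⟨_, hz⟩
  set z : US x y S := ⟨_, hz⟩ - ∑ i, n i • g i with hzdef
  have hzt : symS x y z.1 ∈ tor (K2 K) := by
    refine const_tor hFNV hp z.1.1.toMul z.1.2.toMul ?_ (fun w hw => z.2.2 w hw)
    intro w hgw
    by_cases hw : w ∈ S
    · exact ⟨congrFun hn (Sum.inl ⟨w, hw⟩), congrFun hn (Sum.inr ⟨w, hw⟩)⟩
    · have := z.2.1 w hgw hw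
      exact ⟨congrArg Prod.fst this, congrArg Prod.snd this⟩
  have hsum : symS x y z.1 = (sym f' x + sym g' y) - ∑ i, n i • symS x y (g i).1 := by
    rw [hzdef, AddSubgroup.coe_sub, map_sub, AddSubgroup.val_finsetSum, map_sum]
    congr 1
    refine Finset.sum_congr rfl fun i _ => ?_
    rw [AddSubgroup.coe_zsmul, map_zsmul]
  have htot : E • (sym f x + sym h y) - ∑ i, n i • symS x y (g i).1 ∈ tor (K2 K) := by
    have h1 : E • (sym f x + sym h y) - ∑ i, n i • symS x y (g i).1 =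
        symS x y z.1 - ((sym f' x + sym g' y) - E • (sym f x + sym h y)) := by
      rw [hsum]
      abel
    rw [h1]
    exact sub_mem hzt hd
  obtain ⟨M, hM, h1⟩ := htot
  have hcl : ∑ i, n i • symS x y (g i).1 ∈
      AddSubgroup.closure (Set.range fun i => symS x y (g i).1) :=
    sum_mem fun i _ => zsmul_mem (AddSubgroup.subset_closure (Set.mem_range_self i)) _
  have h2 : (M : ℤ) • E • (sym f x + sym h y) ∈
      AddSubgroup.closure (Set.range fun i => symS x y (g i).1) := by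
    have h3 : (M : ℤ) • E • (sym f x + sym h y) = M • ∑ i, n i • symS x y (g i).1 := by
      rw [nsmul_sub, sub_eq_zero] at h1
      rw [natCast_zsmul, h1]
    rw [h3]
    exact nsmul_mem hcl _
  have hME : (M : ℤ) * E ≠ 0 := mul_ne_zero (by exact_mod_cast hM.ne') hE
  refine ⟨((M : ℤ) * E).natAbs, Int.natAbs_pos.2 hME, ?_⟩
  have h4 : ((M : ℤ) * E) • (sym f x + sym h y) ∈
      AddSubgroup.closure (Set.range fun i => symS x y (g i).1) := by
    rw [mul_zsmul]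
    exact h2
  rcases Int.natAbs_eq ((M : ℤ) * E) with h5 | h5
  · rw [h5, natCast_zsmul] at h4
    exact h4
  · rw [h5, neg_zsmul, natCast_zsmul, neg_mem_iff] at h4
    exact h4

end Core

section Factor

variable {F K : Type} [Field F] [Field K] [Algebra F K] {v : DVal K} {h : K}

theorem exists_irr (hg : GeoF F v) (hh : NN v h) {q : F[X]} (hq : q ≠ 0)
    (hpos : Pos v (aeval h q)) : ∃ p : F[X], Irreducible p ∧ p ∣ q ∧ Pos v (aeval h p) := by
  classical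
  have hmem : q ∈ pid hg hh := (mem_pid hg hh q).2 hpos
  have hP := pid_prime hg hh
  have hne : pid hg hh ≠ ⊥ := by
    intro h0
    rw [h0, Ideal.mem_bot] at hmem
    exact hq hmem
  have hg1 : Prime (Submodule.IsPrincipal.generator (pid hg hh)) :=
    Submodule.IsPrincipal.prime_generator_of_isPrime _ hne
  exact ⟨_, hg1.irreducible, (Submodule.IsPrincipal.mem_iff_generator_dvd _).1 hmem,
    (mem_pid hg hh _).1 (Submodule.IsPrincipal.generator_mem _)⟩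

theorem nn_const (hg : GeoF F v) (c : F) : NN v (algebraMap F K c) := FNVM.nn_const hg c

end Factor

section Exp

variable {α β γ δ : ℤ}

theorem mt_fst {a a'' : ℤ × ℤ} {k : ℕ} (h : mt α β γ δ a = (k : ℤ) • a'') :
    α * a.1 + γ * a.2 = k * a''.1 := by
  have := congrArg Prod.fst h
  simpa [mt] using this

theorem mt_snd {a a'' : ℤ × ℤ} {k : ℕ} (h : mt α β γ δ a = (k : ℤ) • a'') :
    β * a.1 + δ * a.2 = k * a''.2 := by
  have := congrArg Prod.snd h
  simpa [mt] using this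

theorem mt_ne (hdet : α * δ - β * γ ≠ 0) {a : ℤ × ℤ} (ha : IsCoprime a.1 a.2)
    (h1 : α * a.1 + γ * a.2 = 0) (h2 : β * a.1 + δ * a.2 = 0) : False := by
  have e1 : (α * δ - β * γ) * a.1 = 0 := by linear_combination δ * h1 - γ * h2
  have e2 : (α * δ - β * γ) * a.2 = 0 := by linear_combination α * h2 - β * h1
  have f1 : a.1 = 0 := (mul_eq_zero.1 e1).resolve_left hdet
  have f2 : a.2 = 0 := (mul_eq_zero.1 e2).resolve_left hdet
  rw [f1, f2] at ha
  exact not_isCoprime_zero_zero ha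

theorem k_pos (hdet : α * δ - β * γ ≠ 0) {a a'' : ℤ × ℤ} {k : ℕ} (ha : IsCoprime a.1 a.2)
    (h : mt α β γ δ a = (k : ℤ) • a'') : 0 < k := by
  rcases Nat.eq_zero_or_pos k with h0 | h0
  · exfalso
    have h1 := mt_fst h
    have h2 := mt_snd h
    rw [h0, Nat.cast_zero, zero_mul] at h1 h2
    exact mt_ne hdet ha h1 h2
  · exact h0

theorem exists_k (hdet : α * δ - β * γ ≠ 0) {a : ℤ × ℤ} (ha : IsCoprime a.1 a.2) :
    ∃ (a'' : ℤ × ℤ) (k : ℕ), IsCoprime a''.1 a''.2 ∧ mt α β γ δ a = (k : ℤ) • a'' := by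
  have h0 : 0 < Int.gcd (α * a.1 + γ * a.2) (β * a.1 + δ * a.2) := by
    rw [Int.gcd_pos_iff]
    by_contra h
    push Not at h
    exact mt_ne hdet ha h.1 h.2
  obtain ⟨a₁, a₂, h1, h2, h3⟩ := Int.exists_gcd_one h0
  refine ⟨(a₁, a₂), Int.gcd (α * a.1 + γ * a.2) (β * a.1 + δ * a.2),
    Int.isCoprime_iff_gcd_eq_one.2 h1, ?_⟩
  refine Prod.ext ?_ ?_
  · exact h2.trans (mul_comm _ _)
  · exact h3.trans (mul_comm _ _)

theorem k_unique (hdet : α * δ - β * γ ≠ 0) {a b c : ℤ × ℤ} {k l : ℕ} (ha : IsCoprime a.1 a.2)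
    (hb : IsCoprime b.1 b.2) (hc : IsCoprime c.1 c.2) (h1 : mt α β γ δ a = (k : ℤ) • b)
    (h2 : mt α β γ δ a = (l : ℤ) • c) : k = l ∧ b = c := by
  have key : ∀ (b : ℤ × ℤ) (k : ℕ), IsCoprime b.1 b.2 → mt α β γ δ a = (k : ℤ) • b →
      k = Int.gcd (α * a.1 + γ * a.2) (β * a.1 + δ * a.2) := by
    intro b k hb h
    rw [mt_fst h, mt_snd h, Int.gcd_mul_left, Int.isCoprime_iff_gcd_eq_one.1 hb, mul_one,
      Int.natAbs_natCast]
  have hkl : k = l := (key b k hb h1).trans (key c l hc h2).symm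
  refine ⟨hkl, ?_⟩
  have hk : (k : ℤ) ≠ 0 := by exact_mod_cast (k_pos hdet ha h1).ne'
  have e1 : (k : ℤ) * b.1 = k * c.1 := by
    rw [← mt_fst h1, mt_fst h2, hkl]
  have e2 : (k : ℤ) * b.2 = k * c.2 := by
    rw [← mt_snd h1, mt_snd h2, hkl]
  exact Prod.ext (mul_left_cancel₀ hk e1) (mul_left_cancel₀ hk e2)

end Exp

section Red

variable {K : Type} [Field K] [Algebra ℚ K] {x y x' y' : Kˣ} {c₁ c₂ : ℚ} {α β γ δ : ℤ}

theorem rel_pow (hr : Rel K x y x' y' c₁ c₂ α β γ δ) {a a'' : ℤ × ℤ} {k : ℕ}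
    (h : mt α β γ δ a = (k : ℤ) • a'') : ((x ^ a.1 * y ^ a.2 : Kˣ) : K) =
      algebraMap ℚ K (c₁ ^ a.1 * c₂ ^ a.2) * ((x' ^ a''.1 * y' ^ a''.2 : Kˣ) : K) ^ k := by
  have h1 := mt_fst h
  have h2 := mt_snd h
  have h3 : (x' ^ α * y' ^ β) ^ a.1 * (x' ^ γ * y' ^ δ) ^ a.2 = (x' ^ a''.1 * y' ^ a''.2) ^ k := by
    rw [mul_zpow, mul_zpow, ← zpow_mul, ← zpow_mul, ← zpow_mul, ← zpow_mul, mul_mul_mul_comm,
      ← zpow_add, ← zpow_add, h1, h2, mul_pow, ← zpow_natCast, ← zpow_natCast, ← zpow_mul,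
      ← zpow_mul, mul_comm a''.1, mul_comm a''.2]
  have h4 := congrArg Units.val h3
  rw [Units.val_mul, Units.val_zpow_eq_zpow_val, Units.val_zpow_eq_zpow_val,
    Units.val_pow_eq_pow_val] at h4
  rw [Units.val_mul, Units.val_zpow_eq_zpow_val, Units.val_zpow_eq_zpow_val, hr.hx, hr.hy,
    mul_zpow, mul_zpow, ← h4, map_mul, map_zpow₀, map_zpow₀]
  ring

theorem comp_eval {u h : K} {c : ℚ} {k n : ℕ} (hu : h = algebraMap ℚ K c * u ^ k) :
    aeval u ((cyclotomic n ℚ).comp (C c * X ^ k)) = aeval h (cyclotomic n ℚ) := by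
  rw [aeval_comp, map_mul, aeval_C, map_pow, aeval_X, hu]

theorem comp_coeff {c : ℚ} {k n : ℕ} (hk : 0 < k) (hn : 0 < n) {p : ℚ[X]}
    (hp : p ∣ (cyclotomic n ℚ).comp (C c * X ^ k)) : p.coeff 0 ≠ 0 := by
  obtain ⟨q, hq⟩ := hp
  intro h0
  have h1 : ((cyclotomic n ℚ).comp (C c * X ^ k)).coeff 0 = 0 := by
    rw [hq, mul_coeff_zero, h0, zero_mul]
  rw [coeff_zero_eq_eval_zero, eval_comp, eval_mul, eval_C, eval_pow, eval_X,
    zero_pow hk.ne', mul_zero, ← coeff_zero_eq_eval_zero] at h1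
  rcases Nat.lt_or_ge 1 n with h2 | h2
  · rw [cyclotomic_coeff_zero ℚ h2] at h1
    exact one_ne_zero h1
  · have : n = 1 := by omega
    rw [this, cyclotomic_one] at h1
    simp at h1

/-- `f` and `g` have order zero at all the invariant points. -/
def Good (x y f g : Kˣ) : Prop := ∀ σ : K ≃ₐ[ℚ] K, σ x = (x : K)⁻¹ → σ y = (y : K)⁻¹ →
  ∀ v : DVal K, Inv σ v → v.ord f = 0 ∧ v.ord g = 0

/-- The unicity outside a finite set. -/
theorem step3 (hPUG : SpecPUG) (hPUK : SpecPUK) (hFNV : SpecFNV) (hp : Ind K x y)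
    (hp' : Pre K x' y') (hr : Rel K x y x' y' c₁ c₂ α β γ δ) :
    ∃ S : Set (DVal K), S.Finite ∧ (∀ v : DVal K, GeoF ℚ v → v ∉ S →
      v.ord x = 0 ∧ v.ord y = 0 ∧ v.ord x' = 0 ∧ v.ord y' = 0) ∧
      ∀ (a a'' : ℤ × ℤ) (k n : ℕ) (p : ℚ[X]) (v w : DVal K), IsCoprime a.1 a.2 →
        IsCoprime a''.1 a''.2 → mt α β γ δ a = (k : ℤ) • a'' → 0 < n → Irreducible p →
        p ∣ (cyclotomic n ℚ).comp (C (c₁ ^ a.1 * c₂ ^ a.2) * X ^ k) →
        GeoF ℚ v → GeoF ℚ w → v ∉ S → w ∉ S →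
        Pos v (aeval ((x' ^ a''.1 * y' ^ a''.2 : Kˣ) : K) p) →
        Pos w (aeval ((x' ^ a''.1 * y' ^ a''.2 : Kˣ) : K) p) →
        v = w ∨ ∃ σ : K ≃ₐ[ℚ] K, σ x = (x : K)⁻¹ ∧ σ y = (y : K)⁻¹ ∧ Inv σ v ∧ Inv σ w := by
  classical
  obtain ⟨S, T, hS, hT, H⟩ := hPUG K x y x' y' c₁ c₂ α β γ δ hp hp' hr
  have hsf : ∀ f : Kˣ, {v : DVal K | GeoF ℚ v ∧ v.ord f ≠ 0}.Finite :=
    ASMM.supp_finite hFNV (x : K) hp.fin
  have hN : ∀ a : ℤ × ℤ, ∃ N : ℕ, ∀ (a'' : ℤ × ℤ) (k : ℕ), IsCoprime a.1 a.2 →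
      IsCoprime a''.1 a''.2 → mt α β γ δ a = (k : ℤ) • a'' → ∀ n : ℕ, N < n → ∀ p : ℚ[X],
      Irreducible p → p ∣ (cyclotomic n ℚ).comp (C (c₁ ^ a.1 * c₂ ^ a.2) * X ^ k) →
      ∀ v w : DVal K, GeoF ℚ v → GeoF ℚ w →
      (∀ t : Kˣ, (t : K) = aeval ((x' ^ a''.1 * y' ^ a''.2 : Kˣ) : K) p →
        0 < v.ord t ∧ 0 < w.ord t) → v = w := by
    intro a
    by_cases ha : IsCoprime a.1 a.2
    · obtain ⟨b, l, hb, hl⟩ := exists_k hr.det ha
      have ht := AS2M.transc hp' hb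
      obtain ⟨N, hN⟩ := hPUK ℚ K (Rat.castHom ℂ) ⊥ ((x' ^ b.1 * y' ^ b.2 : Kˣ) : K)
        (c₁ ^ a.1 * c₂ ^ a.2) l inferInstance
        (fun q => by
          rw [eq_ratCast]
          exact SubfieldClass.ratCast_mem _ q)
        (mul_ne_zero (zpow_ne_zero _ hr.c₁0) (zpow_ne_zero _ hr.c₂0)) (k_pos hr.det ha hl) ht
        (PlaceQ.finite_adjoin (x : K) hp.fin _ ht) hp.const
        (fun m c u hm => hp'.pure b.1 b.2 m c u hb hm)
      refine ⟨N, fun a'' k _ ha'' hk => ?_⟩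
      obtain ⟨e1, e2⟩ := k_unique hr.det ha ha'' hb hk hl
      rw [e1, e2]
      exact hN
    · exact ⟨0, fun _ _ h => absurd h ha⟩
  choose N hN using hN
  refine ⟨(S ∪ (({v | GeoF ℚ v ∧ v.ord x ≠ 0} ∪ {v | GeoF ℚ v ∧ v.ord y ≠ 0}) ∪
      ({v | GeoF ℚ v ∧ v.ord x' ≠ 0} ∪ {v | GeoF ℚ v ∧ v.ord y' ≠ 0}))) ∪
    ⋃ a ∈ T, ⋃ n ∈ Finset.Icc 1 (N a), {v | GeoF ℚ v ∧ IsCoprime a.1 a.2 ∧
      Pos v (aeval ((x ^ a.1 * y ^ a.2 : Kˣ) : K) (cyclotomic n ℚ))}, ?_, ?_, ?_⟩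
  · refine (hS.union (((hsf x).union (hsf y)).union ((hsf x').union (hsf y')))).union ?_
    refine Set.Finite.biUnion hT fun a _ => ?_
    refine Set.Finite.biUnion (Finset.finite_toSet _) fun n hn => ?_
    have hn1 : 0 < n := by
      have := Finset.mem_coe.1 hn
      rw [Finset.mem_Icc] at this
      omega
    by_cases ha : IsCoprime a.1 a.2
    · have ht : Transcendental ℚ
          (aeval ((x ^ a.1 * y ^ a.2 : Kˣ) : K) (cyclotomic n ℚ)) := by
        apply transc_aeval (transc hp ha)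
        rw [natDegree_cyclotomic]
        exact (Nat.totient_pos.2 hn1).ne'
      have h0 : aeval ((x ^ a.1 * y ^ a.2 : Kˣ) : K) (cyclotomic n ℚ) ≠ 0 := by
        intro h0
        rw [h0] at ht
        exact ht isAlgebraic_zero
      refine (hFNV ℚ K (x : K) hp.fin (Units.mk0 _ h0) ht).1.subset ?_
      rintro v ⟨hg, -, hpos⟩
      refine ⟨hg, ?_⟩
      have := (pos_unit (v := v) (u := Units.mk0 _ h0)).1 hpos
      omega
    · convert Set.finite_empty (α := DVal K)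
      ext v
      simp only [Set.mem_ofPred_eq, Set.mem_empty_iff_false, iff_false, not_and]
      exact fun _ h => absurd h ha
  · intro v hg hv
    refine ⟨?_, ?_, ?_, ?_⟩
    · by_contra h0
      exact hv (Or.inl (Or.inr (Or.inl (Or.inl ⟨hg, h0⟩))))
    · by_contra h0
      exact hv (Or.inl (Or.inr (Or.inl (Or.inr ⟨hg, h0⟩))))
    · by_contra h0
      exact hv (Or.inl (Or.inr (Or.inr (Or.inl ⟨hg, h0⟩))))
    · by_contra h0
      exact hv (Or.inl (Or.inr (Or.inr (Or.inr ⟨hg, h0⟩))))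
  · intro a a'' k n p v w ha ha'' hk hn hpi hpd hgv hgw hvS hwS hv hw
    by_cases haT : a ∈ T
    · left
      by_cases hnN : N a < n
      · refine hN a a'' k ha ha'' hk n hnN p hpi hpd v w hgv hgw ?_
        intro t ht
        rw [← ht, pos_unit] at hv hw
        omega
      · exfalso
        apply hvS
        right
        simp only [Set.mem_iUnion]
        refine ⟨a, haT, n, by rw [Finset.mem_Icc]; omega, hgv, ha, ?_⟩
        have hx' : v.ord x' = 0 := by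
          by_contra h0
          exact hvS (Or.inl (Or.inr (Or.inr (Or.inl ⟨hgv, h0⟩))))
        have hy' : v.ord y' = 0 := by
          by_contra h0
          exact hvS (Or.inl (Or.inr (Or.inr (Or.inr ⟨hgv, h0⟩))))
        have hnn : NN v ((x' ^ a''.1 * y' ^ a''.2 : Kˣ) : K) := by
          rw [nn_unit, v.ord_mul, v.ord_zpow, v.ord_zpow, hx', hy', mul_zero, mul_zero, add_zero]
        obtain ⟨q, hq⟩ := hpd
        rw [← comp_eval (rel_pow hr hk), hq, map_mul]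
        exact pos_mul_nn hv (nn_aeval hgv hnn q)
    · exact H a a'' k n p v w ha haT ha'' hk hn hpi hpd hgv hgw
        (fun h => hvS (Or.inl (Or.inl h))) (fun h => hwS (Or.inl (Or.inl h))) hv hw

/-- The factors. -/
theorem fac (hTSK : SpecTSK) (hp' : Pre K x' y')
    (hr : Rel K x y x' y' c₁ c₂ α β γ δ) {S : Set (DVal K)}
    (hSx : ∀ v : DVal K, GeoF ℚ v → v ∉ S →
      v.ord x = 0 ∧ v.ord y = 0 ∧ v.ord x' = 0 ∧ v.ord y' = 0)
    (H : ∀ (a a'' : ℤ × ℤ) (k n : ℕ) (p : ℚ[X]) (v w : DVal K), IsCoprime a.1 a.2 →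
        IsCoprime a''.1 a''.2 → mt α β γ δ a = (k : ℤ) • a'' → 0 < n → Irreducible p →
        p ∣ (cyclotomic n ℚ).comp (C (c₁ ^ a.1 * c₂ ^ a.2) * X ^ k) →
        GeoF ℚ v → GeoF ℚ w → v ∉ S → w ∉ S →
        Pos v (aeval ((x' ^ a''.1 * y' ^ a''.2 : Kˣ) : K) p) →
        Pos w (aeval ((x' ^ a''.1 * y' ^ a''.2 : Kˣ) : K) p) →
        v = w ∨ ∃ σ : K ≃ₐ[ℚ] K, σ x = (x : K)⁻¹ ∧ σ y = (y : K)⁻¹ ∧ Inv σ v ∧ Inv σ w)
    (f g : Kˣ) (hgood : Good x y f g) (htt : TorTameF ℚ (sym f x + sym g y)) (v : DVal K)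
    (hg : GeoF ℚ v) (hvS : v ∉ S) (hvf : v.ord f ≠ 0 ∨ v.ord g ≠ 0) :
    ∃ (P : Kˣ) (m a₁ a₂ : ℤ), Fac x y S f g v P m a₁ a₂ := by
  obtain ⟨hvx, hvy, hvx', hvy'⟩ := hSx v hg hvS
  obtain ⟨m, a₁, a₂, hm, ha, h1, h2⟩ := exists_primitive hvf
  obtain ⟨k, hk, hpos⟩ := pos_of_tame2 hvx hvy hm h1 h2 (htt v hg)
  have hnn : NN v ((x ^ a₁ * y ^ a₂ : Kˣ) : K) := by
    rw [nn_unit, v.ord_mul, v.ord_zpow, v.ord_zpow, hvx, hvy, mul_zero, mul_zero, add_zero]
  obtain ⟨n, -, hn, -, -, -, -, hp2⟩ := exists_factor hg hnn hk hpos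
  obtain ⟨b, l, hb, hl⟩ := exists_k hr.det (a := (a₁, a₂)) ha
  have hl0 : 0 < l := k_pos hr.det (a := (a₁, a₂)) ha hl
  have hu := rel_pow hr hl
  have ht := AS2M.transc hp' hb
  obtain ⟨u, hud⟩ : ∃ u : Kˣ, u = x' ^ b.1 * y' ^ b.2 := ⟨_, rfl⟩
  rw [← hud] at hu ht
  obtain ⟨c, hc⟩ : ∃ c : ℚ, c = c₁ ^ a₁ * c₂ ^ a₂ := ⟨_, rfl⟩
  have hu' : ((x ^ a₁ * y ^ a₂ : Kˣ) : K) = algebraMap ℚ K c * (u : K) ^ l := by
    rw [hc]; exact hu
  have hc0 : c ≠ 0 := by
    rw [hc]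
    exact mul_ne_zero (zpow_ne_zero _ hr.c₁0) (zpow_ne_zero _ hr.c₂0)
  have hnnu : ∀ w : DVal K, w.ord x' = 0 → w.ord y' = 0 → NN w (u : K) := by
    intro w h3 h4
    rw [hud, nn_unit, w.ord_mul, w.ord_zpow, w.ord_zpow, h3, h4, mul_zero, mul_zero, add_zero]
  have hq0 : (cyclotomic n ℚ).comp (C c * X ^ l) ≠ 0 := by
    intro h0
    exact comp_coeff hl0 hn (c := c) (dvd_refl _) (by rw [h0, coeff_zero])
  rw [← comp_eval hu'] at hp2
  obtain ⟨p, hpi, hpd, hp1⟩ := exists_irr hg (hnnu v hvx' hvy') hq0 hp2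
  have hpc : p.coeff 0 ≠ 0 := comp_coeff hl0 hn hpd
  have hP0 : aeval (u : K) (C (p.coeff 0)⁻¹ * p) ≠ 0 := by
    intro h0
    refine (mul_ne_zero (C_ne_zero.2 (inv_ne_zero hpc)) hpi.ne_zero)
      ((transcendental_iff.1 ht) _ h0)
  have hPm : aeval (u : K) (C (p.coeff 0)⁻¹ * p) =
      aeval (u : K) p * algebraMap ℚ K (p.coeff 0)⁻¹ := by
    rw [map_mul, aeval_C, mul_comm]
  have hPm' : aeval (u : K) p =
      aeval (u : K) (C (p.coeff 0)⁻¹ * p) * algebraMap ℚ K (p.coeff 0) := by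
    rw [hPm, mul_assoc, ← map_mul, inv_mul_cancel₀ hpc, map_one, mul_one]
  refine ⟨Units.mk0 _ hP0, m, a₁, a₂, ?_, h1, h2, ?_, ?_⟩
  · have h3 : Pos v ((Units.mk0 _ hP0 : Kˣ) : K) := by
      rw [Units.val_mk0, hPm]
      exact pos_mul_nn hp1 (nn_const hg _)
    have := pos_unit.1 h3
    omega
  · have h3 := hTSK ℚ K u (x ^ a₁ * y ^ a₂) (Units.mk0 _ hP0) c l n p ht hc0 hl0 hn hu' hpi hpd
      rfl
    have h4 : sym (Units.mk0 _ hP0) (x ^ a₁ * y ^ a₂) =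
        a₁ • sym (Units.mk0 _ hP0) x + a₂ • sym (Units.mk0 _ hP0) y := by
      rw [sym_mul_right, sym_zpow_right, sym_zpow_right]
    rw [← h4]
    exact h3
  · intro w hgw hwS hwv
    obtain ⟨hwx, hwy, hwx', hwy'⟩ := hSx w hgw hwS
    have h3 : 0 ≤ w.ord (Units.mk0 _ hP0) :=
      nn_unit.1 (nn_aeval hgw (hnnu w hwx' hwy') (C (p.coeff 0)⁻¹ * p))
    by_contra h4
    have h5 : Pos w ((Units.mk0 _ hP0 : Kˣ) : K) := pos_unit.2 (by omega)
    have h6 : Pos w (aeval (u : K) p) := by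
      rw [hPm']
      exact pos_mul_nn h5 (nn_const hgw _)
    rw [hc] at hpd
    rcases H (a₁, a₂) b l n p v w ha hb hl hn hpi hpd hg hgw hvS hwS (by rw [← hud]; exact hp1)
      (by rw [← hud]; exact h6) with h7 | ⟨σ, h7, h8, h9, -⟩
    · exact hwv h7.symm
    · obtain ⟨e1, e2⟩ := hgood σ h7 h8 v h9
      rcases hvf with h | h
      · exact h e1
      · exact h e2

/-- The automorphism is unique. -/
theorem aut_unique (hgen : IntermediateField.adjoin ℚ {(x : K), (y : K)} = ⊤)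
    {σ τ : K ≃ₐ[ℚ] K} (hx : σ x = τ x) (hy : σ y = τ y) : σ = τ := by
  apply AlgEquiv.ext
  intro z
  have hz : z ∈ IntermediateField.adjoin ℚ {(x : K), (y : K)} := by
    rw [hgen]
    exact IntermediateField.mem_top
  refine IntermediateField.adjoin_induction (p := fun z _ => σ z = τ z) ℚ ?_ ?_ ?_ ?_ ?_ hz
  · rintro w (rfl | rfl)
    · exact hx
    · exact hy
  · intro r
    rw [AlgEquiv.commutes, AlgEquiv.commutes]
  · intro a b _ _ h1 h2
    rw [map_add, map_add, h1, h2]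
  · intro a _ h1
    rw [map_inv₀, map_inv₀, h1]
  · intro a b _ _ h1 h2
    rw [map_mul, map_mul, h1, h2]

end Red

end ASGM

open ASGM ASMM AS2M AS3M PU3M

theorem specASG (hPUG : SpecPUG) (hPUK : SpecPUK) (hFNV : SpecFNV) (hTSK : SpecTSK)
    (hSAT : SpecSAT) (hDEP : SpecDEP) : SpecASG := by
  classical
  intro K _ _ x y hfin hconst hgen
  obtain ⟨t, ht, htf⟩ := hfin
  by_cases hdep : ∃ (a b : ℤ) (c : ℚ), IsCoprime a b ∧
      ((x ^ a * y ^ b : Kˣ) : K) = algebraMap ℚ K c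
  · obtain ⟨a, b, c, hab, hc⟩ := hdep
    have H := hDEP K x y a b c hgen ⟨t, ht⟩ hab hc
    refine ⟨0, fun i => i.elim0, fun i => i.elim0, fun f g htt => ⟨fun _ => ?_, fun σ _ _ => ?_⟩⟩
    · obtain ⟨N, hN, h⟩ := H _ htt
      exact ⟨N, hN, by rw [h]; exact zero_mem _⟩
    · obtain ⟨N, hN, h⟩ := H _ htt
      refine ⟨N, hN, ?_⟩
      rw [nsmul_add, h, ← map_nsmul, h, map_zero, add_zero]
      exact zero_mem _
  · push Not at hdep
    have hx : Transcendental ℚ (x : K) := by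
      intro h
      obtain ⟨c, hc⟩ := hconst _ h
      refine hdep 1 0 c isCoprime_one_left ?_
      rw [zpow_one, zpow_zero, mul_one]
      exact hc
    have hp : Ind K x y := ⟨hgen, PlaceQ.finite_adjoin t htf _ hx, hconst,
      fun a b c hab => hdep a b c hab⟩
    obtain ⟨x', y', c₁, c₂, α, β, γ, δ, hp', hr⟩ := hSAT K x y hp
    obtain ⟨S, hS, hSx, H⟩ := ASGM.step3 hPUG hPUK hFNV hp hp' hr
    obtain ⟨r, β', hβ, hgenr⟩ := core hFNV hp hS (Good x y)
      (fun f g hgood htt v hg hvS hvf => fac hTSK hp' hr hSx H f g hgood htt v hg hvS hvf)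
    refine ⟨r, β', hβ, fun f g htt => ⟨fun hσ => ?_, fun σ hσx hσy => ?_⟩⟩
    · exact hgenr f g (fun σ h1 h2 => absurd ⟨σ, h1, h2⟩ hσ) htt
    · rw [sum_eq hσx hσy]
      refine hgenr _ _ ?_ ?_
      · intro τ h1 h2 v hv
        have hστ : σ = τ := aut_unique hgen (by rw [hσx, h1]) (by rw [hσy, h2])
        subst hστ
        rw [v.ord_mul, v.ord_mul, v.ord_inv, v.ord_inv, hv f (um σ f) (um_val σ f),
          hv g (um σ g) (um_val σ g)]
        constructor <;> ring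
      · intro w hgw
        have h1 : tame w (sym (f * (um σ f)⁻¹) x + sym (g * (um σ g)⁻¹) y) ∈ tor _ := by
          rw [← sum_eq hσx hσy, map_add]
          refine add_mem (htt w hgw) ?_
          rw [mapK_eq hσx hσy]
          exact tor_dm w f x g y (htt (dm σ w) (dm_geo hgw))
        exact h1

end MP743d1e.RT
end
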