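import Mathlib

/-!
# The descent from the algebraic numbers to `ℚ`
-/

set_option autoImplicit false

namespace MP743d1e.RT.DSCM

open scoped BigOperators

section

variable (k₀ K : Type) [Field k₀] [CharZero k₀] [Field K] [Algebra k₀ K]

/-- `k₀` is algebraically closed in `K`. -/
def Cst : Prop := ∀ z : K, IsAlgebraic k₀ z → ∃ c : k₀, z = algebraMap k₀ K c

variable {k₀ K}

include k₀ in
theorem fixed (z : AlgebraicClosure K) (h : ∀ σ : AlgebraicClosure K ≃ₐ[K] AlgebraicClosure K, σ z = z) :
    ∃ k : K, algebraMap K (AlgebraicClosure K) k = z := by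
  have : CharZero K := charZero_of_injective_algebraMap (algebraMap k₀ K).injective
  have hg : IsGalois K (AlgebraicClosure K) := inferInstance
  exact (InfiniteGalois.mem_range_algebraMap_iff_fixed z).mpr h

theorem rat_of (hK : Cst k₀ K) (z : AlgebraicClosure K) (hz : IsAlgebraic k₀ z)
    (h : ∀ σ : AlgebraicClosure K ≃ₐ[K] AlgebraicClosure K, σ z = z) :
    ∃ q : k₀, z = algebraMap K (AlgebraicClosure K) (algebraMap k₀ K q) := by
  obtain ⟨k, rfl⟩ := fixed (k₀ := k₀) z h
  have h1 : IsAlgebraic k₀ k :=
    (isAlgebraic_algebraMap_iff (algebraMap K (AlgebraicClosure K)).injective).mp hz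
  obtain ⟨q, rfl⟩ := hK k h1
  exact ⟨q, rfl⟩

theorem alg_map (z : AlgebraicClosure K) (hz : IsAlgebraic k₀ z)
    (σ : AlgebraicClosure K ≃ₐ[K] AlgebraicClosure K) : IsAlgebraic k₀ (σ z) := by
  have := hz.algHom ((σ : AlgebraicClosure K →ₐ[K] AlgebraicClosure K).restrictScalars k₀)
  exact this

/-- Linear disjointness. -/
theorem ld0 (hK : Cst k₀ K) {ι : Type} [DecidableEq ι] (b : ι → K) (hb : LinearIndependent k₀ b)
    (t : Finset ι) : ∀ f : ι → AlgebraicClosure K, (∀ k ∈ t, IsAlgebraic k₀ (f k)) →
      ∑ k ∈ t, algebraMap K (AlgebraicClosure K) (b k) * f k = 0 → ∀ k ∈ t, f k = 0 := by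
  induction t using Finset.induction_on with
  | empty => simp
  | insert a t ha ih =>
    intro f hf hs
    by_cases h0 : f a = 0
    · rw [Finset.sum_insert ha, h0, mul_zero, zero_add] at hs
      have h1 := ih f (fun k hk => hf k (Finset.mem_insert_of_mem hk)) hs
      intro k hk
      rcases Finset.mem_insert.mp hk with rfl | hk
      · exact h0
      · exact h1 k hk
    · exfalso
      have hs2 : algebraMap K (AlgebraicClosure K) (b a) +
          ∑ k ∈ t, algebraMap K (AlgebraicClosure K) (b k) * (f k / f a) = 0 := by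
        have : (∑ k ∈ insert a t, algebraMap K (AlgebraicClosure K) (b k) * f k) / f a = 0 := by
          rw [hs, zero_div]
        rw [Finset.sum_insert ha, add_div, Finset.sum_div, mul_div_assoc, div_self h0,
          mul_one] at this
        rw [← this]
        congr 1
        exact Finset.sum_congr rfl fun k _ => (mul_div_assoc _ _ _).symm
      have hfa : ∀ k ∈ t, IsAlgebraic k₀ (f k / f a) := fun k hk => by
        rw [div_eq_mul_inv]
        exact (hf k (Finset.mem_insert_of_mem hk)).mul (hf a (Finset.mem_insert_self a t)).inv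
      have hfix : ∀ k ∈ t, ∀ σ : AlgebraicClosure K ≃ₐ[K] AlgebraicClosure K,
          σ (f k / f a) = f k / f a := by
        intro k hk σ
        have h1 := congrArg σ hs2
        rw [map_add, map_sum, map_zero, AlgEquiv.commutes] at h1
        have h2 : ∑ k ∈ t, algebraMap K (AlgebraicClosure K) (b k) *
            (σ (f k / f a) - f k / f a) = 0 := by
          have h3 : ∑ k ∈ t, σ (algebraMap K (AlgebraicClosure K) (b k) * (f k / f a)) =
              ∑ k ∈ t, algebraMap K (AlgebraicClosure K) (b k) * σ (f k / f a) :=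
            Finset.sum_congr rfl fun k _ => by rw [map_mul, AlgEquiv.commutes]
          rw [h3] at h1
          simp only [mul_sub, Finset.sum_sub_distrib]
          linear_combination h1 - hs2
        have h4 := ih (fun k => σ (f k / f a) - f k / f a)
          (fun k hk => (alg_map _ (hfa k hk) σ).sub (hfa k hk)) h2 k hk
        exact sub_eq_zero.mp h4
      choose! q hq using fun k (hk : k ∈ t) => rat_of hK _ (hfa k hk) (hfix k hk)
      have h5 : b a + ∑ k ∈ t, q k • b k = 0 := by
        apply (algebraMap K (AlgebraicClosure K)).injective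
        rw [map_add, map_sum, map_zero, ← hs2]
        congr 1
        refine Finset.sum_congr rfl fun k hk => ?_
        rw [hq k hk, Algebra.smul_def, map_mul, mul_comm]
      have h6 : ∑ k ∈ insert a t, (if k = a then 1 else q k) • b k = 0 := by
        rw [Finset.sum_insert ha, if_pos rfl, one_smul, ← h5]
        congr 1
        refine Finset.sum_congr rfl fun k hk => ?_
        rw [if_neg]
        rintro rfl
        exact ha hk
      have h7 := linearIndependent_iff'.mp hb _ _ h6 a (Finset.mem_insert_self _ _)
      rw [if_pos rfl] at h7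
      exact one_ne_zero h7

/-- The elements of the compositum of `K` and the algebraic numbers. -/
theorem decomp {ι : Type} (b : Module.Basis ι k₀ K) (v : AlgebraicClosure K)
    (hv : v ∈ IntermediateField.adjoin K
      ((algebraicClosure k₀ (AlgebraicClosure K) : IntermediateField k₀ (AlgebraicClosure K)) :
        Set (AlgebraicClosure K))) :
    ∃ (t : Finset ι) (f : ι → AlgebraicClosure K), (∀ k ∈ t, IsAlgebraic k₀ (f k)) ∧
      v = ∑ k ∈ t, algebraMap K (AlgebraicClosure K) (b k) * f k := by
  classical
  set F := algebraicClosure k₀ (AlgebraicClosure K) with hF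
  set S : Submodule F (AlgebraicClosure K) :=
    Submodule.span F (Set.range fun k => algebraMap K (AlgebraicClosure K) (b k)) with hS
  have h1 : ∀ a : K, algebraMap K (AlgebraicClosure K) a ∈ S := by
    intro a
    have h2 := b.linearCombination_repr a
    rw [← h2, Finsupp.linearCombination_apply, Finsupp.sum, map_sum]
    refine sum_mem fun k _ => ?_
    rw [Algebra.smul_def, map_mul]
    have h3 : IsAlgebraic k₀ (algebraMap K (AlgebraicClosure K)
        (algebraMap k₀ K (b.repr a k))) := by
      rw [← IsScalarTower.algebraMap_apply]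
      exact isAlgebraic_algebraMap _
    have h4 : algebraMap K (AlgebraicClosure K) (algebraMap k₀ K (b.repr a k)) ∈ F :=
      (mem_algebraicClosure_iff).mpr h3
    exact S.smul_mem (⟨_, h4⟩ : F) (Submodule.subset_span ⟨k, rfl⟩)
  have h5 : ∀ (a : K) (x : AlgebraicClosure K), x ∈ S →
      algebraMap K (AlgebraicClosure K) a * x ∈ S := by
    intro a x hx
    induction hx using Submodule.span_induction with
    | mem x hx =>
      obtain ⟨k, rfl⟩ := hx
      simp only
      rw [← map_mul]
      exact h1 _
    | zero => rw [mul_zero]; exact S.zero_mem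
    | add x y _ _ hx hy => rw [mul_add]; exact S.add_mem hx hy
    | smul f x _ hx =>
      rw [mul_smul_comm]
      exact S.smul_mem f hx
  have h6 : v ∈ Submodule.span K ((F : Set (AlgebraicClosure K))) := by
    have h7 : (IntermediateField.adjoin K (F : Set (AlgebraicClosure K))).toSubalgebra =
        Algebra.adjoin K (F : Set (AlgebraicClosure K)) := by
      apply IntermediateField.adjoin_toSubalgebra_of_isAlgebraic
      intro x _
      exact Algebra.IsAlgebraic.isAlgebraic x
    have h8 : v ∈ Algebra.adjoin K (F : Set (AlgebraicClosure K)) := by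
      rw [← h7]
      exact hv
    rw [← Subalgebra.mem_toSubmodule, Algebra.adjoin_eq_span] at h8
    have h9 : ((Submonoid.closure (F : Set (AlgebraicClosure K)) : Submonoid _) :
        Set (AlgebraicClosure K)) = F := by
      have : (F : Set (AlgebraicClosure K)) =
        ((F.toSubalgebra.toSubring.toSubmonoid : Submonoid _) : Set _) := rfl
      rw [this, Submonoid.closure_eq]
    rw [h9] at h8
    exact h8
  have h10 : v ∈ S := by
    clear hv
    induction h6 using Submodule.span_induction with
    | mem x hx =>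
      have := S.smul_mem (⟨x, hx⟩ : F) (h1 1)
      rw [map_one] at this
      have h11 : (⟨x, hx⟩ : F) • (1 : AlgebraicClosure K) = x := by
        rw [Algebra.smul_def, mul_one]
        rfl
      rw [h11] at this
      exact this
    | zero => exact S.zero_mem
    | add x y _ _ hx hy => exact S.add_mem hx hy
    | smul a x _ hx =>
      rw [Algebra.smul_def]
      exact h5 a x hx
  rw [hS, Finsupp.mem_span_range_iff_exists_finsupp] at h10
  obtain ⟨c, hc⟩ := h10
  refine ⟨c.support, fun k => (c k : AlgebraicClosure K), ?_, ?_⟩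
  · intro k _
    exact (mem_algebraicClosure_iff).mp (c k).2
  · rw [← hc, Finsupp.sum]
    refine Finset.sum_congr rfl fun k _ => ?_
    rw [Algebra.smul_def, mul_comm]
    rfl

/-- The powers. -/
theorem pu (hK : Cst k₀ K) (h : K) (m : ℕ) (v : AlgebraicClosure K) (hm : 0 < m)
    (hv : v ∈ IntermediateField.adjoin K
      ((algebraicClosure k₀ (AlgebraicClosure K) : IntermediateField k₀ (AlgebraicClosure K)) :
        Set (AlgebraicClosure K)))
    (e : algebraMap K (AlgebraicClosure K) h = v ^ m) :
    ∃ (c' : k₀) (v' : K), h = algebraMap k₀ K c' * v' ^ m := by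
  classical
  by_cases hv0 : v = 0
  · refine ⟨0, 0, ?_⟩
    rw [hv0, zero_pow hm.ne'] at e
    rw [map_zero, zero_mul]
    exact (map_eq_zero _).mp e
  let b := Module.Basis.ofVectorSpace k₀ K
  obtain ⟨t, f, hf, hvf⟩ := decomp b v hv
  have hσ : ∀ σ : AlgebraicClosure K ≃ₐ[K] AlgebraicClosure K, ∀ k ∈ t,
      σ (f k) = σ v / v * f k := by
    intro σ
    have h1 : (σ v / v) ^ m = 1 := by
      rw [div_pow, ← map_pow, ← e, AlgEquiv.commutes, e]
      exact div_self (pow_ne_zero _ hv0)
    have h2 : IsAlgebraic k₀ (σ v / v) := by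
      refine IsIntegral.isAlgebraic ?_
      refine IsIntegral.of_pow hm ?_
      rw [h1]
      exact isIntegral_one
    have h3 : ∑ k ∈ t, algebraMap K (AlgebraicClosure K) (b k) * (σ (f k) - σ v / v * f k) = 0 := by
      have h4 : σ v = ∑ k ∈ t, algebraMap K (AlgebraicClosure K) (b k) * σ (f k) := by
        conv_lhs => rw [hvf]
        rw [map_sum]
        exact Finset.sum_congr rfl fun k _ => by rw [map_mul, AlgEquiv.commutes]
      have h5 : σ v / v * v = ∑ k ∈ t, algebraMap K (AlgebraicClosure K) (b k) *
          (σ v / v * f k) := by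
        conv_lhs =>
          arg 2
          rw [hvf]
        rw [Finset.mul_sum]
        exact Finset.sum_congr rfl fun k _ => by ring
      rw [div_mul_cancel₀ _ hv0] at h5
      simp only [mul_sub, Finset.sum_sub_distrib]
      rw [← h4, ← h5, sub_self]
    intro k hk
    have h6 := ld0 hK b b.linearIndependent t _ (fun k hk =>
      (alg_map _ (hf k hk) σ).sub (h2.mul (hf k hk))) h3 k hk
    exact sub_eq_zero.mp h6
  obtain ⟨k0, hk0, hf0⟩ : ∃ k ∈ t, f k ≠ 0 := by
    by_contra hc
    push Not at hc
    apply hv0
    rw [hvf]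
    exact Finset.sum_eq_zero fun k hk => by rw [hc k hk, mul_zero]
  have hq : ∀ k ∈ t, ∃ q : k₀, f k / f k0 =
      algebraMap K (AlgebraicClosure K) (algebraMap k₀ K q) := by
    intro k hk
    refine rat_of hK _ ?_ ?_
    · rw [div_eq_mul_inv]
      exact (hf k hk).mul (hf k0 hk0).inv
    · intro σ
      rw [map_div₀, hσ σ k hk, hσ σ k0 hk0]
      refine mul_div_mul_left _ _ ?_
      exact div_ne_zero ((map_ne_zero _).mpr hv0) hv0
  choose! q hq using hq
  have hu : v = f k0 * algebraMap K (AlgebraicClosure K) (∑ k ∈ t, algebraMap k₀ K (q k) * b k) := by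
    conv_lhs => rw [hvf]
    rw [map_sum, Finset.mul_sum]
    refine Finset.sum_congr rfl fun k hk => ?_
    rw [map_mul, ← hq k hk]
    field_simp
  set u : K := ∑ k ∈ t, algebraMap k₀ K (q k) * b k with hudef
  have hu0 : algebraMap K (AlgebraicClosure K) u ≠ 0 := by
    intro h0
    apply hv0
    rw [hu, h0, mul_zero]
  have hu1 : u ≠ 0 := fun h0 => hu0 (by rw [h0, map_zero])
  have h7 : algebraMap K (AlgebraicClosure K) (h / u ^ m) = f k0 ^ m := by
    rw [map_div₀, map_pow, e, hu, mul_pow]
    exact mul_div_cancel_right₀ _ (pow_ne_zero _ hu0)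
  have h8 : IsAlgebraic k₀ (h / u ^ m) := by
    apply (isAlgebraic_algebraMap_iff (algebraMap K (AlgebraicClosure K)).injective).mp
    rw [h7]
    exact (hf k0 hk0).pow m
  obtain ⟨c, hc⟩ := hK _ h8
  refine ⟨c, u, ?_⟩
  rw [← hc]
  field_simp

end

theorem closedFF (k₀ K : Type) [Field k₀] [Field K] [Algebra k₀ K] :
    IsAlgClosed (algebraicClosure k₀ (AlgebraicClosure K)) :=
  (IsAlgClosed.algebraicClosure_eq_bot_iff _ _).mp (algebraicClosure.algebraicClosure_eq_bot _ _)

/-- The general form. -/
theorem dsc_gen (k₀ K C : Type) [Field k₀] [CharZero k₀] [Field K] [Algebra k₀ K] [Field C]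
    [Algebra k₀ C] [IsAlgClosed C] (hK : Cst k₀ K) :
    ∃ (F Ω : Type) (_ : Field F) (_ : CharZero F) (_ : IsAlgClosed F) (_ : Algebra k₀ F)
      (_ : Field Ω) (_ : F →+* C) (i : K →+* Ω) (j : F →+* Ω),
      (∀ (ι : Type) (s : Finset ι) (e : ι → F), LinearIndependent k₀ e → ∀ a : ι → K,
        ∑ l ∈ s, j (e l) * i (a l) = 0 → ∀ l ∈ s, a l = 0) ∧
      ∀ (h : K) (m : ℕ) (v : Ω), 0 < m → v ∈ Subfield.closure (Set.range i ∪ Set.range j) →
        i h = v ^ m → ∃ (c' : k₀) (v' : K), h = algebraMap k₀ K c' * v' ^ m := by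
  classical
  refine ⟨algebraicClosure k₀ (AlgebraicClosure K), AlgebraicClosure K, inferInstance,
    charZero_of_injective_algebraMap (algebraMap k₀ _).injective, closedFF k₀ K, inferInstance, inferInstance,
    (IsAlgClosed.lift : algebraicClosure k₀ (AlgebraicClosure K) →ₐ[k₀] C).toRingHom, algebraMap K (AlgebraicClosure K),
    (algebraicClosure k₀ (AlgebraicClosure K)).val.toRingHom, ?_, ?_⟩
  · intro ι s e he a hs
    let b := Module.Basis.ofVectorSpace k₀ K
    set t : Finset _ := s.biUnion fun l => (b.repr (a l)).support with ht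
    have h1 : ∀ l ∈ s, a l = ∑ k ∈ t, algebraMap k₀ K (b.repr (a l) k) * b k := by
      intro l hl
      have h2 := b.linearCombination_repr (a l)
      rw [Finsupp.linearCombination_apply, Finsupp.sum] at h2
      conv_lhs => rw [← h2]
      simp only [← Algebra.smul_def]
      apply Finset.sum_subset
      · intro k hk
        exact Finset.mem_biUnion.mpr ⟨l, hl, hk⟩
      · intro k _ hk
        rw [Finsupp.notMem_support_iff] at hk
        rw [hk, zero_smul]
    have h3 : ∑ k ∈ t, algebraMap K (AlgebraicClosure K) (b k) *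
        (algebraicClosure k₀ (AlgebraicClosure K)).val (∑ l ∈ s, b.repr (a l) k • e l) = 0 := by
      rw [← hs]
      have h4 : ∀ l ∈ s, (algebraicClosure k₀ (AlgebraicClosure K)).val.toRingHom (e l) *
          algebraMap K (AlgebraicClosure K) (a l) =
          ∑ k ∈ t, (algebraicClosure k₀ (AlgebraicClosure K)).val (e l) *
            (algebraMap K (AlgebraicClosure K)
            (algebraMap k₀ K (b.repr (a l) k)) * algebraMap K (AlgebraicClosure K) (b k)) := by
        intro l hl
        conv_lhs => rw [h1 l hl]
        rw [map_sum, Finset.mul_sum]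
        exact Finset.sum_congr rfl fun k _ => by rw [map_mul]; rfl
      rw [Finset.sum_congr rfl h4, Finset.sum_comm]
      refine Finset.sum_congr rfl fun k _ => ?_
      rw [map_sum, Finset.mul_sum]
      refine Finset.sum_congr rfl fun l _ => ?_
      rw [map_smul, Algebra.smul_def, IsScalarTower.algebraMap_apply k₀ K (AlgebraicClosure K)]
      ring
    have h5 := ld0 hK b b.linearIndependent t _ (fun k _ =>
      (mem_algebraicClosure_iff).mp (∑ l ∈ s, b.repr (a l) k • e l).2) h3
    intro l hl
    rw [h1 l hl]
    refine Finset.sum_eq_zero fun k hk => ?_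
    have h6 : ∑ l ∈ s, b.repr (a l) k • e l = 0 := Subtype.ext (h5 k hk)
    have h7 := linearIndependent_iff'.mp he s (fun l => b.repr (a l) k) h6 l hl
    rw [show b.repr (a l) k = 0 from h7, map_zero, zero_mul]
  · intro h m v hm hv e
    refine pu hK h m v hm ?_ e
    have h1 : Subfield.closure (Set.range (algebraMap K (AlgebraicClosure K)) ∪
        Set.range (algebraicClosure k₀ (AlgebraicClosure K)).val.toRingHom) ≤
        (IntermediateField.adjoin K
        ((algebraicClosure k₀ (AlgebraicClosure K) : IntermediateField k₀ (AlgebraicClosure K)) :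
        Set (AlgebraicClosure K))).toSubfield := by
      rw [Subfield.closure_le]
      rintro x (⟨k, rfl⟩ | ⟨z, rfl⟩)
      · exact IntermediateField.algebraMap_mem _ k
      · exact IntermediateField.subset_adjoin _ _ z.2
    exact h1 hv

/-- There is a field containing `K` and an algebraically closed field of algebraic numbers, linearly
disjoint, such that elements of `K` that are powers in the compositum are powers up to a constant in `K`. -/
theorem dsc (K : Type) [Field K] [Algebra ℚ K]
    (hK : ∀ z : K, IsAlgebraic ℚ z → ∃ c : ℚ, z = algebraMap ℚ K c) :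
    ∃ (F Ω : Type) (_ : Field F) (_ : CharZero F) (_ : IsAlgClosed F) (_ : Algebra ℚ F)
      (_ : Field Ω) (_ : F →+* ℂ) (i : K →+* Ω) (j : F →+* Ω),
      (∀ (ι : Type) (s : Finset ι) (e : ι → F), LinearIndependent ℚ e → ∀ a : ι → K,
        ∑ l ∈ s, j (e l) * i (a l) = 0 → ∀ l ∈ s, a l = 0) ∧
      ∀ (h : K) (m : ℕ) (v : Ω), 0 < m → v ∈ Subfield.closure (Set.range i ∪ Set.range j) →
        i h = v ^ m → ∃ (c' : ℚ) (v' : K), h = algebraMap ℚ K c' * v' ^ m := 
  dsc_gen ℚ K ℂ hK

end MP743d1e.RT.DSCM
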