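import Pool.Agent.Lib.MP_743d1e_nt.RT.Spec

/-!
# Primes of the Laurent polynomials over an algebraically closed field stay prime over `ℂ`
-/

set_option autoImplicit false

namespace MP743d1e.RT.KUMM

open scoped BigOperators

/-- A point on `Q = 0` where `x` does not vanish. -/
theorem nst (F : Type) [Field F] [IsAlgClosed F] (Q x : AddMonoidAlgebra F (ℤ × ℤ)) (hQ : Prime Q)
    (hx : ¬ Q ∣ x) : ∃ φ : AddMonoidAlgebra F (ℤ × ℤ) →ₐ[F] F, φ Q = 0 ∧ φ x ≠ 0 := by
  have h1 : (Ideal.span {Q}).IsPrime := (Ideal.span_singleton_prime hQ.ne_zero).mpr hQ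
  have hft : Algebra.FiniteType F (AddMonoidAlgebra F (ℤ × ℤ)) := inferInstance
  have hjr : IsJacobsonRing (AddMonoidAlgebra F (ℤ × ℤ)) := isJacobsonRing_of_finiteType (A := F)
  have h2 : (Ideal.span {Q}).jacobson = Ideal.span {Q} :=
    IsJacobsonRing.out hjr h1.isRadical
  have h3 : x ∉ (Ideal.span {Q}).jacobson := by
    rw [h2, Ideal.mem_span_singleton]
    exact hx
  rw [Ideal.jacobson, Ideal.mem_sInf] at h3
  push Not at h3
  obtain ⟨m, ⟨hm1, hm2⟩, hm3⟩ := h3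
  have : m.IsMaximal := hm2
  let _ : Field (AddMonoidAlgebra F (ℤ × ℤ) ⧸ m) := Ideal.Quotient.field m
  have h4 : Module.Finite F (AddMonoidAlgebra F (ℤ × ℤ) ⧸ m) :=
    finite_of_finite_type_of_isJacobsonRing F _
  have h5 : Function.Bijective (algebraMap F (AddMonoidAlgebra F (ℤ × ℤ) ⧸ m)) :=
    IsAlgClosed.algebraMap_bijective_of_isIntegral
  let e : F ≃ₐ[F] (AddMonoidAlgebra F (ℤ × ℤ) ⧸ m) :=
    AlgEquiv.ofBijective (Algebra.ofId _ _) h5
  refine ⟨(e.symm : _ →ₐ[F] F).comp (Ideal.Quotient.mkₐ F m), ?_, ?_⟩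
  · have : Ideal.Quotient.mkₐ F m Q = 0 := by
      rw [Ideal.Quotient.mkₐ_eq_mk, Ideal.Quotient.eq_zero_iff_mem]
      exact hm1 (Ideal.mem_span_singleton_self Q)
    simp only [AlgHom.comp_apply, this, map_zero]
  · intro h
    apply hm3
    rw [← Ideal.Quotient.eq_zero_iff_mem, ← Ideal.Quotient.mkₐ_eq_mk F]
    simpa using h

/-- The coordinates of a Laurent polynomial over `ℂ` in a basis of `ℂ` over `F`. -/
noncomputable def crd {F : Type} [Field F] [Algebra F ℂ] (l : ℂ →ₗ[F] F)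
    (A : AddMonoidAlgebra ℂ (ℤ × ℤ)) : AddMonoidAlgebra F (ℤ × ℤ) :=
  AddMonoidAlgebra.ofCoeff (A.coeff.mapRange l (map_zero l))

theorem crd_coeff {F : Type} [Field F] [Algebra F ℂ] (l : ℂ →ₗ[F] F)
    (A : AddMonoidAlgebra ℂ (ℤ × ℤ)) (g : ℤ × ℤ) : (crd l A).coeff g = l (A.coeff g) := rfl

/-- The extension of a point to the complex numbers. -/
noncomputable def ext {F : Type} [Field F] [Algebra F ℂ]
    (φ : AddMonoidAlgebra F (ℤ × ℤ) →ₐ[F] F) : AddMonoidAlgebra ℂ (ℤ × ℤ) →ₐ[ℂ] ℂ :=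
  AddMonoidAlgebra.lift ℂ ℂ (ℤ × ℤ) (((algebraMap F ℂ : F →+* ℂ) : F →* ℂ).comp
    ((AddMonoidAlgebra.lift F F (ℤ × ℤ)).symm φ))

theorem ext_apply {F : Type} [Field F] [Algebra F ℂ] (φ : AddMonoidAlgebra F (ℤ × ℤ) →ₐ[F] F)
    (A : AddMonoidAlgebra ℂ (ℤ × ℤ)) :
    ext φ A = A.coeff.sum fun g c => c * algebraMap F ℂ (φ (AddMonoidAlgebra.single g 1)) := by
  unfold ext
  rw [AddMonoidAlgebra.lift_apply]
  rfl

theorem phi_apply {F : Type} [Field F] (φ : AddMonoidAlgebra F (ℤ × ℤ) →ₐ[F] F)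
    (A : AddMonoidAlgebra F (ℤ × ℤ)) :
    φ A = A.coeff.sum fun g c => c * φ (AddMonoidAlgebra.single g 1) := by
  conv_lhs => rw [← (AddMonoidAlgebra.lift F F (ℤ × ℤ)).apply_symm_apply φ]
  rw [AddMonoidAlgebra.lift_apply]
  rfl

theorem l_ext {F : Type} [Field F] [Algebra F ℂ] (φ : AddMonoidAlgebra F (ℤ × ℤ) →ₐ[F] F)
    (l : ℂ →ₗ[F] F) (A : AddMonoidAlgebra ℂ (ℤ × ℤ)) : l (ext φ A) = φ (crd l A) := by
  rw [ext_apply, phi_apply]
  simp only [Finsupp.sum]
  rw [map_sum]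
  symm
  apply Finset.sum_subset_zero_on_sdiff
  · intro g hg
    rw [Finsupp.mem_support_iff] at hg ⊢
    intro h
    apply hg
    rw [crd_coeff, h, map_zero]
  · intro g hg
    rw [Finset.mem_sdiff, Finsupp.notMem_support_iff, crd_coeff] at hg
    rw [mul_comm, ← Algebra.smul_def, map_smul, hg.2, smul_zero]
  · intro g _
    rw [mul_comm (A.coeff g), ← Algebra.smul_def, map_smul, crd_coeff, smul_eq_mul, mul_comm]

theorem ext_map {F : Type} [Field F] [Algebra F ℂ] (φ : AddMonoidAlgebra F (ℤ × ℤ) →ₐ[F] F)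
    (A : AddMonoidAlgebra F (ℤ × ℤ)) :
    ext φ (AddMonoidAlgebra.mapRingHom (ℤ × ℤ) (algebraMap F ℂ) A) = algebraMap F ℂ (φ A) := by
  have h : ((ext φ : AddMonoidAlgebra ℂ (ℤ × ℤ) →+* ℂ).comp
      (AddMonoidAlgebra.mapRingHom (ℤ × ℤ) (algebraMap F ℂ))) =
      (algebraMap F ℂ).comp (φ : AddMonoidAlgebra F (ℤ × ℤ) →+* F) := by
    apply AddMonoidAlgebra.ringHom_ext
    · intro r
      simp only [RingHom.comp_apply, AddMonoidAlgebra.mapRingHom_single, RingHom.coe_coe]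
      rw [ext_apply, phi_apply]
      simp
    · intro g
      simp only [RingHom.comp_apply, AddMonoidAlgebra.mapRingHom_single, RingHom.coe_coe]
      rw [ext_apply]
      simp
  exact congrArg (fun f => f A) h

/-- If all the coordinates are divisible by `Q` then so is `A`. -/
theorem dvd_of_crd {F : Type} [Field F] [Algebra F ℂ] {ι : Type} (b : Module.Basis ι F ℂ)
    (Q : AddMonoidAlgebra F (ℤ × ℤ)) (A : AddMonoidAlgebra ℂ (ℤ × ℤ))
    (h : ∀ i, Q ∣ crd (b.coord i) A) :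
    AddMonoidAlgebra.mapRingHom (ℤ × ℤ) (algebraMap F ℂ) Q ∣ A := by
  classical
  set T : Finset ι := A.coeff.support.biUnion fun g => (b.repr (A.coeff g)).support with hT
  have hA : A = ∑ i ∈ T, AddMonoidAlgebra.single 0 (b i) *
      AddMonoidAlgebra.mapRingHom (ℤ × ℤ) (algebraMap F ℂ) (crd (b.coord i) A) := by
    ext g
    rw [AddMonoidAlgebra.coeff_sum, Finsupp.finsetSum_apply]
    have h1 : ∀ i ∈ T, (AddMonoidAlgebra.single 0 (b i) *
        AddMonoidAlgebra.mapRingHom (ℤ × ℤ) (algebraMap F ℂ) (crd (b.coord i) A)).coeff g =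
        b.repr (A.coeff g) i • b i := by
      intro i _
      rw [AddMonoidAlgebra.coeff_single_zero_mul, AddMonoidAlgebra.coeff_mapRingHom, crd_coeff,
        Algebra.smul_def, mul_comm]
      rfl
    rw [Finset.sum_congr rfl h1]
    have h2 := b.linearCombination_repr (A.coeff g)
    rw [Finsupp.linearCombination_apply, Finsupp.sum] at h2
    conv_lhs => rw [← h2]
    apply Finset.sum_subset
    · intro i hi
      by_cases hg : g ∈ A.coeff.support
      · exact Finset.mem_biUnion.mpr ⟨g, hg, hi⟩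
      · rw [Finsupp.notMem_support_iff] at hg
        rw [hg, map_zero] at hi
        simp at hi
    · intro i _ hi
      rw [Finsupp.notMem_support_iff] at hi
      rw [hi, zero_smul]
  rw [hA]
  refine Finset.dvd_sum fun i _ => Dvd.dvd.mul_left (map_dvd _ (h i)) _

theorem ku2_aux (F : Type) [Field F] [IsAlgClosed F] [Algebra F ℂ]
    (Q : AddMonoidAlgebra F (ℤ × ℤ)) (hQ : Prime Q) :
    Prime (AddMonoidAlgebra.mapRingHom (ℤ × ℤ) (algebraMap F ℂ) Q) := by
  have b := Module.Basis.ofVectorSpace F ℂ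
  have key : ∀ A B : AddMonoidAlgebra ℂ (ℤ × ℤ),
      AddMonoidAlgebra.mapRingHom (ℤ × ℤ) (algebraMap F ℂ) Q ∣ A * B →
      AddMonoidAlgebra.mapRingHom (ℤ × ℤ) (algebraMap F ℂ) Q ∣ A ∨
      AddMonoidAlgebra.mapRingHom (ℤ × ℤ) (algebraMap F ℂ) Q ∣ B := by
    intro A B hAB
    by_contra hc
    push Not at hc
    obtain ⟨hA, hB⟩ := hc
    obtain ⟨i, hi⟩ : ∃ i, ¬ Q ∣ crd (b.coord i) A := by
      by_contra h
      push Not at h
      exact hA (dvd_of_crd b Q A h)
    obtain ⟨k, hk⟩ : ∃ i, ¬ Q ∣ crd (b.coord i) B := by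
      by_contra h
      push Not at h
      exact hB (dvd_of_crd b Q B h)
    have h1 : ¬ Q ∣ crd (b.coord i) A * crd (b.coord k) B := fun h =>
      (hQ.dvd_or_dvd h).elim hi hk
    obtain ⟨φ, h2, h3⟩ := nst F Q _ hQ h1
    rw [map_mul] at h3
    obtain ⟨h4, h5⟩ := ne_zero_and_ne_zero_of_mul h3
    have h6 : ext φ A ≠ 0 := by
      intro h
      apply h4
      rw [← l_ext, h, map_zero]
    have h7 : ext φ B ≠ 0 := by
      intro h
      apply h5
      rw [← l_ext, h, map_zero]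
    obtain ⟨C, hC⟩ := hAB
    have h8 := congrArg (ext φ) hC
    rw [map_mul, map_mul, ext_map, h2, map_zero, zero_mul] at h8
    exact mul_ne_zero h6 h7 h8
  refine ⟨?_, ?_, key⟩
  · intro h
    apply hQ.ne_zero
    ext g
    have := congrArg (fun A : AddMonoidAlgebra ℂ (ℤ × ℤ) => A.coeff g) h
    simp only [AddMonoidAlgebra.coeff_mapRingHom, AddMonoidAlgebra.coeff_zero,
      Finsupp.coe_zero, Pi.zero_apply] at this
    simpa using this
  · intro h
    obtain ⟨φ, h2, -⟩ := nst F Q 1 hQ fun h => hQ.not_isUnit (isUnit_of_dvd_one h)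
    have h3 := h.map (ext φ)
    rw [ext_map, h2, map_zero] at h3
    exact not_isUnit_zero h3

/-- A prime Laurent polynomial over an algebraically closed field stays prime over `ℂ`. -/
theorem ku2 : ∀ (F : Type) [Field F] [IsAlgClosed F] [CharZero F] (j : F →+* ℂ)
    (Q : AddMonoidAlgebra F (ℤ × ℤ)), Prime Q →
    Prime (AddMonoidAlgebra.mapRingHom (ℤ × ℤ) j Q) := by
  intro F _ _ _ j Q hQ
  let _ : Algebra F ℂ := j.toAlgebra
  exact ku2_aux F Q hQ

end MP743d1e.RT.KUMM
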