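import Pool.Agent.Lib.MP_743d1e_nt.RT.BAS
import Pool.Agent.Lib.MP_743d1e_nt.CZ.TWO
import Pool.Agent.Lib.MP_743d1e_nt.RT.KU2
import Mathlib.RingTheory.Localization.Integer
import Mathlib.LinearAlgebra.Basis.VectorSpace
import Pool.Agent.Lib.MP_743d1e_nt.RT.DSC
import Pool.Agent.Lib.MP_743d1e_nt.RT.Spec2

section
/-! KUM: `P(z ^ N)` is prime over the complex numbers. -/
set_option autoImplicit false

namespace MP743d1e.RT

open scoped BigOperators
open Polynomial MP743d1e.CY MP743d1e.Integ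
open Pool.Agent.Lib.MPcb8a44
open Pool.Agent.MP743d1e.CZ (Tow ev ev_apply ev_single Pure)

namespace KUMM

/-- The descent: `F` is an algebraic closure of `ℚ`, `K` a field in which `ℚ` is algebraically closed. -/
def Dsc (K : Type) [Field K] [Algebra ℚ K] : Prop :=
  ∃ (F Ω : Type) (_ : Field F) (_ : CharZero F) (_ : IsAlgClosed F) (_ : Algebra ℚ F) (_ : Field Ω)
    (_ : F →+* ℂ) (i : K →+* Ω) (j : F →+* Ω),
    (∀ (ι : Type) (s : Finset ι) (e : ι → F), LinearIndependent ℚ e → ∀ a : ι → K,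
      ∑ l ∈ s, j (e l) * i (a l) = 0 → ∀ l ∈ s, a l = 0) ∧
    ∀ (h : K) (m : ℕ) (v : Ω), 0 < m → v ∈ Subfield.closure (Set.range i ∪ Set.range j) →
      i h = v ^ m → ∃ (c' : ℚ) (v' : K), h = algebraMap ℚ K c' * v' ^ m

section dec

variable {F : Type} [Field F] [CharZero F] [Algebra ℚ F] {I : Type} (b : Module.Basis I ℚ F)

variable (F) in
/-- The map `ℤ[ℤ²] → F[ℤ²]`. -/
noncomputable def mz : AddMonoidAlgebra ℤ (ℤ × ℤ) →+* AddMonoidAlgebra F (ℤ × ℤ) :=
  AddMonoidAlgebra.mapRingHom (ℤ × ℤ) (Int.castRingHom F)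

omit [CharZero F] [Algebra ℚ F] in
theorem mz_single (k : ℤ × ℤ) (n : ℤ) :
    mz F (AddMonoidAlgebra.single k n) = AddMonoidAlgebra.single k (n : F) := by
  rw [mz, AddMonoidAlgebra.mapRingHom_single]
  rfl

/-- Decomposition along a basis of `ℂ` over `ℚ`, up to a denominator. -/
theorem exists_dec (A : AddMonoidAlgebra F (ℤ × ℤ)) :
    ∃ (D : ℤ) (B : I →₀ AddMonoidAlgebra ℤ (ℤ × ℤ)), D ≠ 0 ∧
      mz F (AddMonoidAlgebra.single 0 D) * A =
        B.sum fun l Bl => AddMonoidAlgebra.single 0 (b l) * mz F Bl := by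
  classical
  induction A using AddMonoidAlgebra.induction_linear with
  | zero => exact ⟨1, 0, one_ne_zero, by simp⟩
  | add A A' hA hA' =>
    obtain ⟨D, B, hD, hB⟩ := hA
    obtain ⟨D', B', hD', hB'⟩ := hA'
    have h0 : ∀ l : I, AddMonoidAlgebra.single (0 : ℤ × ℤ) (b l) * mz F 0 = 0 := fun l => by
      rw [map_zero, mul_zero]
    refine ⟨D * D', B.mapRange (fun Z => AddMonoidAlgebra.single 0 D' * Z) (mul_zero _) +
      B'.mapRange (fun Z => AddMonoidAlgebra.single 0 D * Z) (mul_zero _), mul_ne_zero hD hD', ?_⟩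
    rw [Finsupp.sum_add_index' h0 (fun l Z Z' => by rw [map_add, mul_add]),
      Finsupp.sum_mapRange_index h0, Finsupp.sum_mapRange_index h0]
    have h1 : (B.sum fun l Z => AddMonoidAlgebra.single (0 : ℤ × ℤ) (b l) *
        mz F (AddMonoidAlgebra.single 0 D' * Z)) =
        mz F (AddMonoidAlgebra.single 0 D') *
          B.sum fun l Z => AddMonoidAlgebra.single (0 : ℤ × ℤ) (b l) * mz F Z := by
      rw [Finsupp.mul_sum]
      refine Finsupp.sum_congr fun l _ => ?_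
      rw [map_mul]; ring
    have h2 : (B'.sum fun l Z => AddMonoidAlgebra.single (0 : ℤ × ℤ) (b l) *
        mz F (AddMonoidAlgebra.single 0 D * Z)) =
        mz F (AddMonoidAlgebra.single 0 D) *
          B'.sum fun l Z => AddMonoidAlgebra.single (0 : ℤ × ℤ) (b l) * mz F Z := by
      rw [Finsupp.mul_sum]
      refine Finsupp.sum_congr fun l _ => ?_
      rw [map_mul]; ring
    rw [h1, h2, ← hB, ← hB']
    have h3 : (AddMonoidAlgebra.single (0 : ℤ × ℤ) (D * D') : AddMonoidAlgebra ℤ (ℤ × ℤ)) =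
        AddMonoidAlgebra.single 0 D * AddMonoidAlgebra.single 0 D' := by
      rw [AddMonoidAlgebra.single_mul_single, add_zero]
    rw [h3, map_mul]
    ring
  | single k c =>
    obtain ⟨D, hD⟩ := IsLocalization.exist_integer_multiples (nonZeroDivisors ℤ) (b.repr c).support
      (fun l => b.repr c l)
    have hD0 : (D : ℤ) ≠ 0 := nonZeroDivisors.ne_zero D.2
    choose n hn using hD
    refine ⟨D, ∑ l ∈ (b.repr c).support.attach,
      Finsupp.single (l : I) (AddMonoidAlgebra.single k (n l l.2)), hD0, ?_⟩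
    have h0 : ∀ l : I, AddMonoidAlgebra.single (0 : ℤ × ℤ) (b l) * mz F 0 = 0 := fun l => by
      rw [map_zero, mul_zero]
    rw [← Finsupp.sum_finsetSum_index (h := fun l Z => AddMonoidAlgebra.single (0 : ℤ × ℤ) (b l) * mz F Z)
      h0 (fun l Z Z' => by rw [map_add, mul_add])]
    have h1 : ∀ l ∈ (b.repr c).support.attach,
        ((Finsupp.single (l : I) (AddMonoidAlgebra.single k (n l l.2))).sum fun l Z =>
          AddMonoidAlgebra.single (0 : ℤ × ℤ) (b l) * mz F Z) =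
        AddMonoidAlgebra.single k (((D : ℤ) : F) * (((b.repr c l : ℚ) : F) * b l)) := by
      intro l _
      rw [Finsupp.sum_single_index (h0 _), mz_single, AddMonoidAlgebra.single_mul_single, zero_add]
      congr 1
      have h2 : ((n l l.2 : ℤ) : ℚ) = ((D : ℤ) : ℚ) * b.repr c l := by
        have := hn l l.2
        rw [Algebra.smul_def] at this
        exact this
      have h3 : ((n l l.2 : ℤ) : F) = ((D : ℤ) : F) * ((b.repr c l : ℚ) : F) := by
        exact_mod_cast congrArg (fun q : ℚ => (q : F)) h2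
      rw [h3]; ring
    rw [Finset.sum_congr rfl h1, mz_single, AddMonoidAlgebra.single_mul_single, zero_add]
    rw [Finset.sum_attach (b.repr c).support
      (fun l => AddMonoidAlgebra.single k (((D : ℤ) : F) * (((b.repr c l : ℚ) : F) * b l)))]
    have h4 : c = ∑ l ∈ (b.repr c).support, ((b.repr c l : ℚ) : F) * b l := by
      conv_lhs => rw [← b.linearCombination_repr c, Finsupp.linearCombination_apply, Finsupp.sum]
      refine Finset.sum_congr rfl fun l _ => ?_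
      rw [Algebra.smul_def, eq_ratCast]
    conv_lhs => rw [h4, Finset.mul_sum]
    exact map_sum (AddMonoidAlgebra.singleAddHom k : F →+ AddMonoidAlgebra F (ℤ × ℤ)) _ _

omit [Algebra ℚ F] in
/-- A unit of the ring of Laurent polynomials can be cancelled. -/
theorem dvd_of_dvd_mul {Q A : AddMonoidAlgebra F (ℤ × ℤ)} {m : ℤ} (hm : m ≠ 0)
    (h : Q ∣ mz F (AddMonoidAlgebra.single 0 m) * A) : Q ∣ A := by
  have hu : IsUnit (mz F (AddMonoidAlgebra.single 0 m)) := by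
    refine IsUnit.of_mul_eq_one (AddMonoidAlgebra.single 0 ((m : F)⁻¹)) ?_
    rw [mz_single, AddMonoidAlgebra.single_mul_single, add_zero,
      mul_inv_cancel₀ (Int.cast_ne_zero.2 hm)]
    rfl
  exact (hu.dvd_mul_left).1 h

end dec

theorem primeF (K : Type) [Field K] [Algebra ℚ K] (x y : Kˣ) (hpair : Pre K x y)
    (P : AddMonoidAlgebra ℤ (ℤ × ℤ)) (hP0 : P ≠ 0) (hP : evP (x : K) (y : K) P = 0)
    (hgen : ∀ A : AddMonoidAlgebra ℤ (ℤ × ℤ), evP (x : K) (y : K) A = 0 →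
      ∃ m : ℤ, m ≠ 0 ∧ P ∣ (m : AddMonoidAlgebra ℤ (ℤ × ℤ)) * A)
    (N : ℕ) (hN : 0 < N) (F Ω : Type) [Field F] [CharZero F] [IsAlgClosed F] [Algebra ℚ F] [Field Ω]
    (i : K →+* Ω) (j : F →+* Ω)
    (hLD : ∀ (ι : Type) (s : Finset ι) (e : ι → F), LinearIndependent ℚ e → ∀ a : ι → K,
      ∑ l ∈ s, j (e l) * i (a l) = 0 → ∀ l ∈ s, a l = 0)
    (hPU : ∀ (h : K) (m : ℕ) (v : Ω), 0 < m → v ∈ Subfield.closure (Set.range i ∪ Set.range j) →
      i h = v ^ m → ∃ (c' : ℚ) (v' : K), h = algebraMap ℚ K c' * v' ^ m) :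
    Prime (AddMonoidAlgebra.mapDomainRingHom F (DistribSMul.toAddMonoidHom (ℤ × ℤ) (N : ℤ))
      (mz F P)) := by
  classical
  set L : Subfield Ω := Subfield.closure (Set.range i ∪ Set.range j) with hL
  have hiL : ∀ z, i z ∈ L := fun z => Subfield.subset_closure (Or.inl ⟨z, rfl⟩)
  have hjL : ∀ z, j z ∈ L := fun z => Subfield.subset_closure (Or.inr ⟨z, rfl⟩)
  let i' : K →+* L := i.codRestrict L hiL
  let j' : F →+* L := j.codRestrict L hjL
  let _ : Algebra F L := j'.toAlgebra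
  let X : (↥L)ˣ := Units.map i'.toMonoidHom x
  let Y : (↥L)ˣ := Units.map i'.toMonoidHom y
  have hev : ∀ A : AddMonoidAlgebra ℤ (ℤ × ℤ), ev F X Y (mz F A) = i' (evP (x : K) (y : K) A) := by
    intro A
    induction A using AddMonoidAlgebra.induction_linear with
    | zero =>
      rw [map_zero, map_zero, BAS.evP_eq, map_zero, map_zero]
    | add a b ha hb => rw [map_add, map_add, BAS.evP_add x.ne_zero y.ne_zero, map_add, ha, hb]
    | single k c =>
      rw [mz_single, ev_single, BAS.evP_single, map_mul, map_intCast, map_intCast]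
      congr 1
      rw [map_mul, map_zpow₀, map_zpow₀, Units.val_mul, Units.val_zpow_eq_zpow_val,
        Units.val_zpow_eq_zpow_val]
      rfl
  have htow : Tow F X Y (mz F P) := by
    refine ⟨?_, fun A => ⟨fun hA => ?_, ?_⟩⟩
    · intro p hp a b ⟨z, hz⟩
      by_contra hcon
      have hab : ¬ (a = 0 ∧ b = 0) := by
        rintro ⟨rfl, rfl⟩
        exact hcon ⟨dvd_zero _, dvd_zero _⟩
      have hg : 0 < Int.gcd a b := by
        rw [Nat.pos_iff_ne_zero]
        intro h0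
        exact hab (Int.gcd_eq_zero_iff.1 h0)
      obtain ⟨a', b', hcop, ha, hb⟩ := Int.exists_gcd_one hg
      set d := Int.gcd a b with hd
      have hpd : ¬ p ∣ d := by
        intro hpd
        apply hcon
        have h1 : (p : ℤ) ∣ (d : ℤ) := by exact_mod_cast hpd
        exact ⟨ha ▸ dvd_mul_of_dvd_right h1 _, hb ▸ dvd_mul_of_dvd_right h1 _⟩
      have hcop' : IsCoprime (p : ℤ) (d : ℤ) :=
        Nat.isCoprime_iff_coprime.2 ((Nat.Prime.coprime_iff_not_dvd hp).2 hpd)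
      obtain ⟨s, t, hst⟩ := hcop'
      set h : Kˣ := x ^ a' * y ^ b' with hh
      have hX0 : ∀ u : Kˣ, i' (u : K) ≠ 0 := fun u => (_root_.map_ne_zero _).2 u.ne_zero
      have hih : (i' (h : K)) ^ (d : ℤ) = z ^ p := by
        rw [← hz]
        have e1 : ((X : ↥L)) = i' (x : K) := rfl
        have e2 : ((Y : ↥L)) = i' (y : K) := rfl
        rw [e1, e2, hh, Units.val_mul, Units.val_zpow_eq_zpow_val, Units.val_zpow_eq_zpow_val,
          map_mul, map_zpow₀, map_zpow₀, mul_zpow, ← zpow_mul, ← zpow_mul, ← ha, ← hb]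
      have hz0 : z ≠ 0 := by
        intro h0
        rw [h0, zero_pow hp.ne_zero] at hih
        exact zpow_ne_zero _ (hX0 h) hih
      have hv : i' (h : K) = ((i' (h : K)) ^ s * z ^ t) ^ p := by
        rw [mul_pow, ← zpow_natCast ((i' (h : K)) ^ s), ← zpow_natCast (z ^ t), ← zpow_mul,
          ← zpow_mul, mul_comm t, zpow_mul z, zpow_natCast, ← hih, ← zpow_mul,
          ← zpow_add₀ (hX0 h), mul_comm (d : ℤ), hst, zpow_one]
      obtain ⟨c', v', hc'⟩ := hPU (h : K) p (((i' (h : K)) ^ s * z ^ t : ↥L) : Ω) hp.pos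
        (SetLike.coe_mem _) (by
          exact congrArg (fun w : ↥L => (w : Ω)) hv)
      exact hpair.pure a' b' p c' v' (Int.isCoprime_iff_gcd_eq_one.2 hcop) hp.two_le hc'
    · obtain ⟨D, B, hD, hB⟩ := exists_dec (Module.Basis.ofVectorSpace ℚ F) A
      refine dvd_of_dvd_mul hD ?_
      rw [hB]
      refine Finset.dvd_sum fun l hl => ?_
      have h1 : ∑ l ∈ B.support, j (Module.Basis.ofVectorSpace ℚ F l) *
          i (evP (x : K) (y : K) (B l)) = 0 := by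
        have h2 := congrArg (ev F X Y) hB
        rw [map_mul, hA, mul_zero, Finsupp.sum, map_sum] at h2
        have h3 := congrArg (fun w : ↥L => (w : Ω)) h2
        beta_reduce at h3
        rw [ZeroMemClass.coe_zero, AddSubmonoidClass.coe_finsetSum] at h3
        rw [h3]
        refine Finset.sum_congr rfl fun l _ => ?_
        rw [map_mul, hev, ev_single]
        simp only [Prod.fst_zero, Prod.snd_zero, zpow_zero, mul_one, Units.val_one]
        rfl
      have h4 := hLD _ B.support _ (Module.Basis.ofVectorSpace ℚ F).linearIndependent _ h1 l hl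
      obtain ⟨m, hm, hmB⟩ := hgen (B l) h4
      refine dvd_mul_of_dvd_right (dvd_of_dvd_mul hm ?_) _
      have h5 := map_dvd (mz F) hmB
      rw [map_mul] at h5
      have h6 : (mz F ((m : ℤ) : AddMonoidAlgebra ℤ (ℤ × ℤ))) = mz F (AddMonoidAlgebra.single 0 m) := by
        congr 1
      rwa [h6] at h5
    · rintro ⟨B, rfl⟩
      rw [map_mul, hev, hP, map_zero, zero_mul]
  have hne : mz F P ≠ 0 := by
    intro h0
    apply hP0
    have h1 : Function.Injective (mz F) := by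
      exact AddMonoidAlgebra.map_injective (Int.castRingHom F).toAddMonoidHom Int.cast_injective
    exact h1 (h0.trans (map_zero _).symm)
  exact htow.prime_pow hne N hN

end KUMM

open KUMM

theorem specKUM' (hD : ∀ (K : Type) [Field K] [Algebra ℚ K],
    (∀ z : K, IsAlgebraic ℚ z → ∃ c : ℚ, z = algebraMap ℚ K c) → Dsc K) : SpecKUM := by
  intro K _ _ x y hpair P hP0 hP hgen N hN
  obtain ⟨F, Ω, _, _, _, _, _, jC, i, j, hLD, hPU⟩ := hD K hpair.const
  have h1 := primeF K x y hpair P hP0 hP hgen N hN F Ω i j hLD hPU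
  have h2 := ku2 F jC _ h1
  have h3 : AddMonoidAlgebra.mapRingHom (ℤ × ℤ) jC (AddMonoidAlgebra.mapDomainRingHom F
      (DistribSMul.toAddMonoidHom (ℤ × ℤ) (N : ℤ)) (mz F P)) = PN N P := by
    rw [PN]
    clear hP0 hP hgen h1 h2
    induction P using AddMonoidAlgebra.induction_linear with
    | zero => simp only [map_zero]
    | add a b ha hb => simp only [map_add, ha, hb]
    | single k c =>
      rw [mz_single, AddMonoidAlgebra.mapDomainRingHom_apply, AddMonoidAlgebra.mapDomain_single,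
        AddMonoidAlgebra.mapRingHom_single, AddMonoidAlgebra.mapRingHom_single,
        AddMonoidAlgebra.mapDomainRingHom_apply, AddMonoidAlgebra.mapDomain_single, map_intCast]
      rfl
  rwa [h3] at h2

end MP743d1e.RT
end

section
/-! KUM: `P(z ^ N)` is prime over the complex numbers. -/
set_option autoImplicit false

namespace MP743d1e.RT

theorem specKUM : SpecKUM := specKUM' fun K _ _ hK => DSCM.dsc K hK

end MP743d1e.RT
end

section
/-!
# KUP: the equation of a pure pair remains prime under all isogenies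
-/
set_option autoImplicit false

namespace MP743d1e.RT

namespace KUPM

/-! ## The twisted pull back is additive -/

theorem tw_zero (τ₁ τ₂ : ℂ) (B : ℤ × ℤ →+ ℤ × ℤ) : tw τ₁ τ₂ B 0 = 0 := by
  rw [tw, AddMonoidAlgebra.coeff_zero, Finsupp.sum_zero_index]

theorem tw_add (τ₁ τ₂ : ℂ) (B : ℤ × ℤ →+ ℤ × ℤ) (P Q : AddMonoidAlgebra ℤ (ℤ × ℤ)) :
    tw τ₁ τ₂ B (P + Q) = tw τ₁ τ₂ B P + tw τ₁ τ₂ B Q := by
  rw [tw, tw, tw, AddMonoidAlgebra.coeff_add]
  refine Finsupp.sum_add_index' (fun k => ?_) (fun k a b => ?_)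
  · rw [Int.cast_zero, zero_mul, AddMonoidAlgebra.single_zero]
  · rw [Int.cast_add, add_mul, AddMonoidAlgebra.single_add]

theorem tw_single (τ₁ τ₂ : ℂ) (B : ℤ × ℤ →+ ℤ × ℤ) (k : ℤ × ℤ) (z : ℤ) :
    tw τ₁ τ₂ B (AddMonoidAlgebra.single k z) =
      AddMonoidAlgebra.single (B k) ((z : ℂ) * (τ₁ ^ k.1 * τ₂ ^ k.2)) := by
  rw [tw, AddMonoidAlgebra.coeff_single, Finsupp.sum_single_index]
  rw [Int.cast_zero, zero_mul, AddMonoidAlgebra.single_zero]

theorem PN_single (N : ℕ) (k : ℤ × ℤ) (z : ℤ) :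
    PN N (AddMonoidAlgebra.single k z) = AddMonoidAlgebra.single ((N : ℤ) • k) (z : ℂ) := by
  rw [PN, AddMonoidAlgebra.mapRingHom_single, AddMonoidAlgebra.mapDomainRingHom_apply,
    AddMonoidAlgebra.mapDomain_single]
  rfl

theorem PN_add (N : ℕ) (P Q : AddMonoidAlgebra ℤ (ℤ × ℤ)) : PN N (P + Q) = PN N P + PN N Q := by
  rw [PN, PN, PN, map_add, map_add]

theorem PN_zero (N : ℕ) : PN N 0 = 0 := by
  rw [PN, map_zero, map_zero]

/-! ## Descent along an injective map of the exponents -/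

theorem comap_mul (C : ℤ × ℤ →+ ℤ × ℤ) (hC : Function.Injective C)
    (R q : AddMonoidAlgebra ℂ (ℤ × ℤ)) :
    AddMonoidAlgebra.comapDomain C hC (AddMonoidAlgebra.mapDomainRingHom ℂ C R * q) =
      R * AddMonoidAlgebra.comapDomain C hC q := by
  induction R using AddMonoidAlgebra.induction_linear with
  | zero => rw [map_zero, zero_mul, zero_mul, AddMonoidAlgebra.comapDomain_zero]
  | add a b ha hb => rw [map_add, add_mul, add_mul, AddMonoidAlgebra.comapDomain_add, ha, hb]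
  | single e c =>
    rw [AddMonoidAlgebra.mapDomainRingHom_apply, AddMonoidAlgebra.mapDomain_single]
    ext f
    rw [AddMonoidAlgebra.coeff_comapDomain, Finsupp.comapDomain_apply,
      AddMonoidAlgebra.coeff_single_mul_apply, AddMonoidAlgebra.coeff_single_mul_apply,
      AddMonoidAlgebra.coeff_comapDomain, Finsupp.comapDomain_apply, map_add C, map_neg C]

theorem comap_one (C : ℤ × ℤ →+ ℤ × ℤ) (hC : Function.Injective C) :
    AddMonoidAlgebra.comapDomain C hC (1 : AddMonoidAlgebra ℂ (ℤ × ℤ)) = 1 := by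
  classical
  ext f
  rw [AddMonoidAlgebra.coeff_comapDomain, Finsupp.comapDomain_apply, AddMonoidAlgebra.one_def,
    AddMonoidAlgebra.coeff_single,
    Finsupp.single_apply, Finsupp.single_apply]
  by_cases hf : (0 : ℤ × ℤ) = f
  · rw [if_pos hf, ← hf, map_zero, if_pos rfl]
  · rw [if_neg hf, if_neg]
    intro h
    exact hf (hC (by rw [map_zero, ← h]))

theorem dvd_of_map {C : ℤ × ℤ →+ ℤ × ℤ} (hC : Function.Injective C)
    {R a : AddMonoidAlgebra ℂ (ℤ × ℤ)}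
    (h : AddMonoidAlgebra.mapDomainRingHom ℂ C R ∣ AddMonoidAlgebra.mapDomainRingHom ℂ C a) :
    R ∣ a := by
  obtain ⟨q, hq⟩ := h
  have h1 := comap_mul C hC R q
  have h2 := comap_mul C hC a 1
  rw [mul_one, comap_one, mul_one] at h2
  rw [← hq, h2] at h1
  exact ⟨_, h1⟩

theorem prime_of_map {C : ℤ × ℤ →+ ℤ × ℤ} (hC : Function.Injective C)
    {R : AddMonoidAlgebra ℂ (ℤ × ℤ)} (h : Prime (AddMonoidAlgebra.mapDomainRingHom ℂ C R)) :
    Prime R := by
  refine ⟨fun h0 => h.ne_zero (by rw [h0, map_zero]), fun hu => h.not_isUnit (hu.map _),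
    fun a b hab => ?_⟩
  have h1 : AddMonoidAlgebra.mapDomainRingHom ℂ C R ∣
      AddMonoidAlgebra.mapDomainRingHom ℂ C a * AddMonoidAlgebra.mapDomainRingHom ℂ C b := by
    rw [← map_mul]
    exact map_dvd _ hab
  exact (h.dvd_or_dvd h1).imp (dvd_of_map hC) (dvd_of_map hC)

/-! ## Twists -/

/-- The twist `z ^ e ↦ ρ ^ e z ^ e`. -/
noncomputable def tws (ρ₁ ρ₂ : ℂˣ) : AddMonoidAlgebra ℂ (ℤ × ℤ) →ₐ[ℂ] AddMonoidAlgebra ℂ (ℤ × ℤ) :=
  AddMonoidAlgebra.lift ℂ (AddMonoidAlgebra ℂ (ℤ × ℤ)) (ℤ × ℤ)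
    { toFun := fun k => AddMonoidAlgebra.single k.toAdd
        (((ρ₁ ^ k.toAdd.1 * ρ₂ ^ k.toAdd.2 : ℂˣ)) : ℂ)
      map_one' := by
        rw [toAdd_one, Prod.fst_zero, Prod.snd_zero, zpow_zero, zpow_zero, mul_one, Units.val_one,
          AddMonoidAlgebra.one_def]
      map_mul' := fun k l => by
        rw [AddMonoidAlgebra.single_mul_single, toAdd_mul, Prod.fst_add, Prod.snd_add, zpow_add,
          zpow_add, ← Units.val_mul]
        congr 2
        exact mul_mul_mul_comm _ _ _ _ }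

theorem tws_single (ρ₁ ρ₂ : ℂˣ) (k : ℤ × ℤ) (c : ℂ) :
    tws ρ₁ ρ₂ (AddMonoidAlgebra.single k c) =
      AddMonoidAlgebra.single k (c * (((ρ₁ ^ k.1 * ρ₂ ^ k.2 : ℂˣ)) : ℂ)) := by
  rw [tws, AddMonoidAlgebra.lift_single]
  change c • AddMonoidAlgebra.single k (((ρ₁ ^ k.1 * ρ₂ ^ k.2 : ℂˣ)) : ℂ) = _
  rw [AddMonoidAlgebra.smul_single, smul_eq_mul]

theorem tws_inv (ρ₁ ρ₂ : ℂˣ) (A : AddMonoidAlgebra ℂ (ℤ × ℤ)) :
    tws ρ₁⁻¹ ρ₂⁻¹ (tws ρ₁ ρ₂ A) = A := by
  induction A using AddMonoidAlgebra.induction_linear with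
  | zero => rw [map_zero, map_zero]
  | add a b ha hb => rw [map_add, map_add, ha, hb]
  | single k c =>
    rw [tws_single, tws_single, mul_assoc, ← Units.val_mul, inv_zpow', inv_zpow']
    congr 1
    have h : ρ₁ ^ k.1 * ρ₂ ^ k.2 * (ρ₁ ^ (-k.1) * ρ₂ ^ (-k.2)) = 1 := by
      rw [mul_mul_mul_comm, ← zpow_add, ← zpow_add, add_neg_cancel, add_neg_cancel, zpow_zero,
        zpow_zero, mul_one]
    rw [h, Units.val_one, mul_one]

theorem prime_tws (ρ₁ ρ₂ : ℂˣ) {Q : AddMonoidAlgebra ℂ (ℤ × ℤ)} (h : Prime Q) :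
    Prime (tws ρ₁ ρ₂ Q) := by
  have h2 : ∀ A, tws ρ₁ ρ₂ (tws ρ₁⁻¹ ρ₂⁻¹ A) = A := fun A => by
    have := tws_inv ρ₁⁻¹ ρ₂⁻¹ A
    rwa [inv_inv, inv_inv] at this
  let e : AddMonoidAlgebra ℂ (ℤ × ℤ) ≃* AddMonoidAlgebra ℂ (ℤ × ℤ) :=
    { toFun := tws ρ₁ ρ₂
      invFun := tws ρ₁⁻¹ ρ₂⁻¹
      left_inv := tws_inv ρ₁ ρ₂
      right_inv := h2
      map_mul' := fun a b => map_mul _ a b }
  exact (MulEquiv.prime_iff e).2 h

/-! ## The adjugate -/

theorem adj (B : ℤ × ℤ →+ ℤ × ℤ) (hB : Function.Injective B) :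
    ∃ (C : ℤ × ℤ →+ ℤ × ℤ) (d : ℕ), 0 < d ∧ Function.Injective C ∧ ∀ e, C (B e) = (d : ℤ) • e := by
  obtain ⟨p, hp⟩ : ∃ p, p = B (1, 0) := ⟨_, rfl⟩
  obtain ⟨q, hq⟩ : ∃ q, q = B (0, 1) := ⟨_, rfl⟩
  have hBe : ∀ e : ℤ × ℤ, B e = (e.1 * p.1 + e.2 * q.1, e.1 * p.2 + e.2 * q.2) := by
    intro e
    have h1 : e = e.1 • ((1, 0) : ℤ × ℤ) + e.2 • ((0, 1) : ℤ × ℤ) := by
      ext <;> simp
    conv_lhs => rw [h1]
    rw [map_add, map_zsmul, map_zsmul, ← hp, ← hq]
    ext <;> simp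
  have hD : p.1 * q.2 - p.2 * q.1 ≠ 0 := by
    intro hD
    have h1 : B (q.2, -p.2) = B 0 := by
      rw [hBe, map_zero]
      ext
      · simp only [Prod.fst_zero]; linarith
      · simp only [Prod.snd_zero]; ring
    have h2 : B (q.1, -p.1) = B 0 := by
      rw [hBe, map_zero]
      ext
      · simp only [Prod.fst_zero]; ring
      · simp only [Prod.snd_zero]; linarith
    have h3 := hB h1
    have h4 := hB h2
    have h5 : B (1, 0) = B 0 := by
      rw [← hp, map_zero]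
      ext
      · have := congrArg Prod.snd h4
        simp only [Prod.snd_zero] at this ⊢
        simp only [Prod.fst_zero]
        linarith
      · have := congrArg Prod.snd h3
        simp only [Prod.snd_zero] at this ⊢
        linarith
    have h6 := congrArg Prod.fst (hB h5)
    simp at h6
  obtain ⟨D, hDd⟩ : ∃ D, D = p.1 * q.2 - p.2 * q.1 := ⟨_, rfl⟩
  obtain ⟨s, hs, hsD⟩ : ∃ s : ℤ, (s = 1 ∨ s = -1) ∧ s * D = |D| := by
    rcases abs_choice D with h | h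
    · exact ⟨1, Or.inl rfl, by rw [h, one_mul]⟩
    · exact ⟨-1, Or.inr rfl, by rw [h, neg_one_mul]⟩
  let C : ℤ × ℤ →+ ℤ × ℤ :=
    { toFun := fun f => (s * (q.2 * f.1 - q.1 * f.2), s * (-p.2 * f.1 + p.1 * f.2))
      map_zero' := by simp
      map_add' := fun f g => by
        ext
        · simp only [Prod.fst_add, Prod.snd_add]; ring
        · simp only [Prod.fst_add, Prod.snd_add]; ring }
  have hCf : ∀ f, C f = (s * (q.2 * f.1 - q.1 * f.2), s * (-p.2 * f.1 + p.1 * f.2)) := fun _ => rfl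
  have hD0 : D ≠ 0 := by rw [hDd]; exact hD
  have hBC : ∀ f, B (C f) = |D| • f := by
    intro f
    rw [hBe, hCf, ← hsD, hDd]
    ext
    · simp only [Prod.smul_fst, smul_eq_mul]; ring
    · simp only [Prod.smul_snd, smul_eq_mul]; ring
  refine ⟨C, D.natAbs, Int.natAbs_pos.2 hD0, ?_, ?_⟩
  · intro f g hfg
    have h1 : |D| • f = |D| • g := by rw [← hBC, ← hBC, hfg]
    have h2 : |D| ≠ 0 := abs_ne_zero.2 hD0
    ext
    · have := congrArg Prod.fst h1
      simp only [Prod.smul_fst, smul_eq_mul] at this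
      exact mul_left_cancel₀ h2 this
    · have := congrArg Prod.snd h1
      simp only [Prod.smul_snd, smul_eq_mul] at this
      exact mul_left_cancel₀ h2 this
  · intro e
    rw [hBe, hCf, Int.natCast_natAbs, ← hsD, hDd]
    ext
    · simp only [Prod.smul_fst, smul_eq_mul]; ring
    · simp only [Prod.smul_snd, smul_eq_mul]; ring

/-- `C (B k) = d k`: the pull back of the twisted pull back is a twist of `P(z ^ d)`. -/
theorem map_tw (B C : ℤ × ℤ →+ ℤ × ℤ) (d : ℕ) (hCB : ∀ e, C (B e) = (d : ℤ) • e) (τ₁ τ₂ : ℂ)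
    (ρ₁ ρ₂ : ℂˣ) (h₁ : (ρ₁ : ℂ) ^ d = τ₁) (h₂ : (ρ₂ : ℂ) ^ d = τ₂)
    (P : AddMonoidAlgebra ℤ (ℤ × ℤ)) :
    AddMonoidAlgebra.mapDomainRingHom ℂ C (tw τ₁ τ₂ B P) = tws ρ₁ ρ₂ (PN d P) := by
  induction P using AddMonoidAlgebra.induction_linear with
  | zero => rw [tw_zero, PN_zero, map_zero, map_zero]
  | add a b ha hb => rw [tw_add, PN_add, map_add, map_add, ha, hb]
  | single k z =>
    rw [tw_single, PN_single, tws_single, AddMonoidAlgebra.mapDomainRingHom_apply,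
      AddMonoidAlgebra.mapDomain_single, hCB]
    congr 2
    rw [Units.val_mul, Units.val_zpow_eq_zpow_val, Units.val_zpow_eq_zpow_val, Prod.smul_fst,
      Prod.smul_snd, smul_eq_mul, smul_eq_mul, zpow_mul, zpow_mul, zpow_natCast, zpow_natCast,
      h₁, h₂]

end KUPM

open KUPM

theorem specKUP : SpecKUP := by
  intro K _ _ x y hpre P hP0 hP hgen B τ₁ τ₂ hB hτ₁ hτ₂
  obtain ⟨C, d, hd, hC, hCB⟩ := adj B hB
  obtain ⟨r₁, hr₁⟩ := IsAlgClosed.exists_pow_nat_eq τ₁ hd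
  obtain ⟨r₂, hr₂⟩ := IsAlgClosed.exists_pow_nat_eq τ₂ hd
  have h1 : r₁ ≠ 0 := by
    rintro rfl
    rw [zero_pow hd.ne'] at hr₁
    exact hτ₁ hr₁.symm
  have h2 : r₂ ≠ 0 := by
    rintro rfl
    rw [zero_pow hd.ne'] at hr₂
    exact hτ₂ hr₂.symm
  have h3 := specKUM K x y hpre P hP0 hP hgen d hd
  apply prime_of_map hC
  rw [map_tw B C d hCB τ₁ τ₂ (Units.mk0 r₁ h1) (Units.mk0 r₂ h2) hr₁ hr₂]
  exact prime_tws _ _ h3

end MP743d1e.RT
end

section
/-!
# SUB and DVD: the substitution, and the divisibility of the equations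
-/
set_option autoImplicit false

namespace MP743d1e.RT

open scoped BigOperators
open MP743d1e.CY MP743d1e.Integ

namespace SUBM

open BAS KUPM

/-- `tw` as an additive map. -/
noncomputable def twA (τ₁ τ₂ : ℂ) (B : ℤ × ℤ →+ ℤ × ℤ) :
    AddMonoidAlgebra ℤ (ℤ × ℤ) →+ AddMonoidAlgebra ℂ (ℤ × ℤ) where
  toFun := tw τ₁ τ₂ B
  map_zero' := tw_zero τ₁ τ₂ B
  map_add' := tw_add τ₁ τ₂ B

theorem tw_zsmul (τ₁ τ₂ : ℂ) (B : ℤ × ℤ →+ ℤ × ℤ) (m : ℤ) (A : AddMonoidAlgebra ℤ (ℤ × ℤ)) :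
    tw τ₁ τ₂ B (m • A) = m • tw τ₁ τ₂ B A := map_zsmul (twA τ₁ τ₂ B) m A

theorem single_zero_mul (m : ℤ) (A : AddMonoidAlgebra ℂ (ℤ × ℤ)) :
    AddMonoidAlgebra.single 0 (m : ℂ) * A = m • A := by
  have h1 : (m : AddMonoidAlgebra ℂ (ℤ × ℤ)) = AddMonoidAlgebra.single 0 (m : ℂ) :=
    AddMonoidAlgebra.intCast_def m
  rw [← h1, zsmul_eq_mul]

theorem evP_zsmul {R : Type} [Field R] {x y : R} (hx : x ≠ 0) (hy : y ≠ 0) (m : ℤ)
    (A : AddMonoidAlgebra ℤ (ℤ × ℤ)) : evP x y (m • A) = (m : R) * evP x y A := by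
  rw [evP_eq' hx hy, evP_eq' hx hy, map_zsmul, zsmul_eq_mul]

/-- `(c₁ ξ ^ α η ^ β) ^ k₁ (c₂ ξ ^ γ η ^ δ) ^ k₂`. -/
theorem mono_sub {R : Type} [Field R] (c₁ c₂ ξ η : R) (hξ : ξ ≠ 0) (hη : η ≠ 0)
    (α β γ δ : ℤ) (k : ℤ × ℤ) :
    (c₁ * (ξ ^ α * η ^ β)) ^ k.1 * (c₂ * (ξ ^ γ * η ^ δ)) ^ k.2 =
      c₁ ^ k.1 * c₂ ^ k.2 * (ξ ^ (mt α β γ δ k).1 * η ^ (mt α β γ δ k).2) := by
  show _ = c₁ ^ k.1 * c₂ ^ k.2 * (ξ ^ (α * k.1 + γ * k.2) * η ^ (β * k.1 + δ * k.2))
  rw [mul_zpow, mul_zpow, mul_zpow, mul_zpow, ← zpow_mul, ← zpow_mul, ← zpow_mul, ← zpow_mul,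
    zpow_add₀ hξ, zpow_add₀ hη]
  ring

end SUBM

open SUBM BAS KUPM

theorem specSUB : SpecSUB := by
  intro c₁ c₂ α β γ δ hc₁ hc₂ hdet A
  induction A using AddMonoidAlgebra.induction_linear with
  | zero =>
    refine ⟨1, 0, one_ne_zero, ?_, ?_⟩
    · intro R _ _ ξ η hξ hη
      simp [evP]
    · intro B N τ₁ τ₂ hτ₁ hτ₂ hB h1 h2
      rw [tw_zero, PN_zero, mul_zero]
  | add A₁ A₂ h₁ h₂ =>
    obtain ⟨m₁, A₁', hm₁, e₁, f₁⟩ := h₁
    obtain ⟨m₂, A₂', hm₂, e₂, f₂⟩ := h₂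
    refine ⟨m₁ * m₂, m₂ • A₁' + m₁ • A₂', mul_ne_zero hm₁ hm₂, ?_, ?_⟩
    · intro R _ _ ξ η hξ hη
      have hc₁' : (c₁ : R) ≠ 0 := by exact_mod_cast hc₁
      have hc₂' : (c₂ : R) ≠ 0 := by exact_mod_cast hc₂
      have hX : (c₁ : R) * (ξ ^ α * η ^ β) ≠ 0 :=
        mul_ne_zero hc₁' (mul_ne_zero (zpow_ne_zero _ hξ) (zpow_ne_zero _ hη))
      have hY : (c₂ : R) * (ξ ^ γ * η ^ δ) ≠ 0 :=
        mul_ne_zero hc₂' (mul_ne_zero (zpow_ne_zero _ hξ) (zpow_ne_zero _ hη))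
      rw [evP_add hξ hη, evP_zsmul hξ hη, evP_zsmul hξ hη, e₁ R ξ η hξ hη, e₂ R ξ η hξ hη,
        evP_add hX hY]
      push_cast
      ring
    · intro B N τ₁ τ₂ hτ₁ hτ₂ hB h1 h2
      rw [tw_add, tw_zsmul, tw_zsmul, f₁ B N τ₁ τ₂ hτ₁ hτ₂ hB h1 h2,
        f₂ B N τ₁ τ₂ hτ₁ hτ₂ hB h1 h2, PN_add, single_zero_mul, single_zero_mul, single_zero_mul,
        smul_add, ← mul_smul, ← mul_smul, mul_comm m₂ m₁]
  | single k z =>
    set C : ℚ := c₁ ^ k.1 * c₂ ^ k.2 with hC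
    have hnum : ∀ (R : Type) [Field R] [CharZero R], ((C.den : ℤ) : R) * (C : R) = (C.num : R) := by
      intro R _ _
      have h := Rat.den_mul_eq_num C
      exact_mod_cast congrArg (Rat.cast : ℚ → R) h
    refine ⟨C.den, AddMonoidAlgebra.single (mt α β γ δ k) (z * C.num), by
      exact_mod_cast C.den_nz, ?_, ?_⟩
    · intro R _ _ ξ η hξ hη
      rw [BAS.evP_single, BAS.evP_single, mono_sub _ _ _ _ hξ hη]
      have h3 : (c₁ : R) ^ k.1 * (c₂ : R) ^ k.2 = (C : R) := by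
        rw [hC]
        push_cast
        rfl
      rw [h3, Int.cast_mul, ← hnum R]
      ring
    · intro B N τ₁ τ₂ hτ₁ hτ₂ hB h1 h2
      rw [tw_single, PN_single, hB, AddMonoidAlgebra.single_mul_single, zero_add]
      congr 1
      have h4 := mono_sub (c₁ : ℂ) (c₂ : ℂ) τ₁ τ₂ hτ₁ hτ₂ α β γ δ k
      rw [h1, h2, one_zpow, one_zpow, mul_one] at h4
      have h3 : (c₁ : ℂ) ^ k.1 * (c₂ : ℂ) ^ k.2 = (C : ℂ) := by
        rw [hC]
        push_cast
        rfl
      rw [h3] at h4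
      rw [Int.cast_mul, ← hnum ℂ, mul_assoc (z : ℂ), mul_assoc ((C.den : ℤ) : ℂ), ← h4, mul_one,
        mul_comm]

end MP743d1e.RT
end

section
/-!
# DVD: the pulled back equation of `(x', y')` divides `P(z ^ N)`
-/
set_option autoImplicit false

namespace MP743d1e.RT

open scoped BigOperators
open MP743d1e.CY MP743d1e.Integ

namespace DVDM

open BAS KUPM SUBM

theorem tw_mul {τ₁ τ₂ : ℂ} (h₁ : τ₁ ≠ 0) (h₂ : τ₂ ≠ 0) (B : ℤ × ℤ →+ ℤ × ℤ)
    (P Q : AddMonoidAlgebra ℤ (ℤ × ℤ)) :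
    tw τ₁ τ₂ B (P * Q) = tw τ₁ τ₂ B P * tw τ₁ τ₂ B Q := by
  induction P using AddMonoidAlgebra.induction_linear with
  | zero => rw [zero_mul, tw_zero, zero_mul]
  | add P₁ P₂ h1 h2 => rw [add_mul, tw_add, tw_add, h1, h2, add_mul]
  | single k z =>
    induction Q using AddMonoidAlgebra.induction_linear with
    | zero => rw [mul_zero, tw_zero, mul_zero]
    | add Q₁ Q₂ h1 h2 => rw [mul_add, tw_add, tw_add, h1, h2, mul_add]
    | single l w =>
      rw [AddMonoidAlgebra.single_mul_single, tw_single, tw_single, tw_single,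
        AddMonoidAlgebra.single_mul_single, map_add]
      congr 1
      rw [Prod.fst_add, Prod.snd_add, zpow_add₀ h₁, zpow_add₀ h₂]
      push_cast
      ring

end DVDM

open DVDM BAS KUPM SUBM

theorem specDVD : SpecDVD := by
  intro K _ _ x y x' y' c₁ c₂ α β γ δ hR P P' hP hP' B N τ₁ τ₂ hτ₁ hτ₂ hB h1 h2
  have hcK : CharZero K := algebraRat.charZero K
  obtain ⟨m, A', hm, e, f⟩ := specSUB c₁ c₂ α β γ δ hR.c₁0 hR.c₂0 hR.det P
  have h12 : (c₁ : K) * ((x' : K) ^ α * (y' : K) ^ β) = x := by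
    rw [hR.hx]
    simp
  have h13 : (c₂ : K) * ((x' : K) ^ γ * (y' : K) ^ δ) = y := by
    rw [hR.hy]
    simp
  have h3 := e K (x' : K) (y' : K) x'.ne_zero y'.ne_zero
  rw [h12, h13, hP, mul_zero] at h3
  obtain ⟨m', hm', q, hq⟩ := hP' A' h3
  have h4 := congrArg (tw τ₁ τ₂ B) hq
  have h5 : (m' : AddMonoidAlgebra ℤ (ℤ × ℤ)) * A' = m' • A' := by rw [zsmul_eq_mul]
  rw [tw_mul hτ₁ hτ₂ B P' q, h5, tw_zsmul, f B N τ₁ τ₂ hτ₁ hτ₂ hB h1 h2, single_zero_mul,
    ← mul_smul] at h4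
  have hmm : ((m' * m : ℤ) : ℂ) ≠ 0 := by exact_mod_cast mul_ne_zero hm' hm
  refine ⟨tw τ₁ τ₂ B q * AddMonoidAlgebra.single 0 ((m' * m : ℤ) : ℂ)⁻¹, ?_⟩
  rw [← mul_assoc, ← h4, ← single_zero_mul, mul_right_comm, AddMonoidAlgebra.single_mul_single,
    mul_inv_cancel₀ hmm, add_zero, ← AddMonoidAlgebra.one_def, one_mul]

end MP743d1e.RT
end
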