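import Pool.Agent.Lib.MP_743d1e_nt.RT.Spec
import Pool.Agent.Lib.MP_743d1e_nt.CZ.TWO

/-!
# EXL: the exponents are linear functions of `b` (from `CZ.rig`)
-/

set_option autoImplicit false

namespace MP743d1e.RT

open scoped BigOperators
open MP743d1e.CZ.RIGM MP743d1e.CZ.TWOM

namespace EXLM

lemma sh_single' (G : Type) [AddCommGroup G] (k : G) (c : ℂ) :
    sh G (AddMonoidAlgebra.single k c) = AddMonoidAlgebra.single (-k) ((starRingEnd ℂ) c) := by
  unfold sh
  simp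

/-- coefficients of `G G^♯` -/
lemma coeff_self (G : AddMonoidAlgebra ℂ ℤ) {r : ℕ} (m : Fin r → ℤ)
    (hm : Function.Injective m) (hs : Finset.univ.image m = G.coeff.support) (e : ℤ) :
    (G * sh ℤ G).coeff e = ∑ i, ∑ j, if m i - m j = e then
      G.coeff (m i) * (starRingEnd ℂ) (G.coeff (m j)) else 0 := by
  classical
  have h1 : G = ∑ i, AddMonoidAlgebra.single (m i) (G.coeff (m i)) := by
    conv_lhs => rw [eq_sum G]
    rw [← hs, Finset.sum_image (fun i _ j _ h => hm h)]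
  have h2 : sh ℤ G = ∑ i, AddMonoidAlgebra.single (-m i) ((starRingEnd ℂ) (G.coeff (m i))) := by
    conv_lhs => rw [h1]
    rw [map_sum]
    exact Finset.sum_congr rfl fun i _ => sh_single' ℤ _ _
  have h3 : G * sh ℤ G = (∑ i, AddMonoidAlgebra.single (m i) (G.coeff (m i))) *
      ∑ i, AddMonoidAlgebra.single (-m i) ((starRingEnd ℂ) (G.coeff (m i))) := by
    rw [← h2, ← h1]
  rw [h3, coeff_mul_sums]
  simp only [← sub_eq_add_neg]

/-- the exponents of `f f^♯` are differences -/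
lemma coeff_zero (f : AddMonoidAlgebra ℂ ℤ) (e : ℤ)
    (h : ∀ i ∈ f.coeff.support, ∀ j ∈ f.coeff.support, i - j ≠ e) :
    (f * sh ℤ f).coeff e = 0 := by
  classical
  have h1 := eq_sum f
  have h2 : sh ℤ f = ∑ u ∈ f.coeff.support, AddMonoidAlgebra.single (-u)
      ((starRingEnd ℂ) (f.coeff u)) := by
    conv_lhs => rw [h1]
    rw [map_sum]
    exact Finset.sum_congr rfl fun i _ => sh_single' ℤ _ _
  have h3 : f * sh ℤ f = (∑ u ∈ f.coeff.support, AddMonoidAlgebra.single u (f.coeff u)) *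
      ∑ u ∈ f.coeff.support, AddMonoidAlgebra.single (-u) ((starRingEnd ℂ) (f.coeff u)) := by
    rw [← h2, ← h1]
  rw [h3, coeff_mul_sums]
  refine Finset.sum_eq_zero fun i hi => Finset.sum_eq_zero fun j hj => ?_
  rw [if_neg]
  rw [← sub_eq_add_neg]
  exact h i hi j hj

/-- finitely many primitive vectors are orthogonal to a given vector -/
lemma fin_orth {x : ℤ × ℤ} (hx : x ≠ 0) :
    {b : ℤ × ℤ | IsCoprime b.1 b.2 ∧ ip b x = 0}.Finite := by
  rcases Set.eq_empty_or_nonempty {b : ℤ × ℤ | IsCoprime b.1 b.2 ∧ ip b x = 0} with h | ⟨b₀, hb₀⟩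
  · rw [h]; exact Set.finite_empty
  · refine Set.Finite.subset (Set.toFinite {b₀, -b₀}) fun b hb => ?_
    have h1 : b₀.1 * b.2 - b₀.2 * b.1 = 0 := by
      obtain ⟨-, h2⟩ := hb₀
      obtain ⟨-, h3⟩ := hb
      unfold ip at h2 h3
      have e1 : (b₀.1 * b.2 - b₀.2 * b.1) * x.1 = 0 := by
        linear_combination b.2 * h2 - b₀.2 * h3
      have e2 : (b₀.1 * b.2 - b₀.2 * b.1) * x.2 = 0 := by
        linear_combination b₀.1 * h3 - b.1 * h2
      by_contra h4
      apply hx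
      exact Prod.ext ((mul_eq_zero.1 e1).resolve_left h4) ((mul_eq_zero.1 e2).resolve_left h4)
    rcases parallel hb₀.1 hb.1 h1 with h | h
    · left; exact h
    · right; exact h

end EXLM

open EXLM

theorem specEXL : SpecEXL := by
  classical
  intro D B S hS hprim G f hGf
  -- remove the `b` which are not injective on the differences
  obtain ⟨S₁, hS₁⟩ : ∃ S₁ : Set (ℤ × ℤ), S₁ = {b ∈ S | ∀ k ∈ D, ∀ k' ∈ D, ∀ l ∈ D, ∀ l' ∈ D,
      ip b (k - k') = ip b (l - l') → k - k' = l - l'} := ⟨_, rfl⟩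
  have hS₁inf : S₁.Infinite := by
    intro hfin
    apply hS
    have h1 : S ⊆ S₁ ∪ ⋃ x ∈ ((D ×ˢ D) ×ˢ (D ×ˢ D)).filter
        (fun x => (x.1.1 - x.1.2) - (x.2.1 - x.2.2) ≠ 0),
        {b : ℤ × ℤ | IsCoprime b.1 b.2 ∧ ip b ((x.1.1 - x.1.2) - (x.2.1 - x.2.2)) = 0} := by
      intro b hb
      by_cases hb1 : b ∈ S₁
      · exact Or.inl hb1
      · right
        rw [hS₁] at hb1
        have h2 : ¬ ∀ k ∈ D, ∀ k' ∈ D, ∀ l ∈ D, ∀ l' ∈ D,
          ip b (k - k') = ip b (l - l') → k - k' = l - l' := fun h => hb1 ⟨hb, h⟩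
        push Not at h2
        obtain ⟨k, hk, k', hk', l, hl, l', hl', h3, h4⟩ := h2
        rw [Set.mem_iUnion₂]
        refine ⟨((k, k'), (l, l')), ?_, hprim b hb, ?_⟩
        · rw [Finset.mem_filter, Finset.mem_product, Finset.mem_product, Finset.mem_product]
          exact ⟨⟨⟨hk, hk'⟩, hl, hl'⟩, sub_ne_zero.2 h4⟩
        · show ip b ((k - k') - (l - l')) = 0
          have h5 : ip b ((k - k') - (l - l')) = ip b (k - k') - ip b (l - l') :=
            (dtH b).map_sub (k - k') (l - l')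
          rw [h5, h3, sub_self]
    refine Set.Finite.subset (hfin.union ?_) h1
    refine Set.Finite.biUnion (Finset.finite_toSet _) fun x hx => ?_
    exact fin_orth (Finset.mem_filter.1 (Finset.mem_coe.1 hx)).2
  have hS₁sub : S₁ ⊆ S := by
    rw [hS₁]
    exact fun b hb => hb.1
  -- the same number of terms
  have hpig : ∃ r : ℕ, {b ∈ S₁ | (G b).coeff.support.card = r}.Infinite := by
    by_contra hh
    push Not at hh
    apply hS₁inf
    have h1 : S₁ ⊆ ⋃ r ∈ Finset.range (B + 1), {b ∈ S₁ | (G b).coeff.support.card = r} := by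
      intro b hb
      rw [Set.mem_iUnion₂]
      refine ⟨(G b).coeff.support.card, ?_, hb, rfl⟩
      rw [Finset.mem_range]
      have := (hGf b (hS₁sub hb)).2.2.1
      omega
    refine Set.Finite.subset (Set.Finite.biUnion (Finset.finite_toSet _) fun r _ => ?_) h1
    exact hh r
  obtain ⟨r, hr⟩ := hpig
  obtain ⟨A, hA⟩ : ∃ A : Set (ℤ × ℤ), A = {b ∈ S₁ | (G b).coeff.support.card = r} := ⟨_, rfl⟩
  rw [← hA] at hr
  have hAS : ∀ b ∈ A, b ∈ S := by
    rw [hA]
    exact fun b hb => hS₁sub hb.1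
  obtain ⟨m, hm⟩ : ∃ m : ℤ × ℤ → Fin r → ℤ, ∀ b ∈ A, Function.Injective (m b) ∧
      Finset.univ.image (m b) = (G b).coeff.support := by
    refine ⟨fun b => if h : (G b).coeff.support.card = r then
      (G b).coeff.support.orderEmbOfFin h else 0, fun b hb => ?_⟩
    rw [hA] at hb
    have h1 : (fun b => if h : (G b).coeff.support.card = r then
      (((G b).coeff.support.orderEmbOfFin h : Fin r ↪o ℤ) : Fin r → ℤ) else 0) b =
      (G b).coeff.support.orderEmbOfFin hb.2 := dif_pos hb.2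
    rw [h1]
    refine ⟨((G b).coeff.support.orderEmbOfFin hb.2).injective, ?_⟩
    exact Finset.image_orderEmbOfFin_univ _ hb.2
  have hcoef : ∀ b ∈ A, ∀ i, (G b).coeff (m b i) ≠ 0 := by
    intro b hb i
    rw [← Finsupp.mem_support_iff, ← (hm b hb).2]
    exact Finset.mem_image_of_mem _ (Finset.mem_univ i)
  obtain ⟨A', hA'A, hA'inf, q, hq⟩ := CZ.rig (K := ℂ) r
    ((D ×ˢ D).image fun x => x.1 - x.2) A hr
    (fun b hb => hprim b (hAS b hb)) m (fun b i => (G b).coeff (m b i))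
    (fun b i => (starRingEnd ℂ) ((G b).coeff (m b i))) (fun b hb => (hm b hb).1) hcoef
    (fun b hb i => (map_ne_zero _).2 (hcoef b hb i)) (by
      intro b hb e he
      rw [← coeff_self (G b) (m b) (hm b hb).1 (hm b hb).2 e]
      obtain ⟨-, h2, -, h4⟩ := hGf b (hAS b hb)
      rw [h2]
      apply coeff_zero
      intro i hi j hj hij
      obtain ⟨k, hk, hik⟩ := h4 i hi
      obtain ⟨k', hk', hjk⟩ := h4 j hj
      refine he (k - k') (Finset.mem_image.2 ⟨(k, k'), Finset.mem_product.2 ⟨hk, hk'⟩, rfl⟩) ?_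
      have h5 : dt b (k - k') = dt b k - dt b k' := (dtH b).map_sub k k'
      rw [h5, ← hij, hik, hjk]
      rfl)
  obtain ⟨b, hb⟩ := hA'inf.nonempty
  have hbA := hA'A hb
  obtain ⟨hq1, hq2, hq3⟩ := hq b hb
  obtain ⟨N, n, hN, hn⟩ := den q
  have hr0 : 0 < r := by
    have h1 : (G b).coeff.support.Nonempty := by
      rw [Finsupp.support_nonempty_iff]
      intro h0
      exact (hGf b (hAS b hbA)).1 (AddMonoidAlgebra.coeff_eq_zero.1 h0)
    rw [hA] at hbA
    rw [← hbA.2]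
    exact h1.card_pos
  obtain ⟨o, -⟩ : ∃ o : Fin r, o = ⟨0, hr0⟩ := ⟨_, rfl⟩
  have : Nonempty (Fin r) := ⟨o⟩
  obtain ⟨hinj, himg⟩ := hm b hbA
  obtain ⟨Q, hQ⟩ : ∃ Q : ℤ → ℤ × ℤ, ∀ i, Q (m b i) = n i - n o :=
    ⟨fun i => n (Function.invFun (m b) i) - n o, fun i => by
      show n (Function.invFun (m b) (m b i)) - n o = _
      rw [Function.leftInverse_invFun hinj i]⟩
  have hmem : ∀ i ∈ (G b).coeff.support, ∃ t, m b t = i := by
    intro i hi
    rw [← himg, Finset.mem_image] at hi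
    obtain ⟨t, -, ht⟩ := hi
    exact ⟨t, ht⟩
  have hcast : ∀ i j, ((((n i - n j).1 : ℚ), ((n i - n j).2 : ℚ)) : ℚ × ℚ) =
      (N : ℚ) • (q i - q j) := by
    intro i j
    rw [smul_sub, ← hn, ← hn]
    simp
  have hext : ∀ x y : ℤ × ℤ, (((x.1 : ℚ), (x.2 : ℚ)) : ℚ × ℚ) = ((y.1 : ℚ), (y.2 : ℚ)) → x = y := by
    intro x y h
    have a1 : (x.1 : ℚ) = y.1 := (Prod.ext_iff.1 h).1
    have a2 : (x.2 : ℚ) = y.2 := (Prod.ext_iff.1 h).2
    exact Prod.ext (by exact_mod_cast a1) (by exact_mod_cast a2)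
  refine ⟨b, hAS b hbA, N, m b o, Q, hN, ?_, ?_, ?_, ?_⟩
  · intro i hi
    obtain ⟨t, rfl⟩ := hmem i hi
    rw [hQ]
    have h1 := hq1 t o
    have h2 : ((ip b (n t - n o) : ℤ) : ℚ) = N * dq b (q t - q o) := by
      have h3 : ((ip b (n t - n o) : ℤ) : ℚ) =
          dq b ((((n t - n o).1 : ℚ), ((n t - n o).2 : ℚ))) := (dq_cast b _).symm
      rw [h3, hcast]
      unfold dq
      simp only [Prod.smul_fst, Prod.smul_snd, smul_eq_mul]
      ring
    have h3 : (((N : ℤ) * (m b t - m b o) : ℤ) : ℚ) = ((ip b (n t - n o) : ℤ) : ℚ) := by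
      rw [h2, ← h1]
      push_cast
      ring
    exact_mod_cast h3
  · intro i hi j hj k hk l hl h
    obtain ⟨i, rfl⟩ := hmem i hi
    obtain ⟨j, rfl⟩ := hmem j hj
    obtain ⟨k, rfl⟩ := hmem k hk
    obtain ⟨l, rfl⟩ := hmem l hl
    have h1 := (hq2 i j k l).1 h
    rw [hQ, hQ, hQ, hQ, sub_sub_sub_cancel_right, sub_sub_sub_cancel_right]
    apply hext
    rw [hcast, hcast, h1]
  · intro i hi j hj k hk k' hk' h
    obtain ⟨i, rfl⟩ := hmem i hi
    obtain ⟨j, rfl⟩ := hmem j hj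
    have h1 := (hq3 i j (k - k')
      (Finset.mem_image.2 ⟨(k, k'), Finset.mem_product.2 ⟨hk, hk'⟩, rfl⟩)).1 h
    rw [hQ, hQ, sub_sub_sub_cancel_right]
    apply hext
    rw [hcast, h1]
    refine Prod.ext ?_ ?_ <;> simp
  · have h1 : b ∈ S₁ := by
      rw [hA] at hbA
      exact hbA.1
    rw [hS₁] at h1
    exact h1.2

end MP743d1e.RT
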