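import Pool.Agent.Lib.MP_743d1e_nt.RT.Spec
import Pool.Agent.Lib.MP_743d1e_nt.CY.PRG
import Pool.Agent.Lib.MP_743d1e_nt.RT.BAS
import Pool.Agent.Lib.MP_743d1e_nt.RT.MAT
import Pool.Agent.Lib.MP_743d1e_nt.RT.Spec2

section
/-!
# EQN: the equation of the curve
-/
set_option autoImplicit false

namespace MP743d1e.RT

open scoped BigOperators
open Polynomial IntermediateField MP743d1e.CY MP743d1e.Integ

namespace EQNM

/-! ## Gauss -/

theorem dvd_of_eval {R K : Type} [CommRing R] [IsDomain R] [NormalizedGCDMonoid R] [Field K]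
    (j : R →+* K) (hj : Function.Injective j) (y : K) {π : R[X]} (hπ : Irreducible π)
    (h0 : eval₂ j y π = 0) {A : R[X]} (hA : eval₂ j y A = 0) : π ∣ A := by
  have hdeg : π.natDegree ≠ 0 := by
    intro h
    have h2 := eq_C_of_natDegree_eq_zero h
    rw [h2, eval₂_C] at h0
    have h1 : π.coeff 0 = 0 := hj (by rw [h0, map_zero])
    rw [h1, C_0] at h2
    exact hπ.ne_zero h2
  have hprim := hπ.isPrimitive hdeg
  have hirr : Irreducible (π.map (algebraMap R (FractionRing R))) :=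
    hprim.irreducible_iff_irreducible_map_fraction_map.1 hπ
  apply hprim.dvd_of_fraction_map_dvd_fraction_map (K := FractionRing R)
  by_contra hnd
  obtain ⟨u, w, h⟩ := (hirr.coprime_iff_not_dvd).2 hnd
  have h1 := congrArg (eval₂ (IsFractionRing.lift hj : FractionRing R →+* K) y) h
  have hj' : (IsFractionRing.lift hj : FractionRing R →+* K).comp (algebraMap R (FractionRing R)) =
      j := by
    ext r
    exact IsFractionRing.lift_algebraMap hj r
  rw [eval₂_add, eval₂_mul, eval₂_mul, eval₂_map, eval₂_map, hj', h0, hA, eval₂_one] at h1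
  simp at h1

/-! ## Denominators -/

theorem clear_map {R S : Type} [CommRing R] [CommRing S] (f : R →+* S)
    (hf : ∀ s : S, ∃ m : ℤ, m ≠ 0 ∧ ∃ r : R, f r = (m : S) * s) (p : S[X]) :
    ∃ m : ℤ, m ≠ 0 ∧ ∃ q : R[X], mapRingHom f q = (m : S[X]) * p := by
  induction p using Polynomial.induction_on' with
  | add p q hp hq =>
    obtain ⟨m, hm, p', hp'⟩ := hp
    obtain ⟨n, hn, q', hq'⟩ := hq
    refine ⟨m * n, mul_ne_zero hm hn, (n : R[X]) * p' + (m : R[X]) * q', ?_⟩
    rw [map_add, map_mul, map_mul, hp', hq', map_intCast, map_intCast]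
    push_cast
    ring
  | monomial n a =>
    obtain ⟨m, hm, r, hr⟩ := hf a
    refine ⟨m, hm, monomial n r, ?_⟩
    rw [coe_mapRingHom, map_monomial, hr, ← C_eq_intCast, C_mul_monomial]

/-! ## Evaluations -/

section Ev

variable {K : Type} [Field K]

/-- The value of an integral polynomial in two variables. -/
noncomputable def e2 (x y : K) : ℤ[X][X] →+* K :=
  eval₂RingHom (eval₂RingHom (Int.castRingHom K) x) y

/-- The value of a Laurent polynomial, as a ring homomorphism. -/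
noncomputable def ex (x y : Kˣ) : AddMonoidAlgebra ℤ (ℤ × ℤ) →+* K :=
  AddMonoidAlgebra.liftNCRingHom (Int.castRingHom K)
    { toFun := fun k => ((x ^ (k.toAdd.1) * y ^ (k.toAdd.2) : Kˣ) : K)
      map_one' := by simp
      map_mul' := by
        intro k l
        rw [← Units.val_mul, toAdd_mul, Prod.fst_add, Prod.snd_add, zpow_add, zpow_add]
        congr 1
        exact mul_mul_mul_comm _ _ _ _ }
    (fun _ _ => Commute.all _ _)

theorem ex_single (x y : Kˣ) (k : ℤ × ℤ) (c : ℤ) :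
    ex x y (AddMonoidAlgebra.single k c) = (c : K) * ((x ^ k.1 * y ^ k.2 : Kˣ) : K) := by
  unfold ex
  rw [AddMonoidAlgebra.liftNCRingHom_single]
  rfl

theorem evP_add (x y : K) (A B : AddMonoidAlgebra ℤ (ℤ × ℤ)) :
    evP x y (A + B) = evP x y A + evP x y B := by
  unfold evP
  rw [AddMonoidAlgebra.coeff_add, Finsupp.sum_add_index']
  · intro k; simp
  · intro k a b; push_cast; ring

theorem evP_single (x y : K) (k : ℤ × ℤ) (c : ℤ) :
    evP x y (AddMonoidAlgebra.single k c) = (c : K) * (x ^ k.1 * y ^ k.2) := by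
  unfold evP
  rw [AddMonoidAlgebra.coeff_single, Finsupp.sum_single_index]
  simp

theorem ex_eq (x y : Kˣ) (A : AddMonoidAlgebra ℤ (ℤ × ℤ)) : ex x y A = evP (x : K) (y : K) A := by
  induction A using AddMonoidAlgebra.induction_linear with
  | zero => rw [map_zero]; simp [evP]
  | add a b ha hb => rw [map_add, evP_add, ha, hb]
  | single k c => rw [ex_single, evP_single]; push_cast; rfl

/-- Polynomials are Laurent polynomials. -/
noncomputable def io : ℤ[X][X] →+* AddMonoidAlgebra ℤ (ℤ × ℤ) :=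
  eval₂RingHom (eval₂RingHom (Int.castRingHom _) (AddMonoidAlgebra.single ((1, 0) : ℤ × ℤ) 1))
    (AddMonoidAlgebra.single ((0, 1) : ℤ × ℤ) 1)

theorem ex_io (x y : Kˣ) (A : ℤ[X][X]) : ex x y (io A) = e2 (x : K) (y : K) A := by
  have h : (ex x y).comp io = e2 (x : K) (y : K) := by
    apply Polynomial.ringHom_ext'
    · apply Polynomial.ringHom_ext'
      · exact Subsingleton.elim _ _
      · simp [io, e2, ex_single]
    · simp [io, e2, ex_single]
  rw [← h]
  rfl

theorem io_ne_zero {π : ℤ[X][X]} (hπ : π ≠ 0) : io π ≠ 0 := by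
  intro h0
  let L := FractionRing ℤ[X][X]
  have hX : algebraMap ℤ[X][X] L (C X) ≠ 0 := by
    rw [Ne, IsFractionRing.to_map_eq_zero_iff, C_eq_zero]
    exact X_ne_zero
  have hY : algebraMap ℤ[X][X] L X ≠ 0 := by
    rw [Ne, IsFractionRing.to_map_eq_zero_iff]
    exact X_ne_zero
  have h1 := ex_io (Units.mk0 _ hX) (Units.mk0 _ hY) π
  rw [h0, map_zero] at h1
  have h2 : e2 (algebraMap ℤ[X][X] L (C X)) (algebraMap ℤ[X][X] L X) = algebraMap ℤ[X][X] L := by
    apply Polynomial.ringHom_ext'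
    · apply Polynomial.ringHom_ext'
      · exact Subsingleton.elim _ _
      · simp [e2]
    · simp [e2]
  apply hπ
  rw [← IsFractionRing.to_map_eq_zero_iff (K := L), ← h2]
  exact h1.symm

theorem io_mono (m n : ℕ) (c : ℤ) :
    io (C (C c * X ^ m) * X ^ n) = AddMonoidAlgebra.single ((m, n) : ℤ × ℤ) c := by
  have h1 : (Int.castRingHom (AddMonoidAlgebra ℤ (ℤ × ℤ))) c =
      AddMonoidAlgebra.single (0 : ℤ × ℤ) c := by
    rw [eq_intCast, AddMonoidAlgebra.intCast_def]
    rfl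
  simp only [io, coe_eval₂RingHom, eval₂_mul, eval₂_C, eval₂_pow, eval₂_X, h1,
    AddMonoidAlgebra.single_pow, AddMonoidAlgebra.single_mul_single, one_pow, mul_one]
  congr 1
  simp

theorem shift (A : AddMonoidAlgebra ℤ (ℤ × ℤ)) :
    ∃ n : ℕ, ∀ n' : ℕ, n ≤ n' → ∃ A₀ : ℤ[X][X],
      io A₀ = AddMonoidAlgebra.single ((n', n') : ℤ × ℤ) 1 * A := by
  induction A using AddMonoidAlgebra.induction_linear with
  | zero => exact ⟨0, fun n' _ => ⟨0, by rw [map_zero, mul_zero]⟩⟩
  | add a b ha hb =>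
    obtain ⟨n, hn⟩ := ha
    obtain ⟨m, hm⟩ := hb
    refine ⟨max n m, fun n' h => ?_⟩
    obtain ⟨a₀, ha₀⟩ := hn n' (le_trans (le_max_left _ _) h)
    obtain ⟨b₀, hb₀⟩ := hm n' (le_trans (le_max_right _ _) h)
    exact ⟨a₀ + b₀, by rw [map_add, ha₀, hb₀, mul_add]⟩
  | single k c =>
    refine ⟨k.1.natAbs + k.2.natAbs, fun n' h => ?_⟩
    refine ⟨C (C c * X ^ (n' + k.1).toNat) * X ^ (n' + k.2).toNat, ?_⟩
    rw [io_mono, AddMonoidAlgebra.single_mul_single, one_mul]
    congr 1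
    ext
    · show ((n' + k.1).toNat : ℤ) = n' + k.1
      omega
    · show ((n' + k.2).toNat : ℤ) = n' + k.2
      omega

end Ev

/-! ## Homomorphisms -/

theorem exists_hom {K : Type} [Field K] [Algebra ℚ K] (x y x' y' : K)
    (hgen : IntermediateField.adjoin ℚ {x, y} = ⊤)
    (h : ∀ A : ℤ[X][X], e2 x y A = 0 ↔ e2 x' y' A = 0) :
    ∃ σ : K →ₐ[ℚ] K, σ x = x' ∧ σ y = y' := by
  let f := (e2 x y).rangeRestrict
  have hf : Function.Surjective f := (e2 x y).rangeRestrict_surjective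
  have hker : RingHom.ker f ≤ RingHom.ker (e2 x' y') := by
    intro A hA
    rw [RingHom.mem_ker] at hA ⊢
    rw [← h]
    exact congrArg Subtype.val hA
  let g : (e2 x y).range →+* K := f.liftOfSurjective hf ⟨e2 x' y', hker⟩
  have hg : ∀ A, g (f A) = e2 x' y' A := fun A =>
    RingHom.liftOfRightInverse_comp_apply f _ _ ⟨e2 x' y', hker⟩ A
  have hinj : Function.Injective g := by
    rw [injective_iff_map_eq_zero]
    intro a ha
    obtain ⟨A, rfl⟩ := hf a
    rw [hg, ← h] at ha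
    exact Subtype.ext ha
  have hx : x ∈ (e2 x y).range := ⟨C X, by simp [e2]⟩
  have hy : y ∈ (e2 x y).range := ⟨X, by simp [e2]⟩
  have hcl : Subfield.closure ({x, y} : Set K) = ⊤ := by
    rw [eq_top_iff]
    intro z _
    have hz : z ∈ IntermediateField.adjoin ℚ {x, y} := by rw [hgen]; trivial
    rw [← IntermediateField.mem_toSubfield, IntermediateField.adjoin_toSubfield] at hz
    refine Subfield.closure_le.2 ?_ hz
    rintro w (⟨q, rfl⟩ | hw)
    · rw [eq_ratCast]
      exact SubfieldClass.ratCast_mem _ q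
    · exact Subfield.subset_closure hw
  have hfr : IsFractionRing (e2 x y).range K := by
    refine IsFractionRing.of_field _ _ fun z => ?_
    have hz : z ∈ Subfield.closure ({x, y} : Set K) := by rw [hcl]; trivial
    rw [Subfield.mem_closure_iff] at hz
    obtain ⟨a, ha, b, hb, rfl⟩ := hz
    have hle : Subring.closure ({x, y} : Set K) ≤ (e2 x y).range := by
      rw [Subring.closure_le]
      rintro w (rfl | rfl)
      · exact hx
      · exact hy
    exact ⟨⟨a, hle ha⟩, ⟨b, hle hb⟩, rfl⟩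
  let σ : K →+* K := IsFractionRing.lift hinj
  have hσ : ∀ A, σ (e2 x y A) = e2 x' y' A := by
    intro A
    rw [← hg A]
    exact IsFractionRing.lift_algebraMap hinj (f A)
  refine ⟨σ.toRatAlgHom, ?_, ?_⟩
  · have := hσ (C X)
    simpa [e2] using this
  · have := hσ X
    simpa [e2] using this

theorem transc {K : Type} [Field K] [Algebra ℚ K] (x y : Kˣ) (h : Ind K x y) :
    Transcendental ℚ (x : K) := by
  intro hx
  obtain ⟨c, hc⟩ := h.const _ hx
  apply h.ind 1 0 c isCoprime_one_left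
  rw [zpow_one, zpow_zero, mul_one]
  exact hc

theorem inj_of_transc {K : Type} [Field K] [Algebra ℚ K] {x : K} (hx : Transcendental ℚ x) :
    Function.Injective (eval₂RingHom (Int.castRingHom K) x) := by
  rw [injective_iff_map_eq_zero]
  intro q hq
  by_contra h0
  apply hx
  refine ⟨q.map (Int.castRingHom ℚ), ?_, ?_⟩
  · rwa [Ne, Polynomial.map_eq_zero_iff (RingHom.injective_int _)]
  · rw [aeval_def, eval₂_map]
    have : (algebraMap ℚ K).comp (Int.castRingHom ℚ) = Int.castRingHom K := Subsingleton.elim _ _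
    rw [this]
    exact hq

open scoped IntermediateField.algebraAdjoinAdjoin in
theorem exists_ne_zero {K : Type} [Field K] [Algebra ℚ K] (x y : K) (hx : Transcendental ℚ x)
    (hfin : FiniteDimensional ℚ⟮x⟯ K) : ∃ A : ℤ[X][X], A ≠ 0 ∧ e2 x y A = 0 := by
  have h1 : IsAlgebraic ℚ⟮x⟯ y := Algebra.IsAlgebraic.isAlgebraic y
  rw [← IsFractionRing.isAlgebraic_iff (Algebra.adjoin ℚ ({x} : Set K)) ℚ⟮x⟯ K] at h1
  obtain ⟨p, hp, hpy⟩ := h1
  let e := Polynomial.algEquivOfTranscendental ℚ x hx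
  have he : ∀ a : Algebra.adjoin ℚ ({x} : Set K), aeval x (e.symm a) = (a : K) := by
    intro a
    have h2 : ∀ q : ℚ[X], ((e q : Algebra.adjoin ℚ ({x} : Set K)) : K) = aeval x q := by
      intro q
      refine (congrArg Subtype.val (Polynomial.algEquivOfTranscendental_apply ℚ x hx q)).trans ?_
      exact (Polynomial.aeval_algebraMap_apply K
        (⟨x, Algebra.self_mem_adjoin_singleton ℚ x⟩ : Algebra.adjoin ℚ ({x} : Set K)) q).symm
    rw [← h2, e.apply_symm_apply]
  let B : ℚ[X][X] := p.map (e.symm : Algebra.adjoin ℚ ({x} : Set K) →+* ℚ[X])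
  have hB : B ≠ 0 := by
    rwa [Ne, Polynomial.map_eq_zero_iff e.symm.injective]
  have hBy : eval₂ (aeval x : ℚ[X] →ₐ[ℚ] K).toRingHom y B = 0 := by
    rw [eval₂_map, ← hpy, aeval_def]
    congr 1
    ext a
    exact he a
  obtain ⟨m, hm, A, hA⟩ := clear_map (mapRingHom (Int.castRingHom ℚ))
    (fun p => clear_map (Int.castRingHom ℚ) (fun s => by
      refine ⟨s.den, by exact_mod_cast s.den_nz, s.num, ?_⟩
      rw [eq_intCast, Int.cast_natCast, mul_comm]
      exact (Rat.mul_den_eq_num s).symm) p) B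
  refine ⟨A, ?_, ?_⟩
  · rintro rfl
    rw [map_zero] at hA
    have h3 : (m : ℚ[X][X]) ≠ 0 := by exact_mod_cast hm
    exact mul_ne_zero h3 hB hA.symm
  · have h4 := congrArg (eval₂ (aeval x : ℚ[X] →ₐ[ℚ] K).toRingHom y) hA
    rw [eval₂_mul, hBy, mul_zero, coe_mapRingHom, eval₂_map] at h4
    rw [← h4]
    unfold e2
    rw [coe_eval₂RingHom]
    congr 1
    apply Polynomial.ringHom_ext'
    · exact Subsingleton.elim _ _
    · simp

end EQNM

open EQNM

theorem specEQN : SpecEQN := by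
  intro K _ _ x y h
  have hx := transc x y h
  have hinj := inj_of_transc hx
  have hx' : Transcendental ℚ (x : K)⁻¹ := fun h1 => hx (by simpa using h1.inv)
  have hinj' := inj_of_transc hx'
  have _ : NormalizedGCDMonoid ℤ[X] := Classical.choice inferInstance
  obtain ⟨B, hB, hB0⟩ := exists_ne_zero (x : K) (y : K) hx h.fin
  have hpr : (RingHom.ker (e2 (x : K) (y : K))).IsPrime := RingHom.ker_isPrime _
  obtain ⟨π, hπ0, hπ⟩ := hpr.exists_mem_prime_of_ne_bot (by
    intro h0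
    apply hB
    rw [← Ideal.mem_bot, ← h0]
    exact hB0)
  rw [RingHom.mem_ker] at hπ0
  have key : ∀ A : ℤ[X][X], e2 (x : K) (y : K) A = 0 → π ∣ A := fun A hA =>
    dvd_of_eval _ hinj _ hπ.irreducible hπ0 hA
  have hne : (¬ ∃ σ : K ≃ₐ[ℚ] K, σ x = (x : K)⁻¹ ∧ σ y = (y : K)⁻¹) →
      e2 (x : K)⁻¹ (y : K)⁻¹ π ≠ 0 := by
    intro hasym h0
    have key' : ∀ A : ℤ[X][X], e2 (x : K)⁻¹ (y : K)⁻¹ A = 0 → π ∣ A := fun A hA =>
      dvd_of_eval _ hinj' _ hπ.irreducible h0 hA
    apply hasym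
    obtain ⟨σ, h1, h2⟩ := exists_hom (x : K) (y : K) (x : K)⁻¹ (y : K)⁻¹ h.gen (by
      intro A
      constructor
      · intro hA
        obtain ⟨C, rfl⟩ := key A hA
        rw [map_mul, h0, zero_mul]
      · intro hA
        obtain ⟨C, rfl⟩ := key' A hA
        rw [map_mul, hπ0, zero_mul])
    have hsurj : Function.Surjective σ := by
      rw [← AlgHom.range_eq_top]
      have h3 : σ.fieldRange = ⊤ := by
        rw [eq_top_iff, ← h.gen, IntermediateField.adjoin_le_iff]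
        rintro w (rfl | rfl)
        · refine ⟨(x : K)⁻¹, ?_⟩
          show σ (x : K)⁻¹ = x
          rw [map_inv₀, h1, inv_inv]
        · refine ⟨(y : K)⁻¹, ?_⟩
          show σ (y : K)⁻¹ = y
          rw [map_inv₀, h2, inv_inv]
      rw [eq_top_iff]
      intro z _
      have hz : z ∈ σ.fieldRange := by rw [h3]; trivial
      exact hz
    exact ⟨AlgEquiv.ofBijective σ ⟨σ.injective, hsurj⟩, h1, h2⟩
  have hev : ∀ x y : Kˣ, evP (x : K) (y : K) (io π) = e2 (x : K) (y : K) π := fun x y => by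
    rw [← ex_eq, ex_io]
  have h1 : (¬ ∃ σ : K ≃ₐ[ℚ] K, σ x = (x : K)⁻¹ ∧ σ y = (y : K)⁻¹) →
      evP (x : K)⁻¹ (y : K)⁻¹ (io π) ≠ 0 := by
    intro hasym
    have := hev x⁻¹ y⁻¹
    rw [Units.val_inv_eq_inv_val, Units.val_inv_eq_inv_val] at this
    rw [this]
    exact hne hasym
  refine ⟨io π, ?_, ?_, h1, ?_⟩
  · exact io_ne_zero hπ.ne_zero
  · rw [hev, hπ0]
  · intro A hA
    refine ⟨1, one_ne_zero, ?_⟩
    rw [Int.cast_one, one_mul]
    obtain ⟨n, hn⟩ := shift A
    obtain ⟨A₀, hA₀⟩ := hn n le_rfl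
    have h3 : e2 (x : K) (y : K) A₀ = 0 := by
      rw [← ex_io, hA₀, map_mul, ex_eq _ _ A, hA, mul_zero]
    have h4 := map_dvd io (key A₀ h3)
    rw [hA₀] at h4
    have h5 := dvd_mul_of_dvd_right h4 (AddMonoidAlgebra.single ((-(n : ℤ), -(n : ℤ)) : ℤ × ℤ) 1)
    rw [← mul_assoc, AddMonoidAlgebra.single_mul_single] at h5
    have h6 : ((-(n : ℤ), -(n : ℤ)) : ℤ × ℤ) + ((n : ℤ), (n : ℤ)) = 0 := by simp
    rw [h6, mul_one, ← AddMonoidAlgebra.one_def, one_mul] at h5
    exact h5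

end MP743d1e.RT
end

section
/-!
# Module PRG: Dedekind's Prague theorem
-/
set_option autoImplicit false

namespace MP743d1e.RT

theorem specPRG : SpecPRG := fun g h H i j => CY.PRGM.prague_poly g h H i j

end MP743d1e.RT
end

section
/-!
# Module LJU: the trick of Ljunggren
-/
set_option autoImplicit false

namespace MP743d1e.RT

open scoped BigOperators ComplexConjugate
open Polynomial IntermediateField MP743d1e.CY MP743d1e.Integ
open Pool.Agent.Lib.MPcb8a44

namespace LJUM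

/-- the coefficients of a polynomial as a Laurent polynomial -/
theorem coeff_tl (p : ℂ[X]) (i : ℤ) :
    (∃ j : ℕ, (j : ℤ) = i ∧ (toLaurent p).coeff i = p.coeff j) ∨ (toLaurent p).coeff i = 0 := by
  by_cases h : ∃ j : ℕ, (j : ℤ) = i
  · left
    obtain ⟨j, rfl⟩ := h
    refine ⟨j, rfl, ?_⟩
    rw [LaurentPolynomial.coeff_toLaurent]
    have := Finsupp.mapDomain_apply (f := (Nat.castEmbedding : ℕ ↪ ℤ)) Nat.castEmbedding.injective
      p.toFinsupp.coeff j
    exact this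
  · right
    by_contra hne
    have h1 : i ∈ (toLaurent p).coeff.support := Finsupp.mem_support_iff.2 hne
    rw [LaurentPolynomial.support_coeff_toLaurent, Finset.mem_map] at h1
    obtain ⟨j, -, hj⟩ := h1
    exact h ⟨j, hj⟩

theorem coeff_tl_nat (p : ℂ[X]) (j : ℕ) : (toLaurent p).coeff (j : ℤ) = p.coeff j := by
  rw [LaurentPolynomial.coeff_toLaurent]
  exact Finsupp.mapDomain_apply (f := (Nat.castEmbedding : ℕ ↪ ℤ)) Nat.castEmbedding.injective
      p.toFinsupp.coeff j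

/-- values -/
theorem ev1_tl (p : ℂ[X]) {s : ℂ} (hs : s ≠ 0) : ev1 (toLaurent p) s = p.eval s := by
  induction p using Polynomial.induction_on' with
  | add p q hp hq => rw [map_add, BAS.ev1_add hs, hp, hq, eval_add]
  | monomial n a =>
    rw [← Polynomial.C_mul_X_pow_eq_monomial, toLaurent_C_mul_X_pow,
      ← LaurentPolynomial.single_eq_C_mul_T, BAS.ev1_single]
    simp

/-- the coefficients of `g h^♯` -/
theorem coeff_G (n : ℕ) (hn : 0 < n) (g h : ℂ[X]) (hg : ∀ i, g.coeff i ∈ AB.Cyc n)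
    (hh : ∀ i, h.coeff i ∈ AB.Cyc n) (hgh : ∀ i, IsIntegral ℤ ((g * h).coeff i)) (k : ℤ) :
    (toLaurent g * sh ℤ (toLaurent h)).coeff k ∈ AB.Cyc n ∧
      IsIntegral ℤ ((toLaurent g * sh ℤ (toLaurent h)).coeff k *
        conj ((toLaurent g * sh ℤ (toLaurent h)).coeff k)) := by
  have hconj := AB.specCB.2.2.2.2 n hn
  have hgc : ∀ i : ℤ, (toLaurent g).coeff i ∈ AB.Cyc n := by
    intro i
    rcases coeff_tl g i with ⟨j, -, hj⟩ | hj
    · rw [hj]; exact hg j
    · rw [hj]; exact zero_mem _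
  have hhc : ∀ i : ℤ, (toLaurent h).coeff i ∈ AB.Cyc n := by
    intro i
    rcases coeff_tl h i with ⟨j, -, hj⟩ | hj
    · rw [hj]; exact hh j
    · rw [hj]; exact zero_mem _
  have hint : ∀ i j : ℤ, IsIntegral ℤ ((toLaurent g).coeff i * (toLaurent h).coeff j) := by
    intro i j
    rcases coeff_tl g i with ⟨i', -, hi⟩ | hi
    · rcases coeff_tl h j with ⟨j', -, hj⟩ | hj
      · rw [hi, hj]; exact specPRG g h hgh i' j'
      · rw [hj, mul_zero]; exact isIntegral_zero
    · rw [hi, zero_mul]; exact isIntegral_zero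
  have hform : (toLaurent g * sh ℤ (toLaurent h)).coeff k =
      ∑ i ∈ (toLaurent g).coeff.support, (toLaurent g).coeff i *
        conj ((toLaurent h).coeff (-(-i + k))) := by
    rw [AddMonoidAlgebra.coeff_mul_apply_left, Finsupp.sum]
    refine Finset.sum_congr rfl fun i _ => ?_
    rw [BAS.sh_coeff]
  rw [hform]
  refine ⟨sum_mem fun i _ => mul_mem (hgc i) (hconj _ (hhc _)), ?_⟩
  rw [map_sum, Finset.sum_mul_sum]
  refine IsIntegral.sum _ fun i _ => IsIntegral.sum _ fun j _ => ?_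
  have e : (toLaurent g).coeff i * conj ((toLaurent h).coeff (-(-i + k))) *
      conj ((toLaurent g).coeff j * conj ((toLaurent h).coeff (-(-j + k)))) =
      ((toLaurent g).coeff i * (toLaurent h).coeff (-(-j + k))) *
        conj ((toLaurent g).coeff j * (toLaurent h).coeff (-(-i + k))) := by
    rw [map_mul, map_mul, Complex.conj_conj]
    ring
  rw [e]
  have hc : ∀ z : ℂ, IsIntegral ℤ z → IsIntegral ℤ (conj z) := fun z hz =>
    hz.map (starRingEnd ℂ).toIntAlgHom
  exact (hint _ _).mul (hc _ (hint _ _))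

end LJUM

theorem specLJU : SpecLJU := by
  intro n f s₁ s₂ hn hf hs₁ hs₂ h1 h2 hmin hr1 hr2
  have hf0 : f ≠ 0 := by
    rintro rfl
    apply hr1
    rw [map_zero]
    simp [ev1]
  obtain ⟨d, F, hF⟩ := LaurentPolynomial.exists_T_pow f
  -- the polynomial
  have hT : ∀ m : ℤ, (LaurentPolynomial.T m : AddMonoidAlgebra ℂ ℤ) = AddMonoidAlgebra.single m 1 :=
    fun m => rfl
  have hFc : ∀ i : ℕ, F.coeff i = f.coeff ((i : ℤ) - d) := by
    intro i
    rw [← LJUM.coeff_tl_nat, hF, hT, AddMonoidAlgebra.coeff_mul_single_apply, mul_one]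
    congr 1
  have hFC : ∀ i, F.coeff i ∈ AB.Cyc n := fun i => by rw [hFc]; exact (hf _).1
  have hFI : ∀ i, IsIntegral ℤ (F.coeff i) := fun i => by rw [hFc]; exact (hf _).2
  have hfF : f = toLaurent F * AddMonoidAlgebra.single (-(d : ℤ)) 1 := by
    rw [hF, ← hT, LaurentPolynomial.mul_T_assoc]
    simp
  have hF0 : F ≠ 0 := by
    rintro rfl
    apply hf0
    rw [hfF, map_zero, zero_mul]
  have hroot : ∀ s : ℂ, s ≠ 0 → ev1 f s = 0 → F.eval s = 0 := by
    intro s hs h
    have h3 := congrArg (fun A : AddMonoidAlgebra ℂ ℤ => ev1 A s) hF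
    rw [LJUM.ev1_tl _ hs, BAS.ev1_mul hs, h, zero_mul] at h3
    exact h3
  -- over the cyclotomic field
  have hlift : ∀ p : ℂ[X], (∀ i, p.coeff i ∈ AB.Cyc n) → ∃ q : (AB.Cyc n)[X],
      q.map (algebraMap (AB.Cyc n) ℂ) = p := by
    intro p hp
    have : p ∈ Polynomial.lifts (algebraMap (AB.Cyc n) ℂ) := by
      rw [Polynomial.lifts_iff_coeff_lifts]
      intro i
      exact ⟨⟨p.coeff i, hp i⟩, rfl⟩
    exact (Polynomial.mem_lifts _).1 this
  obtain ⟨FE, hFE⟩ := hlift F hFC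
  have hFE0 : FE ≠ 0 := by
    rintro rfl
    apply hF0
    rw [← hFE, Polynomial.map_zero]
  have haev : ∀ s : ℂ, aeval s FE = F.eval s := by
    intro s
    rw [← hFE, eval_map_algebraMap]
  have hr1' : aeval s₁ FE = 0 := by rw [haev]; exact hroot s₁ hs₁ h1
  have hr2' : aeval s₂ FE = 0 := by rw [haev]; exact hroot s₂ hs₂ h2
  have hi1 : IsIntegral (AB.Cyc n) s₁ := (isAlgebraic_iff_isIntegral).1 ⟨FE, hFE0, hr1'⟩
  have hi2 : IsIntegral (AB.Cyc n) s₂ := (isAlgebraic_iff_isIntegral).1 ⟨FE, hFE0, hr2'⟩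
  obtain ⟨hE, hfac⟩ := minpoly.dvd _ _ hr1'
  have hh2 : aeval s₂ hE = 0 := by
    have h3 : minpoly (AB.Cyc n) s₂ ∣ minpoly (AB.Cyc n) s₁ * hE := by
      rw [← hfac]; exact minpoly.dvd _ _ hr2'
    rcases (minpoly.irreducible hi2).prime.dvd_or_dvd h3 with h4 | h4
    · exfalso
      apply hmin
      exact (eq_of_monic_of_associated (minpoly.monic hi2) (minpoly.monic hi1)
        ((minpoly.irreducible hi2).associated_of_dvd (minpoly.irreducible hi1) h4)).symm
    · obtain ⟨q, hq⟩ := h4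
      rw [hq, map_mul, minpoly.aeval, zero_mul]
  obtain ⟨g, hg⟩ : ∃ g : ℂ[X], g = (minpoly (AB.Cyc n) s₁).map (algebraMap (AB.Cyc n) ℂ) := ⟨_, rfl⟩
  obtain ⟨h, hh⟩ : ∃ h : ℂ[X], h = hE.map (algebraMap (AB.Cyc n) ℂ) := ⟨_, rfl⟩
  have hFgh : F = g * h := by rw [← hFE, hfac, Polynomial.map_mul, hg, hh]
  have hgC : ∀ i, g.coeff i ∈ AB.Cyc n := fun i => by
    rw [hg, coeff_map]; exact ((minpoly (AB.Cyc n) s₁).coeff i).2
  have hhC : ∀ i, h.coeff i ∈ AB.Cyc n := fun i => by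
    rw [hh, coeff_map]; exact (hE.coeff i).2
  have hg1 : g.eval s₁ = 0 := by
    rw [hg, eval_map_algebraMap, minpoly.aeval]
  have hh2' : h.eval s₂ = 0 := by
    rw [hh, eval_map_algebraMap, hh2]
  have hgh : ∀ i, IsIntegral ℤ ((g * h).coeff i) := fun i => by rw [← hFgh]; exact hFI i
  have hg0 : toLaurent g ≠ 0 := by
    rw [Polynomial.toLaurent_ne_zero]
    rintro rfl
    apply hF0
    rw [hFgh, zero_mul]
  have hh0 : toLaurent h ≠ 0 := by
    rw [Polynomial.toLaurent_ne_zero]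
    rintro rfl
    apply hF0
    rw [hFgh, mul_zero]
  have hsh0 : sh ℤ (toLaurent h) ≠ 0 := by
    intro h3
    apply hh0
    rw [← BAS.sh_sh (toLaurent h), h3, map_zero]
  have hf' : f = toLaurent g * toLaurent h * AddMonoidAlgebra.single (-(d : ℤ)) 1 := by
    rw [hfF, hFgh, map_mul]
  have hshf : sh ℤ f = sh ℤ (toLaurent g) * sh ℤ (toLaurent h) *
      AddMonoidAlgebra.single (d : ℤ) 1 := by
    rw [hf', map_mul, map_mul, BAS.sh_single, neg_neg, map_one]
  refine ⟨toLaurent g * sh ℤ (toLaurent h), ?_, ?_, ?_⟩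
  · rw [hshf, hf', map_mul, BAS.sh_sh]
    have e : (AddMonoidAlgebra.single (-(d : ℤ)) 1 : AddMonoidAlgebra ℂ ℤ) *
        AddMonoidAlgebra.single (d : ℤ) 1 = 1 := by
      rw [AddMonoidAlgebra.single_mul_single, neg_add_cancel, mul_one]
      rfl
    linear_combination (-(toLaurent g * toLaurent h * sh ℤ (toLaurent g) * sh ℤ (toLaurent h))) * e
  · intro i
    obtain ⟨h3, h4⟩ := LJUM.coeff_G n hn g h hgC hhC hgh i
    exact ⟨h3, fun h5 => specAMG n hn _ h3 h5 h4⟩
  · intro γ m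
    constructor
    · intro h3
      have h4 : sh ℤ (toLaurent h) = AddMonoidAlgebra.single m γ * toLaurent h *
          AddMonoidAlgebra.single (-(d : ℤ)) 1 := by
        apply mul_left_cancel₀ hg0
        rw [h3, hf']
        ring
      have h5 : ev1 (sh ℤ (toLaurent h)) s₂ = 0 := by
        rw [h4, BAS.ev1_mul hs₂, BAS.ev1_mul hs₂, LJUM.ev1_tl _ hs₂, hh2', mul_zero, zero_mul]
      apply hr2
      rw [hshf, BAS.ev1_mul hs₂, BAS.ev1_mul hs₂, h5, mul_zero, zero_mul]
    · intro h3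
      have h4 : toLaurent g = AddMonoidAlgebra.single m γ * sh ℤ (toLaurent g) *
          AddMonoidAlgebra.single (d : ℤ) 1 := by
        apply mul_right_cancel₀ hsh0
        rw [h3, hshf]
        ring
      have h5 : ev1 (toLaurent g) s₁ = 0 := by rw [LJUM.ev1_tl _ hs₁, hg1]
      rw [h4, BAS.ev1_mul hs₁, BAS.ev1_mul hs₁, BAS.ev1_single, BAS.ev1_single, one_mul] at h5
      have hz1 : s₁ ^ (d : ℤ) ≠ 0 := zpow_ne_zero _ hs₁
      have hz2 : s₁ ^ m ≠ 0 := zpow_ne_zero _ hs₁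
      rcases mul_eq_zero.1 h5 with h6 | h6
      · rcases mul_eq_zero.1 h6 with h7 | h7
        · rcases mul_eq_zero.1 h7 with h8 | h8
          · apply hg0
            rw [h4, h8]
            simp
          · exact hz2 h8
        · apply hr1
          rw [hshf, BAS.ev1_mul hs₁, BAS.ev1_mul hs₁, h7, zero_mul, zero_mul]
      · exact hz1 h6

end MP743d1e.RT
end

section
/-!
# Module LJR: the trick of Ljunggren for a reciprocal polynomial
-/
set_option autoImplicit false

namespace MP743d1e.RT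

open scoped BigOperators ComplexConjugate
open Polynomial IntermediateField MP743d1e.CY MP743d1e.Integ
open Pool.Agent.Lib.MPcb8a44

namespace LJRM

/-- the value of `A^♯` -/
theorem ev1_sh (A : AddMonoidAlgebra ℂ ℤ) {s : ℂ} (hs : s ≠ 0) :
    ev1 (sh ℤ A) s = conj (ev1 A (conj s)⁻¹) := by
  have hc : (conj s)⁻¹ ≠ 0 := inv_ne_zero ((_root_.map_ne_zero _).2 hs)
  induction A using AddMonoidAlgebra.induction_linear with
  | zero => simp [ev1]
  | add A B hA hB => rw [map_add, BAS.ev1_add hs, BAS.ev1_add hc, map_add, hA, hB]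
  | single i c =>
    rw [BAS.sh_single, BAS.ev1_single, BAS.ev1_single, map_mul, map_zpow₀, map_inv₀,
      Complex.conj_conj, inv_zpow, zpow_neg]

end LJRM

theorem specLJR : SpecLJR := by
  intro n f s u k hn hf hf0 hs h1 hrec hmin
  obtain ⟨t, ht⟩ : ∃ t : ℂ, t = (conj s)⁻¹ := ⟨_, rfl⟩
  rw [← ht] at hmin
  have ht0 : t ≠ 0 := by rw [ht]; exact inv_ne_zero ((_root_.map_ne_zero _).2 hs)
  have hst : (conj t)⁻¹ = s := by rw [ht, map_inv₀, Complex.conj_conj, inv_inv]
  have h2 : ev1 f t = 0 := by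
    have h3 : ev1 (sh ℤ f) s = 0 := by rw [hrec, BAS.ev1_mul hs, h1, mul_zero]
    rw [LJRM.ev1_sh _ hs, ← ht] at h3
    exact (_root_.map_eq_zero _).1 h3
  obtain ⟨d, F, hF⟩ := LaurentPolynomial.exists_T_pow f
  -- the polynomial
  have hT : ∀ m : ℤ, (LaurentPolynomial.T m : AddMonoidAlgebra ℂ ℤ) = AddMonoidAlgebra.single m 1 :=
    fun m => rfl
  have hFc : ∀ i : ℕ, F.coeff i = f.coeff ((i : ℤ) - d) := by
    intro i
    rw [← LJUM.coeff_tl_nat, hF, hT, AddMonoidAlgebra.coeff_mul_single_apply, mul_one]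
    congr 1
  have hFC : ∀ i, F.coeff i ∈ AB.Cyc n := fun i => by rw [hFc]; exact (hf _).1
  have hFI : ∀ i, IsIntegral ℤ (F.coeff i) := fun i => by rw [hFc]; exact (hf _).2
  have hfF : f = toLaurent F * AddMonoidAlgebra.single (-(d : ℤ)) 1 := by
    rw [hF, ← hT, LaurentPolynomial.mul_T_assoc]
    simp
  have hF0 : F ≠ 0 := by
    rintro rfl
    apply hf0
    rw [hfF, map_zero, zero_mul]
  have hroot : ∀ s : ℂ, s ≠ 0 → ev1 f s = 0 → F.eval s = 0 := by
    intro s hs h
    have h3 := congrArg (fun A : AddMonoidAlgebra ℂ ℤ => ev1 A s) hF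
    rw [LJUM.ev1_tl _ hs, BAS.ev1_mul hs, h, zero_mul] at h3
    exact h3
  -- over the cyclotomic field
  have hlift : ∀ p : ℂ[X], (∀ i, p.coeff i ∈ AB.Cyc n) → ∃ q : (AB.Cyc n)[X],
      q.map (algebraMap (AB.Cyc n) ℂ) = p := by
    intro p hp
    have : p ∈ Polynomial.lifts (algebraMap (AB.Cyc n) ℂ) := by
      rw [Polynomial.lifts_iff_coeff_lifts]
      intro i
      exact ⟨⟨p.coeff i, hp i⟩, rfl⟩
    exact (Polynomial.mem_lifts _).1 this
  obtain ⟨FE, hFE⟩ := hlift F hFC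
  have hFE0 : FE ≠ 0 := by
    rintro rfl
    apply hF0
    rw [← hFE, Polynomial.map_zero]
  have haev : ∀ s : ℂ, aeval s FE = F.eval s := by
    intro s
    rw [← hFE, eval_map_algebraMap]
  have hr1' : aeval s FE = 0 := by rw [haev]; exact hroot s hs h1
  have hr2' : aeval t FE = 0 := by rw [haev]; exact hroot t ht0 h2
  have hi1 : IsIntegral (AB.Cyc n) s := (isAlgebraic_iff_isIntegral).1 ⟨FE, hFE0, hr1'⟩
  have hi2 : IsIntegral (AB.Cyc n) t := (isAlgebraic_iff_isIntegral).1 ⟨FE, hFE0, hr2'⟩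
  obtain ⟨hE, hfac, hnd⟩ := (FiniteMultiplicity.of_not_isUnit
    (minpoly.irreducible hi1).not_isUnit hFE0).exists_eq_pow_mul_and_not_dvd
  obtain ⟨e, he⟩ : ∃ e : ℕ, e = multiplicity (minpoly (AB.Cyc n) s) FE := ⟨_, rfl⟩
  rw [← he] at hfac
  have hh1 : aeval s hE ≠ 0 := fun h3 => hnd (minpoly.dvd _ _ h3)
  have hh2 : aeval t hE = 0 := by
    have h3 : minpoly (AB.Cyc n) t ∣ minpoly (AB.Cyc n) s ^ e * hE := by
      rw [← hfac]; exact minpoly.dvd _ _ hr2'
    rcases (minpoly.irreducible hi2).prime.dvd_or_dvd h3 with h4 | h4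
    · exfalso
      apply hmin
      exact (eq_of_monic_of_associated (minpoly.monic hi2) (minpoly.monic hi1)
        ((minpoly.irreducible hi2).associated_of_dvd (minpoly.irreducible hi1)
          ((minpoly.irreducible hi2).prime.dvd_of_dvd_pow h4))).symm
    · obtain ⟨q, hq⟩ := h4
      rw [hq, map_mul, minpoly.aeval, zero_mul]
  obtain ⟨g, hg⟩ : ∃ g : ℂ[X], g = (minpoly (AB.Cyc n) s ^ e).map (algebraMap (AB.Cyc n) ℂ) :=
    ⟨_, rfl⟩
  obtain ⟨h, hh⟩ : ∃ h : ℂ[X], h = hE.map (algebraMap (AB.Cyc n) ℂ) := ⟨_, rfl⟩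
  have hFgh : F = g * h := by rw [← hFE, hfac, Polynomial.map_mul, hg, hh]
  have hgC : ∀ i, g.coeff i ∈ AB.Cyc n := fun i => by
    rw [hg, coeff_map]; exact ((minpoly (AB.Cyc n) s ^ e).coeff i).2
  have hhC : ∀ i, h.coeff i ∈ AB.Cyc n := fun i => by
    rw [hh, coeff_map]; exact (hE.coeff i).2
  have hh1' : h.eval s ≠ 0 := by
    rw [hh, eval_map_algebraMap]; exact hh1
  have hh2' : h.eval t = 0 := by
    rw [hh, eval_map_algebraMap, hh2]
  have hgh : ∀ i, IsIntegral ℤ ((g * h).coeff i) := fun i => by rw [← hFgh]; exact hFI i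
  have hg0 : toLaurent g ≠ 0 := by
    rw [Polynomial.toLaurent_ne_zero]
    rintro rfl
    apply hF0
    rw [hFgh, zero_mul]
  have hh0 : toLaurent h ≠ 0 := by
    rw [Polynomial.toLaurent_ne_zero]
    rintro rfl
    apply hF0
    rw [hFgh, mul_zero]
  have hsh0 : sh ℤ (toLaurent h) ≠ 0 := by
    intro h3
    apply hh0
    rw [← BAS.sh_sh (toLaurent h), h3, map_zero]
  have hf' : f = toLaurent g * toLaurent h * AddMonoidAlgebra.single (-(d : ℤ)) 1 := by
    rw [hfF, hFgh, map_mul]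
  have hshf : sh ℤ f = sh ℤ (toLaurent g) * sh ℤ (toLaurent h) *
      AddMonoidAlgebra.single (d : ℤ) 1 := by
    rw [hf', map_mul, map_mul, BAS.sh_single, neg_neg, map_one]
  -- the value of `h^♯` at `s`
  have hshs : ev1 (sh ℤ (toLaurent h)) s = 0 := by
    rw [LJRM.ev1_sh _ hs, ← ht, LJUM.ev1_tl _ ht0, hh2', map_zero]
  have main : ∀ (γ : ℂ) (m : ℤ), toLaurent g * sh ℤ (toLaurent h) ≠
      AddMonoidAlgebra.single m γ * f := by
    intro γ m h3
    have h4 : sh ℤ (toLaurent h) = AddMonoidAlgebra.single m γ * toLaurent h *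
        AddMonoidAlgebra.single (-(d : ℤ)) 1 := by
      apply mul_left_cancel₀ hg0
      rw [h3, hf']
      ring
    have h5 := hshs
    rw [h4, BAS.ev1_mul hs, BAS.ev1_mul hs, BAS.ev1_single, BAS.ev1_single, one_mul,
      LJUM.ev1_tl _ hs] at h5
    have hγ : γ ≠ 0 := by
      rintro rfl
      apply hsh0
      rw [h4]
      simp
    exact mul_ne_zero (mul_ne_zero (mul_ne_zero hγ (zpow_ne_zero _ hs)) hh1')
      (zpow_ne_zero _ hs) h5
  refine ⟨toLaurent g * sh ℤ (toLaurent h), ?_, ?_, ?_⟩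
  · rw [hshf, hf', map_mul, BAS.sh_sh]
    have e : (AddMonoidAlgebra.single (-(d : ℤ)) 1 : AddMonoidAlgebra ℂ ℤ) *
        AddMonoidAlgebra.single (d : ℤ) 1 = 1 := by
      rw [AddMonoidAlgebra.single_mul_single, neg_add_cancel, mul_one]
      rfl
    linear_combination (-(toLaurent g * toLaurent h * sh ℤ (toLaurent g) * sh ℤ (toLaurent h))) * e
  · intro i
    obtain ⟨h3, h4⟩ := LJUM.coeff_G n hn g h hgC hhC hgh i
    exact ⟨h3, fun h5 => specAMG n hn _ h3 h5 h4⟩
  · intro γ m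
    refine ⟨main γ m, fun h3 => ?_⟩
    apply main (γ * u) (m + k)
    rw [h3, hrec, ← mul_assoc, AddMonoidAlgebra.single_mul_single]

end MP743d1e.RT
end

section
/-!
# Module LJG: the trick of Ljunggren for a set of roots
-/
set_option autoImplicit false

namespace MP743d1e.RT

open scoped BigOperators ComplexConjugate
open Polynomial IntermediateField MP743d1e.CY MP743d1e.Integ
open Pool.Agent.Lib.MPcb8a44

namespace LJGM

/-- A polynomial is a product `g h`, all roots of `g` in `J`, no root of `h` in `J`. -/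
theorem split {E : Type} [Field E] [Algebra E ℂ] (J : Set ℂ)
    (hJ : ∀ s ∈ J, ∀ t : ℂ, IsIntegral E s → minpoly E s = minpoly E t → t ∈ J) (F : E[X]) :
    F ≠ 0 → ∃ g h : E[X], F = g * h ∧ (∀ s, aeval s g = 0 → s ∈ J) ∧
      ∀ s, aeval s h = 0 → s ∉ J := by
  induction F using WfDvdMonoid.induction_on_irreducible with
  | zero => intro h; exact absurd rfl h
  | unit u hu =>
    intro _
    refine ⟨u, 1, (mul_one u).symm, fun s hs => ?_, fun s hs => ?_⟩
    · exfalso
      obtain ⟨c, hc, rfl⟩ := Polynomial.isUnit_iff.1 hu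
      rw [aeval_C] at hs
      exact hc.ne_zero ((_root_.map_eq_zero _).1 hs)
    · rw [map_one] at hs
      exact absurd hs one_ne_zero
  | mul a p ha hp ih =>
    intro _
    obtain ⟨g, h, rfl, hg, hh⟩ := ih ha
    -- all roots of `p` have the same minimal polynomial
    have key : ∀ s t : ℂ, aeval s p = 0 → aeval t p = 0 → s ∈ J → t ∈ J := by
      intro s t hs ht hsJ
      have hi1 : IsIntegral E s := (isAlgebraic_iff_isIntegral).1 ⟨p, hp.ne_zero, hs⟩
      have hi2 : IsIntegral E t := (isAlgebraic_iff_isIntegral).1 ⟨p, hp.ne_zero, ht⟩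
      refine hJ s hsJ t hi1 ?_
      have a1 := (minpoly.irreducible hi1).associated_of_dvd hp (minpoly.dvd _ _ hs)
      have a2 := (minpoly.irreducible hi2).associated_of_dvd hp (minpoly.dvd _ _ ht)
      exact eq_of_monic_of_associated (minpoly.monic hi1) (minpoly.monic hi2) (a1.trans a2.symm)
    by_cases hex : ∃ s : ℂ, aeval s p = 0 ∧ s ∈ J
    · obtain ⟨s₀, hs₀, hJ₀⟩ := hex
      refine ⟨p * g, h, by ring, fun s hs => ?_, hh⟩
      rw [map_mul] at hs
      rcases mul_eq_zero.1 hs with h1 | h1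
      · exact key s₀ s hs₀ h1 hJ₀
      · exact hg s h1
    · refine ⟨g, p * h, by ring, hg, fun s hs hsJ => ?_⟩
      rw [map_mul] at hs
      rcases mul_eq_zero.1 hs with h1 | h1
      · exact hex ⟨s, h1, hsJ⟩
      · exact hh s h1 hsJ

end LJGM

theorem specLJG : SpecLJG := by
  intro n f J hn hf hf0 hJ
  obtain ⟨d, F, hF⟩ := LaurentPolynomial.exists_T_pow f
  -- the polynomial
  have hT : ∀ m : ℤ, (LaurentPolynomial.T m : AddMonoidAlgebra ℂ ℤ) = AddMonoidAlgebra.single m 1 :=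
    fun m => rfl
  have hFc : ∀ i : ℕ, F.coeff i = f.coeff ((i : ℤ) - d) := by
    intro i
    rw [← LJUM.coeff_tl_nat, hF, hT, AddMonoidAlgebra.coeff_mul_single_apply, mul_one]
    congr 1
  have hFC : ∀ i, F.coeff i ∈ AB.Cyc n := fun i => by rw [hFc]; exact (hf _).1
  have hFI : ∀ i, IsIntegral ℤ (F.coeff i) := fun i => by rw [hFc]; exact (hf _).2
  have hfF : f = toLaurent F * AddMonoidAlgebra.single (-(d : ℤ)) 1 := by
    rw [hF, ← hT, LaurentPolynomial.mul_T_assoc]
    simp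
  have hF0 : F ≠ 0 := by
    rintro rfl
    apply hf0
    rw [hfF, map_zero, zero_mul]
  have hroot : ∀ s : ℂ, s ≠ 0 → (ev1 f s = 0 ↔ F.eval s = 0) := by
    intro s hs
    have h3 : ev1 f s = F.eval s * s ^ (-(d : ℤ)) := by
      rw [hfF, BAS.ev1_mul hs, LJUM.ev1_tl _ hs, BAS.ev1_single, one_mul]
    rw [h3]
    constructor
    · intro h4
      rcases mul_eq_zero.1 h4 with h5 | h5
      · exact h5
      · exact absurd h5 (zpow_ne_zero _ hs)
    · intro h4
      rw [h4, zero_mul]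
  -- over the cyclotomic field
  have hlift : ∀ p : ℂ[X], (∀ i, p.coeff i ∈ AB.Cyc n) → ∃ q : (AB.Cyc n)[X],
      q.map (algebraMap (AB.Cyc n) ℂ) = p := by
    intro p hp
    have : p ∈ Polynomial.lifts (algebraMap (AB.Cyc n) ℂ) := by
      rw [Polynomial.lifts_iff_coeff_lifts]
      intro i
      exact ⟨⟨p.coeff i, hp i⟩, rfl⟩
    exact (Polynomial.mem_lifts _).1 this
  obtain ⟨FE, hFE⟩ := hlift F hFC
  have hFE0 : FE ≠ 0 := by
    rintro rfl
    apply hF0
    rw [← hFE, Polynomial.map_zero]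
  obtain ⟨gE, hE, hfac, hgJ, hhJ⟩ := LJGM.split J hJ FE hFE0
  obtain ⟨g, hg⟩ : ∃ g : ℂ[X], g = gE.map (algebraMap (AB.Cyc n) ℂ) := ⟨_, rfl⟩
  obtain ⟨h, hh⟩ : ∃ h : ℂ[X], h = hE.map (algebraMap (AB.Cyc n) ℂ) := ⟨_, rfl⟩
  have hFgh : F = g * h := by rw [← hFE, hfac, Polynomial.map_mul, hg, hh]
  have hgC : ∀ i, g.coeff i ∈ AB.Cyc n := fun i => by
    rw [hg, coeff_map]; exact (gE.coeff i).2
  have hhC : ∀ i, h.coeff i ∈ AB.Cyc n := fun i => by
    rw [hh, coeff_map]; exact (hE.coeff i).2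
  have hgJ' : ∀ s, g.eval s = 0 → s ∈ J := fun s hs => by
    rw [hg, eval_map_algebraMap] at hs
    exact hgJ s hs
  have hhJ' : ∀ s, h.eval s = 0 → s ∉ J := fun s hs => by
    rw [hh, eval_map_algebraMap] at hs
    exact hhJ s hs
  have hgh : ∀ i, IsIntegral ℤ ((g * h).coeff i) := fun i => by rw [← hFgh]; exact hFI i
  have hf' : f = toLaurent g * toLaurent h * AddMonoidAlgebra.single (-(d : ℤ)) 1 := by
    rw [hfF, hFgh, map_mul]
  have hshf : sh ℤ f = sh ℤ (toLaurent g) * sh ℤ (toLaurent h) *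
      AddMonoidAlgebra.single (d : ℤ) 1 := by
    rw [hf', map_mul, map_mul, BAS.sh_single, neg_neg, map_one]
  have hg' : ∀ s : ℂ, s ≠ 0 → (g.eval s = 0 ↔ ev1 f s = 0 ∧ s ∈ J) := by
    intro s hs
    rw [hroot s hs, hFgh, eval_mul, mul_eq_zero]
    constructor
    · intro h1
      exact ⟨Or.inl h1, hgJ' s h1⟩
    · rintro ⟨h1 | h1, h2⟩
      · exact h1
      · exact absurd h2 (hhJ' s h1)
  have hh' : ∀ s : ℂ, s ≠ 0 → (h.eval s = 0 ↔ ev1 f s = 0 ∧ s ∉ J) := by
    intro s hs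
    rw [hroot s hs, hFgh, eval_mul, mul_eq_zero]
    constructor
    · intro h1
      exact ⟨Or.inr h1, hhJ' s h1⟩
    · rintro ⟨h1 | h1, h2⟩
      · exact absurd (hgJ' s h1) h2
      · exact h1
  refine ⟨toLaurent g * sh ℤ (toLaurent h), ?_, ?_, ?_⟩
  · rw [hshf, hf', map_mul, BAS.sh_sh]
    have e : (AddMonoidAlgebra.single (-(d : ℤ)) 1 : AddMonoidAlgebra ℂ ℤ) *
        AddMonoidAlgebra.single (d : ℤ) 1 = 1 := by
      rw [AddMonoidAlgebra.single_mul_single, neg_add_cancel, mul_one]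
      rfl
    linear_combination (-(toLaurent g * toLaurent h * sh ℤ (toLaurent g) * sh ℤ (toLaurent h))) * e
  · intro i
    obtain ⟨h3, h4⟩ := LJUM.coeff_G n hn g h hgC hhC hgh i
    exact ⟨h3, fun h5 => specAMG n hn _ h3 h5 h4⟩
  · intro s hs
    have hc : (conj s)⁻¹ ≠ 0 := inv_ne_zero ((_root_.map_ne_zero _).2 hs)
    rw [BAS.ev1_mul hs, mul_eq_zero, LJUM.ev1_tl _ hs, LJRM.ev1_sh _ hs, LJUM.ev1_tl _ hc,
      _root_.map_eq_zero, hg' s hs, hh' _ hc]

end MP743d1e.RT
end
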