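import Pool.Agent.Lib.MP_743d1e_nt.RT.Spec2
import Pool.Agent.Lib.MP_743d1e_nt.K2Q
import Pool.Agent.Lib.MP_743d1e_nt.CY.PUK
import Pool.Agent.Lib.MP_743d1e_nt.RT.TWO

section
/-!
# Module DEP: dependent functions

If `x`, `y` generate a field of transcendence degree one over `ℚ` and are multiplicatively dependent modulo
constants, then the field is rational and all the elements of `K2` with torsion tame symbols are torsion.
-/
set_option autoImplicit false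

namespace MP743d1e.RT

open scoped BigOperators
open Polynomial IntermediateField MP743d1e.CY MP743d1e.GX

namespace DEPM

variable {K : Type} [Field K] [Algebra ℚ K]

theorem zpow_mem_adjoin (t : Kˣ) (n : ℤ) : ((t ^ n : Kˣ) : K) ∈ ℚ⟮(t : K)⟯ := by
  rw [Units.val_zpow_eq_zpow_val]
  exact zpow_mem (mem_adjoin_simple_self ℚ (t : K)) n

theorem isRat (x y : Kˣ) (a b : ℤ) (c : ℚ) (htop : adjoin ℚ {(x : K), (y : K)} = ⊤)
    (htr : ∃ t : K, Transcendental ℚ t) (hab : IsCoprime a b)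
    (hc : ((x ^ a * y ^ b : Kˣ) : K) = algebraMap ℚ K c) : ∃ t : K, IsRat ℚ K t := by
  obtain ⟨p, q, hpq⟩ := hab
  obtain ⟨t, ht⟩ : ∃ t : Kˣ, t = x ^ (-q) * y ^ p := ⟨_, rfl⟩
  have hX : x = (x ^ a * y ^ b) ^ p * t ^ (-b) := by
    have e : (x ^ a * y ^ b) ^ p * t ^ (-b) = x ^ (a * p + q * b) * y ^ (b * p + -(p * b)) := by
      rw [ht, mul_zpow, mul_zpow, ← zpow_mul, ← zpow_mul, ← zpow_mul, ← zpow_mul, zpow_add,
        zpow_add]
      rw [show -q * -b = q * b by ring, show p * -b = -(p * b) by ring]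
      exact mul_mul_mul_comm _ _ _ _
    rw [e, show a * p + q * b = 1 by rw [← hpq]; ring, show b * p + -(p * b) = 0 by ring]
    simp
  have hY : y = (x ^ a * y ^ b) ^ q * t ^ a := by
    have e : (x ^ a * y ^ b) ^ q * t ^ a = x ^ (a * q + -(q * a)) * y ^ (b * q + p * a) := by
      rw [ht, mul_zpow, mul_zpow, ← zpow_mul, ← zpow_mul, ← zpow_mul, ← zpow_mul, zpow_add,
        zpow_add]
      rw [show -q * a = -(q * a) by ring]
      exact mul_mul_mul_comm _ _ _ _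
    rw [e, show b * q + p * a = 1 by rw [← hpq]; ring, show a * q + -(q * a) = 0 by ring]
    simp
  have hmem : ∀ (z : Kˣ) (m n : ℤ), z = (x ^ a * y ^ b) ^ m * t ^ n → (z : K) ∈ ℚ⟮(t : K)⟯ := by
    intro z m n hz
    rw [hz, Units.val_mul, Units.val_zpow_eq_zpow_val, hc]
    exact mul_mem (zpow_mem (IntermediateField.algebraMap_mem _ c) m) (zpow_mem_adjoin t n)
  have htop' : ℚ⟮(t : K)⟯ = ⊤ := by
    rw [eq_top_iff, ← htop, adjoin_le_iff]
    rintro z (rfl | rfl)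
    · exact hmem x p (-b) hX
    · exact hmem y q a hY
  refine ⟨(t : K), ?_, htop'⟩
  intro halg
  obtain ⟨z, hz⟩ := htr
  apply hz
  have h0 := isAlgebraic_adjoin_simple (K := ℚ) (L := K) halg.isIntegral
  have hzm : z ∈ ℚ⟮(t : K)⟯ := by rw [htop']; trivial
  have h1 := h0.isAlgebraic ⟨z, hzm⟩
  exact IntermediateField.isAlgebraic_iff.mp h1

end DEPM

theorem specDEP : SpecDEP := by
  intro K _ _ x y a b c htop htr hab hc β hβ
  obtain ⟨t, ht⟩ := DEPM.isRat x y a b c htop htr hab hc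
  obtain ⟨N, hN, γ, hγ⟩ := mil ℚ K t ht β hβ
  obtain ⟨M, hM, hM0⟩ := specK2Q γ
  refine ⟨M * N, Nat.mul_pos hM hN, ?_⟩
  rw [mul_smul, ← hγ, ← map_nsmul, hM0, map_zero]

end MP743d1e.RT
end

section
/-!
# Module SAT: the saturation

Among all the representations `x = c₁ x' ^ α y' ^ β`, `y = c₂ x' ^ γ y' ^ δ` one with the largest
`|α δ - β γ|` has pure `x'`, `y'`.
-/
set_option autoImplicit false

namespace MP743d1e.RT

open scoped BigOperators
open Polynomial IntermediateField MP743d1e.CY MP743d1e.Integ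
open Pool.Agent.Lib.MPcb8a44

namespace SATM

theorem exists_primitive {p q : ℤ} (h : p ≠ 0 ∨ q ≠ 0) :
    ∃ (m : ℕ) (a₁ a₂ : ℤ), 0 < m ∧ IsCoprime a₁ a₂ ∧ p = a₁ * m ∧ q = a₂ * m := by
  have h0 : 0 < Int.gcd p q := by
    rw [Int.gcd_pos_iff]
    exact h
  obtain ⟨a₁, a₂, h1, h2, h3⟩ := Int.exists_gcd_one h0
  exact ⟨Int.gcd p q, a₁, a₂, h0, Int.isCoprime_iff_gcd_eq_one.2 h1, h2, h3⟩

variable {K : Type} [Field K] [Algebra ℚ K] {x y : Kˣ}

/-- the constants -/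
noncomputable def cst : ℚˣ →* Kˣ := Units.map (algebraMap ℚ K : ℚ →+* K).toMonoidHom

lemma cst_val (c : ℚˣ) : ((cst c : Kˣ) : K) = algebraMap ℚ K (c : ℚ) := rfl

theorem transc (hp : Ind K x y) {a b : ℤ} (ha : IsCoprime a b) :
    Transcendental ℚ ((x ^ a * y ^ b : Kˣ) : K) := by
  intro h
  obtain ⟨c, hc⟩ := hp.const _ h
  exact hp.ind a b c ha hc

/-- The representations, in the group of units. -/
structure Rep (x y x' y' : Kˣ) (c₁ c₂ : ℚˣ) (α β γ δ : ℤ) : Prop where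
  det : α * δ - β * γ ≠ 0
  hx : x = cst c₁ * (x' ^ α * y' ^ β)
  hy : y = cst c₂ * (x' ^ γ * y' ^ δ)

variable {x' y' : Kˣ} {c₁ c₂ : ℚˣ} {α β γ δ : ℤ}

theorem Rep.rel (h : Rep x y x' y' c₁ c₂ α β γ δ) : Rel K x y x' y' c₁ c₂ α β γ δ := by
  refine ⟨c₁.ne_zero, c₂.ne_zero, h.det, ?_, ?_⟩
  · conv_lhs => rw [h.hx]
    rw [Units.val_mul, cst_val]
  · conv_lhs => rw [h.hy]
    rw [Units.val_mul, cst_val]

theorem Rep.ord (h : Rep x y x' y' c₁ c₂ α β γ δ) {w : DVal K} (hw : GeoF ℚ w) :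
    w.ord x = α * w.ord x' + β * w.ord y' ∧ w.ord y = γ * w.ord x' + δ * w.ord y' := by
  have h1 : w.ord (cst c₁) = 0 := hw _ ⟨c₁, cst_val c₁⟩
  have h2 : w.ord (cst c₂) = 0 := hw _ ⟨c₂, cst_val c₂⟩
  constructor
  · rw [h.hx, w.ord_mul, w.ord_mul, w.ord_zpow, w.ord_zpow, h1, zero_add]
  · rw [h.hy, w.ord_mul, w.ord_mul, w.ord_zpow, w.ord_zpow, h2, zero_add]

/-- The representations have bounded determinants. -/
theorem exists_bound (hp : Ind K x y) : ∃ d : ℤ, d ≠ 0 ∧ ∀ (x' y' : Kˣ) (c₁ c₂ : ℚˣ) (α β γ δ : ℤ),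
    Rep x y x' y' c₁ c₂ α β γ δ → α * δ - β * γ ∣ d := by
  have hx : Transcendental ℚ (x : K) := by
    have := transc hp (a := 1) (b := 0) isCoprime_one_left
    simpa using this
  obtain ⟨w₁, hg₁, hw₁⟩ := (specFNV ℚ K (x : K) hp.fin x hx).2
  obtain ⟨m, b₁, b₂, hm, hb, h1, h2⟩ := exists_primitive (p := w₁.ord x) (q := w₁.ord y)
    (Or.inl hw₁.ne')
  have hco : IsCoprime (-b₂) b₁ := hb.symm.neg_left
  obtain ⟨w₂, hg₂, hw₂⟩ := (specFNV ℚ K (x : K) hp.fin (x ^ (-b₂) * y ^ b₁)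
    (transc hp hco)).2
  rw [w₂.ord_mul, w₂.ord_zpow, w₂.ord_zpow] at hw₂
  have hD : w₁.ord x * w₂.ord y - w₁.ord y * w₂.ord x ≠ 0 := by
    rw [h1, h2]
    intro h0
    have h3 : (m : ℤ) * (-b₂ * w₂.ord x + b₁ * w₂.ord y) = 0 := by linarith
    rcases mul_eq_zero.1 h3 with h4 | h4
    · omega
    · omega
  refine ⟨_, hD, ?_⟩
  intro x' y' c₁ c₂ α β γ δ h
  obtain ⟨e1, e2⟩ := h.ord hg₁
  obtain ⟨e3, e4⟩ := h.ord hg₂
  refine ⟨w₁.ord x' * w₂.ord y' - w₁.ord y' * w₂.ord x', ?_⟩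
  rw [e1, e2, e3, e4]
  ring

theorem Rep.gen (hp : Ind K x y) (h : Rep x y x' y' c₁ c₂ α β γ δ) :
    IntermediateField.adjoin ℚ {(x' : K), (y' : K)} = ⊤ := by
  rw [eq_top_iff, ← hp.gen, IntermediateField.adjoin_le_iff]
  have hx' : (x' : K) ∈ IntermediateField.adjoin ℚ {(x' : K), (y' : K)} :=
    IntermediateField.subset_adjoin ℚ _ (by simp)
  have hy' : (y' : K) ∈ IntermediateField.adjoin ℚ {(x' : K), (y' : K)} :=
    IntermediateField.subset_adjoin ℚ _ (by simp)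
  have key : ∀ (c : ℚ) (i j : ℤ), algebraMap ℚ K c * ((x' ^ i * y' ^ j : Kˣ) : K) ∈
      IntermediateField.adjoin ℚ {(x' : K), (y' : K)} := by
    intro c i j
    rw [Units.val_mul, Units.val_zpow_eq_zpow_val, Units.val_zpow_eq_zpow_val]
    exact mul_mem (IntermediateField.algebraMap_mem _ c) (mul_mem (zpow_mem hx' i) (zpow_mem hy' j))
  rintro z (rfl | rfl)
  · rw [h.rel.hx]
    exact key _ _ _
  · rw [h.rel.hy]
    exact key _ _ _

theorem Rep.tr (hp : Ind K x y) (h : Rep x y x' y' c₁ c₂ α β γ δ) :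
    Transcendental ℚ (x' : K) := by
  intro hx'
  obtain ⟨r, hr⟩ := hp.const _ hx'
  have hne : δ ≠ 0 ∨ -β ≠ 0 := by
    by_contra hc
    push Not at hc
    apply h.det
    rw [hc.1, neg_eq_zero.1 hc.2]
    ring
  obtain ⟨m, a₁, a₂, hm, ha, e1, e2⟩ := exists_primitive hne
  have h1 : x ^ δ * y ^ (-β) = cst (c₁ ^ δ * c₂ ^ (-β)) * x' ^ (α * δ - β * γ) := by
    rw [h.hx, h.hy, map_mul, map_zpow, map_zpow, mul_zpow, mul_zpow, mul_zpow, mul_zpow, ← zpow_mul,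
      ← zpow_mul, ← zpow_mul, ← zpow_mul]
    have e3 : x' ^ (α * δ - β * γ) = x' ^ (α * δ) * x' ^ (γ * -β) := by
      rw [← zpow_add]
      congr 1
      ring
    have e4 : y' ^ (β * δ) * y' ^ (δ * -β) = 1 := by
      rw [← zpow_add]
      have : β * δ + δ * -β = 0 := by ring
      rw [this, zpow_zero]
    rw [e3]
    calc cst c₁ ^ δ * (x' ^ (α * δ) * y' ^ (β * δ)) * (cst c₂ ^ (-β) * (x' ^ (γ * -β) * y' ^ (δ * -β)))
        = cst c₁ ^ δ * cst c₂ ^ (-β) * (x' ^ (α * δ) * x' ^ (γ * -β)) *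
          (y' ^ (β * δ) * y' ^ (δ * -β)) := by
          simp only [mul_comm, mul_left_comm, mul_assoc]
      _ = _ := by rw [e4, mul_one]
  have h2 : (((x ^ a₁ * y ^ a₂ : Kˣ) : K)) ^ m =
      algebraMap ℚ K ((c₁ ^ δ * c₂ ^ (-β) : ℚˣ) * r ^ (α * δ - β * γ)) := by
    have h3 : (x ^ a₁ * y ^ a₂) ^ m = x ^ δ * y ^ (-β) := by
      rw [mul_pow, ← zpow_natCast, ← zpow_natCast, ← zpow_mul, ← zpow_mul, ← e1, ← e2]
    rw [← Units.val_pow_eq_pow_val, h3, h1, Units.val_mul, cst_val, Units.val_zpow_eq_zpow_val, hr,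
      map_mul, map_zpow₀]
  refine transc hp ha ?_
  refine IsAlgebraic.of_pow hm ?_
  rw [h2]
  exact isAlgebraic_algebraMap _

/-- A proper power gives a representation with a larger determinant. -/
theorem Rep.step (h : Rep x y x' y' c₁ c₂ α β γ δ) {a b : ℤ} {m : ℕ} (hm : 0 < m) {c : ℚˣ} {u : Kˣ}
    (hab : IsCoprime a b) (hu : x' ^ a * y' ^ b = cst c * u ^ m) :
    ∃ (t : Kˣ) (d₁ d₂ : ℚˣ) (α' β' γ' δ' : ℤ), Rep x y u t d₁ d₂ α' β' γ' δ' ∧
      α' * δ' - β' * γ' = m * (α * δ - β * γ) := by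
  obtain ⟨p, q, hpq⟩ := hab
  have hx' : x' = cst (c ^ p) * (u ^ (m * p) * (x' ^ (-q) * y' ^ p) ^ (-b)) := by
    have h1 : cst (c ^ p) * u ^ (m * p) = (x' ^ a * y' ^ b) ^ p := by
      rw [hu, mul_zpow, map_zpow, zpow_mul, zpow_natCast]
    rw [← mul_assoc, h1, mul_zpow, mul_zpow, ← zpow_mul, ← zpow_mul, ← zpow_mul, ← zpow_mul,
      mul_mul_mul_comm, ← zpow_add, ← zpow_add]
    have h2 : a * p + -q * -b = 1 := by linarith
    have h3 : b * p + p * -b = 0 := by ring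
    rw [h2, h3, zpow_one, zpow_zero, mul_one]
  have hy' : y' = cst (c ^ q) * (u ^ (m * q) * (x' ^ (-q) * y' ^ p) ^ a) := by
    have h1 : cst (c ^ q) * u ^ (m * q) = (x' ^ a * y' ^ b) ^ q := by
      rw [hu, mul_zpow, map_zpow, zpow_mul, zpow_natCast]
    rw [← mul_assoc, h1, mul_zpow, mul_zpow, ← zpow_mul, ← zpow_mul, ← zpow_mul, ← zpow_mul,
      mul_mul_mul_comm, ← zpow_add, ← zpow_add]
    have h2 : a * q + -q * a = 0 := by ring
    have h3 : b * q + p * a = 1 := by linarith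
    rw [h2, h3, zpow_one, zpow_zero, one_mul]
  obtain ⟨t, ht⟩ : ∃ t : Kˣ, t = x' ^ (-q) * y' ^ p := ⟨_, rfl⟩
  rw [← ht] at hx' hy'
  have key : ∀ (d : ℚˣ) (i j : ℤ), cst d * (x' ^ i * y' ^ j) =
      cst (d * (c ^ p) ^ i * (c ^ q) ^ j) *
        (u ^ (m * p * i + m * q * j) * t ^ (-b * i + a * j)) := by
    intro d i j
    conv_lhs => rw [hx', hy']
    rw [map_mul, map_mul, map_zpow (cst : ℚˣ →* Kˣ) (c ^ p) i, map_zpow (cst : ℚˣ →* Kˣ) (c ^ q) j, mul_zpow, mul_zpow, mul_zpow,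
      mul_zpow, ← zpow_mul, ← zpow_mul, ← zpow_mul, ← zpow_mul, zpow_add, zpow_add]
    simp only [mul_comm, mul_left_comm, mul_assoc]
  have hdet : (m * p * α + m * q * β) * (-b * γ + a * δ) - (-b * α + a * β) * (m * p * γ + m * q * δ) =
      m * (α * δ - β * γ) := by
    have : (m * p * α + m * q * β) * (-b * γ + a * δ) - (-b * α + a * β) * (m * p * γ + m * q * δ) =
      (p * a + q * b) * (m * (α * δ - β * γ)) := by ring
    rw [this, hpq, one_mul]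
  refine ⟨t, c₁ * (c ^ p) ^ α * (c ^ q) ^ β, c₂ * (c ^ p) ^ γ * (c ^ q) ^ δ, m * p * α + m * q * β,
    -b * α + a * β, m * p * γ + m * q * δ, -b * γ + a * δ, ⟨?_, ?_, ?_⟩, hdet⟩
  · rw [hdet]
    exact mul_ne_zero (by exact_mod_cast hm.ne') h.det
  · conv_lhs => rw [h.hx]
    exact key _ _ _
  · conv_lhs => rw [h.hy]
    exact key _ _ _

end SATM

open SATM

theorem specSAT : SpecSAT := by
  intro K _ _ x y hp
  obtain ⟨d, hd, hdvd⟩ := exists_bound hp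
  let Ex : ℕ → Prop := fun k => ∃ (x' y' : Kˣ) (c₁ c₂ : ℚˣ) (α β γ δ : ℤ),
    Rep x y x' y' c₁ c₂ α β γ δ ∧ (α * δ - β * γ).natAbs = k
  have hb : ∀ k, Ex k → k ≤ d.natAbs := by
    rintro k ⟨x', y', c₁, c₂, α, β, γ, δ, h, rfl⟩
    exact Nat.le_of_dvd (Int.natAbs_pos.2 hd) (Int.natAbs_dvd_natAbs.2 (hdvd _ _ _ _ _ _ _ _ h))
  have h1 : Ex 1 := ⟨x, y, 1, 1, 1, 0, 0, 1, ⟨by norm_num, by simp, by simp⟩, by norm_num⟩
  obtain ⟨k, hk, hmax⟩ : ∃ k, Ex k ∧ ∀ l, Ex l → l ≤ k := by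
    classical
    exact ⟨Nat.findGreatest Ex d.natAbs, Nat.findGreatest_spec (hb 1 h1) h1,
      fun l hl => Nat.le_findGreatest (hb l hl) hl⟩
  obtain ⟨x', y', c₁, c₂, α, β, γ, δ, h, hdet⟩ := hk
  refine ⟨x', y', c₁, c₂, α, β, γ, δ, ⟨h.gen hp, ?_, hp.const, ?_⟩, h.rel⟩
  · exact PlaceQ.finite_adjoin (x : K) hp.fin (x' : K) (h.tr hp)
  · intro a b m c u hab hm he
    have hu : u ≠ 0 := by
      rintro rfl
      rw [zero_pow (by omega), mul_zero] at he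
      exact (x' ^ a * y' ^ b).ne_zero he
    have hc : c ≠ 0 := by
      rintro rfl
      rw [map_zero, zero_mul] at he
      exact (x' ^ a * y' ^ b).ne_zero he
    obtain ⟨t, d₁, d₂, α', β', γ', δ', h', hdet'⟩ := h.step (m := m) (by omega)
      (c := Units.mk0 c hc) (u := Units.mk0 u hu) hab (by
        ext
        rw [he, Units.val_mul, cst_val, Units.val_pow_eq_pow_val, Units.val_mk0, Units.val_mk0])
    have h2 := hmax _ ⟨_, _, _, _, _, _, _, _, h', rfl⟩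
    rw [hdet', Int.natAbs_mul, hdet, Int.natAbs_natCast] at h2
    have h3 : 0 < k := by
      rw [← hdet]
      exact Int.natAbs_pos.2 h.det
    have h4 : 2 * k ≤ m * k := Nat.mul_le_mul_right k hm
    omega

end MP743d1e.RT
end

section
/-!
# TW3: a prime divisor that vanishes at both points
-/
set_option autoImplicit false

namespace MP743d1e.RT

open scoped BigOperators
open Polynomial IntermediateField MP743d1e.CY MP743d1e.Integ
open Pool.Agent.Lib.MPcb8a44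

namespace TW3M

open BAS TWOM

theorem evC_zero (x y : ℂ) : evC x y 0 = 0 := by
  unfold evC
  simp

theorem evC_add (x y : ℂ) (A B : AddMonoidAlgebra ℂ (ℤ × ℤ)) :
    evC x y (A + B) = evC x y A + evC x y B := by
  unfold evC
  rw [AddMonoidAlgebra.coeff_add]
  refine Finsupp.sum_add_index' ?_ ?_
  · intro k
    simp
  · intro k z w
    ring

theorem evC_single (x y : ℂ) (k : ℤ × ℤ) (z : ℂ) :
    evC x y (AddMonoidAlgebra.single k z) = z * (x ^ k.1 * y ^ k.2) := by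
  unfold evC
  rw [AddMonoidAlgebra.coeff_single, Finsupp.sum_single_index]
  simp

theorem ev1_zero (s : ℂ) : ev1 0 s = 0 := by
  unfold ev1
  simp

/-- The value at a point of the coset. -/
theorem ev1_F {ω : ℂ} (hω : ω ≠ 0) (c b : ℤ × ℤ) {s : ℂ} (hs : s ≠ 0)
    (A : AddMonoidAlgebra ℂ (ℤ × ℤ)) :
    ev1 (F ω hω c b A) s = evC (ω ^ c.1 * s ^ b.1) (ω ^ c.2 * s ^ b.2) A := by
  induction A using AddMonoidAlgebra.induction_linear with
  | zero => rw [map_zero, ev1_zero, evC_zero]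
  | add P Q hP hQ => rw [map_add, ev1_add hs, evC_add, hP, hQ]
  | single k z =>
    rw [F_single, ev1_single, evC_single]
    unfold ip
    rw [zpow_add₀ hω, zpow_add₀ hs, zpow_mul, zpow_mul, zpow_mul, zpow_mul, mul_zpow, mul_zpow]
    ring

theorem ev1_up (N : ℕ) {s : ℂ} (hs : s ≠ 0) (A : AddMonoidAlgebra ℂ ℤ) :
    ev1 (up N A) s = ev1 A (s ^ N) := by
  induction A using AddMonoidAlgebra.induction_linear with
  | zero => rw [map_zero, ev1_zero, ev1_zero]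
  | add P Q hP hQ => rw [map_add, ev1_add hs, ev1_add (pow_ne_zero _ hs), hP, hQ]
  | single k z =>
    rw [up_single, ev1_single, ev1_single, zpow_mul, zpow_natCast]

end TW3M

open BAS TWOM TW3M in
theorem specTW3 : SpecTW3 := by
  intro P R n ζ ω c b G N m₀ q σ₁ σ₂ hn hζ hN hω hR hdvd hGf hq h1 h2 h3 hσ₁ hσ₂ hR₁ hR₂ hne
  have hζn : ‖ζ‖ = 1 := by
    have h4 : ‖ζ‖ ^ n = 1 := by rw [← norm_pow, hζ, norm_one]
    exact (pow_eq_one_iff_of_nonneg (norm_nonneg _) hn.ne').mp h4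
  have hωn : ‖ω‖ = 1 := by
    have h4 : ‖ω‖ ^ N = 1 := by rw [← norm_pow, hω, hζn]
    exact (pow_eq_one_iff_of_nonneg (norm_nonneg _) hN.ne').mp h4
  have hω0 : ω ≠ 0 := by
    intro h
    rw [h, norm_zero] at hωn
    exact zero_ne_one hωn
  have hcomp := comp P ζ c b G N m₀ q hN hω0 hωn hω hGf hq h1 h2 h3
  have hFG := F_GG hω0 c b G q N m₀ hq
  have hdiv : R ∣ GG ω c G q * sh (ℤ × ℤ) (GG ω c G q) := by
    rw [hcomp]
    exact hdvd.mul_right _
  rw [← ev1_F hω0 c b hσ₁] at hR₁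
  rw [← ev1_F hω0 c b hσ₂] at hR₂
  rcases hR.dvd_or_dvd hdiv with ⟨A, hA⟩ | ⟨A, hA⟩
  · have h4 : ev1 (F ω hω0 c b (GG ω c G q)) σ₂ = 0 := by
      rw [hA, map_mul, ev1_mul hσ₂, hR₂, zero_mul]
    rw [hFG, ev1_mul hσ₂, ev1_single, ev1_up N hσ₂, one_mul] at h4
    exact (mul_eq_zero.mp h4).resolve_left (zpow_ne_zero _ hσ₂)
  · exfalso
    apply hne
    have h4 : ev1 (F ω hω0 c b (sh (ℤ × ℤ) (GG ω c G q))) σ₁ = 0 := by
      rw [hA, map_mul, ev1_mul hσ₁, hR₁, zero_mul]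
    rw [F_sh hω0 hωn, hFG, map_mul, sh_single, ← up_sh, ev1_mul hσ₁, ev1_single, ev1_up N hσ₁,
      map_one, one_mul] at h4
    exact (mul_eq_zero.mp h4).resolve_left (zpow_ne_zero _ hσ₁)

end MP743d1e.RT
end
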