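import Pool.Agent.Lib.MP_743d1e_nt.RT.Spec
import Pool.Agent.Lib.MP_743d1e_nt.CY.PUK

section
/-!
# PTS: the complex point of a closed point
-/
set_option autoImplicit false

namespace MP743d1e.RT

open scoped BigOperators
open Polynomial IntermediateField MP743d1e.CY MP743d1e.CY.FNVM MP743d1e.Integ

namespace PTSM

section

open scoped IntermediateField.algebraAdjoinAdjoin

/-- An algebraic relation between `z` and `t`. -/
theorem exists_rel {K : Type} [Field K] [Algebra ℚ K] (x : K) (hfin : FiniteDimensional ℚ⟮x⟯ K)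
    (t : K) (ht : Transcendental ℚ t) (z : K) : ∃ g : ℚ[X][X], g ≠ 0 ∧ evF t z g = 0 := by
  have hfint : FiniteDimensional ℚ⟮t⟯ K := PlaceQ.finite_adjoin x hfin t ht
  let A := Algebra.adjoin ℚ ({t} : Set K)
  have h1 : Algebra.IsAlgebraic A ℚ⟮t⟯ := inferInstance
  have h2 : Algebra.IsAlgebraic A K := Algebra.IsAlgebraic.trans A ℚ⟮t⟯ K
  obtain ⟨p, hp0, hp⟩ := h2.isAlgebraic z
  let e : ℚ[X] ≃ₐ[ℚ] A := Polynomial.algEquivOfTranscendental ℚ t ht
  refine ⟨p.map (e.symm : A →+* ℚ[X]), ?_, ?_⟩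
  · rw [Ne, Polynomial.map_eq_zero_iff e.symm.injective]
    exact hp0
  · unfold evF
    rw [eval₂_map]
    have h3 : ((aeval t : ℚ[X] →ₐ[ℚ] K).toRingHom).comp (e.symm : A →+* ℚ[X]) =
        algebraMap A K := by
      apply RingHom.ext
      intro a
      obtain ⟨q, rfl⟩ := e.surjective a
      show aeval t (e.symm (e q)) = ((e q : A) : K)
      rw [e.symm_apply_apply]
      rw [Polynomial.algEquivOfTranscendental_apply ℚ t ht q, Polynomial.aeval_subalgebra_coe]
    rw [h3]
    exact hp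

end

theorem not_dvd_map {g : ℚ[X][X]} (h : ¬ C (X : ℚ[X]) ∣ g) :
    g.map (evalRingHom (0 : ℚ)) ≠ 0 := by
  intro h0
  apply h
  rw [Polynomial.C_dvd_iff_dvd_coeff]
  intro i
  rw [Polynomial.X_dvd_iff, Polynomial.coeff_zero_eq_eval_zero]
  have := congrArg (fun q => q.coeff i) h0
  simpa using this

/-- A relation that is not divisible by `t`. -/
theorem exists_rel0 {K : Type} [Field K] [Algebra ℚ K] (x : K)
    (hfin : FiniteDimensional ℚ⟮x⟯ K) (t : K) (ht : Transcendental ℚ t) (z : K) :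
    ∃ g : ℚ[X][X], g.map (evalRingHom (0 : ℚ)) ≠ 0 ∧ evF t z g = 0 := by
  obtain ⟨g, hg0, hg⟩ := exists_rel x hfin t ht z
  have hu : ¬ IsUnit (C (X : ℚ[X])) := by
    rw [Polynomial.isUnit_C]
    exact Polynomial.not_isUnit_X
  obtain ⟨c, hc, hc'⟩ := (FiniteMultiplicity.of_not_isUnit hu hg0).exists_eq_pow_mul_and_not_dvd
  refine ⟨c, not_dvd_map hc', ?_⟩
  have ht0 : t ≠ 0 := by
    rintro rfl
    exact ht isAlgebraic_zero
  rw [hc] at hg
  unfold evF at hg ⊢
  rw [eval₂_mul, eval₂_pow, eval₂_C] at hg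
  have h3 : (aeval t : ℚ[X] →ₐ[ℚ] K).toRingHom X = t := aeval_X t
  rw [h3] at hg
  rcases mul_eq_zero.1 hg with h | h
  · exact absurd h (pow_ne_zero _ ht0)
  · exact h

section

variable {K : Type} [Field K] {v : DVal K}

theorem not_isUnit_iff (a : vsub v) : a ∈ IsLocalRing.maximalIdeal (vsub v) ↔ Pos v (a : K) := by
  rw [IsLocalRing.mem_maximalIdeal, mem_nonunits_iff]
  constructor
  · intro h
    by_contra hp
    obtain ⟨u, hu, h0⟩ := ord_of_nn_not_pos (show NN v (a : K) from a.2) hp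
    apply h
    have hi : (u⁻¹ : Kˣ).val ∈ vsub v := by
      show NN v ((u⁻¹ : Kˣ) : K)
      rw [nn_unit, v.ord_inv, h0, neg_zero]
    refine IsUnit.of_mul_eq_one (⟨_, hi⟩ : vsub v) ?_
    apply Subtype.ext
    show (a : K) * ((u⁻¹ : Kˣ) : K) = 1
    rw [← hu]
    exact u.mul_inv
  · rintro hp ⟨b, hb⟩
    have h1 : NN v (((b⁻¹ : (vsub v)ˣ) : vsub v) : K) := ((b⁻¹ : (vsub v)ˣ) : vsub v).2
    have h2 := pos_mul_nn hp h1
    have h3 : (a : K) * (((b⁻¹ : (vsub v)ˣ) : vsub v) : K) = 1 := by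
      rw [← hb]
      exact congrArg (fun z : vsub v => (z : K)) b.mul_inv
    rw [h3] at h2
    have h4 := pos_unit (v := v) (u := (1 : Kˣ))
    rw [Units.val_one] at h4
    have := h4.1 h2
    rw [v.ord_one] at this
    omega

/-- A unit of the valuation ring. -/
noncomputable def un (x : Kˣ) (hx : v.ord x = 0) : (vsub v)ˣ where
  val := ⟨(x : K), nn_unit.2 hx.ge⟩
  inv := ⟨((x⁻¹ : Kˣ) : K), nn_unit.2 (by rw [v.ord_inv, hx, neg_zero])⟩
  val_inv := Subtype.ext x.mul_inv
  inv_val := Subtype.ext x.inv_mul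

theorem un_zpow (x : Kˣ) (hx : v.ord x = 0) (k : ℤ) :
    (((un x hx ^ k : (vsub v)ˣ) : vsub v) : K) = (x : K) ^ k := by
  have h1 : Units.map (vsub v).subtype.toMonoidHom (un x hx) = x := Units.ext rfl
  have h2 : Units.map (vsub v).subtype.toMonoidHom (un x hx ^ k) = x ^ k := by
    rw [map_zpow, h1]
  have h3 := congrArg (fun u : Kˣ => (u : K)) h2
  exact h3.trans (Units.val_zpow_eq_zpow_val x k)

end

end PTSM

open PTSM

theorem specPTS : SpecPTS := by
  intro K _ _ x y hP v hg hx hy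
  let O := vsub v
  let κ := IsLocalRing.ResidueField O
  let ρ : O →+* κ := IsLocalRing.residue O
  let c₀ : ℚ →+* O := (algebraMap ℚ K).codRestrict (vsub v).toSubring (nn_const hg)
  have hchar : CharZero κ := charZero_of_injective_ringHom (ρ.comp c₀).injective
  have hκ : Algebra.IsAlgebraic ℚ κ := by
    refine ⟨fun w => ?_⟩
    obtain ⟨z, rfl⟩ := IsLocalRing.residue_surjective (R := O) w
    obtain ⟨t, ht⟩ := v.surj 1
    have htr : Transcendental ℚ (t : K) := by
      intro h
      obtain ⟨c, hc⟩ := hP.const _ h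
      have := hg t ⟨c, hc⟩
      omega
    obtain ⟨g, hg0, hg1⟩ := exists_rel0 (x : K) hP.fin (t : K) htr (z : K)
    let t' : O := ⟨(t : K), nn_unit.2 (by rw [ht]; norm_num)⟩
    let θ : ℚ[X] →+* O := eval₂RingHom c₀ t'
    have h1 : (O.subtype).comp θ = (aeval (t : K) : ℚ[X] →ₐ[ℚ] K).toRingHom := by
      apply Polynomial.ringHom_ext
      · intro a
        show O.subtype (eval₂ c₀ t' (C a)) = aeval (t : K) (C a)
        rw [eval₂_C, aeval_C]
        rfl
      · show O.subtype (eval₂ c₀ t' X) = aeval (t : K) X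
        rw [eval₂_X, aeval_X]
        rfl
    have h2 : eval₂ θ z g = 0 := by
      apply Subtype.ext
      show O.subtype (eval₂ θ z g) = 0
      rw [hom_eval₂, h1]
      exact hg1
    have ht0 : ρ t' = 0 := by
      rw [IsLocalRing.residue_eq_zero_iff, not_isUnit_iff]
      exact pos_unit.2 (by rw [ht])
    have h3 : ρ.comp θ = (algebraMap ℚ κ).comp (evalRingHom (0 : ℚ)) := by
      apply Polynomial.ringHom_ext
      · intro a
        show ρ (eval₂ c₀ t' (C a)) = algebraMap ℚ κ (eval 0 (C a))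
        rw [eval₂_C, eval_C]
        exact congrArg (fun f : ℚ →+* κ => f a) (Subsingleton.elim (ρ.comp c₀) (algebraMap ℚ κ))
      · show ρ (eval₂ c₀ t' X) = algebraMap ℚ κ (eval 0 X)
        rw [eval₂_X, eval_X, ht0, map_zero]
    refine ⟨g.map (evalRingHom (0 : ℚ)), hg0, ?_⟩
    have h4 := congrArg ρ h2
    rw [hom_eval₂, h3, map_zero] at h4
    rw [aeval_def, eval₂_map]
    exact h4
  let φ : κ →ₐ[ℚ] ℂ := IsAlgClosed.lift
  let ψ : O →+* ℂ := (φ : κ →+* ℂ).comp ρ
  have hψ : ∀ a : O, ψ a = 0 ↔ Pos v (a : K) := by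
    intro a
    show φ (ρ a) = 0 ↔ _
    rw [map_eq_zero, IsLocalRing.residue_eq_zero_iff, not_isUnit_iff]
  have halg : ∀ a : O, IsAlgebraic ℚ (ψ a) := fun a => (hκ.isAlgebraic (ρ a)).algHom φ
  refine ⟨ψ (un x hx : O), ψ (un y hy : O), ?_, ?_, halg _, halg _, ?_⟩
  · exact ((un x hx).isUnit.map ψ).ne_zero
  · exact ((un y hy).isUnit.map ψ).ne_zero
  · intro A
    let E : O := A.coeff.sum fun k c =>
      (c : O) * (((un x hx ^ k.1 * un y hy ^ k.2 : Oˣ)) : O)
    have h1 : (E : K) = evP (x : K) (y : K) A := by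
      show O.subtype E = _
      unfold evP
      rw [map_finsuppSum]
      refine Finsupp.sum_congr fun k _ => ?_
      rw [map_mul, map_intCast, Units.val_mul, map_mul]
      congr 1
      exact congrArg₂ (· * ·) (un_zpow x hx k.1) (un_zpow y hy k.2)
    have hz : ∀ (u : Oˣ) (k : ℤ), ψ ((u ^ k : Oˣ) : O) = ψ (u : O) ^ k := by
      intro u k
      have h2 : Units.map ψ.toMonoidHom (u ^ k) = (Units.map ψ.toMonoidHom u) ^ k := map_zpow _ _ _
      have h3 := congrArg (fun w : ℂˣ => (w : ℂ)) h2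
      exact h3.trans (Units.val_zpow_eq_zpow_val _ k)
    have h2 : ψ E = evP (ψ (un x hx : O)) (ψ (un y hy : O)) A := by
      unfold evP
      rw [map_finsuppSum]
      refine Finsupp.sum_congr fun k _ => ?_
      rw [map_mul, map_intCast, Units.val_mul, map_mul, hz, hz]
    rw [← h2, hψ, h1]

end MP743d1e.RT
end

section
/-!
# UNQ: all but finitely many closed points are determined by the values of `x` and `y`
-/
set_option autoImplicit false

namespace MP743d1e.RT

open scoped BigOperators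
open Polynomial IntermediateField MP743d1e.CY MP743d1e.Integ MP743d1e.CY.FNVM

namespace UNQM

section

variable {K : Type} [Field K] (x y : Kˣ)

/-- the evaluation as a ring homomorphism -/
noncomputable def evH : AddMonoidAlgebra ℤ (ℤ × ℤ) →+* K :=
  (AddMonoidAlgebra.lift ℤ K (ℤ × ℤ)
    { toFun := fun k => ((x ^ k.toAdd.1 * y ^ k.toAdd.2 : Kˣ) : K)
      map_one' := by simp
      map_mul' := fun k l => by
        rw [toAdd_mul, Prod.fst_add, Prod.snd_add, zpow_add, zpow_add, ← Units.val_mul, mul_mul_mul_comm] }).toRingHom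

theorem evH_apply (A : AddMonoidAlgebra ℤ (ℤ × ℤ)) : evH x y A = evP (x : K) (y : K) A := by
  change (AddMonoidAlgebra.lift ℤ K (ℤ × ℤ) _) A = _
  rw [AddMonoidAlgebra.lift_apply']
  unfold evP
  refine Finsupp.sum_congr fun k _ => ?_
  simp

theorem evH_x : evH x y (AddMonoidAlgebra.single (1, 0) 1) = (x : K) := by
  rw [evH_apply]
  unfold evP
  rw [AddMonoidAlgebra.coeff_single, Finsupp.sum_single_index] <;> simp

theorem evH_y : evH x y (AddMonoidAlgebra.single (0, 1) 1) = (y : K) := by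
  rw [evH_apply]
  unfold evP
  rw [AddMonoidAlgebra.coeff_single, Finsupp.sum_single_index] <;> simp

/-- a quotient of integral Laurent polynomials -/
def Fr (z : K) : Prop := ∃ A D : AddMonoidAlgebra ℤ (ℤ × ℤ), evH x y D ≠ 0 ∧ z * evH x y D = evH x y A

variable [Algebra ℚ K]

theorem fr_all (gen : IntermediateField.adjoin ℚ {(x : K), (y : K)} = ⊤) (z : K) : Fr x y z := by
  have hz : z ∈ IntermediateField.adjoin ℚ {(x : K), (y : K)} := by rw [gen]; trivial
  have hch : CharZero K := algebraRat.charZero K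
  induction hz using IntermediateField.adjoin_induction with
  | mem z hz =>
    rcases hz with rfl | hz
    · exact ⟨_, 1, by simp, by rw [evH_x, map_one, mul_one]⟩
    · rw [Set.mem_singleton_iff] at hz
      subst hz
      exact ⟨_, 1, by simp, by rw [evH_y, map_one, mul_one]⟩
  | algebraMap q =>
    refine ⟨(q.num : AddMonoidAlgebra ℤ (ℤ × ℤ)), (q.den : AddMonoidAlgebra ℤ (ℤ × ℤ)), ?_, ?_⟩
    · rw [map_natCast]; exact_mod_cast q.den_ne_zero
    · rw [map_natCast, map_intCast, eq_ratCast]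
      exact_mod_cast Rat.mul_den_eq_num q
  | add a b _ _ ha hb =>
    obtain ⟨A, D, hD, h⟩ := ha
    obtain ⟨A', D', hD', h'⟩ := hb
    refine ⟨A * D' + A' * D, D * D', by rw [map_mul]; exact mul_ne_zero hD hD', ?_⟩
    rw [map_mul, map_add, map_mul, map_mul, ← h, ← h']; ring
  | mul a b _ _ ha hb =>
    obtain ⟨A, D, hD, h⟩ := ha
    obtain ⟨A', D', hD', h'⟩ := hb
    refine ⟨A * A', D * D', by rw [map_mul]; exact mul_ne_zero hD hD', ?_⟩
    rw [map_mul, map_mul, ← h, ← h']; ring
  | inv a _ ha =>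
    obtain ⟨A, D, hD, h⟩ := ha
    by_cases h0 : a = 0
    · exact ⟨0, 1, by simp, by rw [h0]; simp⟩
    · refine ⟨D, A, ?_, ?_⟩
      · rw [← h]; exact mul_ne_zero h0 hD
      · rw [← h, ← mul_assoc, inv_mul_cancel₀ h0, one_mul]

omit [Algebra ℚ K] in
theorem pos_unit_mul {v : DVal K} {u : Kˣ} (hu : v.ord u = 0) (f : K) : Pos v ((u : K) * f) ↔ Pos v f := by
  constructor
  · intro h
    have h1 : f = (u : K) * f * ((u⁻¹ : Kˣ) : K) := by
      rw [mul_comm (u : K) f, mul_assoc, Units.mul_inv, mul_one]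
    rw [h1]
    refine pos_mul_nn h (nn_unit.2 ?_)
    rw [v.ord_inv, hu, neg_zero]
  · intro h
    rw [mul_comm]
    exact pos_mul_nn h (nn_unit.2 hu.ge)

/-- the elements `z` with a positive integral multiple in `ℤ[x^±1, y^±1]` -/
def In (z : K) : Prop := ∃ (N : ℕ) (A : AddMonoidAlgebra ℤ (ℤ × ℤ)), 0 < N ∧ (N : K) * z = evH x y A

variable {x y}

omit [Algebra ℚ K] in
theorem In.add {a b : K} (ha : In x y a) (hb : In x y b) : In x y (a + b) := by
  obtain ⟨N, A, hN, h⟩ := ha
  obtain ⟨M, B, hM, h'⟩ := hb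
  refine ⟨N * M, (M : AddMonoidAlgebra ℤ (ℤ × ℤ)) * A + (N : AddMonoidAlgebra ℤ (ℤ × ℤ)) * B,
    Nat.mul_pos hN hM, ?_⟩
  rw [map_add, map_mul, map_mul, map_natCast, map_natCast, ← h, ← h']
  push_cast; ring

omit [Algebra ℚ K] in
theorem In.mul {a b : K} (ha : In x y a) (hb : In x y b) : In x y (a * b) := by
  obtain ⟨N, A, hN, h⟩ := ha
  obtain ⟨M, B, hM, h'⟩ := hb
  refine ⟨N * M, A * B, Nat.mul_pos hN hM, ?_⟩
  rw [map_mul, ← h, ← h']
  push_cast; ring

omit [Algebra ℚ K] in
theorem In.of (A : AddMonoidAlgebra ℤ (ℤ × ℤ)) : In x y (evH x y A) := ⟨1, A, one_pos, by simp⟩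

theorem In.rat (q : ℚ) : In x y (algebraMap ℚ K q) := by
  have hch : CharZero K := algebraRat.charZero K
  refine ⟨q.den, (q.num : AddMonoidAlgebra ℤ (ℤ × ℤ)), q.den_pos, ?_⟩
  rw [map_intCast, eq_ratCast, mul_comm]
  exact_mod_cast Rat.mul_den_eq_num q

theorem In.adj (a : Algebra.adjoin ℚ ({(x : K)} : Set K)) : In x y (a : K) := by
  obtain ⟨a, ha⟩ := a
  show In x y a
  induction ha using Algebra.adjoin_induction with
  | mem z hz =>
    rw [Set.mem_singleton_iff] at hz
    rw [hz, ← evH_x x y]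
    exact In.of _
  | algebraMap r => exact In.rat r
  | add x y _ _ hx hy => exact hx.add hy
  | mul x y _ _ hx hy => exact hx.mul hy

omit [Algebra ℚ K] in
/-- the prime of a valuation is not zero -/
theorem pr_ne_bot {v : DVal K} {O : Type} [CommRing O] [Algebra O K] [IsFractionRing O K] [IsDomain O]
    (hO : ∀ b : O, NN v (algebraMap O K b)) : pr hO ≠ ⊥ := by
  intro h
  obtain ⟨f, hf⟩ := v.surj 1
  obtain ⟨a, b, hb, hab⟩ := IsFractionRing.div_surjective (A := O) (f : K)
  have hb0 : b ≠ 0 := nonZeroDivisors.ne_zero hb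
  have hbK : algebraMap O K b ≠ 0 := by
    rwa [Ne, IsFractionRing.to_map_eq_zero_iff]
  have ha0 : a ≠ 0 := by
    rintro rfl
    rw [map_zero, zero_div] at hab
    exact f.ne_zero hab.symm
  have key : ∀ c : O, c ≠ 0 → ∃ u : Kˣ, (u : K) = algebraMap O K c ∧ v.ord u = 0 := by
    intro c hc
    refine ord_of_nn_not_pos (hO c) fun hp => hc ?_
    have h1 : c ∈ pr hO := hp
    rwa [h, Ideal.mem_bot] at h1
  obtain ⟨u, hu, hu0⟩ := key a ha0
  obtain ⟨w, hw, hw0⟩ := key b hb0
  have e : f = u * w⁻¹ := by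
    apply Units.ext
    rw [Units.val_mul, Units.val_inv_eq_inv_val, hu, hw, ← hab, div_eq_mul_inv]
  rw [e, v.ord_mul, v.ord_inv, hu0, hw0] at hf
  norm_num at hf

end

end UNQM

open UNQM

open scoped IntermediateField.algebraAdjoinAdjoin

theorem specUNQ : SpecUNQ := by
  classical
  intro K _ _ x y hp
  have hch : CharZero K := algebraRat.charZero K
  have hx : Transcendental ℚ (x : K) := by
    intro h
    obtain ⟨c, hc⟩ := hp.const _ h
    refine hp.ind 1 0 c isCoprime_one_left ?_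
    rw [zpow_one, zpow_zero, mul_one]
    exact hc
  have hfin := hp.fin
  let A := Algebra.adjoin ℚ ({(x : K)} : Set K)
  let e : Polynomial ℚ ≃ₐ[ℚ] A := Polynomial.algEquivOfTranscendental ℚ (x : K) hx
  have hpid : IsPrincipalIdealRing A :=
    IsPrincipalIdealRing.of_surjective (e : Polynomial ℚ →+* A) e.surjective
  have hdedA : IsDedekindDomain A := inferInstance
  have hsep : Algebra.IsSeparable ℚ⟮(x : K)⟯ K := inferInstance
  have hded : IsDedekindDomain (integralClosure A K) :=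
    IsIntegralClosure.isDedekindDomain A ℚ⟮(x : K)⟯ K (integralClosure A K)
  have hfrac : IsFractionRing (integralClosure A K) K :=
    integralClosure.isFractionRing_of_finite_extension ℚ⟮(x : K)⟯ K
  have hmf : Module.Finite A (integralClosure A K) :=
    IsIntegralClosure.finite A ℚ⟮(x : K)⟯ K (integralClosure A K)
  obtain ⟨s, hs⟩ := hmf.fg_top
  choose N D hD hN using fun b : integralClosure A K => fr_all x y hp.gen (b : K)
  obtain ⟨c, hc⟩ : ∃ c : K, c = ∏ b ∈ s, evH x y (D b) := ⟨_, rfl⟩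
  have hc0 : c ≠ 0 := by
    rw [hc]
    exact Finset.prod_ne_zero_iff.mpr fun b _ => hD b
  have hcb : ∀ b : integralClosure A K, In x y (c * (b : K)) := by
    intro b
    have hb : b ∈ Submodule.span A (s : Set (integralClosure A K)) := by rw [hs]; trivial
    induction hb using Submodule.span_induction with
    | mem b hb =>
      have h1 : c * (b : K) = evH x y (∏ d ∈ s.erase b, D d) * evH x y (N b) := by
        rw [hc, ← Finset.mul_prod_erase s _ hb, map_prod, ← hN b]; ring
      rw [h1]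
      exact (In.of _).mul (In.of _)
    | zero =>
      rw [ZeroMemClass.coe_zero, mul_zero, ← map_zero (evH x y)]
      exact In.of _
    | add a b _ _ ha hb =>
      have h1 : c * ((a + b : integralClosure A K) : K) = c * (a : K) + c * (b : K) := by
        push_cast; ring
      rw [h1]
      exact ha.add hb
    | smul r a _ ha =>
      have h1 : c * ((r • a : integralClosure A K) : K) = (r : K) * (c * (a : K)) := by
        have h2 : ((r • a : integralClosure A K) : K) = (r : K) * (a : K) := rfl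
        rw [h2]; ring
      rw [h1]
      exact (In.adj r).mul ha
  refine ⟨Units.mk0 c hc0, ?_⟩
  intro v w hgv hgw hvx _ hvc hwx _ hwc hvw
  have hAv : ∀ a : A, NN v (algebraMap A K a) := fun a => nn_adjoin hgv (nn_unit.2 hvx.ge) a
  have hAw : ∀ a : A, NN w (algebraMap A K a) := fun a => nn_adjoin hgw (nn_unit.2 hwx.ge) a
  have hOv : ∀ b : integralClosure A K, NN v (algebraMap (integralClosure A K) K b) :=
    fun b => nn_of_isIntegral hAv b.2
  have hOw : ∀ b : integralClosure A K, NN w (algebraMap (integralClosure A K) K b) :=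
    fun b => nn_of_isIntegral hAw b.2
  have key : ∀ u : DVal K, GeoF ℚ u → u.ord (Units.mk0 c hc0) = 0 → ∀ (b : K) (n : ℕ)
      (B : AddMonoidAlgebra ℤ (ℤ × ℤ)), 0 < n → (n : K) * (c * b) = evH x y B →
      (Pos u b ↔ Pos u (evP (x : K) (y : K) B)) := by
    intro u hgu huc b n B hn hB
    have hn0 : (n : K) ≠ 0 := by exact_mod_cast hn.ne'
    have h1 : u.ord (Units.mk0 (n : K) hn0) = 0 := hgu _ ⟨(n : ℚ), by rw [map_natCast]; rfl⟩
    have h2 := pos_unit_mul (v := u) h1 (c * b)
    have h3 := pos_unit_mul (v := u) huc b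
    rw [Units.val_mk0] at h2 h3
    rw [← evH_apply, ← hB, h2, h3]
  have hpr : pr hOv = pr hOw := by
    ext b
    rw [mem_pr, mem_pr]
    obtain ⟨n, B, hn, hB⟩ := hcb b
    have e1 := key v hgv hvc (b : K) n B hn hB
    have e2 := key w hgw hwc (b : K) n B hn hB
    exact e1.trans ((hvw B).trans e2.symm)
  let P : IsDedekindDomain.HeightOneSpectrum (integralClosure A K) := ⟨pr hOv, pr_prime hOv, pr_ne_bot hOv⟩
  have h1 : v = PlaceQ.dval P := eq_dval hOv P fun b hb => hb
  have h2 : w = PlaceQ.dval P := eq_dval hOw P fun b hb => by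
    have : b ∈ pr hOw := hb
    rw [← hpr] at this
    exact this
  rw [h1, h2]

end MP743d1e.RT
end
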