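import Pool.Agent.Lib.MP_743d1e_nt.CY.ALL
import Pool.Agent.Lib.MP_743d1e_nt.CY.PUK
import Pool.Agent.Lib.MP_743d1e_nt.CY.SRK
import Pool.Agent.Lib.MP_743d1e_nt.CY.PRM
import Pool.Agent.Lib.MP_743d1e_nt.CY.TSK
import Pool.Agent.Lib.MP_743d1e_nt.RT.LJG
import Pool.Agent.Lib.MP_743d1e_nt.RT.MAT
import Pool.Agent.Lib.MP_743d1e_nt.RT.EXL
import Pool.Agent.Lib.MP_743d1e_nt.RT.TW3
import Pool.Agent.Lib.MP_743d1e_nt.RT.DVD
import Pool.Agent.Lib.MP_743d1e_nt.RT.UNQ
import Pool.Agent.Lib.MP_743d1e_nt.RT.PUG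
import Pool.Agent.Lib.MP_743d1e_nt.RT.ASG

/-!
# Theorem B for arbitrary generators: no hypotheses left
-/

set_option autoImplicit false

namespace MP743d1e.RT

open MP743d1e.CY

theorem rtPUK : SpecPUK := specPUK specDEC specINT (specLCK specSRK specMAN specCOC) specNRM
  specCLK specGAL specGEN

theorem rtPUG : SpecPUG := specPUG specLJG specCNT specEXL specTW3 specMAT specEQN
  (specKUP) specDVD specSUB specCN2 specPTS specUNQ specFNV

theorem rtASG : SpecASG := specASG rtPUG rtPUK specFNV specTSK specSAT specDEP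

end MP743d1e.RT
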