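import Pool.Agent.Lib.MP_743d1e_nt.RT.Spec2
import Pool.Agent.Lib.MP_743d1e_nt.RT.MAT
import Pool.Agent.Lib.MP_743d1e_nt.RT.ASG
import Pool.Agent.Lib.MP_743d1e_nt.CY.PUK

/-!
# Module PUG: uniqueness of the points, without purity
-/

set_option autoImplicit false

namespace MP743d1e.RT

open scoped BigOperators
open Polynomial IntermediateField MP743d1e.CY MP743d1e.Integ
open Pool.Agent.Lib.MPcb8a44

namespace PUGM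

open BAS TWOM PU3M

/-! ## The isogeny -/

/-- `N |Δ|` times the inverse of the transposed matrix. -/
def adj (α β γ δ : ℤ) (N : ℕ) : ℤ × ℤ →+ ℤ × ℤ where
  toFun e := ((N * (α * δ - β * γ).sign) * (δ * e.1 - γ * e.2),
    (N * (α * δ - β * γ).sign) * (-β * e.1 + α * e.2))
  map_zero' := by simp
  map_add' e f := by
    ext
    · simp; ring
    · simp; ring

theorem adj_mt (α β γ δ : ℤ) (N : ℕ) (e : ℤ × ℤ) :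
    adj α β γ δ N (mt α β γ δ e) = ((N * (α * δ - β * γ).natAbs : ℕ) : ℤ) • e := by
  have h : (α * δ - β * γ).sign * (α * δ - β * γ) = ((α * δ - β * γ).natAbs : ℤ) :=
    Int.sign_mul_self_eq_natAbs _
  have h' : ((N * (α * δ - β * γ).natAbs : ℕ) : ℤ) =
      N * ((α * δ - β * γ).sign * (α * δ - β * γ)) := by
    rw [h]; push_cast; rfl
  rw [h']
  ext
  · show (N * (α * δ - β * γ).sign) * (δ * (α * e.1 + γ * e.2) - γ * (β * e.1 + δ * e.2)) =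
      N * ((α * δ - β * γ).sign * (α * δ - β * γ)) * e.1
    ring
  · show (N * (α * δ - β * γ).sign) * (-β * (α * e.1 + γ * e.2) + α * (β * e.1 + δ * e.2)) =
      N * ((α * δ - β * γ).sign * (α * δ - β * γ)) * e.2
    ring

theorem adj_inj {α β γ δ : ℤ} (h : α * δ - β * γ ≠ 0) {N : ℕ} (hN : 0 < N) :
    Function.Injective (adj α β γ δ N) := by
  rw [injective_iff_map_eq_zero]
  intro e he
  have hs : (N : ℤ) * (α * δ - β * γ).sign ≠ 0 := by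
    refine mul_ne_zero (by exact_mod_cast hN.ne') ?_
    rwa [Ne, Int.sign_eq_zero_iff_zero]
  have h1 : (N * (α * δ - β * γ).sign) * (δ * e.1 - γ * e.2) = 0 := congrArg Prod.fst he
  have h2 : (N * (α * δ - β * γ).sign) * (-β * e.1 + α * e.2) = 0 := congrArg Prod.snd he
  have h3 := (mul_eq_zero.1 h1).resolve_left hs
  have h4 := (mul_eq_zero.1 h2).resolve_left hs
  have h5 : (α * δ - β * γ) * e.1 = 0 := by linear_combination α * h3 + γ * h4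
  have h6 : (α * δ - β * γ) * e.2 = 0 := by linear_combination β * h3 + δ * h4
  exact Prod.ext ((mul_eq_zero.1 h5).resolve_left h) ((mul_eq_zero.1 h6).resolve_left h)

/-- The data for a bad direction. -/
def Bad3 (P P' : AddMonoidAlgebra ℤ (ℤ × ℤ)) (c₁ c₂ : ℚ) (α β γ δ : ℤ) (a : ℤ × ℤ) : Prop :=
  ∃ (n : ℕ) (ζ : ℂ) (c a'' : ℤ × ℤ) (k : ℤ) (G : AddMonoidAlgebra ℂ ℤ)
    (s₁ s₂ ξ₁ η₁ ξ₂ η₂ : ℂ), 0 < n ∧ ζ ^ n = 1 ∧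
    ip c a = 1 ∧ IsCoprime a''.1 a''.2 ∧ mt α β γ δ a = k • a'' ∧ s₁ ≠ 0 ∧ s₂ ≠ 0 ∧ ξ₁ ≠ 0 ∧
    η₁ ≠ 0 ∧ ξ₂ ≠ 0 ∧ η₂ ≠ 0 ∧
    ((c₁ : ℂ) * (ξ₁ ^ α * η₁ ^ β) = ζ ^ c.1 * s₁ ^ (-a.2) ∧
      (c₂ : ℂ) * (ξ₁ ^ γ * η₁ ^ δ) = ζ ^ c.2 * s₁ ^ a.1) ∧
    ((c₁ : ℂ) * (ξ₂ ^ α * η₂ ^ β) = ζ ^ c.1 * s₂ ^ (-a.2) ∧
      (c₂ : ℂ) * (ξ₂ ^ γ * η₂ ^ δ) = ζ ^ c.2 * s₂ ^ a.1) ∧
    ξ₁ ^ a''.1 * η₁ ^ a''.2 = ξ₂ ^ a''.1 * η₂ ^ a''.2 ∧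
    evP ξ₁ η₁ P' = 0 ∧ evP ξ₂ η₂ P' = 0 ∧
    G * sh ℤ G = sp ζ c (-a.2, a.1) P * sh ℤ (sp ζ c (-a.2, a.1) P) ∧
    (∀ i, G.coeff i ∈ AB.Cyc n ∧ (G.coeff i ≠ 0 → 1 ≤ AB.M (G.coeff i))) ∧
    ev1 (sh ℤ G) s₁ ≠ 0 ∧ ev1 G s₂ ≠ 0

theorem bad3_finite (hCNT : SpecCNT) (hEXL : SpecEXL) (hTW3 : SpecTW3) (hMAT : SpecMAT)
    (P P' : AddMonoidAlgebra ℤ (ℤ × ℤ)) {c₁ c₂ : ℚ} {α β γ δ : ℤ} (hc₁ : c₁ ≠ 0) (hc₂ : c₂ ≠ 0)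
    (hdet : α * δ - β * γ ≠ 0)
    (hprime : ∀ (B : ℤ × ℤ →+ ℤ × ℤ) (τ₁ τ₂ : ℂ), Function.Injective B → τ₁ ≠ 0 → τ₂ ≠ 0 →
      Prime (tw τ₁ τ₂ B P'))
    (hdvd : ∀ (B : ℤ × ℤ →+ ℤ × ℤ) (N : ℕ) (τ₁ τ₂ : ℂ), τ₁ ≠ 0 → τ₂ ≠ 0 →
      (∀ e, B (mt α β γ δ e) = (N : ℤ) • e) → (c₁ : ℂ) * (τ₁ ^ α * τ₂ ^ β) = 1 →
      (c₂ : ℂ) * (τ₁ ^ γ * τ₂ ^ δ) = 1 → tw τ₁ τ₂ B P' ∣ PN N P) :
    {a : ℤ × ℤ | IsCoprime a.1 a.2 ∧ Bad3 P P' c₁ c₂ α β γ δ a}.Finite := by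
  classical
  by_contra hinf
  have hinf' : {a : ℤ × ℤ | IsCoprime a.1 a.2 ∧ Bad3 P P' c₁ c₂ α β γ δ a}.Infinite := hinf
  have hinj : Function.Injective fun a : ℤ × ℤ => ((-a.2, a.1) : ℤ × ℤ) := by
    rintro ⟨a, b⟩ ⟨a', b'⟩ h
    simp only [Prod.mk.injEq, neg_inj] at h
    rw [h.1, h.2]
  set S : Set (ℤ × ℤ) := (fun a : ℤ × ℤ => ((-a.2, a.1) : ℤ × ℤ)) ''
    {a : ℤ × ℤ | IsCoprime a.1 a.2 ∧ Bad3 P P' c₁ c₂ α β γ δ a} with hS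
  have hSi : S.Infinite := hinf'.image hinj.injOn
  have hSm : ∀ b ∈ S, IsCoprime b.2 (-b.1) ∧ Bad3 P P' c₁ c₂ α β γ δ (b.2, -b.1) := by
    rintro b ⟨a, ha, rfl⟩
    simpa using ha
  have hex : ∀ b : ℤ × ℤ, ∃ (n : ℕ) (ζ : ℂ) (c a'' : ℤ × ℤ) (k : ℤ) (G : AddMonoidAlgebra ℂ ℤ)
    (s₁ s₂ ξ₁ η₁ ξ₂ η₂ : ℂ), b ∈ S → (0 < n ∧ ζ ^ n = 1 ∧
    ip c (b.2, -b.1) = 1 ∧ IsCoprime a''.1 a''.2 ∧ mt α β γ δ (b.2, -b.1) = k • a'' ∧ s₁ ≠ 0 ∧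
    s₂ ≠ 0 ∧ ξ₁ ≠ 0 ∧ η₁ ≠ 0 ∧ ξ₂ ≠ 0 ∧ η₂ ≠ 0 ∧
    ((c₁ : ℂ) * (ξ₁ ^ α * η₁ ^ β) = ζ ^ c.1 * s₁ ^ b.1 ∧
      (c₂ : ℂ) * (ξ₁ ^ γ * η₁ ^ δ) = ζ ^ c.2 * s₁ ^ b.2) ∧
    ((c₁ : ℂ) * (ξ₂ ^ α * η₂ ^ β) = ζ ^ c.1 * s₂ ^ b.1 ∧
      (c₂ : ℂ) * (ξ₂ ^ γ * η₂ ^ δ) = ζ ^ c.2 * s₂ ^ b.2) ∧
    ξ₁ ^ a''.1 * η₁ ^ a''.2 = ξ₂ ^ a''.1 * η₂ ^ a''.2 ∧
    evP ξ₁ η₁ P' = 0 ∧ evP ξ₂ η₂ P' = 0 ∧
    G * sh ℤ G = sp ζ c b P * sh ℤ (sp ζ c b P) ∧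
    (∀ i, G.coeff i ∈ AB.Cyc n ∧ (G.coeff i ≠ 0 → 1 ≤ AB.M (G.coeff i))) ∧
    ev1 (sh ℤ G) s₁ ≠ 0 ∧ ev1 G s₂ ≠ 0) := by
    intro b
    by_cases hb : b ∈ S
    · obtain ⟨-, n, ζ, c, a'', k, G, s₁, s₂, ξ₁, η₁, ξ₂, η₂, h⟩ := hSm b hb
      refine ⟨n, ζ, c, a'', k, G, s₁, s₂, ξ₁, η₁, ξ₂, η₂, fun _ => ?_⟩
      simpa using h
    · exact ⟨0, 0, 0, 0, 0, 0, 0, 0, 0, 0, 0, 0, fun h => absurd h hb⟩
  choose n ζ c a'' k G s₁ s₂ ξ₁ η₁ ξ₂ η₂ hG using hex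
  have hG0 : ∀ b ∈ S, G b ≠ 0 := by
    intro b hb h0
    obtain ⟨-, -, -, -, -, -, -, -, -, -, -, -, -, -, -, -, -, -, -, h1⟩ := hG b hb
    apply h1
    rw [h0]
    simp [ev1]
  obtain ⟨b, hb, N, m₀, q, hN, e1, e2, e3, e4⟩ := hEXL P.coeff.support
    ⌈(∑ k ∈ P.coeff.support, |(P.coeff k : ℝ)|) ^ 2⌉₊ S hSi
    (fun b hb => by
      have := (hSm b hb).1
      exact (isCoprime_comm.1 (IsCoprime.neg_right_iff _ _ |>.1 this))) G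
    (fun b => sp (ζ b) (c b) b P) (fun b hb => by
      obtain ⟨hn, hζ, -, -, -, -, -, -, -, -, -, -, -, -, -, -, hGG, hM, -, -⟩ := hG b hb
      refine ⟨hG0 b hb, hGG, ?_, sp_supp (ζ b) (c b) b P⟩
      have h := hCNT P (n b) (ζ b) (c b) b (G b) hn hζ hGG hM
      have h' := h.trans (Nat.le_ceil _)
      exact_mod_cast h')
  obtain ⟨hn, hζ, hca, ha'', hmt, hs₁, hs₂, hξ₁, hη₁, hξ₂, hη₂, ⟨r1, r2⟩, ⟨r3, r4⟩, hκ, hp1, hp2,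
    hGG, hM, hz1, hz2⟩ := hG b hb
  set Δ : ℕ := (α * δ - β * γ).natAbs with hΔ
  have hΔ0 : 0 < Δ := Int.natAbs_pos.2 hdet
  have hN' : 0 < N * Δ := Nat.mul_pos hN hΔ0
  have hζ0 : ζ b ≠ 0 := by
    intro h0
    rw [h0, zero_pow hn.ne'] at hζ
    exact zero_ne_one hζ
  obtain ⟨ω, σ₁, σ₂, τ₁, τ₂, hω, hσ₁, hσ₂, hτ₁, hτ₂, t1, t2, v1, v2⟩ := hMAT c₁ c₂ α β γ δ
    (b.2, -b.1) (a'' b) (c b) (k b) (N * Δ) (adj α β γ δ N) (ζ b) (s₁ b) (s₂ b) (ξ₁ b) (η₁ b)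
    (ξ₂ b) (η₂ b) hc₁ hc₂ hdet hN' (adj_mt α β γ δ N) (hSm b hb).1 ha'' hca hmt hζ0 hs₁ hs₂ hξ₁
    hη₁ hξ₂ hη₂ (by simpa using r1) r2 (by simpa using r3) r4 hκ
  have hpr := hprime (adj α β γ δ N) τ₁ τ₂ (adj_inj hdet hN) hτ₁ hτ₂
  have hdv := hdvd (adj α β γ δ N) (N * Δ) τ₁ τ₂ hτ₁ hτ₂ (adj_mt α β γ δ N) t1 t2
  have v1' := v1 P'
  have v2' := v2 P'
  rw [hp1] at v1'
  rw [hp2] at v2'
  simp only [neg_neg] at v1' v2'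
  have hσ10 : σ₁ ≠ 0 := by
    rintro rfl
    rw [zero_pow hN'.ne'] at hσ₁
    exact hs₁ hσ₁.symm
  have hσ20 : σ₂ ≠ 0 := by
    rintro rfl
    rw [zero_pow hN'.ne'] at hσ₂
    exact hs₂ hσ₂.symm
  have key := hTW3 P (tw τ₁ τ₂ (adj α β γ δ N) P') (n b) (ζ b) ω (c b) b (G b) (N * Δ) m₀
    (fun i => (Δ : ℤ) • q i) σ₁ σ₂ hn hζ hN' hω hpr hdv hGG ?_ ?_ ?_ e4 hσ10 hσ20 v1' v2'
    (by rw [hσ₁]; exact hz1)
  · rw [hσ₂] at key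
    exact hz2 key
  · intro i hi
    rw [ip_smul, ← e1 i hi]
    push_cast
    ring
  · intro i hi j hj k' hk' l hl h
    show (Δ : ℤ) • q i - (Δ : ℤ) • q j = (Δ : ℤ) • q k' - (Δ : ℤ) • q l
    rw [← smul_sub, ← smul_sub, e2 i hi j hj k' hk' l hl h]
  · intro i hi j hj k' hk' l hl h
    show (Δ : ℤ) • q i - (Δ : ℤ) • q j = ((N * Δ : ℕ) : ℤ) • (k' - l)
    rw [← smul_sub, e3 i hi j hj k' hk' l hl h, smul_smul]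
    push_cast
    rw [mul_comm]

/-! ## The points -/

section Pts

variable {K : Type} [Field K] [Algebra ℚ K]

theorem pos_mul_const {v : DVal K} (hg : GeoF ℚ v) {m : ℚ} (hm : m ≠ 0) (z : K) :
    Pos v (algebraMap ℚ K m * z) ↔ Pos v z := by
  constructor
  · intro h
    have h1 := pos_mul_nn h (FNVM.nn_const hg m⁻¹)
    have h2 : algebraMap ℚ K m * z * algebraMap ℚ K m⁻¹ = z := by
      rw [mul_right_comm, ← map_mul, mul_inv_cancel₀ hm, map_one, one_mul]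
    rwa [h2] at h1
  · intro h
    rw [mul_comm]
    exact pos_mul_nn h (FNVM.nn_const hg m)

theorem pos_int_mul {v : DVal K} (hg : GeoF ℚ v) {m : ℤ} (hm : m ≠ 0) (z : K) :
    Pos v ((m : K) * z) ↔ Pos v z := by
  have h := pos_mul_const (K := K) hg (m := (m : ℚ)) (by exact_mod_cast hm) z
  have h1 : algebraMap ℚ K (m : ℚ) = (m : K) := by simp
  rwa [h1] at h

/-- A rational polynomial in a monomial, denominators cleared. -/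
theorem clear (p : ℚ[X]) (a : ℤ × ℤ) : ∃ (m : ℤ) (A : AddMonoidAlgebra ℤ (ℤ × ℤ)), m ≠ 0 ∧
    ∀ (R : Type) [Field R] [Algebra ℚ R] (x y : R), x ≠ 0 → y ≠ 0 →
      evP x y A = (m : R) * aeval (x ^ a.1 * y ^ a.2) p := by
  obtain ⟨b, hb0, hb⟩ := IsLocalization.integerNormalization_spec (nonZeroDivisors ℤ) p
  refine ⟨b, aeval (AddMonoidAlgebra.single a (1 : ℤ))
    (IsLocalization.integerNormalization (nonZeroDivisors ℤ) p),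
    nonZeroDivisors.ne_zero hb0, ?_⟩
  intro R _ _ x y hx hy
  rw [evP_eq' hx hy, ← aeval_algHom_apply, hP_single, Int.cast_one, one_mul]
  have h1 : ((Units.mk0 x hx ^ a.1 * Units.mk0 y hy ^ a.2 : Rˣ) : R) = x ^ a.1 * y ^ a.2 := by
    simp
  rw [h1]
  have h2 := congrArg (aeval (x ^ a.1 * y ^ a.2)) hb
  rw [aeval_map_algebraMap] at h2
  rw [h2, map_zsmul, zsmul_eq_mul]

theorem alg_zpow_mul {ξ η : ℂ} (hξ : IsAlgebraic ℚ ξ) (hη : IsAlgebraic ℚ η) (i j : ℤ) :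
    IsAlgebraic ℚ (ξ ^ i * η ^ j) := by
  have m1 : ξ ∈ algebraicClosure ℚ ℂ := (mem_algebraicClosure_iff).2 hξ
  have m2 : η ∈ algebraicClosure ℚ ℂ := (mem_algebraicClosure_iff).2 hη
  exact (mem_algebraicClosure_iff).1 (mul_mem (zpow_mem m1 _) (zpow_mem m2 _))

theorem mono_mt {R : Type} [Field R] {c₁ c₂ ξ η : R} (hξ : ξ ≠ 0) (hη : η ≠ 0)
    (α β γ δ : ℤ) (a a'' : ℤ × ℤ) (k : ℕ) (h : mt α β γ δ a = (k : ℤ) • a'') :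
    (c₁ * (ξ ^ α * η ^ β)) ^ a.1 * (c₂ * (ξ ^ γ * η ^ δ)) ^ a.2 =
      c₁ ^ a.1 * c₂ ^ a.2 * (ξ ^ a''.1 * η ^ a''.2) ^ k := by
  have h1 : α * a.1 + γ * a.2 = k * a''.1 := congrArg Prod.fst h
  have h2 : β * a.1 + δ * a.2 = k * a''.2 := congrArg Prod.snd h
  rw [mul_zpow, mul_zpow, mul_zpow, mul_zpow, ← zpow_mul, ← zpow_mul, ← zpow_mul, ← zpow_mul,
    mul_pow, ← zpow_natCast (ξ ^ a''.1), ← zpow_natCast (η ^ a''.2), ← zpow_mul, ← zpow_mul]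
  have e1 : ξ ^ (a''.1 * (k : ℤ)) = ξ ^ (α * a.1) * ξ ^ (γ * a.2) := by
    rw [← zpow_add₀ hξ, h1, mul_comm]
  have e2 : η ^ (a''.2 * (k : ℤ)) = η ^ (β * a.1) * η ^ (δ * a.2) := by
    rw [← zpow_add₀ hη, h2, mul_comm]
  rw [e1, e2]
  ring

theorem points (hPTS : SpecPTS) (hSUB : SpecSUB) (hCN2 : SpecCN2) {x y x' y' : Kˣ}
    {c₁ c₂ : ℚ} {α β γ δ : ℤ} (hp : Pre K x' y') (hR : Rel K x y x' y' c₁ c₂ α β γ δ)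
    {a a'' c : ℤ × ℤ} {k n : ℕ} {p : ℚ[X]} (hc : ip c a = 1)
    (hmt : mt α β γ δ a = (k : ℤ) • a'') (hn : 0 < n) (hpi : Irreducible p)
    (hpd : p ∣ (cyclotomic n ℚ).comp (C (c₁ ^ a.1 * c₂ ^ a.2) * X ^ k))
    {v w : DVal K} (hgv : GeoF ℚ v) (hgw : GeoF ℚ w) (hvx : v.ord x' = 0) (hvy : v.ord y' = 0)
    (hwx : w.ord x' = 0) (hwy : w.ord y' = 0)
    (hv : Pos v (aeval ((x' ^ a''.1 * y' ^ a''.2 : Kˣ) : K) p))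
    (hw : Pos w (aeval ((x' ^ a''.1 * y' ^ a''.2 : Kˣ) : K) p))
    {P' : AddMonoidAlgebra ℤ (ℤ × ℤ)} (hP' : evP (x' : K) (y' : K) P' = 0) :
    ∃ (ζ s₁ s₂ ξ₁ η₁ ξ₂ η₂ : ℂ), ζ ^ n = 1 ∧ s₁ ≠ 0 ∧ s₂ ≠ 0 ∧ IsAlgebraic ℚ s₁ ∧
      IsAlgebraic ℚ s₂ ∧ ξ₁ ≠ 0 ∧ η₁ ≠ 0 ∧ ξ₂ ≠ 0 ∧ η₂ ≠ 0 ∧
      ((c₁ : ℂ) * (ξ₁ ^ α * η₁ ^ β) = ζ ^ c.1 * s₁ ^ (-a.2) ∧
        (c₂ : ℂ) * (ξ₁ ^ γ * η₁ ^ δ) = ζ ^ c.2 * s₁ ^ a.1) ∧
      ((c₁ : ℂ) * (ξ₂ ^ α * η₂ ^ β) = ζ ^ c.1 * s₂ ^ (-a.2) ∧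
        (c₂ : ℂ) * (ξ₂ ^ γ * η₂ ^ δ) = ζ ^ c.2 * s₂ ^ a.1) ∧
      ξ₁ ^ a''.1 * η₁ ^ a''.2 = ξ₂ ^ a''.1 * η₂ ^ a''.2 ∧
      evP ξ₁ η₁ P' = 0 ∧ evP ξ₂ η₂ P' = 0 ∧
      (∀ A : AddMonoidAlgebra ℤ (ℤ × ℤ), Pos v (evP (x : K) (y : K) A) ↔
        evP (ζ ^ c.1 * s₁ ^ (-a.2)) (ζ ^ c.2 * s₁ ^ a.1) A = 0) ∧
      ∀ A : AddMonoidAlgebra ℤ (ℤ × ℤ), Pos w (evP (x : K) (y : K) A) ↔
        evP (ζ ^ c.1 * s₂ ^ (-a.2)) (ζ ^ c.2 * s₂ ^ a.1) A = 0 := by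
  have hcK : CharZero K := algebraRat.charZero K
  obtain ⟨ξ₁, η₁, hξ₁, hη₁, aξ₁, aη₁, h1⟩ := hPTS K x' y' hp.toInd v hgv hvx hvy
  obtain ⟨ξ', η', hξ', hη', aξ', aη', h1'⟩ := hPTS K x' y' hp.toInd w hgw hwx hwy
  have hu : ((x' ^ a''.1 * y' ^ a''.2 : Kˣ) : K) = (x' : K) ^ a''.1 * (y' : K) ^ a''.2 := by
    push_cast
    rfl
  rw [hu] at hv hw
  obtain ⟨m, A, hm, hA⟩ := clear p a''
  have hmC : (m : ℂ) ≠ 0 := by exact_mod_cast hm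
  have hκ1 : aeval (ξ₁ ^ a''.1 * η₁ ^ a''.2) p = 0 := by
    have h2 := (h1 A).2 (by
      rw [hA K _ _ x'.ne_zero y'.ne_zero, pos_int_mul hgv hm]
      exact hv)
    rw [hA ℂ _ _ hξ₁ hη₁] at h2
    exact (mul_eq_zero.1 h2).resolve_left hmC
  have hκ2 : aeval (ξ' ^ a''.1 * η' ^ a''.2) p = 0 := by
    have h2 := (h1' A).2 (by
      rw [hA K _ _ x'.ne_zero y'.ne_zero, pos_int_mul hgw hm]
      exact hw)
    rw [hA ℂ _ _ hξ' hη'] at h2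
    exact (mul_eq_zero.1 h2).resolve_left hmC
  obtain ⟨ξ₂, η₂, hξ₂, hη₂, aξ₂, aη₂, hκ, h3⟩ := hCN2 p a'' ξ₁ η₁ ξ' η' hpi hξ₁ hη₁ hξ' hη'
    aξ₁ aη₁ aξ' aη' hκ1 hκ2
  have hc1 : (c₁ : ℂ) ≠ 0 := by exact_mod_cast hR.c₁0
  have hc2 : (c₂ : ℂ) ≠ 0 := by exact_mod_cast hR.c₂0
  have hX : ∀ ξ η : ℂ, ξ ≠ 0 → η ≠ 0 → (c₁ : ℂ) * (ξ ^ α * η ^ β) ≠ 0 := fun ξ η h h' =>
    mul_ne_zero hc1 (mul_ne_zero (zpow_ne_zero _ h) (zpow_ne_zero _ h'))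
  have hY : ∀ ξ η : ℂ, ξ ≠ 0 → η ≠ 0 → (c₂ : ℂ) * (ξ ^ γ * η ^ δ) ≠ 0 := fun ξ η h h' =>
    mul_ne_zero hc2 (mul_ne_zero (zpow_ne_zero _ h) (zpow_ne_zero _ h'))
  have aX : ∀ ξ η : ℂ, IsAlgebraic ℚ ξ → IsAlgebraic ℚ η → ∀ i j : ℤ, ∀ q : ℚ,
      IsAlgebraic ℚ ((q : ℂ) * (ξ ^ i * η ^ j)) := fun ξ η h h' i j q =>
    (by simpa using isAlgebraic_algebraMap (R := ℚ) (A := ℂ) q : IsAlgebraic ℚ (q : ℂ)).mul
      (alg_zpow_mul h h' i j)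
  set ζ : ℂ := (c₁ : ℂ) ^ a.1 * (c₂ : ℂ) ^ a.2 * (ξ₁ ^ a''.1 * η₁ ^ a''.2) ^ k with hζ
  have hz1 := mono_mt (c₁ := (c₁ : ℂ)) (c₂ := (c₂ : ℂ)) hξ₁ hη₁ α β γ δ a a'' k hmt
  have hz2 := mono_mt (c₁ := (c₁ : ℂ)) (c₂ := (c₂ : ℂ)) hξ₂ hη₂ α β γ δ a a'' k hmt
  rw [← hκ, ← hζ] at hz2
  rw [← hζ] at hz1
  have hζn : ζ ^ n = 1 := by
    obtain ⟨q, hq⟩ := hpd
    have h4 : aeval (ξ₁ ^ a''.1 * η₁ ^ a''.2)
        ((cyclotomic n ℚ).comp (C (c₁ ^ a.1 * c₂ ^ a.2) * X ^ k)) = 0 := by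
      rw [hq, map_mul (aeval (ξ₁ ^ a''.1 * η₁ ^ a''.2)) p q, hκ1, zero_mul]
    rw [aeval_comp] at h4
    have h5 : aeval (ξ₁ ^ a''.1 * η₁ ^ a''.2) (C (c₁ ^ a.1 * c₂ ^ a.2) * X ^ k) = ζ := by
      rw [hζ, map_mul (aeval (ξ₁ ^ a''.1 * η₁ ^ a''.2)), aeval_C, map_pow, aeval_X]
      simp
    rw [h5, aeval_def, ← eval_map, map_cyclotomic] at h4
    have : NeZero (n : ℂ) := ⟨by exact_mod_cast hn.ne'⟩
    exact (isRoot_cyclotomic_iff.1 h4).pow_eq_one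
  obtain ⟨p1, p2⟩ := CNJM.par a c hc _ _ (hX ξ₁ η₁ hξ₁ hη₁) (hY ξ₁ η₁ hξ₁ hη₁)
  obtain ⟨p3, p4⟩ := CNJM.par a c hc _ _ (hX ξ₂ η₂ hξ₂ hη₂) (hY ξ₂ η₂ hξ₂ hη₂)
  rw [hz1] at p1 p2
  rw [hz2] at p3 p4
  have tr : ∀ (v : DVal K), GeoF ℚ v → ∀ ξ η ξ' η' : ℂ, ξ ≠ 0 → η ≠ 0 → ξ' ≠ 0 → η' ≠ 0 →
      (∀ A : AddMonoidAlgebra ℤ (ℤ × ℤ), evP ξ' η' A = 0 ↔ Pos v (evP (x' : K) (y' : K) A)) →
      (∀ A : AddMonoidAlgebra ℤ (ℤ × ℤ), evP ξ' η' A = 0 ↔ evP ξ η A = 0) →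
      ∀ A : AddMonoidAlgebra ℤ (ℤ × ℤ), Pos v (evP (x : K) (y : K) A) ↔
        evP ((c₁ : ℂ) * (ξ ^ α * η ^ β)) ((c₂ : ℂ) * (ξ ^ γ * η ^ δ)) A = 0 := by
    intro v hg ξ η ξ' η' h4 h5 h6 h7 h8 h9 A
    obtain ⟨m', A', hm', h10, -⟩ := hSUB c₁ c₂ α β γ δ hR.c₁0 hR.c₂0 hR.det A
    have h11 := h10 K (x' : K) (y' : K) x'.ne_zero y'.ne_zero
    have h12 : (c₁ : K) * ((x' : K) ^ α * (y' : K) ^ β) = x := by
      rw [hR.hx]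
      simp
    have h13 : (c₂ : K) * ((x' : K) ^ γ * (y' : K) ^ δ) = y := by
      rw [hR.hy]
      simp
    rw [h12, h13] at h11
    have h14 := h10 ℂ ξ η h4 h5
    rw [← pos_int_mul hg hm', ← h11, ← h8 A', h9 A', h14, mul_eq_zero]
    have : (m' : ℂ) ≠ 0 := by exact_mod_cast hm'
    tauto
  refine ⟨ζ, _, _, ξ₁, η₁, ξ₂, η₂, hζn, ?_, ?_, ?_, ?_, hξ₁, hη₁, hξ₂, hη₂, ⟨p1.symm, p2.symm⟩,
    ⟨p3.symm, p4.symm⟩, hκ, ?_, ?_, ?_, ?_⟩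
  · exact mul_ne_zero (zpow_ne_zero _ (hX _ _ hξ₁ hη₁)) (zpow_ne_zero _ (hY _ _ hξ₁ hη₁))
  · exact mul_ne_zero (zpow_ne_zero _ (hX _ _ hξ₂ hη₂)) (zpow_ne_zero _ (hY _ _ hξ₂ hη₂))
  · exact alg_zpow_mul (aX _ _ aξ₁ aη₁ _ _ _) (aX _ _ aξ₁ aη₁ _ _ _) _ _
  · exact alg_zpow_mul (aX _ _ aξ₂ aη₂ _ _ _) (aX _ _ aξ₂ aη₂ _ _ _) _ _
  · rw [h1, hP']
    exact Or.inl rfl
  · rw [← h3, h1', hP']
    exact Or.inl rfl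
  · rw [p1, p2]
    exact tr v hgv ξ₁ η₁ ξ₁ η₁ hξ₁ hη₁ hξ₁ hη₁ h1 (fun _ => Iff.rfl)
  · rw [p3, p4]
    exact tr w hgw ξ₂ η₂ ξ' η' hξ₂ hη₂ hξ' hη' h1' h3

end Pts

/-! ## The polynomial `G` -/

theorem ev1_sh {s : ℂ} (hs : s ≠ 0) (G : AddMonoidAlgebra ℂ ℤ) :
    ev1 (sh ℤ G) s = (starRingEnd ℂ) (ev1 G ((starRingEnd ℂ) s)⁻¹) := by
  have hs' : ((starRingEnd ℂ) s)⁻¹ ≠ 0 := inv_ne_zero ((_root_.map_ne_zero _).2 hs)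
  induction G using AddMonoidAlgebra.induction_linear with
  | zero => simp [ev1]
  | add P Q hP hQ => rw [map_add, ev1_add hs, ev1_add hs', map_add, hP, hQ]
  | single k z =>
    rw [sh_single, ev1_single, ev1_single, map_mul, map_zpow₀, map_inv₀, Complex.conj_conj,
      inv_zpow, zpow_neg]

theorem conj_inv_invol (s : ℂ) : ((starRingEnd ℂ) ((starRingEnd ℂ) s)⁻¹)⁻¹ = s := by
  rw [map_inv₀, Complex.conj_conj, inv_inv]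

theorem exG (hLJG : SpecLJG) {n : ℕ} (hn : 0 < n) {f : AddMonoidAlgebra ℂ ℤ} (hf : f ≠ 0)
    (hfi : ∀ i, f.coeff i ∈ AB.Cyc n ∧ IsIntegral ℤ (f.coeff i)) {s₁ s₂ : ℂ} (hs₁ : s₁ ≠ 0)
    (hs₂ : s₂ ≠ 0) (h12 : minpoly (AB.Cyc n) s₁ ≠ minpoly (AB.Cyc n) s₂)
    (hcase : (ev1 f ((starRingEnd ℂ) s₁)⁻¹ ≠ 0 ∧ ev1 f ((starRingEnd ℂ) s₂)⁻¹ ≠ 0) ∨
      (minpoly (AB.Cyc n) s₁ ≠ minpoly (AB.Cyc n) ((starRingEnd ℂ) s₁)⁻¹ ∧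
        minpoly (AB.Cyc n) s₂ ≠ minpoly (AB.Cyc n) ((starRingEnd ℂ) s₂)⁻¹ ∧
        minpoly (AB.Cyc n) ((starRingEnd ℂ) s₁)⁻¹ ≠
          minpoly (AB.Cyc n) ((starRingEnd ℂ) s₂)⁻¹)) :
    ∃ G : AddMonoidAlgebra ℂ ℤ, G * sh ℤ G = f * sh ℤ f ∧
      (∀ i, G.coeff i ∈ AB.Cyc n ∧ (G.coeff i ≠ 0 → 1 ≤ AB.M (G.coeff i))) ∧
      ev1 (sh ℤ G) s₁ ≠ 0 ∧ ev1 G s₂ ≠ 0 := by
  have hs₁' : ((starRingEnd ℂ) s₁)⁻¹ ≠ 0 := inv_ne_zero ((_root_.map_ne_zero _).2 hs₁)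
  rcases hcase with ⟨h1, h2⟩ | ⟨h1, h2, h3⟩
  · obtain ⟨G, hG1, hG2, hG3⟩ := hLJG n f {s | minpoly (AB.Cyc n) s = minpoly (AB.Cyc n) s₁} hn hfi
      hf (fun s hs t _ hst => (hst.symm.trans hs : minpoly (AB.Cyc n) t = _))
    refine ⟨G, hG1, hG2, ?_, ?_⟩
    · rw [ev1_sh hs₁]
      intro h0
      have h4 := (map_eq_zero _).1 h0
      rw [hG3 _ hs₁', conj_inv_invol] at h4
      rcases h4 with ⟨h4, -⟩ | ⟨-, h4⟩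
      · exact h1 h4
      · exact h4 rfl
    · rw [Ne, hG3 _ hs₂]
      rintro (⟨-, h4⟩ | ⟨h4, -⟩)
      · exact h12 (h4 : minpoly (AB.Cyc n) s₂ = minpoly (AB.Cyc n) s₁).symm
      · exact h2 h4
  · obtain ⟨G, hG1, hG2, hG3⟩ := hLJG n f {s | minpoly (AB.Cyc n) s = minpoly (AB.Cyc n) s₁ ∨
      minpoly (AB.Cyc n) s = minpoly (AB.Cyc n) ((starRingEnd ℂ) s₂)⁻¹} hn hfi hf
      (fun s hs t _ hst => hs.imp (fun h => hst.symm.trans h) (fun h => hst.symm.trans h))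
    refine ⟨G, hG1, hG2, ?_, ?_⟩
    · rw [ev1_sh hs₁]
      intro h0
      have h4 := (map_eq_zero _).1 h0
      rw [hG3 _ hs₁', conj_inv_invol] at h4
      rcases h4 with ⟨-, h4 | h4⟩ | ⟨-, h4⟩
      · exact h1 h4.symm
      · exact h3 h4
      · exact h4 (Or.inl rfl)
    · rw [Ne, hG3 _ hs₂]
      rintro (⟨-, h4 | h4⟩ | ⟨-, h4⟩)
      · exact h12 h4.symm
      · exact h2 h4
      · exact h4 (Or.inr rfl)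

theorem inv_invol (A : AddMonoidAlgebra ℤ (ℤ × ℤ)) : inv (inv A) = A := by
  induction A using AddMonoidAlgebra.induction_linear with
  | zero => unfold inv; rw [map_zero, map_zero]
  | add P Q hP hQ =>
    unfold inv at *
    rw [map_add, map_add, hP, hQ]
  | single k z =>
    have h1 : ∀ (k : ℤ × ℤ) (z : ℤ), inv (AddMonoidAlgebra.single k z) =
        AddMonoidAlgebra.single (-k) z := by
      intro k z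
      simp [inv]
    rw [h1, h1, neg_neg]

theorem alg_conj {s : ℂ} (hs : IsAlgebraic ℚ s) : IsAlgebraic ℚ ((starRingEnd ℂ) s)⁻¹ := by
  have h1 := hs.algHom (RingHom.toRatAlgHom (starRingEnd ℂ))
  exact IsAlgebraic.inv h1

theorem caseA (hLJG : SpecLJG) (hPTS : SpecPTS) (hSUB : SpecSUB) (hCN2 : SpecCN2) {K : Type}
    [Field K] [Algebra ℚ K] {x y x' y' : Kˣ}
    {c₁ c₂ : ℚ} {α β γ δ : ℤ} (hp : Pre K x' y') (hR : Rel K x y x' y' c₁ c₂ α β γ δ)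
    {P P' : AddMonoidAlgebra ℤ (ℤ × ℤ)} (hP : P ≠ 0)
    (hP' : evP (x' : K) (y' : K) P' = 0)
    {a a'' : ℤ × ℤ} {k n : ℕ} {p : ℚ[X]} (ha : IsCoprime a.1 a.2) (ha'' : IsCoprime a''.1 a''.2)
    (hmt : mt α β γ δ a = (k : ℤ) • a'') (hn : 0 < n) (hpi : Irreducible p)
    (hpd : p ∣ (cyclotomic n ℚ).comp (C (c₁ ^ a.1 * c₂ ^ a.2) * X ^ k))
    {v w : DVal K} (hgv : GeoF ℚ v) (hgw : GeoF ℚ w) (hvx : v.ord x' = 0) (hvy : v.ord y' = 0)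
    (hwx : w.ord x' = 0) (hwy : w.ord y' = 0)
    (hv : Pos v (aeval ((x' ^ a''.1 * y' ^ a''.2 : Kˣ) : K) p))
    (hw : Pos w (aeval ((x' ^ a''.1 * y' ^ a''.2 : Kˣ) : K) p))
    (hsm : ∀ k ∈ P.coeff.support, ∀ l ∈ P.coeff.support,
      ip (-a.2, a.1) k = ip (-a.2, a.1) l → k = l)
    (hne : ¬ ∀ A : AddMonoidAlgebra ℤ (ℤ × ℤ),
      Pos v (evP (x : K) (y : K) A) ↔ Pos w (evP (x : K) (y : K) A))
    (hcase : (¬ Pos v (evP (x : K) (y : K) (inv P)) ∧ ¬ Pos w (evP (x : K) (y : K) (inv P))) ∨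
      ((¬ ∀ A : AddMonoidAlgebra ℤ (ℤ × ℤ),
        Pos v (evP (x : K) (y : K) A) ↔ Pos v (evP (x : K) (y : K) (inv A))) ∧
      ¬ ∀ A : AddMonoidAlgebra ℤ (ℤ × ℤ),
        Pos w (evP (x : K) (y : K) A) ↔ Pos w (evP (x : K) (y : K) (inv A)))) :
    Bad3 P P' c₁ c₂ α β γ δ a := by
  obtain ⟨u₁, u₂, hu⟩ := ha
  set c : ℤ × ℤ := (u₁, u₂) with hc
  have hca : ip c a = 1 := hu
  obtain ⟨ζ, s₁, s₂, ξ₁, η₁, ξ₂, η₂, hζ1, hs₁, hs₂, as₁, as₂, hξ₁, hη₁, hξ₂, hη₂, r1, r2, hκ, q1,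
    q2, kv, kw⟩ := points hPTS hSUB hCN2 hp hR hca hmt hn hpi hpd hgv hgw hvx hvy hwx hwy hv hw hP'
  have hζ0 : ζ ≠ 0 := by
    intro h0
    rw [h0, zero_pow hn.ne'] at hζ1
    exact zero_ne_one hζ1
  have hζn : ‖ζ‖ = 1 := Complex.norm_eq_one_of_pow_eq_one hζ1 hn.ne'
  have i₁ : IsIntegral (AB.Cyc n) s₁ := as₁.isIntegral.tower_top
  have i₂ : IsIntegral (AB.Cyc n) s₂ := as₂.isIntegral.tower_top
  have i₁' : IsIntegral (AB.Cyc n) ((starRingEnd ℂ) s₁)⁻¹ := (alg_conj as₁).isIntegral.tower_top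
  have cj : ∀ {s : ℂ} {u : DVal K}, s ≠ 0 → (∀ A : AddMonoidAlgebra ℤ (ℤ × ℤ),
      Pos u (evP (x : K) (y : K) A) ↔
        evP (ζ ^ c.1 * s ^ (-a.2)) (ζ ^ c.2 * s ^ a.1) A = 0) →
      ∀ A : AddMonoidAlgebra ℤ (ℤ × ℤ), Pos u (evP (x : K) (y : K) (inv A)) ↔
        evP (ζ ^ c.1 * (((starRingEnd ℂ) s)⁻¹) ^ (-a.2))
          (ζ ^ c.2 * (((starRingEnd ℂ) s)⁻¹) ^ a.1) A = 0 := by
    intro s u hs hk A
    have h1 := evP_conj hζn hs c (-a.2, a.1) A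
    simp only at h1
    rw [h1, map_eq_zero, hk (inv A)]
  have hf : sp ζ c (-a.2, a.1) P ≠ 0 := sp_ne_zero hP hζ0 c _ hsm
  have fz : ∀ {s : ℂ}, s ≠ 0 → (ev1 (sp ζ c (-a.2, a.1) P) s = 0 ↔
      evP (ζ ^ c.1 * s ^ (-a.2)) (ζ ^ c.2 * s ^ a.1) P = 0) := by
    intro s hs
    rw [ev1_sp hζ0 hs]
  have hG := exG hLJG hn hf (PU2M.sp_int hn hζ1 c _ P) hs₁ hs₂ ?_ ?_
  · obtain ⟨G, hG1, hG2, hG3, hG4⟩ := hG
    exact ⟨n, ζ, c, a'', k, G, s₁, s₂, ξ₁, η₁, ξ₂, η₂, hn, hζ1, hca, ha'', hmt, hs₁, hs₂, hξ₁, hη₁,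
      hξ₂, hη₂, r1, r2, hκ, q1, q2, hG1, hG2, hG3, hG4⟩
  · intro h0
    apply hne
    intro A
    rw [kv, kw]
    exact coset_iff hn hζ1 i₁ h0 c (-a.2, a.1) A
  · rcases hcase with ⟨h1, h2⟩ | ⟨h1, h2⟩
    · left
      constructor
      · rw [Ne, fz (inv_ne_zero ((_root_.map_ne_zero _).2 hs₁)), ← cj hs₁ kv]
        exact h1
      · rw [Ne, fz (inv_ne_zero ((_root_.map_ne_zero _).2 hs₂)), ← cj hs₂ kw]
        exact h2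
    · right
      refine ⟨fun h0 => h1 fun A => ?_, fun h0 => h2 fun A => ?_, fun h0 => hne fun A => ?_⟩
      · rw [kv, cj hs₁ kv]
        exact coset_iff hn hζ1 i₁ h0 c (-a.2, a.1) A
      · rw [kw, cj hs₂ kw]
        exact coset_iff hn hζ1 i₂ h0 c (-a.2, a.1) A
      · have h3 := cj hs₁ kv (inv A)
        have h4 := cj hs₂ kw (inv A)
        rw [inv_invol] at h3 h4
        rw [h3, h4]
        exact coset_iff hn hζ1 i₁' h0 c (-a.2, a.1) (inv A)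

/-! ## The involution -/

section Sig

variable {K : Type} [Field K] [Algebra ℚ K] {σ : K ≃ₐ[ℚ] K}

theorem sig_sig {x y : Kˣ} (hI : Ind K x y) (hx : σ x = (x : K)⁻¹) (hy : σ y = (y : K)⁻¹)
    (z : K) : σ (σ z) = z := by
  have hz : z ∈ IntermediateField.adjoin ℚ {(x : K), (y : K)} := by rw [hI.gen]; trivial
  induction hz using IntermediateField.adjoin_induction with
  | mem w hw =>
    rcases hw with rfl | hw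
    · rw [hx, map_inv₀, hx, inv_inv]
    · rw [Set.mem_singleton_iff] at hw
      rw [hw, hy, map_inv₀, hy, inv_inv]
  | algebraMap q => rw [AlgEquiv.commutes, AlgEquiv.commutes]
  | add a b _ _ ha hb => rw [map_add, map_add, ha, hb]
  | inv a _ ha => rw [map_inv₀, map_inv₀, ha]
  | mul a b _ _ ha hb => rw [map_mul, map_mul, ha, hb]

theorem dm_dm {x y : Kˣ} (hI : Ind K x y) (hx : σ x = (x : K)⁻¹) (hy : σ y = (y : K)⁻¹)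
    (v : DVal K) : dm σ (dm σ v) = v := by
  apply FNVM.dval_ext
  funext u
  rw [dm_ord, dm_ord]
  congr 1
  apply Units.ext
  rw [um_val, um_val, sig_sig hI hx hy]

theorem inv_iff (v : DVal K) : Inv σ v ↔ dm σ v = v := by
  constructor
  · intro h
    apply FNVM.dval_ext
    funext u
    rw [dm_ord]
    exact h u _ rfl
  · intro h u w hw
    have hw' : w = um σ u := Units.ext hw
    rw [hw', ← dm_ord, h]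

/-- The zeros of `p(u)` are permuted if one of them is invariant. -/
theorem perm {x y x' y' : Kˣ} {c₁ c₂ : ℚ} {α β γ δ : ℤ} (hp : Pre K x' y')
    (hR : Rel K x y x' y' c₁ c₂ α β γ δ) (hx : σ x = (x : K)⁻¹) (hy : σ y = (y : K)⁻¹)
    {a a'' : ℤ × ℤ} {k : ℕ} {p : ℚ[X]} (ha'' : IsCoprime a''.1 a''.2) (hk : 0 < k)
    (hmt : mt α β γ δ a = (k : ℤ) • a'') (hpi : Irreducible p)
    {v w : DVal K} (hgv : GeoF ℚ v) (hgw : GeoF ℚ w) (hvx : v.ord x' = 0) (hvy : v.ord y' = 0)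
    (hwx : w.ord x' = 0) (hwy : w.ord y' = 0)
    (hv : Pos v (aeval ((x' ^ a''.1 * y' ^ a''.2 : Kˣ) : K) p))
    (hw : Pos w (aeval ((x' ^ a''.1 * y' ^ a''.2 : Kˣ) : K) p)) (hi : dm σ w = w) :
    Pos (dm σ v) (aeval ((x' ^ a''.1 * y' ^ a''.2 : Kˣ) : K) p) := by
  have hcK : CharZero K := algebraRat.charZero K
  set u : Kˣ := x' ^ a''.1 * y' ^ a''.2 with hu
  have hut : Transcendental ℚ (u : K) := AS2M.transc hp ha''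
  have huv : v.ord u = 0 := by
    rw [hu, v.ord_mul, v.ord_zpow, v.ord_zpow, hvx, hvy, mul_zero, mul_zero, add_zero]
  have huw : w.ord u = 0 := by
    rw [hu, w.ord_mul, w.ord_zpow, w.ord_zpow, hwx, hwy, mul_zero, mul_zero, add_zero]
  -- `σ u = e / u`
  have hh : (x : K) ^ a.1 * (y : K) ^ a.2 = algebraMap ℚ K (c₁ ^ a.1 * c₂ ^ a.2) * (u : K) ^ k := by
    have h1 := mono_mt (c₁ := (c₁ : K)) (c₂ := (c₂ : K)) x'.ne_zero y'.ne_zero α β γ δ a a'' k hmt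
    have h12 : (c₁ : K) * ((x' : K) ^ α * (y' : K) ^ β) = x := by
      rw [hR.hx]
      simp
    have h13 : (c₂ : K) * ((x' : K) ^ γ * (y' : K) ^ δ) = y := by
      rw [hR.hy]
      simp
    rw [h12, h13] at h1
    rw [h1, hu]
    simp
  set C₀ : ℚ := c₁ ^ a.1 * c₂ ^ a.2 with hC₀
  have hC0 : C₀ ≠ 0 := mul_ne_zero (zpow_ne_zero _ hR.c₁0) (zpow_ne_zero _ hR.c₂0)
  have hC0K : algebraMap ℚ K C₀ ≠ 0 := by rwa [Ne, map_eq_zero]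
  have hs : (σ u * u) ^ k = algebraMap ℚ K (C₀⁻¹ * C₀⁻¹) := by
    have h1 : (u : K) ^ k = algebraMap ℚ K C₀⁻¹ * ((x : K) ^ a.1 * (y : K) ^ a.2) := by
      rw [hh, ← mul_assoc, ← map_mul, inv_mul_cancel₀ hC0, map_one, one_mul]
    have h2 : (σ u) ^ k = algebraMap ℚ K C₀⁻¹ * ((x : K)⁻¹ ^ a.1 * (y : K)⁻¹ ^ a.2) := by
      rw [← map_pow, h1, map_mul, AlgEquiv.commutes, map_mul, map_zpow₀, map_zpow₀, hx, hy]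
    have hx0 := zpow_ne_zero a.1 x.ne_zero
    have hy0 := zpow_ne_zero a.2 y.ne_zero
    rw [mul_pow, h1, h2, inv_zpow, inv_zpow, map_mul]
    field_simp
  obtain ⟨e, he⟩ : ∃ e : ℚ, σ u * u = algebraMap ℚ K e := by
    apply hp.const
    refine IsAlgebraic.of_pow hk ?_
    rw [hs]
    exact isAlgebraic_algebraMap _
  have hsu : σ (u : K) = algebraMap ℚ K e * (u : K)⁻¹ := by
    rw [← he, mul_assoc, mul_inv_cancel₀ u.ne_zero, mul_one]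
  -- the reversed polynomial
  set q : ℚ[X] := (p.comp (C e * X)).reverse with hq
  have hqv : ∀ z : DVal K, z.ord u = 0 →
      (Pos z (aeval (u : K) q) ↔ Pos z (σ (aeval (u : K) p))) := by
    intro z hz
    have h1 : σ (aeval (u : K) p) = aeval ((u : K)⁻¹) (p.comp (C e * X)) := by
      rw [aeval_comp, map_mul, aeval_C, aeval_X, ← hsu]
      exact (aeval_algHom_apply (σ : K →ₐ[ℚ] K) (u : K) p).symm
    let _ : Invertible ((u : K)⁻¹) := invertibleOfNonzero (inv_ne_zero u.ne_zero)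
    have h2 := eval₂_reverse_mul_pow (algebraMap ℚ K) ((u : K)⁻¹) (p.comp (C e * X))
    rw [invOf_eq_inv, inv_inv, ← aeval_def, ← aeval_def, ← h1, ← hq] at h2
    have hn : ∀ (d : ℕ), NN z (((u : K)⁻¹) ^ d) ∧ NN z ((u : K) ^ d) := by
      intro d
      constructor
      · rw [← Units.val_inv_eq_inv_val, ← Units.val_pow_eq_pow_val, nn_unit, z.ord_pow, z.ord_inv,
          hz]
        simp
      · rw [← Units.val_pow_eq_pow_val, nn_unit, z.ord_pow, hz]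
        simp
    constructor
    · intro h
      rw [← h2]
      exact pos_mul_nn h (hn _).1
    · intro h
      rw [← h2] at h
      have h3 := pos_mul_nn h (hn (p.comp (C e * X)).natDegree).2
      rwa [mul_assoc, ← mul_pow, inv_mul_cancel₀ u.ne_zero, one_pow, mul_one] at h3
  have hdvd : p ∣ q := by
    refine PUQM.dvd_of_pos hut hgw (nn_unit.2 huw.ge) hpi hw q ?_
    intro t ht
    have h1 : Pos w (aeval (u : K) q) := by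
      rw [hqv w huw, ← dm_pos, hi]
      exact hw
    rw [← ht, pos_unit] at h1
    omega
  rw [dm_pos, ← hqv v huv]
  obtain ⟨r, hr⟩ := hdvd
  rw [hr, map_mul]
  exact pos_mul_nn hv (ASMM.nn_aeval hgv (nn_unit.2 huv.ge) r)

end Sig

theorem k_pos {α β γ δ : ℤ} (hdet : α * δ - β * γ ≠ 0) {a a'' : ℤ × ℤ} {k : ℕ}
    (ha : IsCoprime a.1 a.2) (h : mt α β γ δ a = (k : ℤ) • a'') : 0 < k := by
  rcases Nat.eq_zero_or_pos k with h0 | h0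
  swap
  · exact h0
  exfalso
  rw [h0, Nat.cast_zero, zero_smul] at h
  have h3 : α * a.1 + γ * a.2 = 0 := congrArg Prod.fst h
  have h4 : β * a.1 + δ * a.2 = 0 := congrArg Prod.snd h
  have h5 : (α * δ - β * γ) * a.1 = 0 := by linear_combination δ * h3 - γ * h4
  have h6 : (α * δ - β * γ) * a.2 = 0 := by linear_combination α * h4 - β * h3
  rw [(mul_eq_zero.1 h5).resolve_left hdet, (mul_eq_zero.1 h6).resolve_left hdet] at ha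
  exact not_isCoprime_zero_zero ha

end PUGM

open PUGM PU3M BAS

theorem specPUG (hLJG : SpecLJG) (hCNT : SpecCNT) (hEXL : SpecEXL) (hTW3 : SpecTW3)
    (hMAT : SpecMAT) (hEQN : SpecEQN) (hKUP : SpecKUP) (hDVD : SpecDVD) (hSUB : SpecSUB)
    (hCN2 : SpecCN2) (hPTS : SpecPTS) (hUNQ : SpecUNQ) (hFNV : SpecFNV) : SpecPUG := by
  intro K _ _ x y x' y' c₁ c₂ α β γ δ hI hp hR
  obtain ⟨P, hP, hP0, hPi, hPd⟩ := hEQN K x y hI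
  obtain ⟨P', hP', hP'0, -, hP'd⟩ := hEQN K x' y' hp.toInd
  have hfin := bad3_finite hCNT hEXL hTW3 hMAT P P' hR.c₁0 hR.c₂0 hR.det
    (hKUP K x' y' hp P' hP' hP'0 hP'd) (hDVD K x y x' y' c₁ c₂ α β γ δ hR P P' hP0 hP'd)
  obtain ⟨c, hc⟩ := hUNQ K x y hI
  have hsf : ∀ f : Kˣ, {v : DVal K | GeoF ℚ v ∧ v.ord f ≠ 0}.Finite :=
    ASMM.supp_finite hFNV (x : K) hI.fin
  have hinj : Function.Injective fun a : ℤ × ℤ => ((-a.2, a.1) : ℤ × ℤ) := by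
    rintro ⟨a, b⟩ ⟨a', b'⟩ h
    simp only [Prod.mk.injEq, neg_inj] at h
    rw [h.1, h.2]
  set T : Set (ℤ × ℤ) := {a : ℤ × ℤ | IsCoprime a.1 a.2 ∧ Bad3 P P' c₁ c₂ α β γ δ a} ∪
    (fun a : ℤ × ℤ => ((-a.2, a.1) : ℤ × ℤ)) ⁻¹' {b : ℤ × ℤ | IsCoprime b.1 b.2 ∧
      ¬ ∀ k ∈ P.coeff.support, ∀ l ∈ P.coeff.support, ip b k = ip b l → k = l} with hT
  have hTf : T.Finite := hfin.union ((small_finite P).preimage hinj.injOn)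
  have hTn : ∀ a ∉ T, IsCoprime a.1 a.2 → ¬ Bad3 P P' c₁ c₂ α β γ δ a ∧
      ∀ k ∈ P.coeff.support, ∀ l ∈ P.coeff.support,
        ip (-a.2, a.1) k = ip (-a.2, a.1) l → k = l := by
    intro a ha hco
    refine ⟨fun h => ha (Or.inl ⟨hco, h⟩), ?_⟩
    by_contra h0
    exact ha (Or.inr ⟨(hco.symm.neg_left : IsCoprime (-a.2) a.1), h0⟩)
  set S₀ : Set (DVal K) := {v | GeoF ℚ v ∧ v.ord x' ≠ 0} ∪ ({v | GeoF ℚ v ∧ v.ord y' ≠ 0} ∪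
    ({v | GeoF ℚ v ∧ v.ord x ≠ 0} ∪ ({v | GeoF ℚ v ∧ v.ord y ≠ 0} ∪
      {v | GeoF ℚ v ∧ v.ord c ≠ 0}))) with hS₀
  have hS₀f : S₀.Finite :=
    (hsf x').union ((hsf y').union ((hsf x).union ((hsf y).union (hsf c))))
  have hS₀n : ∀ v ∉ S₀, GeoF ℚ v → v.ord x' = 0 ∧ v.ord y' = 0 ∧ v.ord x = 0 ∧ v.ord y = 0 ∧
      v.ord c = 0 := by
    intro v hv hg
    refine ⟨?_, ?_, ?_, ?_, ?_⟩ <;> by_contra h0 <;> apply hv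
    · exact Or.inl ⟨hg, h0⟩
    · exact Or.inr (Or.inl ⟨hg, h0⟩)
    · exact Or.inr (Or.inr (Or.inl ⟨hg, h0⟩))
    · exact Or.inr (Or.inr (Or.inr (Or.inl ⟨hg, h0⟩)))
    · exact Or.inr (Or.inr (Or.inr (Or.inr ⟨hg, h0⟩)))
  have uniq : ∀ v w : DVal K, GeoF ℚ v → GeoF ℚ w → v ∉ S₀ → w ∉ S₀ →
      (∀ A : AddMonoidAlgebra ℤ (ℤ × ℤ),
        Pos v (evP (x : K) (y : K) A) ↔ Pos w (evP (x : K) (y : K) A)) → v = w := by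
    intro v w hgv hgw hv hw h
    obtain ⟨-, -, v1, v2, v3⟩ := hS₀n v hv hgv
    obtain ⟨-, -, w1, w2, w3⟩ := hS₀n w hw hgw
    exact hc v w hgv hgw v1 v2 v3 w1 w2 w3 h
  by_cases hσ : ∃ σ : K ≃ₐ[ℚ] K, σ x = (x : K)⁻¹ ∧ σ y = (y : K)⁻¹
  · obtain ⟨σ, hx, hy⟩ := hσ
    have hdinj : Function.Injective (dm σ) := by
      intro v w h
      rw [← dm_dm hI hx hy v, h, dm_dm hI hx hy w]
    have hpi' : ∀ (v : DVal K) (A : AddMonoidAlgebra ℤ (ℤ × ℤ)),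
        Pos (dm σ v) (evP (x : K) (y : K) A) ↔ Pos v (evP (x : K) (y : K) (inv A)) := by
      intro v A
      rw [dm_pos, map_evP' σ hx hy]
    refine ⟨S₀ ∪ dm σ ⁻¹' S₀, T, hS₀f.union (hS₀f.preimage hdinj.injOn), hTf, ?_⟩
    intro a a'' k n p v w ha haT ha'' hmt hn hpi hpd hgv hgw hvS hwS hv hw
    obtain ⟨hbad, hsm⟩ := hTn a haT ha
    have hk := k_pos hR.det ha hmt
    have hA : ∀ v w : DVal K, GeoF ℚ v → GeoF ℚ w → v ∉ S₀ ∪ dm σ ⁻¹' S₀ →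
        w ∉ S₀ ∪ dm σ ⁻¹' S₀ →
        Pos v (aeval ((x' ^ a''.1 * y' ^ a''.2 : Kˣ) : K) p) →
        Pos w (aeval ((x' ^ a''.1 * y' ^ a''.2 : Kˣ) : K) p) →
        dm σ v ≠ v → dm σ w ≠ w → v = w := by
      intro v w hgv hgw hvS hwS hv hw hiv hiw
      have hv0 : v ∉ S₀ := fun h => hvS (Or.inl h)
      have hw0 : w ∉ S₀ := fun h => hwS (Or.inl h)
      have hv1 : dm σ v ∉ S₀ := fun h => hvS (Or.inr h)
      have hw1 : dm σ w ∉ S₀ := fun h => hwS (Or.inr h)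
      obtain ⟨v1, v2, -⟩ := hS₀n v hv0 hgv
      obtain ⟨w1, w2, -⟩ := hS₀n w hw0 hgw
      by_contra hne
      apply hbad
      refine caseA hLJG hPTS hSUB hCN2 hp hR hP hP'0 ha ha'' hmt hn hpi hpd hgv hgw v1 v2 w1 w2
        hv hw hsm (fun h => hne (uniq v w hgv hgw hv0 hw0 h)) (Or.inr ⟨?_, ?_⟩)
      · intro h
        exact hiv (uniq v (dm σ v) hgv (dm_geo hgv) hv0 hv1 fun A => by rw [hpi']; exact h A).symm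
      · intro h
        exact hiw (uniq w (dm σ w) hgw (dm_geo hgw) hw0 hw1 fun A => by rw [hpi']; exact h A).symm
    have hB : ∀ v w : DVal K, GeoF ℚ v → GeoF ℚ w → v ∉ S₀ ∪ dm σ ⁻¹' S₀ →
        w ∉ S₀ ∪ dm σ ⁻¹' S₀ →
        Pos v (aeval ((x' ^ a''.1 * y' ^ a''.2 : Kˣ) : K) p) →
        Pos w (aeval ((x' ^ a''.1 * y' ^ a''.2 : Kˣ) : K) p) →
        dm σ v ≠ v → dm σ w = w → False := by
      intro v w hgv hgw hvS hwS hv hw hiv hiw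
      have hv0 : v ∉ S₀ := fun h => hvS (Or.inl h)
      have hw0 : w ∉ S₀ := fun h => hwS (Or.inl h)
      have hv1 : dm σ v ∉ S₀ := fun h => hvS (Or.inr h)
      obtain ⟨v1, v2, -⟩ := hS₀n v hv0 hgv
      obtain ⟨w1, w2, -⟩ := hS₀n w hw0 hgw
      have h1 := perm hp hR hx hy ha'' hk hmt hpi hgv hgw v1 v2 w1 w2 hv hw hiw
      have h2 : dm σ v ∉ S₀ ∪ dm σ ⁻¹' S₀ := by
        rintro (h | h)
        · exact hv1 h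
        · rw [Set.mem_preimage, dm_dm hI hx hy] at h
          exact hv0 h
      have h3 : dm σ (dm σ v) ≠ dm σ v := by
        rw [dm_dm hI hx hy]
        exact fun h => hiv h.symm
      exact hiv (hA v (dm σ v) hgv (dm_geo hgv) hvS h2 hv h1 hiv h3).symm
    by_cases hiv : dm σ v = v
    · by_cases hiw : dm σ w = w
      · exact Or.inr ⟨σ, hx, hy, (inv_iff v).2 hiv, (inv_iff w).2 hiw⟩
      · exact (hB w v hgw hgv hwS hvS hw hv hiw hiv).elim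
    · by_cases hiw : dm σ w = w
      · exact (hB v w hgv hgw hvS hwS hv hw hiv hiw).elim
      · exact Or.inl (hA v w hgv hgw hvS hwS hv hw hiv hiw)
  · set r : Kˣ := Units.mk0 _ (hPi hσ) with hr
    refine ⟨S₀ ∪ {v | GeoF ℚ v ∧ v.ord r ≠ 0}, T, hS₀f.union (hsf r), hTf, ?_⟩
    intro a a'' k n p v w ha haT ha'' hmt hn hpi hpd hgv hgw hvS hwS hv hw
    obtain ⟨hbad, hsm⟩ := hTn a haT ha
    have hv0 : v ∉ S₀ := fun h => hvS (Or.inl h)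
    have hw0 : w ∉ S₀ := fun h => hwS (Or.inl h)
    obtain ⟨v1, v2, -⟩ := hS₀n v hv0 hgv
    obtain ⟨w1, w2, -⟩ := hS₀n w hw0 hgw
    have hrp : ∀ v : DVal K, GeoF ℚ v → v ∉ S₀ ∪ {v | GeoF ℚ v ∧ v.ord r ≠ 0} →
        ¬ Pos v (evP (x : K) (y : K) (inv P)) := by
      intro v hg hv h
      rw [evP_inv x.ne_zero y.ne_zero] at h
      have h1 : Pos v (r : K) := h
      rw [pos_unit] at h1
      exact hv (Or.inr ⟨hg, by omega⟩)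
    left
    by_contra hne
    apply hbad
    exact caseA hLJG hPTS hSUB hCN2 hp hR hP hP'0 ha ha'' hmt hn hpi hpd hgv hgw v1 v2 w1 w2
      hv hw hsm (fun h => hne (uniq v w hgv hgw hv0 hw0 h))
      (Or.inl ⟨hrp v hgv hvS, hrp w hgw hwS⟩)

end MP743d1e.RT
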