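import Pool.Agent.Lib.MP_743d1e_nt.CY.Spec
import Pool.Agent.Lib.MP_743d1e_nt.Kae
import Pool.Agent.Lib.MP_743d1e_nt.Const

/-!
# Theorem B: finiteness of the rank of `({K^*, x} + {K^*, y}) ∩ K_2`: modules

Paper proof: team store, `MP_743d1e_nt_thmB_h47.md`. Module `XXX` = `RT/XXX.lean`, theorem
`MP743d1e.RT.specXXX : SpecXXX`, auxiliary lemmas in the namespace `MP743d1e.RT.XXXM`.
-/

set_option autoImplicit false

namespace MP743d1e.RT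

open scoped BigOperators
open Polynomial IntermediateField MP743d1e.CY MP743d1e.Integ
open Pool.Agent.Lib.MPcb8a44

/-! ## Laurent polynomials -/

/-- `A ↦ A^♯`: complex conjugation of the coefficients and inversion of the variables. -/
noncomputable def sh (G : Type) [AddCommGroup G] :
    AddMonoidAlgebra ℂ G →+* AddMonoidAlgebra ℂ G :=
  (AddMonoidAlgebra.mapRingHom G (starRingEnd ℂ)).comp
    (AddMonoidAlgebra.mapDomainRingHom ℂ (-(AddMonoidHom.id G)))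

/-- The value of a Laurent polynomial in one variable. -/
noncomputable def ev1 (A : AddMonoidAlgebra ℂ ℤ) (s : ℂ) : ℂ := A.coeff.sum fun i c => c * s ^ i

/-- The pairing of integral vectors. -/
def ip (a k : ℤ × ℤ) : ℤ := a.1 * k.1 + a.2 * k.2

/-- The value of an integral Laurent polynomial in two variables in a field. -/
noncomputable def evP {R : Type} [Field R] (x y : R) (A : AddMonoidAlgebra ℤ (ℤ × ℤ)) : R :=
  A.coeff.sum fun k c => (c : R) * (x ^ k.1 * y ^ k.2)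

/-- `P(z ^ N)` over the complex numbers. -/
noncomputable def PN (N : ℕ) (P : AddMonoidAlgebra ℤ (ℤ × ℤ)) : AddMonoidAlgebra ℂ (ℤ × ℤ) :=
  AddMonoidAlgebra.mapDomainRingHom ℂ (DistribSMul.toAddMonoidHom (ℤ × ℤ) (N : ℤ))
    (AddMonoidAlgebra.mapRingHom (ℤ × ℤ) (Int.castRingHom ℂ) P)

/-- The restriction of `P` to the coset `s ↦ ζ ^ c s ^ b`: `∑ P_k ζ ^ ⟨c, k⟩ s ^ ⟨b, k⟩`. -/
noncomputable def sp (ζ : ℂ) (c b : ℤ × ℤ) (P : AddMonoidAlgebra ℤ (ℤ × ℤ)) :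
    AddMonoidAlgebra ℂ ℤ :=
  P.coeff.sum fun k z => AddMonoidAlgebra.single (ip b k) ((z : ℂ) * ζ ^ ip c k)

/-! ## One variable -/

/-- PRG. Dedekind's Prague theorem.

Proof. `IsIntegral ℤ z` iff `z` is in all valuation rings of `ℂ` (or of a number field containing the
coefficients); Gauss norms are multiplicative. -/
def SpecPRG : Prop := ∀ g h : ℂ[X], (∀ i, IsIntegral ℤ ((g * h).coeff i)) →
  ∀ i j, IsIntegral ℤ (g.coeff i * h.coeff j)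

/-- AMG. As in `AB/Mb.lean`: `M z` is the mean of the conjugates of `z * conj z`, an algebraic integer
which is not zero; inequality of the means and the norm is at least one. -/
def SpecAMG : Prop := ∀ N : ℕ, 0 < N → ∀ z ∈ AB.Cyc N, z ≠ 0 →
  IsIntegral ℤ (z * (starRingEnd ℂ) z) → 1 ≤ AB.M z

/-- LJU (from PRG, AMG). The trick of Ljunggren. `ev1 (sh f) s = 0` means `conj f (1 / s) = 0`.

Proof. Multiply `f` by a power of the variable to get a polynomial; `f = g h` with `g` a power of the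
minimal polynomial of `s₁` over `Cyc n`, `h s₂ = 0`. `G = g h^♯`. `G_k conj G_k` is a sum of products
`(g_i h_j) (conj g_k conj h_l)`. If `G = γ s ^ m f` then `h^♯ = γ s ^ m h` and `h^♯` vanishes at `s₂`, so `f^♯`
does; the other case is the same with `g`, `s₁`. -/
def SpecLJU : Prop := ∀ (n : ℕ) (f : AddMonoidAlgebra ℂ ℤ) (s₁ s₂ : ℂ), 0 < n →
  (∀ i, f.coeff i ∈ AB.Cyc n ∧ IsIntegral ℤ (f.coeff i)) → s₁ ≠ 0 → s₂ ≠ 0 →
  ev1 f s₁ = 0 → ev1 f s₂ = 0 → minpoly (AB.Cyc n) s₁ ≠ minpoly (AB.Cyc n) s₂ →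
  ev1 (sh ℤ f) s₁ ≠ 0 → ev1 (sh ℤ f) s₂ ≠ 0 →
  ∃ G : AddMonoidAlgebra ℂ ℤ, G * sh ℤ G = f * sh ℤ f ∧
    (∀ i, G.coeff i ∈ AB.Cyc n ∧ (G.coeff i ≠ 0 → 1 ≤ AB.M (G.coeff i))) ∧
    ∀ (γ : ℂ) (m : ℤ), G ≠ AddMonoidAlgebra.single m γ * f ∧
      G ≠ AddMonoidAlgebra.single m γ * sh ℤ f

/-- CNT. The number of terms: compare the normalised traces of the coefficients at `0` of
`G G^♯ = f f^♯`: `∑ M (G_i) = ∑ M (f_i) ≤ (∑ |P_k|) ^ 2` (conjugates of `f_e`, `AB.specMF`). -/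
def SpecCNT : Prop := ∀ (P : AddMonoidAlgebra ℤ (ℤ × ℤ)) (n : ℕ) (ζ : ℂ) (c b : ℤ × ℤ)
  (G : AddMonoidAlgebra ℂ ℤ), 0 < n → ζ ^ n = 1 →
  G * sh ℤ G = sp ζ c b P * sh ℤ (sp ζ c b P) →
  (∀ i, G.coeff i ∈ AB.Cyc n ∧ (G.coeff i ≠ 0 → 1 ≤ AB.M (G.coeff i))) →
  (G.coeff.support.card : ℝ) ≤ (∑ k ∈ P.coeff.support, |(P.coeff k : ℝ)|) ^ 2

/-- EXL. The exponents are linear functions of `b`.

Proof (Step 2 of the text). Infinitely many `b` have the same `r = card (support)`; enumerate the support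
of `G b` as `m b : Fin r → ℤ`; infinitely many have the same relations `m i - m j = m k - m l`,
`m i - m j = ⟨b, k - k'⟩` and (for `b` large there are none that are not trivial) `⟨b, k - k'⟩ = ⟨b, l - l'⟩`. `V` the
rational solution space; two non parallel `b` in it; kernel of `V → ℚ²` by the extremal argument. -/
def SpecEXL : Prop := ∀ (D : Finset (ℤ × ℤ)) (B : ℕ) (S : Set (ℤ × ℤ)), S.Infinite →
  (∀ b ∈ S, IsCoprime b.1 b.2) → ∀ G f : ℤ × ℤ → AddMonoidAlgebra ℂ ℤ,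
  (∀ b ∈ S, G b ≠ 0 ∧ G b * sh ℤ (G b) = f b * sh ℤ (f b) ∧ (G b).coeff.support.card ≤ B ∧
    ∀ i ∈ (f b).coeff.support, ∃ k ∈ D, i = ip b k) →
  ∃ b ∈ S, ∃ (N : ℕ) (m₀ : ℤ) (q : ℤ → ℤ × ℤ), 0 < N ∧
    (∀ i ∈ (G b).coeff.support, (N : ℤ) * (i - m₀) = ip b (q i)) ∧
    (∀ i ∈ (G b).coeff.support, ∀ j ∈ (G b).coeff.support, ∀ k ∈ (G b).coeff.support,
      ∀ l ∈ (G b).coeff.support, i - j = k - l → q i - q j = q k - q l) ∧
    (∀ i ∈ (G b).coeff.support, ∀ j ∈ (G b).coeff.support, ∀ k ∈ D, ∀ k' ∈ D,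
      i - j = ip b (k - k') → q i - q j = (N : ℤ) • (k - k')) ∧
    (∀ k ∈ D, ∀ k' ∈ D, ∀ l ∈ D, ∀ l' ∈ D, ip b (k - k') = ip b (l - l') → k - k' = l - l')

/-- TWO. Back to two variables.

Proof. `ζ = e(t)`, `c'_i = G_i e(-t ⟨c, q i⟩ / N)`, `𝒢 = ∑ c'_i z ^ (q i)`. Comparing coefficients
`𝒢 𝒢^♯ = Q Q^♯`, `Q = PN N P`. `Q` is prime, so `𝒢 = Q A`, `A A^♯ = 1`, `A` is a monomial (extremal
exponents), or `𝒢^♯ = Q A`. The ring homomorphism `z ^ e ↦ e(t ⟨c, e⟩ / N) T ^ ⟨b, e⟩` gives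
`G(T ^ N) = γ T ^ j f(T ^ N)` (resp. `f^♯`). -/
def SpecTWO : Prop := ∀ (P : AddMonoidAlgebra ℤ (ℤ × ℤ)) (n : ℕ) (ζ : ℂ) (c b : ℤ × ℤ)
  (G : AddMonoidAlgebra ℂ ℤ) (N : ℕ) (m₀ : ℤ) (q : ℤ → ℤ × ℤ), 0 < n → ζ ^ n = 1 → 0 < N →
  G ≠ 0 → Prime (PN N P) →
  G * sh ℤ G = sp ζ c b P * sh ℤ (sp ζ c b P) →
  (∀ i ∈ G.coeff.support, (N : ℤ) * (i - m₀) = ip b (q i)) →
  (∀ i ∈ G.coeff.support, ∀ j ∈ G.coeff.support, ∀ k ∈ G.coeff.support,
    ∀ l ∈ G.coeff.support, i - j = k - l → q i - q j = q k - q l) →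
  (∀ i ∈ G.coeff.support, ∀ j ∈ G.coeff.support, ∀ k ∈ P.coeff.support,
    ∀ k' ∈ P.coeff.support, i - j = ip b (k - k') → q i - q j = (N : ℤ) • (k - k')) →
  (∀ k ∈ P.coeff.support, ∀ k' ∈ P.coeff.support, ∀ l ∈ P.coeff.support,
    ∀ l' ∈ P.coeff.support, ip b (k - k') = ip b (l - l') → k - k' = l - l') →
  ∃ (γ : ℂ) (m : ℤ), G = AddMonoidAlgebra.single m γ * sp ζ c b P ∨
    G = AddMonoidAlgebra.single m γ * sh ℤ (sp ζ c b P)

/-! ## The curve -/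

/-- `K` is the function field of a curve over `ℚ`, generated by `x` and `y`; the group generated by
`x` and `y` is pure. -/
structure Pre (K : Type) [Field K] [Algebra ℚ K] (x y : Kˣ) : Prop where
  gen : IntermediateField.adjoin ℚ {(x : K), (y : K)} = ⊤
  fin : FiniteDimensional ℚ⟮(x : K)⟯ K
  const : ∀ z : K, IsAlgebraic ℚ z → ∃ c : ℚ, z = algebraMap ℚ K c
  pure : ∀ (a b : ℤ) (m : ℕ) (c : ℚ) (u : K), IsCoprime a b → 2 ≤ m →
    ((x ^ a * y ^ b : Kˣ) : K) ≠ algebraMap ℚ K c * u ^ m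

/-- The same without purity: `x` and `y` are multiplicatively independent modulo constants. -/
structure Ind (K : Type) [Field K] [Algebra ℚ K] (x y : Kˣ) : Prop where
  gen : IntermediateField.adjoin ℚ {(x : K), (y : K)} = ⊤
  fin : FiniteDimensional ℚ⟮(x : K)⟯ K
  const : ∀ z : K, IsAlgebraic ℚ z → ∃ c : ℚ, z = algebraMap ℚ K c
  ind : ∀ (a b : ℤ) (c : ℚ), IsCoprime a b → ((x ^ a * y ^ b : Kˣ) : K) ≠ algebraMap ℚ K c

theorem Pre.toInd {K : Type} [Field K] [Algebra ℚ K] {x y : Kˣ} (h : Pre K x y) : Ind K x y :=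
  ⟨h.gen, h.fin, h.const, fun a b c hab hc => h.pure a b 2 c 1 hab le_rfl (by
    rw [hc, one_pow, mul_one])⟩

/-- And the curve is not reciprocal. -/
structure Pair (K : Type) [Field K] [Algebra ℚ K] (x y : Kˣ) : Prop extends Pre K x y where
  asym : ¬ ∃ σ : K ≃ₐ[ℚ] K, σ x = (x : K)⁻¹ ∧ σ y = (y : K)⁻¹

/-- EQN. The equation, a prime element of the Laurent polynomials over `ℚ`; it does not vanish at
`(1 / x, 1 / y)`.

Proof. The kernel of `ℚ[ℤ²] → K` is a prime ideal of height one in a UFD (`x` is transcendental as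
`x = x ^ 1 y ^ 0` is not `c * 1 ^ 2`), generated by a primitive integral `P` (Gauss). If `P` vanished at
`(1 / x, 1 / y)` there would be an endomorphism of `K` with `x ↦ 1 / x`, `y ↦ 1 / y`, an involution.
In the form: `P ≠ 0` of least degree, every `A` that vanishes at `(x, y)` has a multiple `m A`, `m ≠ 0` integer,
divisible by `P`. -/
def SpecEQN : Prop := ∀ (K : Type) [Field K] [Algebra ℚ K] (x y : Kˣ), Ind K x y →
  ∃ P : AddMonoidAlgebra ℤ (ℤ × ℤ), P ≠ 0 ∧ evP (x : K) (y : K) P = 0 ∧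
    ((¬ ∃ σ : K ≃ₐ[ℚ] K, σ x = (x : K)⁻¹ ∧ σ y = (y : K)⁻¹) →
      evP (x : K)⁻¹ (y : K)⁻¹ P ≠ 0) ∧
    ∀ A : AddMonoidAlgebra ℤ (ℤ × ℤ), evP (x : K) (y : K) A = 0 →
      ∃ m : ℤ, m ≠ 0 ∧ P ∣ (m : AddMonoidAlgebra ℤ (ℤ × ℤ)) * A

/-- KUM. `P(z ^ N)` is prime over `ℂ`.

Proof. `Ω = AlgebraicClosure (RatFunc ℂ)`, `K → Ω` with `x ↦ X`. `d = [K : ℚ(x)] = [ℂ(x, y) : ℂ(x)]` as `ℚ`
is algebraically closed in `K`. Kummer theory over `K_ℂ = ℂ(x, y)`: no `x ^ a y ^ b`, `a, b` not both divisible by the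
prime `p`, is a `p`-th power in `K_ℂ` (descent: `u` can be chosen in `K` up to a constant, Hilbert 90, or
by the argument of CLK), so `[K_ℂ(x^{1/N}, y^{1/N}) : K_ℂ] = N ^ 2`. The kernel of `ℂ[ℤ²] → Ω`,
`z ↦ (x^{1/N}, y^{1/N})` is generated by a polynomial whose degree in `z₂` is `N d`, which is the degree
of `P(z ^ N)`. -/
def SpecKUM : Prop := ∀ (K : Type) [Field K] [Algebra ℚ K] (x y : Kˣ), Pre K x y →
  ∀ P : AddMonoidAlgebra ℤ (ℤ × ℤ), P ≠ 0 → evP (x : K) (y : K) P = 0 →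
    (∀ A : AddMonoidAlgebra ℤ (ℤ × ℤ), evP (x : K) (y : K) A = 0 →
      ∃ m : ℤ, m ≠ 0 ∧ P ∣ (m : AddMonoidAlgebra ℤ (ℤ × ℤ)) * A) →
    ∀ N : ℕ, 0 < N → Prime (PN N P)

/-- PTS. The complex point of a closed point.

Proof. The residue field of `v` is algebraic over `ℚ` (every element of the valuation ring is congruent
to ...: `K` is algebraic over `ℚ(f)` for `f` with positive order); embed it into `ℂ`. Or: the kernel of
`ℤ[ℤ²] → O_v / m_v` has algebraic quotient. -/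
def SpecPTS : Prop := ∀ (K : Type) [Field K] [Algebra ℚ K] (x y : Kˣ), Ind K x y →
  ∀ v : DVal K, GeoF ℚ v → v.ord x = 0 → v.ord y = 0 →
    ∃ ξ η : ℂ, ξ ≠ 0 ∧ η ≠ 0 ∧ IsAlgebraic ℚ ξ ∧ IsAlgebraic ℚ η ∧
      ∀ A : AddMonoidAlgebra ℤ (ℤ × ℤ), evP ξ η A = 0 ↔ Pos v (evP (x : K) (y : K) A)

/-- UNQ. All but finitely many closed points are determined by the values of `x` and `y`.

Proof. `B` the integral closure of `ℚ[x]` in `K`, `b_i` generators as a module; `c b_i ∈ ℚ[x, y]`, `c ∈ ℚ[x]`.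
If `v`, `w` have order zero at `x`, `y`, `c` and the same kernel on `ℤ[ℤ²]` then they have the same prime in
`B`; `FNVM.eq_dval`. -/
def SpecUNQ : Prop := ∀ (K : Type) [Field K] [Algebra ℚ K] (x y : Kˣ), Ind K x y →
  ∃ c : Kˣ, ∀ v w : DVal K, GeoF ℚ v → GeoF ℚ w → v.ord x = 0 → v.ord y = 0 → v.ord c = 0 →
    w.ord x = 0 → w.ord y = 0 → w.ord c = 0 →
    (∀ A : AddMonoidAlgebra ℤ (ℤ × ℤ),
      Pos v (evP (x : K) (y : K) A) ↔ Pos w (evP (x : K) (y : K) A)) → v = w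

/-- CNJ. Parameters on the coset. `det (a, b) = 1`-type data: `b = (-a₂, a₁)`, `⟨c, a⟩ = 1`.

Proof. (1) An automorphism of `ℂ` (or of the algebraic closure of `ℚ`) that maps the primitive root `ζ'` to `ζ`.
(2) `s = ξ ^ {d₁} η ^ {d₂}` with `⟨d, b⟩ = 1`, `⟨d, c⟩ = 0`: `d = (-c₂, c₁)`. If `s₁`, `s₂` have the same minimal
polynomial over `Cyc n` there is an isomorphism of the fields generated by them. -/
def SpecCNJ : Prop := ∀ (n : ℕ) (a c : ℤ × ℤ), 0 < n → ip c a = 1 → ∀ ξ η ξ' η' : ℂ,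
  ξ ≠ 0 → η ≠ 0 → ξ' ≠ 0 → η' ≠ 0 → IsAlgebraic ℚ ξ → IsAlgebraic ℚ η → IsAlgebraic ℚ ξ' →
  IsAlgebraic ℚ η' → IsPrimitiveRoot (ξ ^ a.1 * η ^ a.2) n →
  IsPrimitiveRoot (ξ' ^ a.1 * η' ^ a.2) n →
  ∃ (ζ s₁ s₂ : ℂ), IsPrimitiveRoot ζ n ∧ s₁ ≠ 0 ∧ s₂ ≠ 0 ∧
    ((∀ A : AddMonoidAlgebra ℤ (ℤ × ℤ), evP ξ η A = 0 ↔
      evP (ζ ^ c.1 * s₁ ^ (-a.2)) (ζ ^ c.2 * s₁ ^ a.1) A = 0)) ∧
    ((∀ A : AddMonoidAlgebra ℤ (ℤ × ℤ), evP ξ' η' A = 0 ↔
      evP (ζ ^ c.1 * s₂ ^ (-a.2)) (ζ ^ c.2 * s₂ ^ a.1) A = 0)) ∧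
    (minpoly (AB.Cyc n) s₁ = minpoly (AB.Cyc n) s₂ →
      ∀ A : AddMonoidAlgebra ℤ (ℤ × ℤ), evP ξ η A = 0 ↔ evP ξ' η' A = 0)

/-- PU2 (from LJU CNT EXL TWO EQN KUM PTS UNQ CNJ). For all but finitely many directions `(a, b)` and ALL
`n` there is at most one closed point outside a finite set where `x ^ a y ^ b` is a root of unity of order `n`. -/
def SpecPU2 : Prop := ∀ (K : Type) [Field K] [Algebra ℚ K] (x y : Kˣ), Pair K x y →
  ∃ (S : Set (DVal K)) (T : Set (ℤ × ℤ)), S.Finite ∧ T.Finite ∧ (∀ v ∈ S, GeoF ℚ v) ∧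
    ∀ a : ℤ × ℤ, IsCoprime a.1 a.2 → a ∉ T → ∀ n : ℕ, 0 < n → ∀ v w : DVal K,
      GeoF ℚ v → GeoF ℚ w → v ∉ S → w ∉ S →
      Pos v (aeval ((x ^ a.1 * y ^ a.2 : Kˣ) : K) (cyclotomic n ℚ)) →
      Pos w (aeval ((x ^ a.1 * y ^ a.2 : Kˣ) : K) (cyclotomic n ℚ)) → v = w

/-- The conclusion of Theorem B. -/
def FinRank (K : Type) [Field K] [Algebra ℚ K] (x y : Kˣ) : Prop :=
  ∃ (r : ℕ) (β : Fin r → K2 K),
    (∀ i, TorTameF ℚ (β i) ∧ ∃ f g : Kˣ, β i = sym f x + sym g y) ∧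
    ∀ f g : Kˣ, TorTameF ℚ (sym f x + sym g y) →
      ∃ N : ℕ, 0 < N ∧ N • (sym f x + sym g y) ∈ AddSubgroup.closure (Set.range β)

/-- AS2 (from PU2, PUQ, FNV, TRS). Steps 3 and 4 of the text (as in `CY/ASM.lean`). -/
def SpecAS2 : Prop := ∀ (K : Type) [Field K] [Algebra ℚ K] (x y : Kˣ), Pair K x y → FinRank K x y

/-! ## The reciprocal case -/

/-- LJR (from PRG, AMG). The trick for a reciprocal polynomial: `s` is a root, and `1 / conj s` (a root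
as well) has a different minimal polynomial.

Proof. Multiply `f` by a power of the variable; `g` the minimal polynomial of `s` over `Cyc n`, `f = g ^ e h`, `h s ≠ 0`.
`G = g ^ e h^♯`. If `G = γ s ^ m f` or `G = γ s ^ m f^♯ = γ' s ^ m' f` then `h^♯ = γ'' s ^ m'' h`; `1 / conj s` is a root
of `f` and not of `g`, so it is a root of `h`, `h^♯ s = 0`, `h s = 0`, contradiction. -/
def SpecLJR : Prop := ∀ (n : ℕ) (f : AddMonoidAlgebra ℂ ℤ) (s u : ℂ) (k : ℤ), 0 < n →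
  (∀ i, f.coeff i ∈ AB.Cyc n ∧ IsIntegral ℤ (f.coeff i)) → f ≠ 0 → s ≠ 0 → ev1 f s = 0 →
  sh ℤ f = AddMonoidAlgebra.single k u * f →
  minpoly (AB.Cyc n) s ≠ minpoly (AB.Cyc n) ((starRingEnd ℂ) s)⁻¹ →
  ∃ G : AddMonoidAlgebra ℂ ℤ, G * sh ℤ G = f * sh ℤ f ∧
    (∀ i, G.coeff i ∈ AB.Cyc n ∧ (G.coeff i ≠ 0 → 1 ≤ AB.M (G.coeff i))) ∧
    ∀ (γ : ℂ) (m : ℤ), G ≠ AddMonoidAlgebra.single m γ * f ∧
      G ≠ AddMonoidAlgebra.single m γ * sh ℤ f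

/-- PU3 (from LJR CNT EXL TWO EQN KUM PTS UNQ CNJ). In the reciprocal case all but finitely many of the points
where `x ^ a y ^ b` is a root of unity are invariant, `(a, b)` outside a finite set of directions. -/
def SpecPU3 : Prop := ∀ (K : Type) [Field K] [Algebra ℚ K] (x y : Kˣ) (σ : K ≃ₐ[ℚ] K),
  Pre K x y → σ x = (x : K)⁻¹ → σ y = (y : K)⁻¹ →
  ∃ (S : Set (DVal K)) (T : Set (ℤ × ℤ)), S.Finite ∧ T.Finite ∧ (∀ v ∈ S, GeoF ℚ v) ∧
    ∀ a : ℤ × ℤ, IsCoprime a.1 a.2 → a ∉ T → ∀ n : ℕ, 0 < n → ∀ v : DVal K,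
      GeoF ℚ v → v ∉ S →
      Pos v (aeval ((x ^ a.1 * y ^ a.2 : Kˣ) : K) (cyclotomic n ℚ)) →
      ∀ u w : Kˣ, (w : K) = σ u → v.ord w = v.ord u

/-- AS3 (from PU3, PUQ, FNV, PTS). The reciprocal case: the elements `β + σ β`, with torsion tame symbols, have finite
rank: `β = {f, x} + {g, y}`, `β + σ β = {f / σ f, x} + {g / σ g, y}`.

Proof. At the points outside a finite set with `x ^ a y ^ b` a root of unity `f / σ f` and `g / σ g` have order zero, as the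
point is invariant, by PU3, or, for the finitely many other directions, by PUQ. So they are `S`-units. -/
def SpecAS3 : Prop := ∀ (K : Type) [Field K] [Algebra ℚ K] (x y : Kˣ) (σ : K ≃ₐ[ℚ] K),
  Pre K x y → σ x = (x : K)⁻¹ → σ y = (y : K)⁻¹ →
  ∃ (r : ℕ) (β : Fin r → K2 K),
    (∀ i, TorTameF ℚ (β i) ∧ ∃ f g : Kˣ, β i = sym f x + sym g y) ∧
    ∀ f g : Kˣ, TorTameF ℚ (sym f x + sym g y) →
      ∃ N : ℕ, 0 < N ∧ N • ((sym f x + sym g y) +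
        ConstM.mapK (σ : K →+* K) (sym f x + sym g y)) ∈ AddSubgroup.closure (Set.range β)

end MP743d1e.RT
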